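import Pool.Agent.Work.MP_ed045b_an.Energy2

/-! Module M5: the energy argument. -/

namespace Kan

open MeasureTheory Filter Topology Set

theorem energy_bounded (α : ℂ) (hα0 : 0 < ‖α‖) (hα : ‖α‖ ≤ 1) (L : ℕ) (hL : 6 ≤ L) (z : ℂ) (K : ℝ)
    (hK : 0 ≤ K) (n₁ : ℕ) :
    ∃ Q : ℝ, ∀ m : ℕ, ∑ k ∈ Finset.range m, II (SS α L z K n₁ k) (L ^ (n₁ + k))
          (fun x => ‖Z α L z (n₁ + k) x * (1 - Z α L z (n₁ + k) x)‖ ^ 2) ≤ Q := by
  obtain ⟨M, e, σ, v, hM, hb, hv, hq⟩ := energy_step α hα L hL z K hK n₁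
  have hL' : (6 : ℝ) ≤ L := by exact_mod_cast hL
  set Φ : ℕ → ℝ := fun k => -e k + M * σ k + M * (2 * v k + 4 * σ k) + 6 / 2 ^ k with hΦ
  have hstep : ∀ k, ‖α‖ ^ 2 / 2 * II (SS α L z K n₁ k) (L ^ (n₁ + k))
          (fun x => ‖Z α L z (n₁ + k) x * (1 - Z α L z (n₁ + k) x)‖ ^ 2) ≤ Φ k - Φ (k + 1) := by
    intro k
    refine le_trans (hq k) ?_
    have h1 : v k ≤ (2 * v k + 4 * σ k) - (2 * v (k + 1) + 4 * σ (k + 1)) := by
      have := hv k
      linarith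
    have h2 : M * v k ≤ M * ((2 * v k + 4 * σ k) - (2 * v (k + 1) + 4 * σ (k + 1))) :=
      mul_le_mul_of_nonneg_left h1 hM
    have h3 : 3 / (L : ℝ) ^ (n₁ + k) ≤ 6 / 2 ^ k - 6 / 2 ^ (k + 1) := by
      have h4 : (6 : ℝ) / 2 ^ k - 6 / 2 ^ (k + 1) = 3 / 2 ^ k := by
        rw [pow_succ]; field_simp; norm_num
      rw [h4]
      apply div_le_div_of_nonneg_left (by norm_num) (by positivity)
      calc (2 : ℝ) ^ k ≤ 2 ^ (n₁ + k) := pow_le_pow_right₀ (by norm_num) (by omega)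
        _ ≤ (L : ℝ) ^ (n₁ + k) := by gcongr; linarith
    simp only [hΦ]
    linarith
  have hlow : ∀ k, -M ≤ Φ k := by
    intro k
    obtain ⟨_, h2, h3, _, h5⟩ := hb k
    simp only [hΦ]
    have : 0 ≤ M * σ k := by positivity
    have : 0 ≤ M * (2 * v k + 4 * σ k) := by positivity
    have : (0 : ℝ) ≤ 6 / 2 ^ k := by positivity
    linarith
  refine ⟨(Φ 0 + M) / (‖α‖ ^ 2 / 2), ?_⟩
  intro m
  rw [le_div_iff₀ (by positivity), mul_comm, Finset.mul_sum]
  calc ∑ k ∈ Finset.range m, ‖α‖ ^ 2 / 2 * II (SS α L z K n₁ k) (L ^ (n₁ + k))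
          (fun x => ‖Z α L z (n₁ + k) x * (1 - Z α L z (n₁ + k) x)‖ ^ 2) ≤
      ∑ k ∈ Finset.range m, (Φ k - Φ (k + 1)) := Finset.sum_le_sum fun k _ => hstep k
    _ = Φ 0 - Φ m := Finset.sum_range_sub' Φ m
    _ ≤ Φ 0 + M := by linarith [hlow m]

/-- The integrand on the good cells. -/
noncomputable def hh (α : ℂ) (L : ℕ) (z : ℂ) (K : ℝ) (n₁ k : ℕ) (x : ℝ) : ENNReal :=
  ∑ i ∈ SS α L z K n₁ k, (Ico ((i : ℝ) / ((L ^ (n₁ + k) : ℕ) : ℝ)) (((i : ℝ) + 1) / ((L ^ (n₁ + k) : ℕ) : ℝ))).indicator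
    (fun x => ENNReal.ofReal (‖Z α L z (n₁ + k) x * (1 - Z α L z (n₁ + k) x)‖ ^ 2)) x

theorem cont_psi (α : ℂ) (L : ℕ) (z : ℂ) (n : ℕ) :
    Continuous fun x : ℝ => ‖Z α L z n x * (1 - Z α L z n x)‖ ^ 2 := by
  have := continuous_Z α L z n
  fun_prop

theorem hh_meas (α : ℂ) (L : ℕ) (z : ℂ) (K : ℝ) (n₁ k : ℕ) : Measurable (hh α L z K n₁ k) := by
  unfold hh
  apply Finset.measurable_fun_sum
  intro i _
  apply Measurable.indicator _ measurableSet_Ico
  exact ENNReal.measurable_ofReal.comp (cont_psi α L z (n₁ + k)).measurable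

theorem hh_lint (α : ℂ) (L : ℕ) (z : ℂ) (K : ℝ) (n₁ k : ℕ) :
    ∫⁻ x, hh α L z K n₁ k x = ENNReal.ofReal (II (SS α L z K n₁ k) (L ^ (n₁ + k))
          (fun x => ‖Z α L z (n₁ + k) x * (1 - Z α L z (n₁ + k) x)‖ ^ 2)) := by
  have hc := cont_psi α L z (n₁ + k)
  unfold hh II
  rw [lintegral_finsetSum, ENNReal.ofReal_sum_of_nonneg]
  · apply Finset.sum_congr rfl
    intro i _
    have hab : (i : ℝ) / ((L ^ (n₁ + k) : ℕ) : ℝ) ≤ ((i : ℝ) + 1) / ((L ^ (n₁ + k) : ℕ) : ℝ) :=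
      div_le_div_of_nonneg_right (by linarith) (Nat.cast_nonneg _)
    rw [lintegral_indicator measurableSet_Ico, intervalIntegral.integral_of_le hab,
      ← integral_Ico_eq_integral_Ioc, ofReal_integral_eq_lintegral_ofReal]
    · exact (hc.integrableOn_Icc).mono_set Ico_subset_Icc_self
    · filter_upwards with x
      positivity
  · intro i _
    apply intervalIntegral.integral_nonneg
    · exact div_le_div_of_nonneg_right (by linarith) (Nat.cast_nonneg _)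
    · intro x _
      positivity
  · intro i _
    apply Measurable.indicator _ measurableSet_Ico
    exact ENNReal.measurable_ofReal.comp hc.measurable

theorem energy_unit (α : ℂ) (hα0 : 0 < ‖α‖) (hα : ‖α‖ ≤ 1) (L : ℕ) (hL : 6 ≤ L) (z : ℂ) (K : ℝ)
    (hK : 0 ≤ K) (n₁ : ℕ) : ∀ᵐ u : ℝ, 0 ≤ u → u < 1 → (∀ n ≥ n₁, Bd α L z u n 3 K) →
      Tendsto (fun n => Z α L z n u * (1 - Z α L z n u)) atTop (𝓝 0) := by
  have hL0 : 0 < L := by omega
  obtain ⟨Q, hQ⟩ := energy_bounded α hα0 hα L hL z K hK n₁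
  set q : ℕ → ℝ := fun k => II (SS α L z K n₁ k) (L ^ (n₁ + k))
          (fun x => ‖Z α L z (n₁ + k) x * (1 - Z α L z (n₁ + k) x)‖ ^ 2) with hq
  have hq0 : ∀ k, 0 ≤ q k := by
    intro k
    simp only [hq, II]
    apply Finset.sum_nonneg
    intro i _
    apply intervalIntegral.integral_nonneg
    · exact div_le_div_of_nonneg_right (by linarith) (Nat.cast_nonneg _)
    · intro x _
      positivity
  have hsum : Summable q := summable_of_sum_range_le hq0 hQ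
  have hlt : ∫⁻ x, ∑' k, hh α L z K n₁ k x ≠ ⊤ := by
    rw [lintegral_tsum (fun k => (hh_meas α L z K n₁ k).aemeasurable)]
    simp only [hh_lint]
    rw [← ENNReal.ofReal_tsum_of_nonneg hq0 hsum]
    exact ENNReal.ofReal_ne_top
  have hae := ae_lt_top (Measurable.tsum fun k => hh_meas α L z K n₁ k) hlt
  filter_upwards [hae] with u hu hu0 hu1 hBd
  have ht := ENNReal.tendsto_atTop_zero_of_tsum_ne_top hu.ne
  have hle : ∀ k, ENNReal.ofReal (‖Z α L z (n₁ + k) u * (1 - Z α L z (n₁ + k) u)‖ ^ 2) ≤ hh α L z K n₁ k u := by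
    intro k
    unfold hh
    have hi := SS_floor α L hL0 z K n₁ u hu0 hu1 hBd k
    have hp : (0 : ℝ) < ((L ^ (n₁ + k) : ℕ) : ℝ) := by
      have : 0 < L ^ (n₁ + k) := Nat.pow_pos hL0
      exact_mod_cast this
    have hcast : ((L ^ (n₁ + k) : ℕ) : ℝ) = (L : ℝ) ^ (n₁ + k) := by push_cast; ring
    refine le_trans ?_ (Finset.single_le_sum (f := fun i : ℕ => (Ico ((i : ℝ) / ((L ^ (n₁ + k) : ℕ) : ℝ)) (((i : ℝ) + 1) / ((L ^ (n₁ + k) : ℕ) : ℝ))).indicator
      (fun x => ENNReal.ofReal (‖Z α L z (n₁ + k) x * (1 - Z α L z (n₁ + k) x)‖ ^ 2)) u) (fun _ _ => zero_le) hi)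
    rw [indicator_of_mem]
    rw [mem_Ico, div_le_iff₀ hp, lt_div_iff₀ hp, hcast]
    exact ⟨Nat.floor_le (by positivity), Nat.lt_floor_add_one _⟩
  have ht2 : Tendsto (fun k => ENNReal.ofReal (‖Z α L z (n₁ + k) u * (1 - Z α L z (n₁ + k) u)‖ ^ 2)) atTop (𝓝 0) :=
    tendsto_of_tendsto_of_tendsto_of_le_of_le tendsto_const_nhds ht (fun _ => zero_le) hle
  have ht3 : Tendsto (fun k => ‖Z α L z (n₁ + k) u * (1 - Z α L z (n₁ + k) u)‖ ^ 2) atTop (𝓝 0) := by
    have h1 := (ENNReal.tendsto_toReal ENNReal.zero_ne_top).comp ht2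
    simp only [ENNReal.toReal_zero] at h1
    refine h1.congr ?_
    intro k
    simp only [Function.comp]
    rw [ENNReal.toReal_ofReal (by positivity)]
  have ht4 : Tendsto (fun k => ‖Z α L z (n₁ + k) u * (1 - Z α L z (n₁ + k) u)‖) atTop (𝓝 0) := by
    have h1 := (Real.continuous_sqrt.tendsto 0).comp ht3
    rw [Real.sqrt_zero] at h1
    refine h1.congr ?_
    intro k
    simp only [Function.comp]
    rw [Real.sqrt_sq (norm_nonneg _)]
  have ht5 : Tendsto (fun k => Z α L z (n₁ + k) u * (1 - Z α L z (n₁ + k) u)) atTop (𝓝 0) :=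
    tendsto_zero_iff_norm_tendsto_zero.mpr ht4
  have ht6 := (tendsto_add_atTop_iff_nat (f := fun n => Z α L z n u * (1 - Z α L z n u)) n₁).mp (by
    refine ht5.congr ?_
    intro k
    rw [add_comm n₁ k])
  exact ht6

theorem cs_add_nat (α : ℂ) (w : ℂ) (m : ℕ) : cs α (w + m) = cs α w := by
  unfold cs
  congr 1
  have : (2 * Real.pi * (w + m) : ℂ) = 2 * Real.pi * w + m * (2 * Real.pi) := by ring
  rw [this, Complex.cos_add_nat_mul_two_pi]

theorem Z_add_nat (α : ℂ) (L : ℕ) (z : ℂ) (n : ℕ) (w : ℂ) (m : ℕ) : Z α L z n (w + m) = Z α L z n w := by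
  induction n with
  | zero => rfl
  | succ n ih =>
    show Z α L z n (w + m) + cs α ((L : ℂ) ^ n * (w + m)) * Z α L z n (w + m) * (1 - Z α L z n (w + m)) =
      Z α L z n w + cs α ((L : ℂ) ^ n * w) * Z α L z n w * (1 - Z α L z n w)
    have : (L : ℂ) ^ n * (w + m) = (L : ℂ) ^ n * w + ((L ^ n * m : ℕ) : ℂ) := by push_cast; ring
    rw [ih, this, cs_add_nat]

theorem Bd_add_nat (α : ℂ) (L : ℕ) (z : ℂ) (x : ℝ) (n : ℕ) (r K : ℝ) (m : ℕ) :
    Bd α L z (x + m) n r K ↔ Bd α L z x n r K := by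
  constructor
  · intro h w hw
    have := h (w + m) (by push_cast; rw [add_sub_add_right_eq_sub]; exact hw)
    rwa [Z_add_nat] at this
  · intro h w hw
    have h1 := h (w - m) (by
      push_cast at hw
      have : w - m - (x : ℂ) = w - (x + m) := by ring
      rw [this]; exact hw)
    rwa [← Z_add_nat α L z n (w - m) m, sub_add_cancel] at h1

/-- A property invariant under integer translations that holds a.e. on `[0,1)` holds a.e. -/
theorem ae_of_unit (P : ℝ → Prop) (hP : ∀ (x : ℝ) (m : ℕ), P (x + m) ↔ P x)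
    (h : ∀ᵐ u : ℝ, 0 ≤ u → u < 1 → P u) : ∀ᵐ u : ℝ, P u := by
  rw [ae_iff] at h ⊢
  have hsub : {u : ℝ | ¬ P u} ⊆ ⋃ m : ℤ, (fun u : ℝ => u + m) ⁻¹' {u : ℝ | ¬ (0 ≤ u → u < 1 → P u)} := by
    intro u hu
    rw [mem_iUnion]
    refine ⟨-⌊u⌋, ?_⟩
    simp only [mem_preimage, mem_ofPred_eq] at hu ⊢
    intro hcon
    apply hu
    have h1 := hcon (by push_cast; linarith [Int.floor_le u]) (by push_cast; linarith [Int.lt_floor_add_one u])
    rcases le_total 0 ⌊u⌋ with h2 | h2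
    · obtain ⟨m, hm⟩ := Int.eq_ofNat_of_zero_le h2
      rw [hm] at h1
      push_cast at h1
      rw [← hP _ m] at h1
      have : u + -(m : ℝ) + m = u := by ring
      rwa [this] at h1
    · obtain ⟨m, hm⟩ := Int.eq_ofNat_of_zero_le (neg_nonneg.mpr h2)
      rw [hm] at h1
      push_cast at h1
      exact (hP u m).mp h1
  refine measure_mono_null hsub ?_
  rw [measure_iUnion_null_iff]
  intro m
  rw [measure_preimage_add_right]
  exact h

theorem energy : EnergySpec := by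
  intro α L hα0 hα1 hL z K
  have key : ∀ n₁ : ℕ, ∀ᵐ u : ℝ, (∀ n ≥ n₁, Bd α L z u n 3 K) →
      Tendsto (fun n => Z α L z n u * (1 - Z α L z n u)) atTop (𝓝 0) := by
    intro n₁
    apply ae_of_unit
    · intro x m
      have h1 : ∀ n, Z α L z n ((x + m : ℝ) : ℂ) = Z α L z n x := by
        intro n
        push_cast
        exact Z_add_nat α L z n x m
      simp only [h1, Bd_add_nat]
    · filter_upwards [energy_unit α hα0 hα1.le L hL z (max K 0) (le_max_right _ _) n₁] with u hu h0 h1 hB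
      apply hu h0 h1
      intro n hn w hw
      exact le_trans (hB n hn w hw) (le_max_left _ _)
  rw [← ae_all_iff] at key
  filter_upwards [key] with u hu
  rintro ⟨n₁, hn⟩
  exact hu n₁ hn

end Kan
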