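import Pool.Agent.Work.MP_ed045b_an.Specs

/-! Measure of periodic sets. -/

namespace Kan

open MeasureTheory Filter Topology Set
open scoped ENNReal

theorem per_Ioc (Q : Set ℝ) (hQ : MeasurableSet Q) (hper : ∀ x, x + 1 ∈ Q ↔ x ∈ Q) (x : ℝ) :
    volume (Q ∩ Ioc x (x + 1)) = volume (Q ∩ Ioc 0 1) := by
  have h1 := isAddFundamentalDomain_Ioc (T := 1) one_pos x
  have h2 := isAddFundamentalDomain_Ioc (T := 1) one_pos 0
  have h3 := h1.measure_set_eq h2 hQ ?_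
  · simpa using h3
  · have hnat : ∀ n : ℕ, ∀ y : ℝ, y + n ∈ Q ↔ y ∈ Q := by
      intro n
      induction n with
      | zero => intro y; simp
      | succ n ih =>
        intro y
        have : y + ((n + 1 : ℕ) : ℝ) = (y + n) + 1 := by push_cast; ring
        rw [this, hper, ih]
    have hint : ∀ n : ℤ, ∀ y : ℝ, (n : ℝ) + y ∈ Q ↔ y ∈ Q := by
      intro n y
      rcases Int.eq_nat_or_neg n with ⟨m, rfl | rfl⟩
      · rw [add_comm]; exact_mod_cast hnat m y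
      · have := hnat m (((-(m : ℤ) : ℤ) : ℝ) + y)
        rw [← this]
        have : ((-(m : ℤ) : ℤ) : ℝ) + y + m = y := by push_cast; ring
        rw [this]
    rintro ⟨g, hg⟩
    obtain ⟨k, rfl⟩ := AddSubgroup.mem_zmultiples_iff.mp hg
    ext y
    simp only [mem_preimage]
    have : ((⟨k • (1 : ℝ), hg⟩ : AddSubgroup.zmultiples (1 : ℝ)) +ᵥ y) = (k : ℝ) + y := by
      change k • (1 : ℝ) + y = k + y
      simp
    rw [this]
    exact hint k y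

theorem per_Ioc_nat (Q : Set ℝ) (hQ : MeasurableSet Q) (hper : ∀ x, x + 1 ∈ Q ↔ x ∈ Q) (x : ℝ)
    (N : ℕ) : volume (Q ∩ Ioc x (x + N)) = N * volume (Q ∩ Ioc 0 1) := by
  induction N with
  | zero => simp
  | succ N ih =>
    have h1 : Q ∩ Ioc x (x + ((N + 1 : ℕ) : ℝ)) =
        (Q ∩ Ioc x (x + N)) ∪ (Q ∩ Ioc (x + N) (x + N + 1)) := by
      rw [← inter_union_distrib_left, Ioc_union_Ioc_eq_Ioc]
      · push_cast; rw [add_assoc]
      · linarith [(Nat.cast_nonneg N : (0 : ℝ) ≤ N)]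
      · linarith
    have hdisj : Disjoint (Q ∩ Ioc x (x + N)) (Q ∩ Ioc (x + N) (x + N + 1)) := by
      rw [Set.disjoint_left]
      rintro t ⟨_, h1⟩ ⟨_, h2⟩
      exact absurd h2.1 (not_lt.mpr h1.2)
    rw [h1, measure_union hdisj (hQ.inter measurableSet_Ioc), ih, per_Ioc Q hQ hper]
    push_cast
    ring

theorem vol_affine (Q : Set ℝ) (a b : ℝ) (ha : 0 < a) :
    volume {t : ℝ | a * t + b ∈ Q} = ENNReal.ofReal a⁻¹ * volume Q := by
  have h1 : {t : ℝ | a * t + b ∈ Q} = (a * ·) ⁻¹' ((· + b) ⁻¹' Q) := rfl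
  rw [h1, Real.volume_preimage_mul_left ha.ne', measure_preimage_add_right,
    abs_of_pos (inv_pos.mpr ha)]

theorem win_bound (Q : Set ℝ) (hQ : MeasurableSet Q) (hper : ∀ x, x + 1 ∈ Q ↔ x ∈ Q)
    (a b X : ℝ) (ha : 1 ≤ a) (hX : 0 ≤ X) :
    volume {t : ℝ | t ∈ Icc (-X) X ∧ a * t + b ∈ Q} ≤
      ENNReal.ofReal (2 * X + 2) * volume (Q ∩ Ioc 0 1) := by
  have ha0 : 0 < a := by linarith
  set N : ℕ := ⌈2 * a * X + 1⌉₊ with hN
  have hN1 : 2 * a * X + 1 ≤ N := Nat.le_ceil _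
  have hN2 : (N : ℝ) ≤ 2 * a * X + 2 := by
    have := Nat.ceil_lt_add_one (show 0 ≤ 2 * a * X + 1 by positivity)
    linarith
  have h1 : {t : ℝ | t ∈ Icc (-X) X ∧ a * t + b ∈ Q} ⊆
      {t : ℝ | a * t + b ∈ Q ∩ Ioc (b - a * X - 1) (b - a * X - 1 + N)} := by
    rintro t ⟨ht, hq⟩
    refine ⟨hq, ?_, ?_⟩
    · nlinarith [ht.1]
    · nlinarith [ht.2]
  refine le_trans (measure_mono h1) ?_
  rw [vol_affine _ a b ha0, per_Ioc_nat Q hQ hper, ← mul_assoc]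
  gcongr
  have h2 : (N : ℝ≥0∞) = ENNReal.ofReal N := by simp
  rw [h2, ← ENNReal.ofReal_mul (by positivity)]
  apply ENNReal.ofReal_le_ofReal
  rw [inv_mul_le_iff₀ ha0]
  nlinarith

theorem vol_mul_nat (Q : Set ℝ) (hQ : MeasurableSet Q) (hper : ∀ x, x + 1 ∈ Q ↔ x ∈ Q)
    (N : ℕ) (hN : 0 < N) :
    volume {t : ℝ | t ∈ Ioc (0 : ℝ) 1 ∧ (N : ℝ) * t ∈ Q} = volume (Q ∩ Ioc 0 1) := by
  have hN' : (0 : ℝ) < N := by exact_mod_cast hN
  have h1 : {t : ℝ | t ∈ Ioc (0 : ℝ) 1 ∧ (N : ℝ) * t ∈ Q} =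
      {t : ℝ | (N : ℝ) * t + 0 ∈ Q ∩ Ioc 0 (0 + N)} := by
    ext t
    simp only [mem_ofPred_eq, mem_inter_iff, mem_Ioc, add_zero, zero_add]
    constructor
    · rintro ⟨⟨h1, h2⟩, h3⟩
      exact ⟨h3, by positivity, by nlinarith⟩
    · rintro ⟨h1, h2, h3⟩
      refine ⟨⟨?_, ?_⟩, h1⟩
      · by_contra h
        push Not at h
        nlinarith
      · by_contra h
        push Not at h
        nlinarith
  rw [h1, vol_affine _ _ _ hN', per_Ioc_nat Q hQ hper, ← mul_assoc]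
  have h2 : (N : ℝ≥0∞) = ENNReal.ofReal N := by simp
  rw [h2, ← ENNReal.ofReal_mul (by positivity), inv_mul_cancel₀ hN'.ne']
  simp

end Kan
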