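import Pool.Agent.Work.MP_ed045b_an.Growth
import Pool.Agent.Work.MP_ed045b_an.Periodic

/-! Escape to infinity. -/

namespace Kan

open MeasureTheory Filter Topology Set
open scoped ENNReal

/-- small cosine -/
def Qs (η : ℝ) : Set ℝ := {v : ℝ | |Real.cos (2 * Real.pi * v)| < η}

theorem Qs_meas (η : ℝ) : MeasurableSet (Qs η) := by
  apply measurableSet_lt _ measurable_const
  fun_prop

theorem Qs_per (η : ℝ) (x : ℝ) : x + 1 ∈ Qs η ↔ x ∈ Qs η := by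
  unfold Qs
  have : Real.cos (2 * Real.pi * (x + 1)) = Real.cos (2 * Real.pi * x) := by
    rw [mul_add, mul_one, Real.cos_add_two_pi]
  simp only [mem_ofPred_eq, this]

theorem cos_lower (v : ℝ) (h0 : 0 ≤ v) (h1 : v ≤ 1 / 2) :
    4 * |v - 1 / 4| ≤ |Real.cos (2 * Real.pi * v)| := by
  have hpi := Real.pi_pos
  have h2 : Real.cos (2 * Real.pi * v) = Real.sin (2 * Real.pi * (1 / 4 - v)) := by
    rw [← Real.sin_pi_div_two_sub]
    congr 1
    ring
  rw [h2]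
  rcases le_total v (1 / 4) with h | h
  · have h3 := Real.mul_le_sin (x := 2 * Real.pi * (1 / 4 - v)) (by
      apply mul_nonneg (by positivity); linarith) (by nlinarith)
    rw [abs_of_nonpos (by linarith)]
    refine le_trans ?_ (le_abs_self _)
    refine le_trans (le_of_eq ?_) h3
    field_simp
    ring
  · have h3 := Real.mul_le_sin (x := 2 * Real.pi * (v - 1 / 4)) (by
      apply mul_nonneg (by positivity); linarith) (by nlinarith)
    have h4 : Real.sin (2 * Real.pi * (1 / 4 - v)) = - Real.sin (2 * Real.pi * (v - 1 / 4)) := by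
      rw [← Real.sin_neg]; congr 1; ring
    rw [h4, abs_neg, abs_of_nonneg (by linarith)]
    refine le_trans ?_ (le_abs_self _)
    refine le_trans (le_of_eq ?_) h3
    field_simp
    ring

theorem Qs_vol (η : ℝ) (hη : 0 ≤ η) : volume (Qs η ∩ Ioc 0 1) ≤ ENNReal.ofReal η := by
  have hsub : Qs η ∩ Ioc 0 1 ⊆ Ioo (1 / 4 - η / 4) (1 / 4 + η / 4) ∪ Ioo (3 / 4 - η / 4) (3 / 4 + η / 4) := by
    rintro v ⟨hv, h0, h1⟩
    have hv' : |Real.cos (2 * Real.pi * v)| < η := hv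
    rcases le_or_gt v (1 / 2) with h | h
    · left
      have h2 := cos_lower v h0.le h
      have h3 : |v - 1 / 4| < η / 4 := by linarith
      rw [abs_lt] at h3
      constructor <;> linarith [h3.1, h3.2]
    · right
      have h2 := cos_lower (v - 1 / 2) (by linarith) (by linarith)
      have h4 : Real.cos (2 * Real.pi * (v - 1 / 2)) = - Real.cos (2 * Real.pi * v) := by
        have : 2 * Real.pi * (v - 1 / 2) = 2 * Real.pi * v - Real.pi := by ring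
        rw [this, Real.cos_sub_pi]
      rw [h4, abs_neg] at h2
      have h3 : |v - 1 / 2 - 1 / 4| < η / 4 := by linarith
      rw [abs_lt] at h3
      constructor <;> linarith [h3.1, h3.2]
  refine le_trans (measure_mono hsub) (le_trans (measure_union_le _ _) ?_)
  rw [Real.volume_Ioo, Real.volume_Ioo, ← ENNReal.ofReal_add (by linarith) (by linarith)]
  apply ENNReal.ofReal_le_ofReal
  linarith

theorem norm_cs_real (α : ℂ) (v : ℝ) : ‖cs α v‖ = ‖α‖ * |Real.cos (2 * Real.pi * v)| := by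
  unfold cs
  rw [norm_mul]
  congr 1
  have : Complex.cos (2 * Real.pi * (v : ℂ)) = ((Real.cos (2 * Real.pi * v) : ℝ) : ℂ) := by
    push_cast; rfl
  rw [this, Complex.norm_real, Real.norm_eq_abs]

/-- bad set of base points -/
def VR (α : ℂ) (L : ℕ) (R : ℝ) : Set ℝ :=
  {v : ℝ | ∃ j : ℕ, ‖cs α (((L : ℝ) ^ j * v : ℝ) : ℂ)‖ < 4 / (2 ^ j * R)}

theorem VR_eq (α : ℂ) (hα : 0 < ‖α‖) (L : ℕ) (R : ℝ) :
    VR α L R = ⋃ j : ℕ, {v : ℝ | (L : ℝ) ^ j * v ∈ Qs (4 / (2 ^ j * R) / ‖α‖)} := by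
  ext v
  simp only [VR, mem_ofPred_eq, mem_iUnion, Qs, norm_cs_real]
  constructor
  · rintro ⟨j, hj⟩
    refine ⟨j, ?_⟩
    rw [lt_div_iff₀ hα]; linarith
  · rintro ⟨j, hj⟩
    refine ⟨j, ?_⟩
    rw [lt_div_iff₀ hα] at hj; linarith

theorem VR_meas (α : ℂ) (hα : 0 < ‖α‖) (L : ℕ) (R : ℝ) : MeasurableSet (VR α L R) := by
  rw [VR_eq α hα]
  apply MeasurableSet.iUnion
  intro j
  exact (Qs_meas _).preimage (by fun_prop)

theorem Qs_per_nat (η : ℝ) (n : ℕ) (x : ℝ) : x + n ∈ Qs η ↔ x ∈ Qs η := by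
  induction n with
  | zero => simp
  | succ n ih =>
    have : x + ((n + 1 : ℕ) : ℝ) = (x + n) + 1 := by push_cast; ring
    rw [this, Qs_per, ih]

theorem VR_per (α : ℂ) (hα : 0 < ‖α‖) (L : ℕ) (R : ℝ) (x : ℝ) : x + 1 ∈ VR α L R ↔ x ∈ VR α L R := by
  rw [VR_eq α hα]
  simp only [mem_iUnion, mem_ofPred_eq]
  have : ∀ j : ℕ, (L : ℝ) ^ j * (x + 1) = (L : ℝ) ^ j * x + ((L ^ j : ℕ) : ℝ) := by
    intro j; push_cast; ring
  simp only [this, Qs_per_nat]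

theorem VR_window (α : ℂ) (hα : 0 < ‖α‖) (L : ℕ) (hL : 1 ≤ L) (R : ℝ) (hR : 0 < R) (a b X : ℝ) (ha : 1 ≤ a)
    (hX : 0 ≤ X) :
    volume {t : ℝ | t ∈ Icc (-X) X ∧ a * t + b ∈ VR α L R} ≤
      ENNReal.ofReal ((2 * X + 2) * (8 / (R * ‖α‖))) := by
  have hL' : (1 : ℝ) ≤ L := by exact_mod_cast hL
  have h1 : {t : ℝ | t ∈ Icc (-X) X ∧ a * t + b ∈ VR α L R} =
      ⋃ j : ℕ, {t : ℝ | t ∈ Icc (-X) X ∧ ((L : ℝ) ^ j * a) * t + (L : ℝ) ^ j * b ∈ Qs (4 / (2 ^ j * R) / ‖α‖)} := by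
    ext t
    rw [VR_eq α hα]
    simp only [mem_iUnion, mem_ofPred_eq]
    have : ∀ j : ℕ, (L : ℝ) ^ j * (a * t + b) = ((L : ℝ) ^ j * a) * t + (L : ℝ) ^ j * b := by
      intro j; ring
    simp only [this]
    constructor
    · rintro ⟨h1, j, h2⟩; exact ⟨j, h1, h2⟩
    · rintro ⟨j, h1, h2⟩; exact ⟨h1, j, h2⟩
  rw [h1]
  refine le_trans (measure_iUnion_le _) ?_
  have h2 : ∀ j : ℕ, volume {t : ℝ | t ∈ Icc (-X) X ∧ ((L : ℝ) ^ j * a) * t + (L : ℝ) ^ j * b ∈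
      Qs (4 / (2 ^ j * R) / ‖α‖)} ≤ ENNReal.ofReal ((2 * X + 2) * (4 / (R * ‖α‖)) * (1 / 2) ^ j) := by
    intro j
    have hLj : (1 : ℝ) ≤ (L : ℝ) ^ j := one_le_pow₀ hL'
    refine le_trans (win_bound _ (Qs_meas _) (Qs_per _) _ _ X (by nlinarith) hX) ?_
    refine le_trans (mul_le_mul_of_nonneg_left (Qs_vol _ (by positivity)) (by positivity)) ?_
    rw [← ENNReal.ofReal_mul (by positivity)]
    apply ENNReal.ofReal_le_ofReal
    apply le_of_eq
    rw [one_div, inv_pow]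
    field_simp
  refine le_trans (ENNReal.tsum_le_tsum h2) ?_
  have hsum : HasSum (fun j : ℕ => (2 * X + 2) * (4 / (R * ‖α‖)) * (1 / 2 : ℝ) ^ j)
      ((2 * X + 2) * (4 / (R * ‖α‖)) * 2) := by
    exact hasSum_geometric_two.mul_left _
  rw [← ENNReal.ofReal_tsum_of_nonneg (fun j => by positivity) hsum.summable, hsum.tsum_eq]
  apply ENNReal.ofReal_le_ofReal
  apply le_of_eq
  field_simp
  ring

theorem Z_succ (α : ℂ) (L : ℕ) (z : ℂ) (n : ℕ) (w : ℂ) :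
    Z α L z (n + 1) w = Z α L z n w * (1 + cs α ((L : ℂ) ^ n * w) * (1 - Z α L z n w)) := by
  change Z α L z n w + cs α ((L : ℂ) ^ n * w) * Z α L z n w * (1 - Z α L z n w) = _
  ring

theorem escape_growth (α : ℂ) (hα1 : ‖α‖ < 1) (L : ℕ) (z : ℂ) (R : ℝ) (hR : 1 ≤ R) (u : ℝ) (n : ℕ)
    (hn : R ≤ ‖Z α L z n u‖) (hv : (L : ℝ) ^ n * u ∉ VR α L R) (j : ℕ) :
    2 ^ j * R ≤ ‖Z α L z (n + j) u‖ := by
  induction j with
  | zero => simpa using hn
  | succ j ih =>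
    have h1 : Z α L z (n + (j + 1)) u = Z α L z (n + j + 1) u := rfl
    rw [h1, Z_succ]
    set Y := Z α L z (n + j) u with hY
    set c := cs α ((L : ℂ) ^ (n + j) * u) with hc
    have hc1 : ‖c‖ ≤ ‖α‖ := by
      have : ((L : ℂ) ^ (n + j) * u) = (((L : ℝ) ^ (n + j) * u : ℝ) : ℂ) := by push_cast; ring
      rw [hc, this]
      exact norm_cs_real_le α _
    have hc2 : 4 / (2 ^ j * R) ≤ ‖c‖ := by
      have h2 : ¬ ∃ j : ℕ, ‖cs α (((L : ℝ) ^ j * ((L : ℝ) ^ n * u) : ℝ) : ℂ)‖ < 4 / (2 ^ j * R) := hv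
      push Not at h2
      have h3 := h2 j
      have : (((L : ℝ) ^ j * ((L : ℝ) ^ n * u) : ℝ) : ℂ) = ((L : ℂ) ^ (n + j) * u) := by
        push_cast; rw [pow_add]; ring
      rw [this] at h3
      exact h3
    have hRpos : 0 < R := by linarith
    have h4 : 4 ≤ ‖c‖ * ‖Y‖ := by
      calc (4 : ℝ) = 4 / (2 ^ j * R) * (2 ^ j * R) := by field_simp
        _ ≤ ‖c‖ * ‖Y‖ := by gcongr
    have h5 : 2 ≤ ‖1 + c * (1 - Y)‖ := by
      have h6 : ‖c * Y‖ ≤ ‖1 + c * (1 - Y)‖ + ‖1 + c‖ := by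
        have : c * Y = (1 + c) - (1 + c * (1 - Y)) := by ring
        rw [this]
        refine le_trans (norm_sub_le _ _) ?_
        linarith
      have h7 : ‖1 + c‖ ≤ 2 := by
        refine le_trans (norm_add_le _ _) ?_
        rw [norm_one]; linarith
      rw [norm_mul] at h6
      linarith
    rw [norm_mul, pow_succ]
    calc (2 : ℝ) ^ j * 2 * R = (2 ^ j * R) * 2 := by ring
      _ ≤ ‖Y‖ * ‖1 + c * (1 - Y)‖ := by gcongr

theorem escape_tendsto (α : ℂ) (hα1 : ‖α‖ < 1) (L : ℕ) (z : ℂ) (R : ℝ) (hR : 1 ≤ R) (u : ℝ) (n : ℕ)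
    (hn : R ≤ ‖Z α L z n u‖) (hv : (L : ℝ) ^ n * u ∉ VR α L R) :
    Tendsto (fun m => ‖Z α L z m u‖) atTop atTop := by
  have h1 : Tendsto (fun j : ℕ => (2 : ℝ) ^ j * R) atTop atTop := by
    apply Tendsto.atTop_mul_const (by linarith)
    exact tendsto_pow_atTop_atTop_of_one_lt (by norm_num)
  have h2 : Tendsto (fun j : ℕ => ‖Z α L z (n + j) u‖) atTop atTop :=
    tendsto_atTop_mono (fun j => escape_growth α hα1 L z R hR u n hn hv j) h1
  refine (tendsto_add_atTop_iff_nat (f := fun m => ‖Z α L z m u‖) n).mp ?_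
  refine h2.congr (fun j => ?_)
  rw [add_comm]

end Kan
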