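import Pool.Agent.Work.MP_ed045b_an.Specs

/-!
Module M6: law of large numbers along `L^j u`.
-/

namespace Kan

open MeasureTheory Filter Topology Set

/-- Correlation with a Lipschitz function. -/
lemma lln_corr (f g : ℝ → ℝ) (K M : ℝ) (hfc : Continuous f) (hgc : Continuous g)
    (hper : ∀ x, f (x + 1) = f x)
    (hM : ∀ x, |f x| ≤ M) (hK : 0 ≤ K) (hg : ∀ x y, |g x - g y| ≤ K * |x - y|)
    (hmean : ∫ t in (0 : ℝ)..1, f t = 0) (N : ℕ) (hN : 0 < N) (a : ℤ) :
    |∫ u in (a : ℝ)..(a + 1), g u * f (N * u)| ≤ K * M / N := by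
  have hN' : (0 : ℝ) < N := by exact_mod_cast hN
  have hM0 : 0 ≤ M := (abs_nonneg _).trans (hM 0)
  have hP : Function.Periodic f 1 := hper
  have hfi : ∀ p q : ℝ, IntervalIntegrable (fun u => g u * f (N * u)) volume p q := by
    intro p q
    apply Continuous.intervalIntegrable
    fun_prop
  have hsum : ∫ u in (a : ℝ)..(a + 1), g u * f (N * u) =
      ∑ m ∈ Finset.range N, ∫ u in ((a : ℝ) + m / N)..((a : ℝ) + (m + 1 : ℕ) / N),
        g u * f (N * u) := by
    rw [intervalIntegral.sum_integral_adjacent_intervals (f := fun u => g u * f (N * u))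
      (a := fun m : ℕ => (a : ℝ) + m / N) (fun k _ => hfi _ _)]
    congr 1
    · simp
    · field_simp
  have hpiece : ∀ m : ℕ, |∫ u in ((a : ℝ) + m / N)..((a : ℝ) + (m + 1 : ℕ) / N),
        g u * f (N * u)| ≤ K * M / N * (1 / N) := by
    intro m
    set p : ℝ := (a : ℝ) + m / N with hp
    set q : ℝ := (a : ℝ) + (m + 1 : ℕ) / N with hq
    have hpq : q - p = 1 / N := by
      rw [hp, hq]
      push_cast
      field_simp
      ring
    have hpq' : p ≤ q := by
      have : 0 ≤ q - p := by rw [hpq]; positivity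
      linarith
    have h0 : ∫ u in p..q, f (N * u) = 0 := by
      rw [intervalIntegral.integral_comp_mul_left (fun x => f x) hN'.ne']
      have : (N : ℝ) * q = N * p + 1 := by
        have : (N : ℝ) * (q - p) = 1 := by rw [hpq]; field_simp
        linarith
      rw [this, hP.intervalIntegral_add_eq (N * p) 0]
      simp [hmean]
    have h1 : ∫ u in p..q, g u * f (N * u) = ∫ u in p..q, (g u - g p) * f (N * u) := by
      have h2 : ∫ u in p..q, (g u - g p) * f (N * u) =
          (∫ u in p..q, g u * f (N * u)) - ∫ u in p..q, g p * f (N * u) := by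
        rw [← intervalIntegral.integral_sub]
        · congr 1
          ext u
          ring
        · exact hfi _ _
        · apply Continuous.intervalIntegrable
          fun_prop
      rw [h2, intervalIntegral.integral_const_mul, h0]
      simp
    rw [h1]
    have h3 : ‖∫ u in p..q, (g u - g p) * f (N * u)‖ ≤ (K * (1 / N) * M) * |q - p| := by
      apply intervalIntegral.norm_integral_le_of_norm_le_const
      intro x hx
      rw [uIoc_of_le hpq'] at hx
      rw [Real.norm_eq_abs, abs_mul]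
      have h4 : |g x - g p| ≤ K * (1 / N) := by
        refine (hg x p).trans ?_
        apply mul_le_mul_of_nonneg_left _ hK
        rw [abs_of_nonneg (by linarith [hx.1]), ← hpq]
        linarith [hx.2]
      exact mul_le_mul h4 (hM _) (abs_nonneg _) (by positivity)
    have h5 : |q - p| = 1 / N := by
      rw [hpq]
      exact abs_of_nonneg (by positivity)
    rw [Real.norm_eq_abs, h5] at h3
    refine h3.trans (le_of_eq ?_)
    field_simp
  rw [hsum]
  refine (Finset.abs_sum_le_sum_abs _ _).trans ?_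
  refine (Finset.sum_le_sum fun m _ => hpiece m).trans ?_
  rw [Finset.sum_const, Finset.card_range, nsmul_eq_mul]
  apply le_of_eq
  field_simp

/-- The lacunary sum. -/
noncomputable def llnS (f : ℝ → ℝ) (L n : ℕ) (u : ℝ) : ℝ :=
  ∑ j ∈ Finset.range n, f ((L : ℝ) ^ j * u)

lemma llnS_lip (f : ℝ → ℝ) (K : ℝ) (hf : ∀ x y, |f x - f y| ≤ K * |x - y|) (hK : 0 ≤ K) (L : ℕ)
    (hL : 2 ≤ L) (n : ℕ) (x y : ℝ) :
    |llnS f L n x - llnS f L n y| ≤ K * (L : ℝ) ^ n * |x - y| := by
  have hL' : (2 : ℝ) ≤ L := by exact_mod_cast hL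
  induction n with
  | zero =>
    simp only [llnS, Finset.range_zero, Finset.sum_empty, sub_zero, abs_zero]
    positivity
  | succ n ih =>
    have h1 : llnS f L (n + 1) x - llnS f L (n + 1) y =
        (llnS f L n x - llnS f L n y) + (f ((L : ℝ) ^ n * x) - f ((L : ℝ) ^ n * y)) := by
      simp only [llnS, Finset.sum_range_succ]
      ring
    rw [h1]
    refine (abs_add_le _ _).trans ?_
    have h2 : |f ((L : ℝ) ^ n * x) - f ((L : ℝ) ^ n * y)| ≤ K * (L : ℝ) ^ n * |x - y| := by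
      refine (hf _ _).trans ?_
      rw [← mul_sub, abs_mul, abs_of_nonneg (by positivity : (0 : ℝ) ≤ (L : ℝ) ^ n)]
      apply le_of_eq
      ring
    have h3 : K * (L : ℝ) ^ n * |x - y| + K * (L : ℝ) ^ n * |x - y| ≤
        K * (L : ℝ) ^ (n + 1) * |x - y| := by
      rw [pow_succ]
      have h5 : 0 ≤ K * (L : ℝ) ^ n * |x - y| := by positivity
      nlinarith
    linarith

lemma llnS_continuous (f : ℝ → ℝ) (hf : Continuous f) (L n : ℕ) : Continuous (llnS f L n) := by
  unfold llnS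
  fun_prop

lemma lln_var (f : ℝ → ℝ) (K M : ℝ) (hfc : Continuous f) (hper : ∀ x, f (x + 1) = f x)
    (hM : ∀ x, |f x| ≤ M) (hK : 0 ≤ K) (hf : ∀ x y, |f x - f y| ≤ K * |x - y|)
    (hmean : ∫ t in (0 : ℝ)..1, f t = 0) (L : ℕ) (hL : 2 ≤ L) (a : ℤ) (n : ℕ) :
    ∫ u in (a : ℝ)..(a + 1), llnS f L n u ^ 2 ≤ n * (2 * (K * M) + M ^ 2) := by
  have hM0 : 0 ≤ M := (abs_nonneg _).trans (hM 0)
  induction n with
  | zero => simp [llnS]
  | succ n ih =>
    have hc := llnS_continuous f hfc L n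
    have h1 : ∫ u in (a : ℝ)..(a + 1), llnS f L (n + 1) u ^ 2 =
        (∫ u in (a : ℝ)..(a + 1), llnS f L n u ^ 2) +
        2 * (∫ u in (a : ℝ)..(a + 1), llnS f L n u * f ((L ^ n : ℕ) * u)) +
        ∫ u in (a : ℝ)..(a + 1), f ((L ^ n : ℕ) * u) ^ 2 := by
      rw [← intervalIntegral.integral_const_mul, ← intervalIntegral.integral_add,
        ← intervalIntegral.integral_add]
      · congr 1
        ext u
        simp only [llnS, Finset.sum_range_succ]
        push_cast
        ring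
      · apply Continuous.intervalIntegrable
        fun_prop
      · apply Continuous.intervalIntegrable
        fun_prop
      · apply Continuous.intervalIntegrable
        fun_prop
      · apply Continuous.intervalIntegrable
        fun_prop
    have h2 := lln_corr f (llnS f L n) (K * (L : ℝ) ^ n) M hfc hc hper hM (by positivity)
      (llnS_lip f K hf hK L hL n) hmean (L ^ n) (by positivity) a
    have h3 : K * (L : ℝ) ^ n * M / ((L ^ n : ℕ) : ℝ) = K * M := by
      have : (L : ℝ) ≠ 0 := by positivity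
      push_cast
      field_simp
    rw [h3] at h2
    have h4 : ∫ u in (a : ℝ)..(a + 1), f ((L ^ n : ℕ) * u) ^ 2 ≤ M ^ 2 := by
      have h5 : ‖∫ u in (a : ℝ)..(a + 1), f ((L ^ n : ℕ) * u) ^ 2‖ ≤ M ^ 2 * |(a : ℝ) + 1 - a| := by
        apply intervalIntegral.norm_integral_le_of_norm_le_const
        intro x _
        rw [Real.norm_eq_abs, abs_pow]
        exact pow_le_pow_left₀ (abs_nonneg _) (hM _) 2
      have h6 : |(a : ℝ) + 1 - a| = 1 := by
        rw [add_sub_cancel_left]
        exact abs_one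
      rw [h6, mul_one] at h5
      exact (le_abs_self _).trans h5
    rw [h1]
    have h7 := (abs_le.mp h2).2
    push_cast at *
    nlinarith

/-- The squared averages along squares are summable in mean, hence tend to zero a.e. -/
lemma lln_squares (f : ℝ → ℝ) (K M : ℝ) (hfc : Continuous f) (hper : ∀ x, f (x + 1) = f x)
    (hM : ∀ x, |f x| ≤ M) (hK : 0 ≤ K) (hf : ∀ x y, |f x - f y| ≤ K * |x - y|)
    (hmean : ∫ t in (0 : ℝ)..1, f t = 0) (L : ℕ) (hL : 2 ≤ L) (a : ℤ) :
    ∀ᵐ u ∂(volume.restrict (Ioc (a : ℝ) (a + 1))),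
      Tendsto (fun m : ℕ => llnS f L (m ^ 2) u / (m : ℝ) ^ 2) atTop (𝓝 0) := by
  have hM0 : 0 ≤ M := (abs_nonneg _).trans (hM 0)
  set C : ℝ := 2 * (K * M) + M ^ 2 with hC
  have hC0 : 0 ≤ C := by positivity
  set h : ℕ → ℝ → ENNReal := fun m u => ENNReal.ofReal ((llnS f L (m ^ 2) u / (m : ℝ) ^ 2) ^ 2)
    with hh
  have hcont : ∀ m, Continuous (fun u => (llnS f L (m ^ 2) u / (m : ℝ) ^ 2) ^ 2) := by
    intro m
    have := llnS_continuous f hfc L (m ^ 2)
    fun_prop
  have hbound : ∀ m : ℕ, ∫⁻ u in Ioc (a : ℝ) (a + 1), h m u ≤ ENNReal.ofReal (C * (1 / (m : ℝ) ^ 2)) := by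
    intro m
    rw [← ofReal_integral_eq_lintegral_ofReal]
    · apply ENNReal.ofReal_le_ofReal
      rw [← intervalIntegral.integral_of_le (by linarith)]
      have h1 : ∫ u in (a : ℝ)..(a + 1), (llnS f L (m ^ 2) u / (m : ℝ) ^ 2) ^ 2 =
          (1 / (m : ℝ) ^ 4) * ∫ u in (a : ℝ)..(a + 1), llnS f L (m ^ 2) u ^ 2 := by
        rw [← intervalIntegral.integral_const_mul]
        congr 1
        ext u
        rw [div_pow]
        ring
      rw [h1]
      have h2 := lln_var f K M hfc hper hM hK hf hmean L hL a (m ^ 2)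
      rcases Nat.eq_zero_or_pos m with hm | hm
      · subst hm
        simp
      · have hm' : (0 : ℝ) < m := by exact_mod_cast hm
        calc (1 / (m : ℝ) ^ 4) * ∫ u in (a : ℝ)..(a + 1), llnS f L (m ^ 2) u ^ 2
            ≤ (1 / (m : ℝ) ^ 4) * (((m ^ 2 : ℕ) : ℝ) * C) := by
              apply mul_le_mul_of_nonneg_left h2 (by positivity)
          _ = C * (1 / (m : ℝ) ^ 2) := by
              push_cast
              field_simp
    · exact ((hcont m).integrableOn_Icc (a := (a : ℝ)) (b := a + 1)).mono_set Ioc_subset_Icc_self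
    · exact Filter.Eventually.of_forall fun u => by positivity
  have hsum : ∫⁻ u in Ioc (a : ℝ) (a + 1), ∑' m, h m u ≠ ⊤ := by
    rw [lintegral_tsum (fun m => ((hcont m).measurable.ennreal_ofReal).aemeasurable)]
    have h3 : ∑' m : ℕ, ∫⁻ u in Ioc (a : ℝ) (a + 1), h m u ≤
        ∑' m : ℕ, ENNReal.ofReal (C * (1 / (m : ℝ) ^ 2)) := ENNReal.tsum_le_tsum hbound
    have h4 : Summable (fun m : ℕ => C * (1 / (m : ℝ) ^ 2)) :=
      (Real.summable_one_div_nat_pow.mpr (by norm_num)).mul_left C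
    have h5 : ∑' m : ℕ, ENNReal.ofReal (C * (1 / (m : ℝ) ^ 2)) ≠ ⊤ := by
      rw [← ENNReal.ofReal_tsum_of_nonneg (fun m => by positivity) h4]
      exact ENNReal.ofReal_ne_top
    exact ne_top_of_le_ne_top h5 h3
  have hae : ∀ᵐ u ∂(volume.restrict (Ioc (a : ℝ) (a + 1))), ∑' m, h m u < ⊤ := by
    apply ae_lt_top' _ hsum
    exact (Measurable.tsum fun m => (hcont m).measurable.ennreal_ofReal).aemeasurable
  filter_upwards [hae] with u hu
  have h6 : Tendsto (fun m => h m u) atTop (𝓝 0) :=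
    ENNReal.tendsto_atTop_zero_of_tsum_ne_top hu.ne
  have h7 : Tendsto (fun m : ℕ => (llnS f L (m ^ 2) u / (m : ℝ) ^ 2) ^ 2) atTop (𝓝 0) := by
    have h8 := (ENNReal.tendsto_toReal ENNReal.zero_ne_top).comp h6
    simp only [ENNReal.toReal_zero] at h8
    refine h8.congr fun m => ?_
    simp only [hh, Function.comp_apply]
    exact ENNReal.toReal_ofReal (by positivity)
  have h9 := (Real.continuous_sqrt.tendsto 0).comp h7
  rw [Real.sqrt_zero] at h9
  rw [tendsto_zero_iff_abs_tendsto_zero]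
  refine h9.congr fun m => ?_
  simp only [Function.comp_apply]
  rw [Real.sqrt_sq_eq_abs]

lemma llnS_abs_sub (f : ℝ → ℝ) (M : ℝ) (hM : ∀ x, |f x| ≤ M) (L : ℕ) (m n : ℕ) (h : m ≤ n)
    (u : ℝ) : |llnS f L n u| ≤ |llnS f L m u| + (n - m) * M := by
  obtain ⟨k, rfl⟩ := Nat.exists_eq_add_of_le h
  induction k with
  | zero => simp
  | succ k ih =>
    have h1 : llnS f L (m + (k + 1)) u = llnS f L (m + k) u + f ((L : ℝ) ^ (m + k) * u) := by
      rw [← add_assoc]
      simp only [llnS, Finset.sum_range_succ]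
    rw [h1]
    refine (abs_add_le _ _).trans ?_
    have h2 := ih (by omega)
    have h3 := hM ((L : ℝ) ^ (m + k) * u)
    push_cast at *
    linarith

lemma lln_general (f : ℝ → ℝ) (K M : ℝ) (hfc : Continuous f) (hper : ∀ x, f (x + 1) = f x)
    (hM : ∀ x, |f x| ≤ M) (hK : 0 ≤ K) (hf : ∀ x y, |f x - f y| ≤ K * |x - y|)
    (hmean : ∫ t in (0 : ℝ)..1, f t = 0) (L : ℕ) (hL : 2 ≤ L) :
    ∀ᵐ u : ℝ, Tendsto (fun n : ℕ => llnS f L n u / n) atTop (𝓝 0) := by
  have hM0 : 0 ≤ M := (abs_nonneg _).trans (hM 0)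
  have hcov : (⋃ a : ℤ, Ioc (a : ℝ) (a + 1)) = univ := iUnion_Ioc_intCast ℝ
  have h1 : ∀ᵐ u : ℝ, Tendsto (fun m : ℕ => llnS f L (m ^ 2) u / (m : ℝ) ^ 2) atTop (𝓝 0) := by
    have h2 : ∀ᵐ u ∂(volume.restrict (⋃ a : ℤ, Ioc (a : ℝ) (a + 1))),
        Tendsto (fun m : ℕ => llnS f L (m ^ 2) u / (m : ℝ) ^ 2) atTop (𝓝 0) := by
      rw [ae_restrict_iUnion_iff]
      intro a
      exact lln_squares f K M hfc hper hM hK hf hmean L hL a
    rwa [hcov, Measure.restrict_univ] at h2
  filter_upwards [h1] with u hu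
  have hsq : Tendsto (fun n : ℕ => Nat.sqrt n) atTop atTop := by
    apply tendsto_atTop_atTop.mpr
    intro b
    exact ⟨b ^ 2, fun n hn => Nat.le_sqrt'.mpr hn⟩
  have h3 : Tendsto (fun n : ℕ => |llnS f L ((Nat.sqrt n) ^ 2) u / ((Nat.sqrt n : ℕ) : ℝ) ^ 2| +
      2 * M / ((Nat.sqrt n : ℕ) : ℝ)) atTop (𝓝 0) := by
    have h4 : Tendsto (fun m : ℕ => |llnS f L (m ^ 2) u / (m : ℝ) ^ 2| + 2 * M / (m : ℝ)) atTop
        (𝓝 0) := by
      have h5 := (tendsto_zero_iff_abs_tendsto_zero _).mp hu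
      have h6 := tendsto_const_div_atTop_nhds_zero_nat (2 * M)
      have h7 := h5.add h6
      rw [add_zero] at h7
      exact h7
    exact h4.comp hsq
  rw [tendsto_zero_iff_abs_tendsto_zero]
  refine squeeze_zero' (Eventually.of_forall fun n => abs_nonneg _) ?_ h3
  filter_upwards [eventually_ge_atTop 1] with n hn
  simp only [Function.comp_apply]
  set m := Nat.sqrt n with hm
  have hm1 : 1 ≤ m := Nat.le_sqrt'.mpr (by simpa using hn)
  have hmn : m ^ 2 ≤ n := Nat.sqrt_le' n
  have hmn2 : n < (m + 1) ^ 2 := Nat.lt_succ_sqrt' n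
  have hm' : (0 : ℝ) < m := by exact_mod_cast hm1
  have hn' : (0 : ℝ) < n := by exact_mod_cast hn
  have hmn' : ((m : ℝ)) ^ 2 ≤ n := by exact_mod_cast hmn
  have hmn2' : (n : ℝ) ≤ (m : ℝ) ^ 2 + 2 * m := by
    have h8 : n ≤ m ^ 2 + 2 * m := by
      have : (m + 1) ^ 2 = m ^ 2 + 2 * m + 1 := by ring
      omega
    exact_mod_cast h8
  have h8 := llnS_abs_sub f M hM L (m ^ 2) n hmn u
  push_cast at h8
  rw [abs_div, abs_div, abs_of_pos hn', abs_of_pos (by positivity : (0 : ℝ) < (m : ℝ) ^ 2)]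
  calc |llnS f L n u| / n ≤ (|llnS f L (m ^ 2) u| + 2 * m * M) / n := by
        apply div_le_div_of_nonneg_right _ hn'.le
        nlinarith
    _ ≤ (|llnS f L (m ^ 2) u| + 2 * m * M) / (m : ℝ) ^ 2 := by
        apply div_le_div_of_nonneg_left _ (by positivity) hmn'
        positivity
    _ = |llnS f L (m ^ 2) u| / (m : ℝ) ^ 2 + 2 * M / m := by
        field_simp

/-- The logarithm of the multiplier at `0`. -/
noncomputable def lg (α : ℂ) (t : ℝ) : ℝ := Real.log ‖1 + α * Real.cos (2 * Real.pi * t)‖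

lemma lg_low (α : ℂ) (hα : ‖α‖ < 1) (t : ℝ) :
    1 - ‖α‖ ≤ ‖1 + α * (Real.cos (2 * Real.pi * t) : ℂ)‖ := by
  have h1 : ‖(1 : ℂ)‖ - ‖α * (Real.cos (2 * Real.pi * t) : ℂ)‖ ≤
      ‖1 + α * (Real.cos (2 * Real.pi * t) : ℂ)‖ := by
    have := norm_sub_le (1 + α * (Real.cos (2 * Real.pi * t) : ℂ))
      (α * (Real.cos (2 * Real.pi * t) : ℂ))
    simp only [add_sub_cancel_right] at this
    linarith
  have h2 : ‖α * (Real.cos (2 * Real.pi * t) : ℂ)‖ ≤ ‖α‖ := by
    rw [norm_mul, Complex.norm_real, Real.norm_eq_abs]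
    have h3 := Real.abs_cos_le_one (2 * Real.pi * t)
    nlinarith [norm_nonneg α]
  rw [norm_one] at h1
  linarith

lemma lg_up (α : ℂ) (hα : ‖α‖ < 1) (t : ℝ) :
    ‖1 + α * (Real.cos (2 * Real.pi * t) : ℂ)‖ ≤ 2 := by
  refine (norm_add_le _ _).trans ?_
  rw [norm_one, norm_mul, Complex.norm_real, Real.norm_eq_abs]
  have h3 := Real.abs_cos_le_one (2 * Real.pi * t)
  nlinarith [norm_nonneg α, abs_nonneg (Real.cos (2 * Real.pi * t))]

lemma log_lip {a b c : ℝ} (hc : 0 < c) (ha : c ≤ a) (hb : c ≤ b) :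
    |Real.log a - Real.log b| ≤ 1 / c * |a - b| := by
  wlog hab : a ≤ b generalizing a b
  · rw [abs_sub_comm, abs_sub_comm a b]
    exact this hb ha (le_of_lt (not_le.mp hab))
  have ha0 : 0 < a := hc.trans_le ha
  have hb0 : 0 < b := hc.trans_le hb
  have h1 : Real.log b - Real.log a ≤ (b - a) / a := by
    rw [← Real.log_div hb0.ne' ha0.ne']
    refine (Real.log_le_sub_one_of_pos (by positivity)).trans (le_of_eq ?_)
    field_simp
  have h2 : Real.log a ≤ Real.log b := Real.log_le_log ha0 hab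
  rw [abs_sub_comm, abs_of_nonneg (by linarith), abs_sub_comm, abs_of_nonneg (by linarith)]
  refine h1.trans ?_
  rw [div_eq_mul_inv, mul_comm, one_div]
  apply mul_le_mul_of_nonneg_right _ (by linarith)
  exact inv_anti₀ hc ha

lemma cos_lip (x y : ℝ) : |Real.cos x - Real.cos y| ≤ |x - y| := by
  have h := Convex.norm_image_sub_le_of_norm_deriv_le (f := Real.cos) (C := 1) (s := univ)
    (x := y) (y := x) (fun z _ => Real.differentiable_cos z)
    (fun z _ => by simpa using Real.abs_sin_le_one z) convex_univ (mem_univ _) (mem_univ _)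
  simpa [Real.norm_eq_abs] using h

lemma lg_lip (α : ℂ) (hα : ‖α‖ < 1) (x y : ℝ) :
    |lg α x - lg α y| ≤ (1 / (1 - ‖α‖) * (2 * Real.pi)) * |x - y| := by
  unfold lg
  refine (log_lip (by linarith) (lg_low α hα x) (lg_low α hα y)).trans ?_
  rw [mul_assoc (1 / (1 - ‖α‖)) (2 * Real.pi) |x - y|]
  apply mul_le_mul_of_nonneg_left _ (by
    have : 0 < 1 - ‖α‖ := by linarith
    positivity)
  refine (abs_norm_sub_norm_le _ _).trans ?_
  have h1 : (1 + α * (Real.cos (2 * Real.pi * x) : ℂ)) - (1 + α * (Real.cos (2 * Real.pi * y) : ℂ)) =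
      α * ((Real.cos (2 * Real.pi * x) - Real.cos (2 * Real.pi * y) : ℝ) : ℂ) := by
    push_cast
    ring
  rw [h1, norm_mul, Complex.norm_real, Real.norm_eq_abs]
  have h2 := cos_lip (2 * Real.pi * x) (2 * Real.pi * y)
  rw [← mul_sub, abs_mul, abs_of_pos Real.two_pi_pos] at h2
  have h3 := abs_nonneg (Real.cos (2 * Real.pi * x) - Real.cos (2 * Real.pi * y))
  nlinarith [norm_nonneg α]

lemma lg_bdd (α : ℂ) (hα : ‖α‖ < 1) (t : ℝ) :
    |lg α t| ≤ |Real.log (1 - ‖α‖)| + Real.log 2 := by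
  have h0 : 0 < 1 - ‖α‖ := by linarith
  have h1 : Real.log (1 - ‖α‖) ≤ lg α t := Real.log_le_log h0 (lg_low α hα t)
  have h2 : lg α t ≤ Real.log 2 :=
    Real.log_le_log (h0.trans_le (lg_low α hα t)) (lg_up α hα t)
  have h3 : 0 ≤ Real.log 2 := Real.log_nonneg (by norm_num)
  rw [abs_le]
  constructor
  · have := neg_abs_le (Real.log (1 - ‖α‖))
    linarith
  · have := abs_nonneg (Real.log (1 - ‖α‖))
    linarith

lemma lg_continuous (α : ℂ) (hα : ‖α‖ < 1) : Continuous (lg α) := by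
  have h0 : 0 < 1 - ‖α‖ := by linarith
  unfold lg
  apply Continuous.log
  · fun_prop
  · intro t
    have := lg_low α hα t
    linarith

lemma lg_periodic (α : ℂ) (t : ℝ) : lg α (t + 1) = lg α t := by
  unfold lg
  rw [show 2 * Real.pi * (t + 1) = 2 * Real.pi * t + 2 * Real.pi by ring, Real.cos_add_two_pi]

/-- Module M6. -/
theorem llnSpec : LLNSpec := by
  intro α L hα hL
  set e : ℝ := ∫ t in (0 : ℝ)..1, lg α t with he
  have h0 : 0 < 1 - ‖α‖ := by linarith
  have hK : 0 ≤ 1 / (1 - ‖α‖) * (2 * Real.pi) := by positivity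
  have hc := lg_continuous α hα
  have hmain := lln_general (fun t => lg α t - e) (1 / (1 - ‖α‖) * (2 * Real.pi))
    (|Real.log (1 - ‖α‖)| + Real.log 2 + |e|) (by fun_prop)
    (fun x => by rw [lg_periodic])
    (fun x => (abs_sub _ _).trans (by linarith [lg_bdd α hα x])) hK
    (fun x y => by
      have := lg_lip α hα x y
      rwa [show lg α x - e - (lg α y - e) = lg α x - lg α y by ring])
    (by
      rw [intervalIntegral.integral_sub (hc.intervalIntegrable _ _) (by simp)]
      simp [he]) L hL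
  filter_upwards [hmain] with u hu
  have h1 : Tendsto (fun n : ℕ => llnS (fun t => lg α t - e) L n u / n + e) atTop (𝓝 e) := by
    simpa using hu.add_const e
  refine h1.congr' ?_
  filter_upwards [eventually_ge_atTop 1] with n hn
  have hn' : (n : ℝ) ≠ 0 := by
    have : 0 < n := hn
    positivity
  have h2 : llnS (fun t => lg α t - e) L n u =
      (∑ j ∈ Finset.range n, lg α ((L : ℝ) ^ j * u)) - n * e := by
    simp only [llnS, Finset.sum_sub_distrib, Finset.sum_const, Finset.card_range, nsmul_eq_mul]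
  rw [h2, sub_div, mul_div_cancel_left₀ _ hn', sub_add_cancel]
  rfl

end Kan
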