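import Pool.Agent.Work.MP_ed045b_an.Escape

/-! Bounded windows at density points of the non-escaping set. -/

namespace Kan

open MeasureTheory Filter Topology Set
open scoped ENNReal

theorem bd_mono {α : ℂ} {L : ℕ} {z : ℂ} {x : ℝ} {n : ℕ} {r K K' : ℝ} (h : Bd α L z x n r K)
    (hK : K ≤ K') : Bd α L z x n r K' := fun w hw => le_trans (h w hw) hK

/-- the recursion, iterated -/
theorem window_iter (α : ℂ) (hα : ‖α‖ ≤ 1) (L : ℕ) (hL : 6 ≤ L) (C δ : ℝ) (hC : 0 < C)
    (hrem : ∀ (g : ℂ → ℂ) (M R : ℝ) (E : Set ℝ),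
    Differentiable ℂ g → 0 ≤ M → 1 ≤ R → MeasurableSet E →
    (∀ ζ : ℂ, ‖ζ‖ ≤ 1296 → ‖g ζ‖ ≤ Real.exp M) →
    (∀ t ∈ E, |t| ≤ 648 → ‖g (t : ℂ)‖ ≤ R) →
    volume (Set.Icc (-648 : ℝ) 648 \ E) ≤ ENNReal.ofReal δ →
    ∀ ζ : ℂ, ‖ζ‖ ≤ 1 → ‖g ζ‖ ≤ C * R * Real.exp (M / 32))
    (z : ℂ) (x : ℝ) (r R : ℝ) (hr : 0 < r) (hR : 1 ≤ R) (N : ℕ)
    (hvol : ∀ n ≥ N, volume (Set.Icc (-648 : ℝ) 648 \
      {t : ℝ | ‖Z α L z n ((x + r * t / (L : ℝ) ^ n : ℝ) : ℂ)‖ ≤ R}) ≤ ENNReal.ofReal δ) :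
    ∃ n₁ : ℕ, ∀ n ≥ n₁, Bd α L z x n r
      (2 * (1 / 2 + 2 * Real.pi * r * ((L : ℝ) ^ 4 / (L - 2)) / 32 + Real.log (1 + C * R)) + 1) := by
  have hL' : (6 : ℝ) ≤ L := by exact_mod_cast hL
  have hL2 : (0 : ℝ) < L - 2 := by linarith
  set Cs : ℝ := 1 / 2 + 2 * Real.pi * r * ((L : ℝ) ^ 4 / (L - 2)) / 32 + Real.log (1 + C * R) with hCs
  have hlog : 0 ≤ Real.log (1 + C * R) := Real.log_nonneg (by nlinarith)
  have hCs0 : 0 ≤ Cs := by positivity
  set K₀ : ℝ := 2 ^ (N + 4) * (Real.log (1 + ‖z‖) + 1) + 2 * Real.pi * (r / (L - 2)) with hK₀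
  have hz0 : 0 ≤ Real.log (1 + ‖z‖) := Real.log_nonneg (by linarith [norm_nonneg z])
  have hK₀0 : 0 ≤ K₀ := by positivity
  have hstep : ∀ i < 4, ∀ j : ℕ, Bd α L z x (N + i + 4 * j) r (K₀ / 2 ^ j + 2 * Cs) := by
    intro i hi j
    induction j with
    | zero =>
      refine bd_mono (bd_trivial α hα L (by omega) z x (N + i + 4 * 0) r) ?_
      rw [hK₀]
      have h1 : (2 : ℝ) ^ (N + i + 4 * 0) ≤ 2 ^ (N + 4) := by
        apply pow_le_pow_right₀ (by norm_num); omega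
      have h2 : (2 : ℝ) ^ (N + i + 4 * 0) * (Real.log (1 + ‖z‖) + 1) ≤
          2 ^ (N + 4) * (Real.log (1 + ‖z‖) + 1) := by gcongr
      simp only [pow_zero, div_one]
      linarith
    | succ j ih =>
      have h3 : N + i + 4 * (j + 1) = (N + i + 4 * j) + 4 := by ring
      rw [h3]
      have hKj : 0 ≤ K₀ / 2 ^ j + 2 * Cs := by positivity
      have h4 := window_step α hα L hL C δ hC hrem z x (N + i + 4 * j) r _ R hr hR hKj ih
        (hvol _ (by omega))
      refine bd_mono h4 (le_of_eq ?_)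
      rw [← hCs, pow_succ]
      field_simp
      ring
  obtain ⟨J, hJ⟩ := exists_nat_gt K₀
  have hJ2 : K₀ / 2 ^ J ≤ 1 := by
    rw [div_le_one (by positivity)]
    have : (J : ℝ) ≤ 2 ^ J := by
      have := Nat.lt_two_pow_self (n := J)
      exact_mod_cast this.le
    linarith
  refine ⟨N + 4 * J + 4, ?_⟩
  intro n hn
  obtain ⟨i, j, hi, hj, hnij⟩ : ∃ i j : ℕ, i < 4 ∧ J ≤ j ∧ n = N + i + 4 * j := by
    refine ⟨(n - N) % 4, (n - N) / 4, Nat.mod_lt _ (by norm_num), ?_, ?_⟩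
    · rw [Nat.le_div_iff_mul_le (by norm_num)]; omega
    · have := Nat.mod_add_div (n - N) 4
      omega
  rw [hnij]
  refine bd_mono (hstep i hi j) ?_
  have : K₀ / 2 ^ j ≤ K₀ / 2 ^ J := by
    apply div_le_div_of_nonneg_left hK₀0 (by positivity)
    exact pow_le_pow_right₀ (by norm_num) hj
  linarith

theorem meas_esc (α : ℂ) (L : ℕ) (z : ℂ) :
    MeasurableSet {u : ℝ | Tendsto (fun n => ‖Z α L z n u‖) atTop atTop} := by
  have h1 : {u : ℝ | Tendsto (fun n => ‖Z α L z n u‖) atTop atTop} =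
      ⋂ k : ℕ, ⋃ N : ℕ, ⋂ n : ℕ, ⋂ _ : N ≤ n, {u : ℝ | (k : ℝ) ≤ ‖Z α L z n u‖} := by
    ext u
    simp only [mem_ofPred_eq, mem_iInter, mem_iUnion]
    constructor
    · intro h k
      obtain ⟨N, hN⟩ := (tendsto_atTop.mp h (k : ℝ)).exists_forall_of_atTop
      exact ⟨N, fun n hn => hN n hn⟩
    · intro h
      rw [tendsto_atTop]
      intro b
      obtain ⟨k, hk⟩ := exists_nat_ge b
      obtain ⟨N, hN⟩ := h k
      filter_upwards [eventually_ge_atTop N] with n hn
      exact le_trans hk (hN n hn)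
  rw [h1]
  refine MeasurableSet.iInter fun k => MeasurableSet.iUnion fun N => MeasurableSet.iInter fun n =>
    MeasurableSet.iInter fun _ => ?_
  apply measurableSet_le measurable_const
  apply Measurable.norm
  exact (continuous_Z α L z n).measurable.comp Complex.measurable_ofReal

theorem window : WindowSpec := by
  intro α L hα0 hα1 hL
  obtain ⟨C, δ, hC, hδ, hrem⟩ := remez
  have hL' : (6 : ℝ) ≤ L := by exact_mod_cast hL
  set R : ℝ := max 1 (2 * ((2 * 648 + 2) * 8) / (δ * ‖α‖)) with hR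
  have hR1 : 1 ≤ R := le_max_left _ _
  have hR2 : (2 * 648 + 2) * (8 / (R * ‖α‖)) ≤ δ / 2 := by
    have h1 : 2 * ((2 * 648 + 2) * 8) / (δ * ‖α‖) ≤ R := le_max_right _ _
    rw [div_le_iff₀ (by positivity)] at h1
    have hRpos : 0 < R := by linarith
    rw [← mul_div_assoc, div_le_iff₀ (by positivity)]
    nlinarith
  refine ⟨2 * (1 / 2 + 2 * Real.pi * 3 * ((L : ℝ) ^ 4 / (L - 2)) / 32 + Real.log (1 + C * R)) + 1, ?_⟩
  intro z
  set B : Set ℝ := {u : ℝ | Tendsto (fun n => ‖Z α L z n u‖) atTop atTop}ᶜ with hB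
  have hBm : MeasurableSet B := (meas_esc α L z).compl
  have hdens := Besicovitch.ae_tendsto_measure_inter_div_of_measurableSet (volume : Measure ℝ) hBm
  filter_upwards [hdens] with u hu
  by_cases huB : u ∈ B
  swap
  · left
    rw [hB, notMem_compl_iff] at huB
    exact huB
  right
  rw [indicator_of_mem huB, Pi.one_apply] at hu
  -- radii
  have hr : Tendsto (fun n : ℕ => (1944 : ℝ) / (L : ℝ) ^ n) atTop (𝓝[>] 0) := by
    rw [tendsto_nhdsWithin_iff]
    constructor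
    · have : Tendsto (fun n : ℕ => (L : ℝ) ^ n) atTop atTop :=
        tendsto_pow_atTop_atTop_of_one_lt (by linarith)
      exact Tendsto.div_atTop tendsto_const_nhds this
    · filter_upwards with n
      simp only [mem_Ioi]
      positivity
  have hcomp := hu.comp hr
  set ε : ℝ := δ / 2592 with hε
  have hεpos : 0 < ε := by positivity
  have hev : ∀ᶠ n : ℕ in atTop, 1 - ENNReal.ofReal ε < volume (B ∩ Metric.closedBall u (1944 / (L : ℝ) ^ n)) /
      volume (Metric.closedBall u (1944 / (L : ℝ) ^ n)) := by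
    apply hcomp.eventually_const_lt
    exact ENNReal.sub_lt_self ENNReal.one_ne_top one_ne_zero (by
      rw [ne_eq, ENNReal.ofReal_eq_zero, not_le]; exact hεpos)
  obtain ⟨N, hN⟩ := hev.exists_forall_of_atTop
  apply window_iter α hα1.le L hL C δ hC hrem z u 3 R (by norm_num) hR1 N
  intro n hn
  have hNn := hN n hn
  have hLn : (0 : ℝ) < (L : ℝ) ^ n := by positivity
  set ρ : ℝ := 1944 / (L : ℝ) ^ n with hρ
  have hρpos : 0 < ρ := by positivity
  have hball : volume (Metric.closedBall u ρ) = ENNReal.ofReal (2 * ρ) := Real.volume_closedBall u ρ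
  have hdiff : volume (Metric.closedBall u ρ \ B) ≤ ENNReal.ofReal (ε * (2 * ρ)) := by
    have h1 : volume (Metric.closedBall u ρ) = volume (Metric.closedBall u ρ ∩ B) +
        volume (Metric.closedBall u ρ \ B) := (measure_inter_add_sdiff _ hBm).symm
    rw [hball] at h1 hNn
    have h2 : (1 - ENNReal.ofReal ε) * ENNReal.ofReal (2 * ρ) ≤ volume (B ∩ Metric.closedBall u ρ) := by
      have h3 := hNn.le
      rwa [ENNReal.le_div_iff_mul_le (Or.inl (by
        rw [ne_eq, ENNReal.ofReal_eq_zero, not_le]; positivity)) (Or.inl ENNReal.ofReal_ne_top)] at h3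
    rw [inter_comm] at h2
    have h4 : ENNReal.ofReal (2 * ρ) ≤ (1 - ENNReal.ofReal ε) * ENNReal.ofReal (2 * ρ) +
        ENNReal.ofReal ε * ENNReal.ofReal (2 * ρ) := by
      rw [← add_mul]
      refine le_mul_of_one_le_left (by positivity) ?_
      exact le_tsub_add
    have hfin1 : volume (Metric.closedBall u ρ ∩ B) ≠ ⊤ := by
      refine ne_top_of_le_ne_top (b := volume (Metric.closedBall u ρ)) ?_ (measure_mono inter_subset_left)
      rw [hball]; exact ENNReal.ofReal_ne_top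
    have h5 : volume (Metric.closedBall u ρ ∩ B) + volume (Metric.closedBall u ρ \ B) ≤
        volume (Metric.closedBall u ρ ∩ B) + ENNReal.ofReal ε * ENNReal.ofReal (2 * ρ) := by
      rw [← h1]
      refine le_trans h4 ?_
      gcongr
    have h6 := (ENNReal.add_le_add_iff_left hfin1).mp h5
    rwa [← ENNReal.ofReal_mul hεpos.le] at h6
  have hsub : Set.Icc (-648 : ℝ) 648 \ {t : ℝ | ‖Z α L z n ((u + 3 * t / (L : ℝ) ^ n : ℝ) : ℂ)‖ ≤ R} ⊆
      {t : ℝ | (3 / (L : ℝ) ^ n) * t + u ∈ Metric.closedBall u ρ \ B} ∪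
      {t : ℝ | t ∈ Icc (-648 : ℝ) 648 ∧ 3 * t + (L : ℝ) ^ n * u ∈ VR α L R} := by
    rintro t ⟨ht1, ht2⟩
    rw [mem_ofPred_eq, not_le] at ht2
    have hpt : (3 / (L : ℝ) ^ n) * t + u = u + 3 * t / (L : ℝ) ^ n := by ring
    by_cases hv : 3 * t + (L : ℝ) ^ n * u ∈ VR α L R
    · right; exact ⟨ht1, hv⟩
    · left
      rw [mem_ofPred_eq, hpt]
      refine ⟨?_, ?_⟩
      · rw [Metric.mem_closedBall, Real.dist_eq]
        have : u + 3 * t / (L : ℝ) ^ n - u = 3 * t / (L : ℝ) ^ n := by ring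
        rw [this, abs_div, abs_of_pos hLn, hρ]
        apply div_le_div_of_nonneg_right _ hLn.le
        rw [abs_mul, abs_of_pos (by norm_num : (0 : ℝ) < 3)]
        have := abs_le.mpr ht1
        linarith
      · rw [hB, notMem_compl_iff]
        apply escape_tendsto α hα1 L z R hR1 _ n ht2.le
        have : (L : ℝ) ^ n * (u + 3 * t / (L : ℝ) ^ n) = 3 * t + (L : ℝ) ^ n * u := by
          field_simp
          ring
        rw [this]
        exact hv
  refine le_trans (measure_mono hsub) (le_trans (measure_union_le _ _) ?_)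
  have hA : volume {t : ℝ | (3 / (L : ℝ) ^ n) * t + u ∈ Metric.closedBall u ρ \ B} ≤ ENNReal.ofReal (δ / 2) := by
    rw [vol_affine _ _ _ (by positivity)]
    refine le_trans (mul_le_mul_of_nonneg_left hdiff (by positivity)) ?_
    rw [← ENNReal.ofReal_mul (by positivity)]
    apply ENNReal.ofReal_le_ofReal
    apply le_of_eq
    rw [hρ, hε]
    field_simp
    norm_num
  have hBb : volume {t : ℝ | t ∈ Icc (-648 : ℝ) 648 ∧ 3 * t + (L : ℝ) ^ n * u ∈ VR α L R} ≤
      ENNReal.ofReal (δ / 2) := by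
    refine le_trans (VR_window α hα0 L (by omega) R (by linarith) 3 _ 648 (by norm_num) (by norm_num)) ?_
    exact ENNReal.ofReal_le_ofReal hR2
  refine le_trans (add_le_add hA hBb) ?_
  rw [← ENNReal.ofReal_add (by positivity) (by positivity)]
  apply ENNReal.ofReal_le_ofReal
  linarith

end Kan
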