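import Pool.Agent.Work.MP_ed045b_an.Specs8
import Pool.Agent.Work.MP_ed045b_an.Escape
import Pool.Agent.Work.MP_ed045b_an.Energy3
import Pool.Agent.Work.MP_ed045b_an.Window
import Pool.Agent.Work.MP_ed045b_an.LLN

/-! Assembly, part 1: symmetry, trichotomy, countability. -/

namespace Kan

open MeasureTheory Filter Topology Set
open scoped ENNReal

theorem Z_zero (α : ℂ) (L : ℕ) (z w : ℂ) : Z α L z 0 w = z := rfl

theorem Z_cocycle (α : ℂ) (L : ℕ) (z : ℂ) (n k : ℕ) (w : ℂ) :
    Z α L z (n + k) w = Z α L (Z α L z n w) k ((L : ℂ) ^ n * w) := by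
  induction k with
  | zero => rfl
  | succ k ih =>
    rw [← add_assoc, Z_succ, Z_succ, ih]
    have : (L : ℂ) ^ (n + k) * w = (L : ℂ) ^ k * ((L : ℂ) ^ n * w) := by rw [pow_add]; ring
    rw [this]

theorem sym : SymSpec := by
  constructor
  · intro α L z n w
    induction n with
    | zero => rfl
    | succ n ih =>
      rw [Z_succ, Z_succ, ih]
      unfold cs
      ring
  · intro α
    have h1 : ∀ t : ℝ, Real.log ‖1 + (-α) * Real.cos (2 * Real.pi * t)‖ =
        (fun s : ℝ => Real.log ‖1 + α * Real.cos (2 * Real.pi * s)‖) (t + 1 / 2) := by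
      intro t
      have : (2 * Real.pi * (t + 1 / 2)) = 2 * Real.pi * t + Real.pi := by ring
      simp only [this, Real.cos_add_pi]
      push_cast
      congr 2
      ring
    have hper : Function.Periodic (fun s : ℝ => Real.log ‖1 + α * Real.cos (2 * Real.pi * s)‖) 1 := by
      intro s
      have : (2 * Real.pi * (s + 1)) = 2 * Real.pi * s + 2 * Real.pi := by ring
      simp only [this, Real.cos_add_two_pi]
    have h2 : (∫ t in (0 : ℝ)..1, Real.log ‖1 + (-α) * Real.cos (2 * Real.pi * t)‖) =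
        ∫ t in (0 : ℝ)..1, (fun s : ℝ => Real.log ‖1 + α * Real.cos (2 * Real.pi * s)‖) (t + 1 / 2) := by
      apply intervalIntegral.integral_congr
      intro t _
      exact h1 t
    rw [h2, intervalIntegral.integral_comp_add_right (fun s : ℝ => Real.log ‖1 + α * Real.cos (2 * Real.pi * s)‖)]
    have := hper.intervalIntegral_add_eq (1 / 2) 0
    rw [show (0 : ℝ) + 1 / 2 = 1 / 2 by norm_num, show (1 : ℝ) + 1 / 2 = 1 / 2 + 1 by norm_num, this]
    norm_num

theorem norm_cs_le_real (α : ℂ) (L : ℕ) (n : ℕ) (u : ℝ) : ‖cs α ((L : ℂ) ^ n * u)‖ ≤ ‖α‖ := by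
  have : ((L : ℂ) ^ n * u) = (((L : ℝ) ^ n * u : ℝ) : ℂ) := by push_cast; ring
  rw [this]
  exact norm_cs_real_le α _

theorem tri_of_psi (α : ℂ) (L : ℕ) (hα1 : ‖α‖ < 1) (z : ℂ) (u : ℝ)
    (h : Tendsto (fun n => Z α L z n u * (1 - Z α L z n u)) atTop (𝓝 0)) :
    Tendsto (fun n => Z α L z n u) atTop (𝓝 0) ∨ Tendsto (fun n => Z α L z n u) atTop (𝓝 1) := by
  have hn : Tendsto (fun n => ‖Z α L z n u * (1 - Z α L z n u)‖) atTop (𝓝 0) := by
    have := h.norm
    rwa [norm_zero] at this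
  obtain ⟨N, hN⟩ := (hn.eventually_lt_const (show (0 : ℝ) < 1 / 10 by norm_num)).exists_forall_of_atTop
  have hdich : ∀ x : ℂ, ‖x‖ ≤ 2 * ‖x * (1 - x)‖ ∨ ‖1 - x‖ ≤ 2 * ‖x * (1 - x)‖ := by
    intro x
    have h1 : 1 ≤ ‖x‖ + ‖1 - x‖ := by
      have : ‖(1 : ℂ)‖ ≤ ‖x‖ + ‖1 - x‖ := by
        have := norm_add_le x (1 - x)
        simpa using this
      simpa using this
    rw [norm_mul]
    rcases le_total ‖x‖ (1 / 2) with h | h
    · left
      have h2 : 1 / 2 ≤ ‖1 - x‖ := by linarith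
      nlinarith [norm_nonneg x]
    · right
      nlinarith [norm_nonneg (1 - x)]
  have hstep : ∀ n, ‖Z α L z (n + 1) u - Z α L z n u‖ ≤ ‖Z α L z n u * (1 - Z α L z n u)‖ := by
    intro n
    rw [Z_succ]
    have : Z α L z n u * (1 + cs α ((L : ℂ) ^ n * u) * (1 - Z α L z n u)) - Z α L z n u =
      cs α ((L : ℂ) ^ n * u) * (Z α L z n u * (1 - Z α L z n u)) := by ring
    rw [this, norm_mul]
    have h1 := norm_cs_le_real α L n u
    have h2 := norm_nonneg (Z α L z n u * (1 - Z α L z n u))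
    nlinarith
  rcases hdich (Z α L z N u) with h0 | h0
  · left
    have hall : ∀ n, N ≤ n → ‖Z α L z n u‖ ≤ 2 * ‖Z α L z n u * (1 - Z α L z n u)‖ := by
      intro n hn
      induction n, hn using Nat.le_induction with
      | base => exact h0
      | succ n hn ih =>
        rcases hdich (Z α L z (n + 1) u) with h1 | h1
        · exact h1
        · exfalso
          have h2 := hN n hn
          have h3 := hN (n + 1) (by omega)
          have h4 := hstep n
          have h5 : ‖(1 : ℂ)‖ ≤ ‖1 - Z α L z (n + 1) u‖ + ‖Z α L z (n + 1) u - Z α L z n u‖ + ‖Z α L z n u‖ := by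
            have : (1 : ℂ) = (1 - Z α L z (n + 1) u) + (Z α L z (n + 1) u - Z α L z n u) + Z α L z n u := by ring
            calc ‖(1 : ℂ)‖ = ‖(1 - Z α L z (n + 1) u) + (Z α L z (n + 1) u - Z α L z n u) + Z α L z n u‖ := by
                  rw [← this]
              _ ≤ _ := norm_add₃_le
          rw [norm_one] at h5
          linarith
    rw [tendsto_zero_iff_norm_tendsto_zero]
    refine squeeze_zero' (Eventually.of_forall fun n => norm_nonneg _)
      (g := fun n => 2 * ‖Z α L z n u * (1 - Z α L z n u)‖) ?_ ?_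
    · filter_upwards [eventually_ge_atTop N] with n hn
      exact hall n hn
    · simpa using hn.const_mul 2
  · right
    have hall : ∀ n, N ≤ n → ‖1 - Z α L z n u‖ ≤ 2 * ‖Z α L z n u * (1 - Z α L z n u)‖ := by
      intro n hn
      induction n, hn using Nat.le_induction with
      | base => exact h0
      | succ n hn ih =>
        rcases hdich (Z α L z (n + 1) u) with h1 | h1
        · exfalso
          have h2 := hN n hn
          have h3 := hN (n + 1) (by omega)
          have h4 := hstep n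
          have h5 : ‖(1 : ℂ)‖ ≤ ‖1 - Z α L z n u‖ + ‖-(Z α L z (n + 1) u - Z α L z n u)‖ + ‖Z α L z (n + 1) u‖ := by
            have : (1 : ℂ) = (1 - Z α L z n u) + -(Z α L z (n + 1) u - Z α L z n u) + Z α L z (n + 1) u := by ring
            calc ‖(1 : ℂ)‖ = ‖(1 - Z α L z n u) + -(Z α L z (n + 1) u - Z α L z n u) + Z α L z (n + 1) u‖ := by
                  rw [← this]
              _ ≤ _ := norm_add₃_le
          rw [norm_one, norm_neg] at h5
          linarith
        · exact h1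
    rw [tendsto_iff_norm_sub_tendsto_zero]
    refine squeeze_zero' (Eventually.of_forall fun n => norm_nonneg _)
      (g := fun n => 2 * ‖Z α L z n u * (1 - Z α L z n u)‖) ?_ ?_
    · filter_upwards [eventually_ge_atTop N] with n hn
      rw [norm_sub_rev]
      exact hall n hn
    · simpa using hn.const_mul 2

theorem tri : TriSpec := by
  intro α L hα0 hα1 hL z
  obtain ⟨K, hK⟩ := window α L hα0 hα1 hL
  filter_upwards [hK z, energy α L hα0 hα1 hL z K] with u h1 h2
  rcases h1 with h | h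
  · exact Or.inl h
  · exact Or.inr (tri_of_psi α L hα1 z u (h2 h))

/-! countability -/

theorem countable_preimage_step (c : ℂ) (S : Set ℂ) (hS : S.Countable) (hc : ‖c‖ < 1) :
    {x : ℂ | x * (1 + c * (1 - x)) ∈ S}.Countable := by
  have h1 : {x : ℂ | x * (1 + c * (1 - x)) ∈ S} = ⋃ s ∈ S, {x : ℂ | x * (1 + c * (1 - x)) = s} := by
    ext x
    simp
  rw [h1]
  apply hS.biUnion
  intro s _
  by_cases hne : ({x : ℂ | x * (1 + c * (1 - x)) = s}).Nonempty
  · obtain ⟨x₀, hx₀⟩ := hne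
    have hx₀' : x₀ * (1 + c * (1 - x₀)) = s := hx₀
    refine Countable.mono (s₂ := {x₀, (1 + c) / c - x₀}) ?_ (Set.to_countable _)
    intro x hx
    have hx' : x * (1 + c * (1 - x)) = s := hx
    have h2 : (x - x₀) * (1 + c - c * (x + x₀)) = 0 := by
      have : (x - x₀) * (1 + c - c * (x + x₀)) = x * (1 + c * (1 - x)) - x₀ * (1 + c * (1 - x₀)) := by ring
      rw [this, hx', hx₀', sub_self]
    rcases mul_eq_zero.mp h2 with h | h
    · left
      exact sub_eq_zero.mp h
    · right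
      have hc0 : c ≠ 0 := by
        rintro rfl
        simp at h
      rw [mem_singleton_iff, eq_sub_iff_add_eq, eq_div_iff hc0]
      linear_combination -h
  · rw [not_nonempty_iff_eq_empty] at hne
    rw [hne]
    exact countable_empty

theorem countable_preimage (α : ℂ) (hα1 : ‖α‖ < 1) (L : ℕ) (u : ℝ) (n : ℕ) (S : Set ℂ) (hS : S.Countable) :
    {z : ℂ | Z α L z n u ∈ S}.Countable := by
  induction n generalizing S with
  | zero => exact hS
  | succ n ih =>
    have h1 : {z : ℂ | Z α L z (n + 1) u ∈ S} =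
        {z : ℂ | Z α L z n u ∈ {x : ℂ | x * (1 + cs α ((L : ℂ) ^ n * u) * (1 - x)) ∈ S}} := by
      ext z
      simp only [mem_ofPred_eq]
      rw [Z_succ]
    rw [h1]
    apply ih
    exact countable_preimage_step _ S hS (lt_of_le_of_lt (norm_cs_le_real α L n u) hα1)

theorem countable_hit (α : ℂ) (hα1 : ‖α‖ < 1) (L : ℕ) (u : ℝ) (a : ℂ) :
    {z : ℂ | ∃ n : ℕ, Z α L z n u = a}.Countable := by
  have h1 : {z : ℂ | ∃ n : ℕ, Z α L z n u = a} = ⋃ n : ℕ, {z : ℂ | Z α L z n u ∈ ({a} : Set ℂ)} := by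
    ext z
    simp
  rw [h1]
  exact countable_iUnion fun n => countable_preimage α hα1 L u n _ (countable_singleton a)

/-- `log‖1+c_j(u)‖`. -/
noncomputable def lc (α : ℂ) (L : ℕ) (u : ℝ) (j : ℕ) : ℝ :=
  Real.log ‖1 + α * Real.cos (2 * Real.pi * ((L : ℝ) ^ j * u))‖

theorem cs_real_eq (α : ℂ) (L : ℕ) (n : ℕ) (u : ℝ) :
    cs α ((L : ℂ) ^ n * u) = α * Real.cos (2 * Real.pi * ((L : ℝ) ^ n * u)) := by
  unfold cs
  push_cast
  rfl

theorem lc_eq (α : ℂ) (L : ℕ) (u : ℝ) (j : ℕ) :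
    lc α L u j = Real.log ‖1 + cs α ((L : ℂ) ^ j * u)‖ := by
  unfold lc
  rw [cs_real_eq]

theorem one_add_cs_lower (α : ℂ) (L : ℕ) (n : ℕ) (u : ℝ) : 1 - ‖α‖ ≤ ‖1 + cs α ((L : ℂ) ^ n * u)‖ := by
  have h1 := norm_cs_le_real α L n u
  have h2 : ‖(1 : ℂ)‖ ≤ ‖1 + cs α ((L : ℂ) ^ n * u)‖ + ‖cs α ((L : ℂ) ^ n * u)‖ := by
    have := norm_sub_le (1 + cs α ((L : ℂ) ^ n * u)) (cs α ((L : ℂ) ^ n * u))
    simpa using this
  rw [norm_one] at h2
  linarith

theorem zeroCount : ZeroCountSpec := by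
  intro α L hα1 hL he
  filter_upwards [llnSpec α L hα1 hL] with u hu
  set e : ℝ := ∫ t in (0 : ℝ)..1, Real.log ‖1 + α * Real.cos (2 * Real.pi * t)‖ with hedef
  refine Countable.mono (s₂ := {z : ℂ | ∃ n : ℕ, Z α L z n u = 0}) ?_ (countable_hit α hα1 L u 0)
  intro z hz
  have hz' : Tendsto (fun n => Z α L z n u) atTop (𝓝 0) := hz
  by_contra hne
  have hne' : ∀ n : ℕ, Z α L z n u ≠ 0 := by
    intro n hn
    exact hne ⟨n, hn⟩
  have ha0 : 0 ≤ ‖α‖ := norm_nonneg _
  have ha1 : 0 < 1 - ‖α‖ := by linarith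
  -- eventually the relative error is small
  have hznorm : Tendsto (fun n => ‖Z α L z n u‖) atTop (𝓝 0) := by
    have := hz'.norm
    rwa [norm_zero] at this
  set η : ℝ := 1 - Real.exp (-(e / 4)) with hη
  have hηpos : 0 < η := by
    have : Real.exp (-(e / 4)) < 1 := by
      rw [Real.exp_lt_one_iff]
      linarith
    linarith
  obtain ⟨N, hN⟩ := (hznorm.eventually_lt_const (show (0 : ℝ) < η * (1 - ‖α‖) by positivity)).exists_forall_of_atTop
  have hstep : ∀ n ≥ N, Real.log ‖Z α L z n u‖ + lc α L u n - e / 4 ≤ Real.log ‖Z α L z (n + 1) u‖ := by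
    intro n hn
    rw [Z_succ, lc_eq]
    set Y := Z α L z n u with hY
    set c := cs α ((L : ℂ) ^ n * u) with hc
    have hc1 : ‖c‖ ≤ ‖α‖ := norm_cs_le_real α L n u
    have hlow : 1 - ‖α‖ ≤ ‖1 + c‖ := one_add_cs_lower α L n u
    have hYs : ‖Y‖ < η * (1 - ‖α‖) := hN n hn
    have h1c : 0 < ‖1 + c‖ := by linarith
    have h2 : ‖1 + c‖ * Real.exp (-(e / 4)) ≤ ‖1 + c * (1 - Y)‖ := by
      have h3 : ‖1 + c‖ ≤ ‖1 + c * (1 - Y)‖ + ‖c * Y‖ := by
        have : 1 + c = (1 + c * (1 - Y)) + c * Y := by ring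
        calc ‖1 + c‖ = ‖(1 + c * (1 - Y)) + c * Y‖ := by rw [← this]
          _ ≤ _ := norm_add_le _ _
      have h4 : ‖c * Y‖ ≤ ‖1 + c‖ * η := by
        rw [norm_mul]
        calc ‖c‖ * ‖Y‖ ≤ 1 * (η * (1 - ‖α‖)) := by
              apply mul_le_mul (by linarith) hYs.le (norm_nonneg _) (by norm_num)
          _ = (1 - ‖α‖) * η := by ring
          _ ≤ ‖1 + c‖ * η := by gcongr
      have h5 : Real.exp (-(e / 4)) = 1 - η := by rw [hη]; ring
      rw [h5]
      linarith
    have hYne : ‖Y‖ ≠ 0 := norm_ne_zero_iff.mpr (hne' n)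
    have hpos : 0 < ‖1 + c‖ * Real.exp (-(e / 4)) := by positivity
    rw [norm_mul, Real.log_mul hYne (by linarith)]
    have h6 := Real.log_le_log hpos h2
    rw [Real.log_mul h1c.ne' (Real.exp_pos _).ne', Real.log_exp] at h6
    linarith
  have hsum : ∀ n ≥ N, Real.log ‖Z α L z N u‖ + (∑ j ∈ Finset.range n, lc α L u j) -
      (∑ j ∈ Finset.range N, lc α L u j) - e / 4 * (n - N) ≤ Real.log ‖Z α L z n u‖ := by
    intro n hn
    induction n, hn using Nat.le_induction with
    | base => simp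
    | succ n hn ih =>
      have h1 := hstep n hn
      rw [Finset.sum_range_succ]
      push_cast
      linarith
  -- lln
  have hlow := (hu.eventually_const_lt (show 3 * e / 4 < e by linarith)).and (eventually_gt_atTop 0)
  have hneg := hznorm.eventually_lt_const (show (0 : ℝ) < 1 by norm_num)
  -- linear growth
  have hgrow : Tendsto (fun n : ℕ => e / 2 * (n : ℝ) + (Real.log ‖Z α L z N u‖ -
      (∑ j ∈ Finset.range N, lc α L u j))) atTop atTop := by
    apply tendsto_atTop_add_const_right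
    exact Tendsto.const_mul_atTop (by linarith) tendsto_natCast_atTop_atTop
  obtain ⟨n, hn1, hn2, hn3, hn4⟩ := (hlow.and (hneg.and ((eventually_ge_atTop N).and
    (hgrow.eventually_gt_atTop 0)))).exists
  have hn1' := hn1.1
  have hnpos : (0 : ℝ) < n := by exact_mod_cast hn1.2
  rw [lt_div_iff₀ hnpos] at hn1'
  have h7 := hsum n hn3
  have h8 : Real.log ‖Z α L z n u‖ ≤ 0 := Real.log_nonpos (norm_nonneg _) hn2.le
  have h9 : (∑ j ∈ Finset.range n, lc α L u j) = (∑ j ∈ Finset.range n,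
        Real.log ‖1 + α * Real.cos (2 * Real.pi * ((L : ℝ) ^ j * u))‖) := rfl
  rw [← h9] at hn1'
  have h10 : (0 : ℝ) ≤ N := Nat.cast_nonneg N
  have h11 : 0 ≤ e / 4 * N := by positivity
  nlinarith

end Kan
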