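import Pool.Agent.Work.MP_ed045b_an.Asm1

/-! Assembly, part 2: recurrence, uniform escape, uniform attraction to `0`. -/

namespace Kan

open MeasureTheory Filter Topology Set
open scoped ENNReal

theorem per_nat (Q : Set ℝ) (hper : ∀ x, x + 1 ∈ Q ↔ x ∈ Q) (n : ℕ) (x : ℝ) : x + n ∈ Q ↔ x ∈ Q := by
  induction n with
  | zero => simp
  | succ n ih =>
    have : x + ((n + 1 : ℕ) : ℝ) = (x + n) + 1 := by push_cast; ring
    rw [this, hper, ih]

/-- recurrence outside small periodic sets -/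
theorem rec_out (L : ℕ) (hL : 1 ≤ L) (A : ℕ → Set ℝ) (hA : ∀ k, MeasurableSet (A k))
    (hper : ∀ k x, x + 1 ∈ A k ↔ x ∈ A k)
    (hsmall : ∀ ε : ℝ≥0∞, 0 < ε → ∃ k, volume (A k ∩ Ioc 0 1) ≤ ε) :
    ∀ᵐ u : ℝ, ∃ k, ∃ᶠ n : ℕ in atTop, (L : ℝ) ^ n * u ∉ A k := by
  apply ae_of_unit
  · intro x m
    have h1 : ∀ k, ∀ n : ℕ, (L : ℝ) ^ n * (x + m) ∈ A k ↔ (L : ℝ) ^ n * x ∈ A k := by
      intro k n
      have : (L : ℝ) ^ n * (x + m) = (L : ℝ) ^ n * x + ((L ^ n * m : ℕ) : ℝ) := by push_cast; ring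
      rw [this]
      exact per_nat _ (hper k) _ _
    simp only [h1]
  · set D : ℕ → ℕ → Set ℝ := fun k N => {u : ℝ | u ∈ Ioc (0 : ℝ) 1 ∧ ∀ n ≥ N, (L : ℝ) ^ n * u ∈ A k} with hDdef
    have hD : ∀ k N, volume (D k N) ≤ volume (A k ∩ Ioc 0 1) := by
      intro k N
      have h1 := vol_mul_nat (A k) (hA k) (hper k) (L ^ N) (by positivity)
      rw [← h1]
      apply measure_mono
      rintro u ⟨hu, h⟩
      refine ⟨hu, ?_⟩
      have := h N le_rfl
      push_cast
      exact this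
    have hU : ∀ k, volume (⋃ N, D k N) ≤ volume (A k ∩ Ioc 0 1) := by
      intro k
      have hmono : Monotone (D k) := by
        intro N M hNM u hu
        exact ⟨hu.1, fun n hn => hu.2 n (le_trans hNM hn)⟩
      rw [hmono.measure_iUnion]
      exact iSup_le (hD k)
    have hI : volume (⋂ k, ⋃ N, D k N) = 0 := by
      by_contra hne
      have hfin : volume (⋂ k, ⋃ N, D k N) ≠ ⊤ := by
        refine ne_top_of_le_ne_top (b := volume (Ioc (0 : ℝ) 1)) (by simp) (measure_mono ?_)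
        intro u hu
        obtain ⟨N, hN⟩ := mem_iUnion.mp (mem_iInter.mp hu 0)
        exact hN.1
      obtain ⟨k, hk⟩ := hsmall (volume (⋂ k, ⋃ N, D k N) / 2) (ENNReal.half_pos hne)
      have h1 : volume (⋂ k, ⋃ N, D k N) ≤ volume (⋂ k, ⋃ N, D k N) / 2 :=
        le_trans (measure_mono (iInter_subset _ k)) (le_trans (hU k) hk)
      exact absurd h1 (not_le.mpr (ENNReal.half_lt_self hne hfin))
    have h0 : ∀ᵐ u : ℝ, u ≠ 0 := by
      rw [ae_iff]
      simp
    have hI' : ∀ᵐ u : ℝ, u ∉ ⋂ k, ⋃ N, D k N := measure_eq_zero_iff_ae_notMem.mp hI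
    filter_upwards [h0, hI'] with u hu0 hu h1 h2
    by_contra hcon
    apply hu
    push Not at hcon
    rw [mem_iInter]
    intro k
    have h3 := hcon k
    obtain ⟨N, hN⟩ := h3.exists_forall_of_atTop
    rw [mem_iUnion]
    exact ⟨N, ⟨lt_of_le_of_ne h1 (Ne.symm hu0), h2.le⟩, fun n hn => hN n hn⟩

theorem escUnif : EscUnifSpec := by
  intro α L hα0 hα1 hL
  have hrec := rec_out L (by omega) (fun k : ℕ => VR α L ((k : ℝ) + 1)) (fun k => VR_meas α hα0 L _)
    (fun k x => VR_per α hα0 L _ x) (by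
      intro ε hε
      have hlim : Tendsto (fun k : ℕ => ENNReal.ofReal (32 / (((k : ℝ) + 1) * ‖α‖))) atTop (𝓝 0) := by
        rw [← ENNReal.ofReal_zero]
        apply ENNReal.tendsto_ofReal
        apply Tendsto.div_atTop tendsto_const_nhds
        apply Tendsto.atTop_mul_const hα0
        exact tendsto_atTop_add_const_right _ _ tendsto_natCast_atTop_atTop
      obtain ⟨k, hk⟩ := (hlim.eventually_le_const hε).exists
      refine ⟨k, le_trans ?_ hk⟩
      have h1 := VR_window α hα0 L (by omega) ((k : ℝ) + 1) (by positivity) 1 0 1 le_rfl (by norm_num)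
      refine le_trans (le_trans (measure_mono ?_) h1) ?_
      · rintro t ⟨h2, h3⟩
        refine ⟨⟨by linarith [h3.1], h3.2⟩, ?_⟩
        rwa [one_mul, add_zero]
      · apply ENNReal.ofReal_le_ofReal
        apply le_of_eq
        field_simp
        ring)
  filter_upwards [hrec] with u hu z hz
  obtain ⟨k, hk⟩ := hu
  obtain ⟨n, hn1, hn2⟩ := (hk.and_eventually (hz.eventually_gt_atTop ((k : ℝ) + 1))).exists
  have hcont : Continuous (fun w : ℂ => ‖Z α L w n u‖) := by
    apply Continuous.norm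
    clear hn1 hn2
    induction n with
    | zero => exact continuous_id
    | succ n ih =>
      simp only [Z_succ]
      fun_prop
  refine ⟨{w : ℂ | (k : ℝ) + 1 < ‖Z α L w n u‖}, isOpen_lt continuous_const hcont, hn2, ?_⟩
  intro R
  have h1 : Tendsto (fun j : ℕ => (2 : ℝ) ^ j * ((k : ℝ) + 1)) atTop atTop := by
    apply Tendsto.atTop_mul_const (by positivity)
    exact tendsto_pow_atTop_atTop_of_one_lt (by norm_num)
  obtain ⟨J, hJ⟩ := (h1.eventually_ge_atTop R).exists_forall_of_atTop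
  filter_upwards [eventually_ge_atTop (n + J)] with m hm w hw
  have h2 := escape_growth α hα1 L w ((k : ℝ) + 1) (by linarith [(Nat.cast_nonneg k : (0 : ℝ) ≤ k)]) u n
    (le_of_lt hw) hn1 (m - n)
  have h3 : n + (m - n) = m := by omega
  rw [h3] at h2
  exact le_trans (hJ (m - n) (by omega)) h2

theorem continuous_Z_left (α : ℂ) (L : ℕ) (n : ℕ) (u : ℂ) : Continuous (fun w : ℂ => Z α L w n u) := by
  induction n with
  | zero => exact continuous_id
  | succ n ih =>
    simp only [Z_succ]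
    fun_prop

theorem zero_attract (α : ℂ) (hα1 : ‖α‖ < 1) (L : ℕ) (ε k : ℝ) (hε : 0 < ε) (v : ℝ)
    (hv : ∀ n : ℕ, (∑ j ∈ Finset.range n, lc α L v j) + ε * n ≤ k) (r : ℝ)
    (hr : r = Real.log 2 * (1 - Real.exp (-ε)) * (1 - ‖α‖) / (2 * Real.exp k)) (z : ℂ) (hz : ‖z‖ ≤ r) (n : ℕ) :
    ‖Z α L z n v‖ ≤ 2 * Real.exp k * r * Real.exp (-ε) ^ n := by
  have ha1 : 0 < 1 - ‖α‖ := by linarith
  have hq : Real.exp (-ε) < 1 := by
    rw [Real.exp_lt_one_iff]; linarith
  have hq0 : 0 < Real.exp (-ε) := Real.exp_pos _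
  have hlog2 : 0 < Real.log 2 := Real.log_pos (by norm_num)
  have hrpos : 0 < r := by
    rw [hr]
    have : 0 < 1 - Real.exp (-ε) := by linarith
    positivity
  -- multiplicative bound
  have hmul : ∀ n : ℕ, ‖Z α L z n v‖ ≤ ‖z‖ * Real.exp ((∑ j ∈ Finset.range n, lc α L v j) +
      (1 / (1 - ‖α‖)) * ∑ j ∈ Finset.range n, ‖Z α L z j v‖) := by
    intro n
    induction n with
    | zero => simp [Z_zero]
    | succ n ih =>
      rw [Z_succ, norm_mul, Finset.sum_range_succ, Finset.sum_range_succ]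
      set Y := Z α L z n v with hY
      set c := cs α ((L : ℂ) ^ n * v) with hc
      have hc1 : ‖c‖ ≤ ‖α‖ := norm_cs_le_real α L n v
      have hlow : 1 - ‖α‖ ≤ ‖1 + c‖ := one_add_cs_lower α L n v
      have h1c : 0 < ‖1 + c‖ := by linarith
      have h1 : ‖1 + c * (1 - Y)‖ ≤ Real.exp (lc α L v n + 1 / (1 - ‖α‖) * ‖Y‖) := by
        rw [Real.exp_add, lc_eq, ← hc, Real.exp_log h1c]
        have h2 : ‖1 + c * (1 - Y)‖ ≤ ‖1 + c‖ + ‖c * Y‖ := by
          have : 1 + c * (1 - Y) = (1 + c) - c * Y := by ring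
          rw [this]
          exact norm_sub_le _ _
        have h3 : ‖c * Y‖ ≤ ‖1 + c‖ * (1 / (1 - ‖α‖) * ‖Y‖) := by
          rw [norm_mul]
          have h4 : ‖c‖ ≤ ‖1 + c‖ * (1 / (1 - ‖α‖)) := by
            rw [mul_one_div, le_div_iff₀ ha1]
            have : ‖c‖ * (1 - ‖α‖) ≤ 1 * (1 - ‖α‖) := by gcongr; linarith
            linarith
          calc ‖c‖ * ‖Y‖ ≤ (‖1 + c‖ * (1 / (1 - ‖α‖))) * ‖Y‖ := by gcongr
            _ = _ := by ring
        have h5 := Real.add_one_le_exp (1 / (1 - ‖α‖) * ‖Y‖)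
        calc ‖1 + c * (1 - Y)‖ ≤ ‖1 + c‖ * (1 / (1 - ‖α‖) * ‖Y‖ + 1) := by linarith
          _ ≤ _ := by gcongr
      calc ‖Y‖ * ‖1 + c * (1 - Y)‖ ≤ (‖z‖ * Real.exp ((∑ j ∈ Finset.range n, lc α L v j) +
            (1 / (1 - ‖α‖)) * ∑ j ∈ Finset.range n, ‖Z α L z j v‖)) *
            Real.exp (lc α L v n + 1 / (1 - ‖α‖) * ‖Y‖) := by gcongr
        _ = _ := by
          rw [mul_assoc, ← Real.exp_add]
          congr 2
          ring
  induction n using Nat.strong_induction_on with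
  | _ n ih =>
    have hsum : ∑ j ∈ Finset.range n, ‖Z α L z j v‖ ≤ 2 * Real.exp k * r / (1 - Real.exp (-ε)) := by
      calc ∑ j ∈ Finset.range n, ‖Z α L z j v‖ ≤ ∑ j ∈ Finset.range n, 2 * Real.exp k * r * Real.exp (-ε) ^ j :=
            Finset.sum_le_sum fun j hj => ih j (Finset.mem_range.mp hj)
        _ = 2 * Real.exp k * r * ∑ j ∈ Finset.range n, Real.exp (-ε) ^ j := by rw [Finset.mul_sum]
        _ ≤ 2 * Real.exp k * r * (1 - Real.exp (-ε))⁻¹ := by
            gcongr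
            rw [← tsum_geometric_of_lt_one hq0.le hq]
            exact (summable_geometric_of_lt_one hq0.le hq).sum_le_tsum _ (fun i _ => by positivity)
        _ = _ := by rw [div_eq_mul_inv]
    have hexp : 1 / (1 - ‖α‖) * ∑ j ∈ Finset.range n, ‖Z α L z j v‖ ≤ Real.log 2 := by
      have h1q : 0 < 1 - Real.exp (-ε) := by linarith
      calc 1 / (1 - ‖α‖) * ∑ j ∈ Finset.range n, ‖Z α L z j v‖
          ≤ 1 / (1 - ‖α‖) * (2 * Real.exp k * r / (1 - Real.exp (-ε))) := by gcongr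
        _ = Real.log 2 := by
          rw [hr]
          field_simp
    have hS : (∑ j ∈ Finset.range n, lc α L v j) ≤ k - ε * n := by linarith [hv n]
    calc ‖Z α L z n v‖ ≤ ‖z‖ * Real.exp ((∑ j ∈ Finset.range n, lc α L v j) +
          (1 / (1 - ‖α‖)) * ∑ j ∈ Finset.range n, ‖Z α L z j v‖) := hmul n
      _ ≤ r * Real.exp ((k - ε * n) + Real.log 2) := by
          gcongr
      _ = 2 * Real.exp k * r * Real.exp (-ε) ^ n := by
          rw [← Real.exp_nat_mul, Real.exp_add, Real.exp_log (by norm_num : (0 : ℝ) < 2), sub_eq_add_neg, Real.exp_add]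
          rw [show -(ε * (n : ℝ)) = (n : ℝ) * -ε by ring]
          ring

theorem lc_measurable (α : ℂ) (L : ℕ) (n : ℕ) :
    Measurable fun v : ℝ => ∑ j ∈ Finset.range n, lc α L v j := by
  unfold lc
  fun_prop

theorem lc_per (α : ℂ) (L : ℕ) (j : ℕ) (v : ℝ) : lc α L (v + 1) j = lc α L v j := by
  rw [lc_eq, lc_eq]
  have : ((L : ℂ) ^ j * ((v + 1 : ℝ) : ℂ)) = (L : ℂ) ^ j * (v : ℂ) + ((L ^ j : ℕ) : ℂ) := by push_cast; ring
  rw [this, cs_add_nat]

theorem zeroUnif : ZeroUnifSpec := by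
  intro α L hα1 hL he
  set e : ℝ := ∫ t in (0 : ℝ)..1, Real.log ‖1 + α * Real.cos (2 * Real.pi * t)‖ with hedef
  set ε : ℝ := -e / 2 with hεdef
  have hε : 0 < ε := by rw [hεdef]; linarith
  set A : ℕ → Set ℝ := fun k => {v : ℝ | ∃ n : ℕ, (k : ℝ) < (∑ j ∈ Finset.range n, lc α L v j) + ε * n} with hAdef
  have hAm : ∀ k, MeasurableSet (A k) := by
    intro k
    have : A k = ⋃ n : ℕ, {v : ℝ | (k : ℝ) < (∑ j ∈ Finset.range n, lc α L v j) + ε * n} := by
      ext v; simp [hAdef]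
    rw [this]
    refine MeasurableSet.iUnion fun n => ?_
    exact measurableSet_lt measurable_const ((lc_measurable α L n).add_const _)
  have hAp : ∀ k x, x + 1 ∈ A k ↔ x ∈ A k := by
    intro k x
    simp only [hAdef, mem_ofPred_eq, lc_per]
  have hanti : Antitone (fun k => A k ∩ Ioc (0 : ℝ) 1) := by
    intro k m hkm v hv
    obtain ⟨⟨n, hn⟩, h2⟩ := hv
    refine ⟨⟨n, lt_of_le_of_lt ?_ hn⟩, h2⟩
    exact_mod_cast hkm
  have hnull : volume (⋂ k, A k ∩ Ioc (0 : ℝ) 1) = 0 := by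
    have hae := llnSpec α L hα1 hL
    rw [ae_iff] at hae
    refine measure_mono_null ?_ hae
    intro v hv
    rw [mem_ofPred_eq]
    intro hlim
    have h1 := (hlim.eventually_lt_const (show e < -ε by rw [hεdef]; linarith)).and (eventually_gt_atTop 0)
    obtain ⟨N, hN⟩ := h1.exists_forall_of_atTop
    obtain ⟨k, hk⟩ := exists_nat_ge (∑ n ∈ Finset.range N, |(∑ j ∈ Finset.range n, lc α L v j) + ε * n|)
    have h2 := (mem_iInter.mp hv k).1
    obtain ⟨n, hn⟩ := h2
    rcases lt_or_ge n N with h3 | h3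
    · have h4 : |(∑ j ∈ Finset.range n, lc α L v j) + ε * n| ≤
          ∑ n ∈ Finset.range N, |(∑ j ∈ Finset.range n, lc α L v j) + ε * n| :=
        Finset.single_le_sum (f := fun n : ℕ => |(∑ j ∈ Finset.range n, lc α L v j) + ε * n|)
          (fun i _ => abs_nonneg _) (Finset.mem_range.mpr h3)
      have h5 := le_abs_self ((∑ j ∈ Finset.range n, lc α L v j) + ε * n)
      linarith
    · obtain ⟨h4, h5⟩ := hN n h3
      have hnpos : (0 : ℝ) < n := by exact_mod_cast h5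
      rw [div_lt_iff₀ hnpos] at h4
      have h6 : (∑ j ∈ Finset.range n, lc α L v j) = (∑ j ∈ Finset.range n,
        Real.log ‖1 + α * Real.cos (2 * Real.pi * ((L : ℝ) ^ j * v))‖) := rfl
      rw [← h6] at h4
      have h7 : (0 : ℝ) ≤ k := Nat.cast_nonneg k
      linarith
  have hrec := rec_out L (by omega) A hAm hAp (by
    intro ε' hε'
    have hlim := tendsto_measure_iInter_atTop (μ := (volume : Measure ℝ)) (s := fun k => A k ∩ Ioc (0 : ℝ) 1)
      (fun k => ((hAm k).inter measurableSet_Ioc).nullMeasurableSet) hanti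
      ⟨0, ne_top_of_le_ne_top (b := volume (Ioc (0 : ℝ) 1)) (by simp) (measure_mono inter_subset_right)⟩
    rw [hnull] at hlim
    obtain ⟨k, hk⟩ := (hlim.eventually_le_const hε').exists
    exact ⟨k, hk⟩)
  filter_upwards [hrec] with u hu z hz
  obtain ⟨k, hk⟩ := hu
  set r : ℝ := Real.log 2 * (1 - Real.exp (-ε)) * (1 - ‖α‖) / (2 * Real.exp k) with hr
  have hq : Real.exp (-ε) < 1 := by
    rw [Real.exp_lt_one_iff]; linarith
  have hq0 : 0 < Real.exp (-ε) := Real.exp_pos _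
  have hrpos : 0 < r := by
    have h1 : 0 < 1 - Real.exp (-ε) := by linarith
    have h2 : 0 < 1 - ‖α‖ := by linarith
    have h3 : 0 < Real.log 2 := Real.log_pos (by norm_num)
    positivity
  have hzn : Tendsto (fun n => ‖Z α L z n u‖) atTop (𝓝 0) := by
    have := hz.norm
    rwa [norm_zero] at this
  obtain ⟨n, hn1, hn2⟩ := (hk.and_eventually (hzn.eventually_lt_const hrpos)).exists
  have hv : ∀ m : ℕ, (∑ j ∈ Finset.range m, lc α L ((L : ℝ) ^ n * u) j) + ε * m ≤ k := by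
    intro m
    by_contra hcon
    push Not at hcon
    exact hn1 ⟨m, hcon⟩
  refine ⟨{w : ℂ | ‖Z α L w n u‖ < r}, isOpen_lt (continuous_Z_left α L n u).norm continuous_const, hn2, ?_⟩
  intro δ hδ
  have hlim : Tendsto (fun j : ℕ => 2 * Real.exp k * r * Real.exp (-ε) ^ j) atTop (𝓝 0) := by
    have := (tendsto_pow_atTop_nhds_zero_of_lt_one hq0.le hq).const_mul (2 * Real.exp k * r)
    rwa [mul_zero] at this
  obtain ⟨J, hJ⟩ := (hlim.eventually_le_const hδ).exists_forall_of_atTop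
  filter_upwards [eventually_ge_atTop (n + J)] with m hm w hw
  have h1 := zero_attract α hα1 L ε k hε _ hv r hr (Z α L w n u) (le_of_lt hw) (m - n)
  have h2 : Z α L w m u = Z α L (Z α L w n u) (m - n) (((L : ℝ) ^ n * u : ℝ) : ℂ) := by
    have h3 := Z_cocycle α L w n (m - n) u
    have h4 : n + (m - n) = m := by omega
    rw [h4] at h3
    rw [h3]
    push_cast
    rfl
  rw [h2]
  exact le_trans h1 (hJ (m - n) (by omega))

end Kan
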