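import Pool.Agent.Work.MP_ed045b_an.Asm2

/-! Assembly, part 3: Fubini and the final statement. -/

namespace Kan

open MeasureTheory Filter Topology Set
open scoped ENNReal

theorem continuous_Z_joint (α : ℂ) (L : ℕ) (n : ℕ) :
    Continuous (fun p : ℂ × ℝ => Z α L p.1 n (p.2 : ℂ)) := by
  induction n with
  | zero => exact continuous_fst
  | succ n ih =>
    simp only [Z_succ]
    unfold cs
    fun_prop

theorem meas_atTop {X : Type*} [MeasurableSpace X] (G : ℕ → X → ℝ) (hG : ∀ n, Measurable (G n)) :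
    MeasurableSet {p : X | Tendsto (fun n => G n p) atTop atTop} := by
  have h1 : {p : X | Tendsto (fun n => G n p) atTop atTop} =
      ⋂ k : ℕ, ⋃ N : ℕ, ⋂ n : ℕ, ⋂ _ : N ≤ n, {p : X | (k : ℝ) ≤ G n p} := by
    ext u
    simp only [mem_ofPred_eq, mem_iInter, mem_iUnion]
    constructor
    · intro h k
      obtain ⟨N, hN⟩ := (tendsto_atTop.mp h (k : ℝ)).exists_forall_of_atTop
      exact ⟨N, fun n hn => hN n hn⟩
    · intro h
      rw [tendsto_atTop]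
      intro b
      obtain ⟨k, hk⟩ := exists_nat_ge b
      obtain ⟨N, hN⟩ := h k
      filter_upwards [eventually_ge_atTop N] with n hn
      exact le_trans hk (hN n hn)
  rw [h1]
  exact MeasurableSet.iInter fun k => MeasurableSet.iUnion fun N => MeasurableSet.iInter fun n =>
    MeasurableSet.iInter fun _ => measurableSet_le measurable_const (hG n)

theorem meas_nhds {X : Type*} [MeasurableSpace X] (G : ℕ → X → ℂ) (hG : ∀ n, Measurable (G n)) (c : ℂ) :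
    MeasurableSet {p : X | Tendsto (fun n => G n p) atTop (𝓝 c)} := by
  have h1 : {p : X | Tendsto (fun n => G n p) atTop (𝓝 c)} =
      ⋂ k : ℕ, ⋃ N : ℕ, ⋂ n : ℕ, ⋂ _ : N ≤ n, {p : X | ‖G n p - c‖ ≤ 1 / ((k : ℝ) + 1)} := by
    ext u
    simp only [mem_ofPred_eq, mem_iInter, mem_iUnion]
    constructor
    · intro h k
      rw [tendsto_iff_norm_sub_tendsto_zero] at h
      obtain ⟨N, hN⟩ := (h.eventually_le_const (show (0 : ℝ) < 1 / ((k : ℝ) + 1) by positivity)).exists_forall_of_atTop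
      exact ⟨N, fun n hn => hN n hn⟩
    · intro h
      rw [Metric.tendsto_atTop]
      intro ε hε
      obtain ⟨k, hk⟩ := exists_nat_one_div_lt hε
      obtain ⟨N, hN⟩ := h k
      refine ⟨N, fun n hn => ?_⟩
      rw [dist_eq_norm]
      exact lt_of_le_of_lt (hN n hn) hk
  rw [h1]
  exact MeasurableSet.iInter fun k => MeasurableSet.iUnion fun N => MeasurableSet.iInter fun n =>
    MeasurableSet.iInter fun _ => measurableSet_le ((hG n).sub_const c).norm measurable_const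

theorem fubini (p : ℂ → ℝ → Prop) (hp : MeasurableSet {x : ℂ × ℝ | p x.1 x.2}) (h : ∀ z : ℂ, ∀ᵐ u : ℝ, p z u) :
    ∀ᵐ u : ℝ, ∀ᵐ z : ℂ, p z u := by
  rw [← Measure.ae_ae_comm hp]
  exact Eventually.of_forall h

/-- trichotomy at `(α, L)` -/
def TriAt (α : ℂ) (L : ℕ) : Prop :=
  ∀ z : ℂ, ∀ᵐ u : ℝ,
      Tendsto (fun n => ‖Z α L z n u‖) atTop atTop ∨
      Tendsto (fun n => Z α L z n u) atTop (𝓝 0) ∨ Tendsto (fun n => Z α L z n u) atTop (𝓝 1)

/-- the neutral property at `(α, L)` -/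
def NeutralAt (α : ℂ) (L : ℕ) : Prop :=
  (∫ t in (0 : ℝ)..1, Real.log ‖1 + α * Real.cos (2 * Real.pi * t)‖) = 0 → ∀ z : ℂ, ∀ᵐ u : ℝ,
      Tendsto (fun n => Z α L z n u) atTop (𝓝 0) → ∃ n : ℕ, Z α L z n u = 0

theorem tri_ae (α : ℂ) (L : ℕ) (ht : TriAt α L) : ∀ᵐ u : ℝ, ∀ᵐ z : ℂ,
      Tendsto (fun n => ‖Z α L z n u‖) atTop atTop ∨
      Tendsto (fun n => Z α L z n u) atTop (𝓝 0) ∨ Tendsto (fun n => Z α L z n u) atTop (𝓝 1) := by
  apply fubini (fun z u => Tendsto (fun n => ‖Z α L z n u‖) atTop atTop ∨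
      Tendsto (fun n => Z α L z n u) atTop (𝓝 0) ∨ Tendsto (fun n => Z α L z n u) atTop (𝓝 1)) _ ht
  have hm : ∀ n, Measurable (fun p : ℂ × ℝ => Z α L p.1 n (p.2 : ℂ)) := fun n =>
    (continuous_Z_joint α L n).measurable
  exact (meas_atTop (fun n (p : ℂ × ℝ) => ‖Z α L p.1 n (p.2 : ℂ)‖) fun n => (hm n).norm).union
    ((meas_nhds _ hm 0).union (meas_nhds _ hm 1))

theorem neutral_ae (α : ℂ) (L : ℕ) (hN : NeutralAt α L)
    (he : (∫ t in (0 : ℝ)..1, Real.log ‖1 + α * Real.cos (2 * Real.pi * t)‖) = 0) : ∀ᵐ u : ℝ, ∀ᵐ z : ℂ,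
      Tendsto (fun n => Z α L z n u) atTop (𝓝 0) → ∃ n : ℕ, Z α L z n u = 0 := by
  apply fubini (fun z u => Tendsto (fun n => Z α L z n u) atTop (𝓝 0) → ∃ n : ℕ, Z α L z n u = 0) _
    (hN he)
  have hm : ∀ n, Measurable (fun p : ℂ × ℝ => Z α L p.1 n (p.2 : ℂ)) := fun n =>
    (continuous_Z_joint α L n).measurable
  have h1 : {x : ℂ × ℝ | Tendsto (fun n => Z α L x.1 n x.2) atTop (𝓝 0) → ∃ n : ℕ, Z α L x.1 n x.2 = 0} =
      {x : ℂ × ℝ | Tendsto (fun n => Z α L x.1 n x.2) atTop (𝓝 0)}ᶜ ∪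
        ⋃ n : ℕ, {x : ℂ × ℝ | Z α L x.1 n x.2 = 0} := by
    ext x
    simp only [mem_ofPred_eq, mem_union, mem_compl_iff, mem_iUnion]
    tauto
  rw [h1]
  exact (meas_nhds _ hm 0).compl.union (MeasurableSet.iUnion fun n =>
    measurableSet_eq_fun (hm n) measurable_const)

/-- The three kinds of locally uniform behaviour. -/
def Good (α : ℂ) (L : ℕ) (u : ℝ) (z : ℂ) : Prop :=
  ∃ U : Set ℂ, IsOpen U ∧ z ∈ U ∧
    ((∀ R : ℝ, ∀ᶠ n in atTop, ∀ w ∈ U, R ≤ ‖Z α L w n u‖) ∨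
      ∃ a : ℂ, ∀ ε : ℝ, 0 < ε → ∀ᶠ n in atTop, ∀ w ∈ U, ‖Z α L w n u - a‖ ≤ ε)

theorem foldl_eq (α : ℂ) (L : ℕ) (u : ℝ) (n : ℕ) (w : ℂ) :
    (List.range n).foldl
      (fun x j => x + α * ((Real.cos (2 * Real.pi * (L : ℝ) ^ j * u) : ℝ) : ℂ) * x * (1 - x)) w =
    Z α L w n u := by
  induction n with
  | zero => rfl
  | succ n ih =>
    rw [List.range_succ, List.foldl_append, ih]
    simp only [List.foldl_cons, List.foldl_nil]
    rw [Z_succ]
    unfold cs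
    have : (2 * Real.pi * (((L : ℂ) ^ n) * (u : ℂ))) = 2 * Real.pi * (L : ℂ) ^ n * u := by ring
    rw [this]
    push_cast
    ring

theorem chordal_small (a b : ℂ) : 2 * ‖a - b‖ / (Real.sqrt (1 + ‖a‖ ^ 2) * Real.sqrt (1 + ‖b‖ ^ 2)) ≤ 2 * ‖a - b‖ := by
  apply div_le_self (by positivity)
  have h1 : 1 ≤ Real.sqrt (1 + ‖a‖ ^ 2) := by
    rw [Real.one_le_sqrt]; nlinarith [norm_nonneg a]
  have h2 : 1 ≤ Real.sqrt (1 + ‖b‖ ^ 2) := by
    rw [Real.one_le_sqrt]; nlinarith [norm_nonneg b]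
  nlinarith

theorem chordal_large (a b : ℂ) (R : ℝ) (hR : 0 < R) (ha : R ≤ ‖a‖) (hb : R ≤ ‖b‖) :
    2 * ‖a - b‖ / (Real.sqrt (1 + ‖a‖ ^ 2) * Real.sqrt (1 + ‖b‖ ^ 2)) ≤ 4 / R := by
  have h1 : ‖a‖ ≤ Real.sqrt (1 + ‖a‖ ^ 2) := by
    apply Real.le_sqrt_of_sq_le; linarith
  have h2 : ‖b‖ ≤ Real.sqrt (1 + ‖b‖ ^ 2) := by
    apply Real.le_sqrt_of_sq_le; linarith
  have ha0 : 0 < ‖a‖ := lt_of_lt_of_le hR ha
  have hb0 : 0 < ‖b‖ := lt_of_lt_of_le hR hb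
  have h3 : ‖a - b‖ ≤ ‖a‖ + ‖b‖ := norm_sub_le _ _
  calc 2 * ‖a - b‖ / (Real.sqrt (1 + ‖a‖ ^ 2) * Real.sqrt (1 + ‖b‖ ^ 2)) ≤
        2 * (‖a‖ + ‖b‖) / (‖a‖ * ‖b‖) := by gcongr
    _ ≤ 4 / R := by
        rw [div_le_div_iff₀ (by positivity) hR]
        nlinarith [mul_nonneg ha0.le (sub_nonneg.mpr hb), mul_nonneg hb0.le (sub_nonneg.mpr ha)]

theorem good_fatou (α : ℂ) (L : ℕ) (u : ℝ) (z : ℂ) (hg : Good α L u z) (f : ℕ → ℂ → ℂ)
    (hf : ∀ n : ℕ, ∀ w : ℂ, f n w = (List.range n).foldl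
            (fun x j => x + α * ((Real.cos (2 * Real.pi * (L : ℝ) ^ j * u) : ℝ) : ℂ) * x * (1 - x)) w)
    (d : ℂ → ℂ → ℝ)
    (hd : ∀ a b : ℂ, d a b = 2 * ‖a - b‖ / (Real.sqrt (1 + ‖a‖ ^ 2) * Real.sqrt (1 + ‖b‖ ^ 2))) :
    ∃ U : Set ℂ, IsOpen U ∧ z ∈ U ∧
          ∀ φ : ℕ → ℕ, StrictMono φ → ∃ ψ : ℕ → ℕ, StrictMono ψ ∧
            ∀ K : Set ℂ, K ⊆ U → IsCompact K → ∀ ε : ℝ, 0 < ε →
              ∃ N : ℕ, ∀ m ≥ N, ∀ n ≥ N, ∀ w ∈ K,
                d (f (φ (ψ m)) w) (f (φ (ψ n)) w) < ε := by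
  obtain ⟨U, hU, hz, hcase⟩ := hg
  refine ⟨U, hU, hz, fun φ hφ => ⟨id, strictMono_id, fun K hK _ ε hε => ?_⟩⟩
  simp only [hf, foldl_eq, hd, id]
  rcases hcase with h | ⟨a, h⟩
  · obtain ⟨N, hN⟩ := (h (8 / ε)).exists_forall_of_atTop
    refine ⟨N, fun m hm n hn w hw => ?_⟩
    have h1 := hN (φ m) (le_trans hm (hφ.id_le m)) w (hK hw)
    have h2 := hN (φ n) (le_trans hn (hφ.id_le n)) w (hK hw)
    refine lt_of_le_of_lt (chordal_large _ _ (8 / ε) (by positivity) h1 h2) ?_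
    have : 4 / (8 / ε) = ε / 2 := by field_simp; norm_num
    rw [this]
    linarith
  · obtain ⟨N, hN⟩ := (h (ε / 8) (by positivity)).exists_forall_of_atTop
    refine ⟨N, fun m hm n hn w hw => ?_⟩
    have h1 := hN (φ m) (le_trans hm (hφ.id_le m)) w (hK hw)
    have h2 := hN (φ n) (le_trans hn (hφ.id_le n)) w (hK hw)
    refine lt_of_le_of_lt (chordal_small _ _) ?_
    have h3 : ‖Z α L w (φ m) u - Z α L w (φ n) u‖ ≤ ε / 8 + ε / 8 := by
      have : Z α L w (φ m) u - Z α L w (φ n) u = (Z α L w (φ m) u - a) - (Z α L w (φ n) u - a) := by ring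
      rw [this]
      refine le_trans (norm_sub_le _ _) ?_
      linarith
    linarith

/-- For a.e. `u`, the points converging to `0` without being good form a null set. -/
theorem zero_case (α : ℂ) (L : ℕ) (hN : NeutralAt α L) (hα1 : ‖α‖ < 1) (hL : 2 ≤ L) :
    ∀ᵐ u : ℝ, ∀ᵐ z : ℂ, Tendsto (fun n => Z α L z n u) atTop (𝓝 0) → Good α L u z := by
  rcases lt_trichotomy (∫ t in (0 : ℝ)..1, Real.log ‖1 + α * Real.cos (2 * Real.pi * t)‖) 0 with he | he | he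
  · filter_upwards [zeroUnif α L hα1 (by omega) he] with u hu
    refine Eventually.of_forall fun z hz => ?_
    obtain ⟨U, h1, h2, h3⟩ := hu z hz
    exact ⟨U, h1, h2, Or.inr ⟨0, by simpa using h3⟩⟩
  · filter_upwards [neutral_ae α L hN he] with u hu
    have hc : ∀ᵐ z : ℂ, z ∉ {z : ℂ | ∃ n : ℕ, Z α L z n u = 0} :=
      measure_eq_zero_iff_ae_notMem.mp ((countable_hit α hα1 L u 0).measure_zero _)
    filter_upwards [hu, hc] with z h1 h2 h3
    exact absurd (h1 h3) h2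
  · filter_upwards [zeroCount α L hα1 (by omega) he] with u hu
    have hc : ∀ᵐ z : ℂ, z ∉ {z : ℂ | Tendsto (fun n => Z α L z n u) atTop (𝓝 0)} :=
      measure_eq_zero_iff_ae_notMem.mp (hu.measure_zero _)
    filter_upwards [hc] with z h1 h3
    exact absurd h3 h1

theorem one_case (α : ℂ) (L : ℕ) (hN : NeutralAt (-α) L) (hα1 : ‖α‖ < 1) (hL : 2 ≤ L) :
    ∀ᵐ u : ℝ, ∀ᵐ z : ℂ, Tendsto (fun n => Z α L z n u) atTop (𝓝 1) → Good α L u z := by
  have h0 := zero_case (-α) L hN (by simpa using hα1) hL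
  filter_upwards [h0] with u hu
  have hmp : MeasurePreserving (fun z : ℂ => 1 - z) volume volume := by
    exact Measure.measurePreserving_sub_left volume (1 : ℂ)
  have h1 := hmp.quasiMeasurePreserving.ae hu
  filter_upwards [h1] with z hz h2
  have h3 : Tendsto (fun n => Z (-α) L (1 - z) n u) atTop (𝓝 0) := by
    have h4 : ∀ n, Z (-α) L (1 - z) n u = 1 - Z α L z n u := fun n => sym.1 α L z n u
    simp only [h4]
    have := h2.const_sub 1
    rwa [sub_self] at this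
  obtain ⟨U, hU, hzU, hcase⟩ := hz h3
  refine ⟨(fun z : ℂ => 1 - z) ⁻¹' U, hU.preimage (by fun_prop), hzU, ?_⟩
  rcases hcase with h | ⟨a, h⟩
  · left
    intro R
    filter_upwards [h (R + 1)] with n hn w hw
    have h5 := hn (1 - w) hw
    rw [sym.1] at h5
    have h6 : ‖1 - Z α L w n u‖ ≤ 1 + ‖Z α L w n u‖ := by
      have := norm_sub_le 1 (Z α L w n u)
      simpa using this
    linarith
  · right
    refine ⟨1 - a, fun ε hε => ?_⟩
    filter_upwards [h ε hε] with n hn w hw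
    have h5 := hn (1 - w) hw
    rw [sym.1] at h5
    have h6 : Z α L w n u - (1 - a) = -(1 - Z α L w n u - a) := by ring
    rw [h6, norm_neg]
    exact h5

/-- the final statement, from the trichotomy and the neutral property at `(α, L)` -/
theorem final_core (α : ℂ) (L : ℕ) (hα0 : 0 < ‖α‖) (hα1 : ‖α‖ < 1) (hL : 2 ≤ L) (ht : TriAt α L)
    (hN : NeutralAt α L) (hN' : NeutralAt (-α) L) :
    ∀ᵐ u : ℝ ∂(MeasureTheory.volume : MeasureTheory.Measure ℝ),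
      ∀ f : ℕ → ℂ → ℂ,
        (∀ n : ℕ, ∀ w : ℂ, f n w = (List.range n).foldl
            (fun x j => x + α * ((Real.cos (2 * Real.pi * (L : ℝ) ^ j * u) : ℝ) : ℂ) * x * (1 - x)) w) →
      ∀ d : ℂ → ℂ → ℝ,
        (∀ a b : ℂ, d a b = 2 * ‖a - b‖ / (Real.sqrt (1 + ‖a‖ ^ 2) * Real.sqrt (1 + ‖b‖ ^ 2))) →
        MeasureTheory.volume {z : ℂ | ¬ ∃ U : Set ℂ, IsOpen U ∧ z ∈ U ∧
          ∀ φ : ℕ → ℕ, StrictMono φ → ∃ ψ : ℕ → ℕ, StrictMono ψ ∧
            ∀ K : Set ℂ, K ⊆ U → IsCompact K → ∀ ε : ℝ, 0 < ε →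
              ∃ N : ℕ, ∀ m ≥ N, ∀ n ≥ N, ∀ w ∈ K,
                d (f (φ (ψ m)) w) (f (φ (ψ n)) w) < ε} = 0 := by
  filter_upwards [tri_ae α L ht, escUnif α L hα0 hα1 hL, zero_case α L hN hα1 hL,
    one_case α L hN' hα1 hL] with u h1 h2 h3 h4
  intro f hf d hd
  have hgood : ∀ᵐ z : ℂ, Good α L u z := by
    filter_upwards [h1, h3, h4] with z h5 h6 h7
    rcases h5 with h | h | h
    · obtain ⟨U, hU, hz, h8⟩ := h2 z h
      exact ⟨U, hU, hz, Or.inl h8⟩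
    · exact h6 h
    · exact h7 h
  rw [ae_iff] at hgood
  refine measure_mono_null ?_ hgood
  intro z hz
  rw [mem_ofPred_eq] at hz ⊢
  intro hg
  exact hz (good_fatou α L u z hg f hf d hd)

theorem final : FinalSpec := by
  intro α hα0 hα1 L hL he
  refine final_core α L hα0 hα1 (by omega) (tri α L hα0 hα1 hL) (fun h => absurd h he) (fun h => ?_)
  rw [sym.2] at h
  exact absurd h he

theorem full_of_neutral (hN : NeutralSpec) : FullSpec := by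
  intro α hα0 hα1 L hL
  exact final_core α L hα0 hα1 (by omega) (tri α L hα0 hα1 hL) (hN α L hα0 hα1 hL)
    (hN (-α) L (by simpa using hα0) (by simpa using hα1) hL)

end Kan
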