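import Pool.Agent.Work.MP_ed045b_an.Contour

/-! The nested families of good cells. -/

namespace Kan

open MeasureTheory Filter Topology Set

open Classical in
/-- The good cells of generation `n₁ + k`. -/
noncomputable def SS (α : ℂ) (L : ℕ) (z : ℂ) (K : ℝ) (n₁ : ℕ) : ℕ → Finset ℕ
  | 0 => (Finset.range (L ^ n₁)).filter fun i => Bd α L z ((i : ℝ) / (L : ℝ) ^ n₁) n₁ 2 K
  | k + 1 => (Finset.range (L ^ (n₁ + (k + 1)))).filter fun j =>
      j / L ∈ SS α L z K n₁ k ∧ Bd α L z ((j : ℝ) / (L : ℝ) ^ (n₁ + (k + 1))) (n₁ + (k + 1)) 2 K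

theorem SS_lt (α : ℂ) (L : ℕ) (z : ℂ) (K : ℝ) (n₁ k i : ℕ) (hi : i ∈ SS α L z K n₁ k) :
    i < L ^ (n₁ + k) := by
  cases k with
  | zero => simp only [SS, Finset.mem_filter, Finset.mem_range] at hi; simpa using hi.1
  | succ k => simp only [SS, Finset.mem_filter, Finset.mem_range] at hi; exact hi.1

theorem bd_sub {α : ℂ} {L : ℕ} {z : ℂ} {x y : ℝ} {n : ℕ} {r s K : ℝ}
    (h : Bd α L z x n (r + s) K) (hxy : |x - y| ≤ s / (L : ℝ) ^ n) : Bd α L z y n r K := by
  intro w hw
  apply h w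
  have h1 : w - (x : ℂ) = (w - y) + ((y - x : ℝ) : ℂ) := by push_cast; ring
  rw [h1]
  refine le_trans (norm_add_le _ _) ?_
  rw [Complex.norm_real, Real.norm_eq_abs, abs_sub_comm y x, add_div]
  exact add_le_add hw hxy

theorem SS_bd (α : ℂ) (L : ℕ) (hL : 0 < L) (z : ℂ) (K : ℝ) (n₁ k i : ℕ) (hi : i ∈ SS α L z K n₁ k) (x : ℝ)
    (h1 : (i : ℝ) / (L : ℝ) ^ (n₁ + k) ≤ x) (h2 : x ≤ ((i : ℝ) + 1) / (L : ℝ) ^ (n₁ + k)) :
    ∀ m, n₁ ≤ m → m ≤ n₁ + k → Bd α L z x m 1 K := by
  have hL' : (0 : ℝ) < L := by exact_mod_cast hL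
  induction k generalizing i with
  | zero =>
    intro m hm1 hm2
    have hm : m = n₁ := by omega
    subst hm
    simp only [SS, Finset.mem_filter, Finset.mem_range] at hi
    simp only [add_zero] at h1 h2
    have hB : Bd α L z ((i : ℝ) / (L : ℝ) ^ m) m (1 + 1) K := by
      have := hi.2
      norm_num at this ⊢
      exact this
    apply bd_sub hB
    rw [abs_sub_comm, abs_of_nonneg (by linarith), add_div] at *
    linarith
  | succ k ih =>
    intro m hm1 hm2
    simp only [SS, Finset.mem_filter, Finset.mem_range] at hi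
    obtain ⟨hi1, hi2, hi3⟩ := hi
    rcases Nat.lt_or_ge m (n₁ + (k + 1)) with hm | hm
    · apply ih (i / L) hi2 _ _ m hm1 (by omega)
      · refine le_trans ?_ h1
        have h3 : (((i / L : ℕ) : ℝ)) * L ≤ i := by exact_mod_cast Nat.div_mul_le_self i L
        rw [div_le_div_iff₀ (by positivity) (by positivity)]
        have h4 : (L : ℝ) ^ (n₁ + (k + 1)) = L ^ (n₁ + k) * L := by rw [← add_assoc, pow_succ]
        rw [h4]
        calc ((i / L : ℕ) : ℝ) * ((L : ℝ) ^ (n₁ + k) * L) = (((i / L : ℕ) : ℝ) * L) * (L : ℝ) ^ (n₁ + k) := by ring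
          _ ≤ i * (L : ℝ) ^ (n₁ + k) := by gcongr
      · refine le_trans h2 ?_
        have h3 : (i : ℝ) + 1 ≤ (((i / L : ℕ) : ℝ) + 1) * L := by
          have h5 : i + 1 ≤ (i / L + 1) * L := by
            have := Nat.lt_div_mul_add (a := i) hL
            have h6 : (i / L + 1) * L = i / L * L + L := by ring
            omega
          exact_mod_cast h5
        rw [div_le_div_iff₀ (by positivity) (by positivity)]
        have h4 : (L : ℝ) ^ (n₁ + (k + 1)) = L ^ (n₁ + k) * L := by rw [← add_assoc, pow_succ]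
        rw [h4]
        calc ((i : ℝ) + 1) * (L : ℝ) ^ (n₁ + k) ≤ ((((i / L : ℕ) : ℝ) + 1) * L) * (L : ℝ) ^ (n₁ + k) := by gcongr
          _ = (((i / L : ℕ) : ℝ) + 1) * ((L : ℝ) ^ (n₁ + k) * L) := by ring
    · have hm' : m = n₁ + (k + 1) := by omega
      subst hm'
      have hB : Bd α L z ((i : ℝ) / (L : ℝ) ^ (n₁ + (k + 1))) (n₁ + (k + 1)) (1 + 1) K := by
        norm_num at hi3 ⊢
        exact hi3
      apply bd_sub hB
      rw [abs_sub_comm, abs_of_nonneg (by linarith)]
      rw [add_div] at h2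
      linarith

theorem SS_floor (α : ℂ) (L : ℕ) (hL : 0 < L) (z : ℂ) (K : ℝ) (n₁ : ℕ) (u : ℝ) (hu0 : 0 ≤ u) (hu1 : u < 1)
    (h : ∀ n ≥ n₁, Bd α L z u n 3 K) (k : ℕ) : ⌊u * (L : ℝ) ^ (n₁ + k)⌋₊ ∈ SS α L z K n₁ k := by
  have hL' : (0 : ℝ) < L := by exact_mod_cast hL
  have hrange : ∀ n : ℕ, ⌊u * (L : ℝ) ^ n⌋₊ < L ^ n := by
    intro n
    rw [Nat.floor_lt (by positivity)]
    push_cast
    have : (0 : ℝ) < (L : ℝ) ^ n := by positivity
    nlinarith
  have hgood : ∀ n ≥ n₁, Bd α L z ((⌊u * (L : ℝ) ^ n⌋₊ : ℝ) / (L : ℝ) ^ n) n 2 K := by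
    intro n hn
    have h3 := h n hn
    have h3' : Bd α L z u n (2 + 1) K := by norm_num; exact h3
    apply bd_sub h3'
    have hp : (0 : ℝ) < (L : ℝ) ^ n := by positivity
    have h4 := Nat.floor_le (a := u * (L : ℝ) ^ n) (by positivity)
    have h5 := Nat.lt_floor_add_one (u * (L : ℝ) ^ n)
    rw [abs_of_nonneg]
    · rw [sub_le_iff_le_add, ← add_div, le_div_iff₀ hp]
      linarith
    · rw [sub_nonneg, div_le_iff₀ hp]
      exact h4
  induction k with
  | zero =>
    simp only [SS, Finset.mem_filter, Finset.mem_range]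
    exact ⟨hrange _, hgood _ (by omega)⟩
  | succ k ih =>
    simp only [SS, Finset.mem_filter, Finset.mem_range]
    refine ⟨hrange _, ?_, hgood _ (by omega)⟩
    rw [← Nat.floor_div_natCast]
    have : u * (L : ℝ) ^ (n₁ + (k + 1)) / L = u * (L : ℝ) ^ (n₁ + k) := by
      rw [← add_assoc, pow_succ]
      field_simp
    rw [this]
    exact ih

/-- children of the cells in `S` -/
def TT (L : ℕ) (S : Finset ℕ) (M : ℕ) : Finset ℕ := (Finset.range M).filter fun j => j / L ∈ S

theorem mem_TT (L : ℕ) (hL : 0 < L) (S : Finset ℕ) (N : ℕ) (hS : ∀ i ∈ S, i < N) (j : ℕ) :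
    j ∈ TT L S (N * L) ↔ j / L ∈ S := by
  unfold TT
  rw [Finset.mem_filter, Finset.mem_range]
  refine ⟨fun h => h.2, fun h => ⟨?_, h⟩⟩
  exact (Nat.div_lt_iff_lt_mul hL).mp (hS _ h)

theorem sum_TT (L : ℕ) (hL : 0 < L) (S : Finset ℕ) (N : ℕ) (hS : ∀ i ∈ S, i < N) {M : Type*} [AddCommMonoid M]
    (g : ℕ → M) : ∑ j ∈ TT L S (N * L), g j = ∑ i ∈ S, ∑ r ∈ Finset.range L, g (L * i + r) := by
  classical
  rw [← Finset.sum_product']
  symm
  apply Finset.sum_bij' (fun (p : ℕ × ℕ) _ => L * p.1 + p.2) (fun j _ => (j / L, j % L))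
  · rintro ⟨i, r⟩ h
    simp only [Finset.mem_product, Finset.mem_range] at h
    rw [mem_TT L hL S N hS]
    have : (L * i + r) / L = i := by
      rw [Nat.mul_add_div hL, Nat.div_eq_of_lt h.2, add_zero]
    simp only [this]
    exact h.1
  · intro j hj
    rw [mem_TT L hL S N hS] at hj
    simp only [Finset.mem_product, Finset.mem_range]
    exact ⟨hj, Nat.mod_lt _ hL⟩
  · rintro ⟨i, r⟩ h
    simp only [Finset.mem_product, Finset.mem_range] at h
    simp only [Prod.mk.injEq]
    refine ⟨?_, ?_⟩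
    · rw [Nat.mul_add_div hL, Nat.div_eq_of_lt h.2, add_zero]
    · rw [Nat.mul_add_mod, Nat.mod_eq_of_lt h.2]
  · intro j hj
    exact Nat.div_add_mod j L
  · rintro ⟨i, r⟩ h
    rfl

theorem card_TT (L : ℕ) (hL : 0 < L) (S : Finset ℕ) (N : ℕ) (hS : ∀ i ∈ S, i < N) :
    (TT L S (N * L)).card = L * S.card := by
  have := sum_TT L hL S N hS (fun _ => 1)
  simp only [Finset.sum_const, smul_eq_mul, mul_one, Finset.card_range] at this
  rw [this, mul_comm]

theorem bdry_TT (L : ℕ) (hL : 0 < L) (S : Finset ℕ) (N : ℕ) (hS : ∀ i ∈ S, i < N) :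
    bdry (TT L S (N * L)) ≤ bdry S := by
  classical
  unfold bdry
  apply add_le_add
  · apply Finset.card_le_card_of_injOn (fun j => j / L)
    · intro j hj
      simp only [Finset.coe_sdiff, Set.mem_sdiff, Finset.mem_coe, Finset.mem_image] at hj ⊢
      obtain ⟨⟨a, ha, haj⟩, hj2⟩ := hj
      rw [mem_TT L hL S N hS] at ha hj2
      refine ⟨⟨a / L, ha, ?_⟩, hj2⟩
      subst haj
      have h1 : Nat.succ a / L = a / L ∨ Nat.succ a / L = a / L + 1 := by
        rw [Nat.succ_div]
        split_ifs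
        · right; rfl
        · left; rfl
      rcases h1 with h1 | h1
      · rw [h1] at hj2
        exact absurd ha hj2
      · rw [h1]
    · intro j hj j' hj' hjj
      simp only [Finset.coe_sdiff, Set.mem_sdiff, Finset.mem_coe, Finset.mem_image] at hj hj'
      obtain ⟨⟨a, ha, haj⟩, hj2⟩ := hj
      obtain ⟨⟨a', ha', haj'⟩, hj2'⟩ := hj'
      rw [mem_TT L hL S N hS] at ha hj2 ha' hj2'
      simp only at hjj
      have key : ∀ a j, Nat.succ a = j → a / L ∈ S → ¬ (j / L ∈ S) → L ∣ j := by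
        intro a j haj ha hj2
        subst haj
        by_contra hd
        apply hj2
        rw [Nat.succ_div, if_neg hd, add_zero]
        exact ha
      have hd := key a j haj ha hj2
      have hd' := key a' j' haj' ha' hj2'
      rw [← Nat.div_mul_cancel hd, ← Nat.div_mul_cancel hd', hjj]
  · apply Finset.card_le_card_of_injOn (fun j => j / L)
    · intro j hj
      simp only [Finset.coe_sdiff, Set.mem_sdiff, Finset.mem_coe, Finset.mem_image] at hj ⊢
      obtain ⟨hj1, hj2⟩ := hj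
      rw [mem_TT L hL S N hS] at hj1
      refine ⟨hj1, ?_⟩
      rintro ⟨q, hq, hqj⟩
      apply hj2
      have hj0 : 0 < j := by
        rcases Nat.eq_zero_or_pos j with h | h
        · subst h; simp at hqj
        · exact h
      refine ⟨j - 1, ?_, by omega⟩
      rw [mem_TT L hL S N hS]
      have h1 : Nat.succ (j - 1) / L = (j - 1) / L ∨ Nat.succ (j - 1) / L = (j - 1) / L + 1 := by
        rw [Nat.succ_div]
        split_ifs
        · right; rfl
        · left; rfl
      have h2 : Nat.succ (j - 1) = j := by omega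
      rw [h2] at h1
      rcases h1 with h1 | h1
      · rw [← h1]; exact hj1
      · have : (j - 1) / L = q := by omega
        rw [this]; exact hq
    · intro j hj j' hj' hjj
      simp only [Finset.coe_sdiff, Set.mem_sdiff, Finset.mem_coe, Finset.mem_image] at hj hj'
      obtain ⟨hj1, hj2⟩ := hj
      obtain ⟨hj1', hj2'⟩ := hj'
      rw [mem_TT L hL S N hS] at hj1 hj1'
      simp only at hjj
      have key : ∀ j, j / L ∈ S → (¬ ∃ a ∈ TT L S (N * L), Nat.succ a = j) → L ∣ j := by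
        intro j hj1 hj2
        by_contra hd
        have hj0 : 0 < j := by
          rcases Nat.eq_zero_or_pos j with h | h
          · subst h; simp at hd
          · exact h
        apply hj2
        refine ⟨j - 1, ?_, by omega⟩
        rw [mem_TT L hL S N hS]
        have h2 : j - 1 + 1 = j := by omega
        have h3 := Nat.succ_div (a := j - 1) (b := L)
        have h4 : ¬ (L ∣ (j - 1 + 1)) := by
          rw [h2]; exact hd
        rw [if_neg h4, add_zero, h2] at h3
        rw [← h3]; exact hj1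
      have hd := key j hj1 hj2
      have hd' := key j' hj1' hj2'
      rw [← Nat.div_mul_cancel hd, ← Nat.div_mul_cancel hd', hjj]

theorem bdry_sdiff (T D : Finset ℕ) : bdry (T \ D) ≤ bdry T + 2 * D.card := by
  classical
  unfold bdry
  have h1 : (((T \ D).image Nat.succ) \ (T \ D)).card ≤ ((T.image Nat.succ) \ T).card + D.card := by
    refine le_trans (Finset.card_le_card ?_) (Finset.card_union_le _ _)
    intro j hj
    simp only [Finset.mem_sdiff, Finset.mem_image, Finset.mem_union] at hj ⊢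
    obtain ⟨⟨a, ha, haj⟩, hj2⟩ := hj
    by_cases h : j ∈ T
    · right
      by_contra hD
      exact hj2 ⟨h, hD⟩
    · left
      exact ⟨⟨a, ha.1, haj⟩, h⟩
  have h2 : ((T \ D) \ ((T \ D).image Nat.succ)).card ≤ (T \ (T.image Nat.succ)).card + D.card := by
    have h3 : (D.image Nat.succ).card = D.card := Finset.card_image_of_injective _ Nat.succ_injective
    rw [← h3]
    refine le_trans (Finset.card_le_card ?_) (Finset.card_union_le _ _)
    intro j hj
    simp only [Finset.mem_sdiff, Finset.mem_image, Finset.mem_union] at hj ⊢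
    obtain ⟨⟨hj1, hj2⟩, hj3⟩ := hj
    by_cases h : ∃ a ∈ T, Nat.succ a = j
    · obtain ⟨a, ha, haj⟩ := h
      right
      refine ⟨a, ?_, haj⟩
      by_contra hD
      exact hj3 ⟨a, ⟨ha, hD⟩, haj⟩
    · left
      exact ⟨hj1, h⟩
  omega

theorem SS_succ (α : ℂ) (L : ℕ) (z : ℂ) (K : ℝ) (n₁ k : ℕ) :
    ∃ D : Finset ℕ, D ⊆ TT L (SS α L z K n₁ k) (L ^ (n₁ + k) * L) ∧
      SS α L z K n₁ (k + 1) = TT L (SS α L z K n₁ k) (L ^ (n₁ + k) * L) \ D := by
  classical
  refine ⟨TT L (SS α L z K n₁ k) (L ^ (n₁ + k) * L) \ SS α L z K n₁ (k + 1), Finset.sdiff_subset, ?_⟩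
  rw [Finset.sdiff_sdiff_eq_self]
  intro j hj
  simp only [SS, Finset.mem_filter, Finset.mem_range] at hj
  unfold TT
  rw [Finset.mem_filter, Finset.mem_range, ← pow_succ]
  exact ⟨hj.1, hj.2.1⟩

end Kan
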