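import Pool.Agent.Work.MP_ed045b_an.Vert

/-! Contour shift. -/

namespace Kan

open MeasureTheory Filter Topology Set

/-- boundary size of a finite set of indices -/
def bdry (S : Finset ℕ) : ℕ := ((S.image Nat.succ) \ S).card + (S \ (S.image Nat.succ)).card

theorem sum_shift (S : Finset ℕ) (V : ℕ → ℂ) :
    ∑ i ∈ S, (V i - V (i + 1)) = ∑ i ∈ S \ (S.image Nat.succ), V i - ∑ i ∈ (S.image Nat.succ) \ S, V i := by
  classical
  rw [Finset.sum_sub_distrib]
  have h1 : ∑ i ∈ S, V (i + 1) = ∑ i ∈ S.image Nat.succ, V i := by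
    rw [Finset.sum_image]
    intro a _ b _ h
    exact Nat.succ.inj h
  rw [h1, Finset.sum_sdiff_sub_sum_sdiff]

theorem norm_sum_shift (S : Finset ℕ) (V : ℕ → ℂ) (c : ℝ)
    (hV : ∀ i, (i ∈ S ∨ ∃ j ∈ S, i = j + 1) → ‖V i‖ ≤ c) :
    ‖∑ i ∈ S, (V i - V (i + 1))‖ ≤ bdry S * c := by
  classical
  rw [sum_shift]
  refine le_trans (norm_sub_le _ _) ?_
  have h1 : ‖∑ i ∈ S \ (S.image Nat.succ), V i‖ ≤ (S \ (S.image Nat.succ)).card * c := by
    refine le_trans (norm_sum_le _ _) ?_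
    refine le_trans (Finset.sum_le_card_nsmul _ _ c ?_) (by rw [nsmul_eq_mul])
    intro i hi
    exact hV i (Or.inl (Finset.mem_sdiff.mp hi).1)
  have h2 : ‖∑ i ∈ (S.image Nat.succ) \ S, V i‖ ≤ ((S.image Nat.succ) \ S).card * c := by
    refine le_trans (norm_sum_le _ _) ?_
    refine le_trans (Finset.sum_le_card_nsmul _ _ c ?_) (by rw [nsmul_eq_mul])
    intro i hi
    obtain ⟨j, hj, hji⟩ := Finset.mem_image.mp (Finset.mem_sdiff.mp hi).1
    exact hV i (Or.inr ⟨j, hj, hji.symm⟩)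
  unfold bdry
  push_cast
  linarith

theorem rect_identity (F : ℂ → ℂ) (hF : Differentiable ℂ F) (p q T : ℝ) :
    ∫ x in p..q, F x = (∫ x in p..q, F (x + T * Complex.I)) +
      (Complex.I * (∫ y in (0 : ℝ)..T, F (p + y * Complex.I)) -
        Complex.I * (∫ y in (0 : ℝ)..T, F (q + y * Complex.I))) := by
  have h := Complex.integral_boundary_rect_eq_zero_of_differentiableOn F (p : ℂ) (q + T * Complex.I)
    hF.differentiableOn
  simp only [Complex.ofReal_re, Complex.add_re, Complex.mul_re, Complex.I_re, mul_zero,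
    Complex.ofReal_im, Complex.I_im, mul_one, sub_self, add_zero, Complex.add_im, Complex.mul_im,
    zero_add, Complex.ofReal_zero, zero_mul, smul_eq_mul] at h
  linear_combination h

theorem contour_sum (N : ℕ) (hN : 0 < N) (S : Finset ℕ) (hS : ∀ i ∈ S, i < N) (F : ℂ → ℂ)
    (hF : Differentiable ℂ F) (C D : ℝ) (hC : 0 ≤ C) (hD : 0 ≤ D)
    (hgood : ∀ i : ℕ, (i ∈ S ∨ ∃ j ∈ S, i = j + 1) → ∀ y : ℝ, 0 ≤ y →
      ‖F (((i : ℝ) / N : ℝ) + y * Complex.I)‖ ≤ C * Real.exp (-(N * y)))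
    (hall : ∀ x y : ℝ, 0 ≤ y → ‖F (x + y * Complex.I)‖ ≤ D * Real.exp (-y)) :
    ‖∑ i ∈ S, ∫ x in ((i : ℝ) / N)..(((i : ℝ) + 1) / N), F x‖ ≤ (C * bdry S + 1) / N := by
  classical
  have hN' : (0 : ℝ) < N := by exact_mod_cast hN
  obtain ⟨T, hT0, hT⟩ : ∃ T : ℝ, 0 ≤ T ∧ D * Real.exp (-T) ≤ 1 / N := by
    refine ⟨D * N, by positivity, ?_⟩
    rw [le_div_iff₀ hN']
    have h1 : D * N ≤ Real.exp (D * N) := by
      have := Real.add_one_le_exp (D * N); linarith
    have h2 : Real.exp (-(D * N)) * Real.exp (D * N) = 1 := by rw [← Real.exp_add]; simp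
    have h3 : 0 < Real.exp (-(D * N)) := Real.exp_pos _
    nlinarith
  set V : ℕ → ℂ := fun i => Complex.I * ∫ y in (0 : ℝ)..T, F (((i : ℝ) / N : ℝ) + y * Complex.I) with hV
  have hVb : ∀ i, (i ∈ S ∨ ∃ j ∈ S, i = j + 1) → ‖V i‖ ≤ C / N := by
    intro i hi
    rw [hV]
    simp only [norm_mul, Complex.norm_I, one_mul]
    have h1 : ‖∫ y in (0 : ℝ)..T, F (((i : ℝ) / N : ℝ) + y * Complex.I)‖ ≤
        ∫ y in (0 : ℝ)..T, C * Real.exp (-(N * y)) := by
      apply intervalIntegral.norm_integral_le_of_norm_le hT0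
      · filter_upwards with y hy
        exact hgood i hi y hy.1.le
      · exact (by fun_prop : Continuous fun y : ℝ => C * Real.exp (-(N * y))).intervalIntegrable _ _
    refine le_trans h1 ?_
    have h2 : ∫ y in (0 : ℝ)..T, C * Real.exp (-(N * y)) = C * ((1 - Real.exp (-(N * T))) / N) := by
      rw [intervalIntegral.integral_const_mul]
      congr 1
      have h3 : ∀ y ∈ Set.uIcc (0 : ℝ) T, HasDerivAt (fun y : ℝ => -(Real.exp (-(N * y)) / N))
          (Real.exp (-(N * y))) y := by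
        intro y _
        have h4 : HasDerivAt (fun y : ℝ => -((N : ℝ) * y)) (-((N : ℝ) * 1)) y :=
          ((hasDerivAt_id y).const_mul (N : ℝ)).neg
        have h5 := (h4.exp.div_const (N : ℝ)).neg
        convert! h5 using 1
        field_simp
      rw [intervalIntegral.integral_eq_sub_of_hasDerivAt h3]
      · simp
        ring
      · exact (by fun_prop : Continuous fun y : ℝ => Real.exp (-(N * y))).intervalIntegrable _ _
    rw [h2, mul_div_assoc']
    apply div_le_div_of_nonneg_right _ hN'.le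
    have : 0 < Real.exp (-(N * T)) := Real.exp_pos _
    nlinarith
  have hterm : ∀ i ∈ S, ∫ x in ((i : ℝ) / N)..(((i : ℝ) + 1) / N), F x =
      (∫ x in ((i : ℝ) / N)..(((i : ℝ) + 1) / N), F (x + T * Complex.I)) + (V i - V (i + 1)) := by
    intro i _
    rw [rect_identity F hF _ _ T]
    simp only [hV]
    push_cast
    ring
  rw [Finset.sum_congr rfl hterm, Finset.sum_add_distrib]
  refine le_trans (norm_add_le _ _) ?_
  have hA : ‖∑ i ∈ S, ∫ x in ((i : ℝ) / N)..(((i : ℝ) + 1) / N), F (x + T * Complex.I)‖ ≤ 1 / N := by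
    refine le_trans (norm_sum_le _ _) ?_
    have h1 : ∀ i ∈ S, ‖∫ x in ((i : ℝ) / N)..(((i : ℝ) + 1) / N), F (x + T * Complex.I)‖ ≤ 1 / N * (1 / N) := by
      intro i _
      have h2 := intervalIntegral.norm_integral_le_of_norm_le_const (a := (i : ℝ) / N)
        (b := ((i : ℝ) + 1) / N) (C := 1 / N) (f := fun x : ℝ => F (x + T * Complex.I))
        (fun x _ => le_trans (hall x T hT0) hT)
      refine le_trans h2 (le_of_eq ?_)
      have : ((i : ℝ) + 1) / N - i / N = 1 / N := by ring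
      rw [this, abs_of_pos (by positivity)]
    refine le_trans (Finset.sum_le_card_nsmul _ _ _ h1) ?_
    rw [nsmul_eq_mul]
    have hc : (S.card : ℝ) ≤ N := by
      have : S ⊆ Finset.range N := fun i hi => Finset.mem_range.mpr (hS i hi)
      have := Finset.card_le_card this
      rw [Finset.card_range] at this
      exact_mod_cast this
    calc (S.card : ℝ) * (1 / N * (1 / N)) ≤ N * (1 / N * (1 / N)) := by gcongr
      _ = 1 / N := by field_simp
  have hB := norm_sum_shift S V (C / N) hVb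
  calc _ ≤ 1 / (N : ℝ) + bdry S * (C / N) := add_le_add hA hB
    _ = (C * bdry S + 1) / N := by ring

/-- the exponential factor -/
noncomputable def Ex (k : ℝ) (w : ℂ) : ℂ := Complex.exp (2 * Real.pi * Complex.I * k * w)

theorem norm_Ex (k x y : ℝ) : ‖Ex k (x + y * Complex.I)‖ = Real.exp (-(2 * Real.pi * k * y)) := by
  unfold Ex
  rw [Complex.norm_exp]
  congr 1
  have : (2 * Real.pi * Complex.I * k * (x + y * Complex.I) : ℂ) =
      ((-(2 * Real.pi * k * y) : ℝ) : ℂ) + ((2 * Real.pi * k * x : ℝ) : ℂ) * Complex.I := by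
    have hI : Complex.I * Complex.I = -1 := Complex.I_mul_I
    push_cast
    linear_combination (2 * Real.pi * k * y : ℂ) * hI
  rw [this]
  simp

theorem differentiable_Ex (k : ℝ) : Differentiable ℂ (Ex k) := by
  unfold Ex
  fun_prop

noncomputable def F1 (α : ℂ) (L : ℕ) (z : ℂ) (n : ℕ) (w : ℂ) : ℂ :=
  Ex ((L : ℝ) ^ n) w * (Zs α L z n w * Z α L z n w * (1 - Z α L z n w))

noncomputable def F1' (α : ℂ) (L : ℕ) (z : ℂ) (n : ℕ) (w : ℂ) : ℂ :=
  Ex ((L : ℝ) ^ n) w * (Z α L z n w * Zs α L z n w * (1 - Zs α L z n w))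

noncomputable def F2 (α : ℂ) (L : ℕ) (z : ℂ) (n : ℕ) (w : ℂ) : ℂ :=
  Ex (2 * (L : ℝ) ^ n) w * (Z α L z n w * (1 - Z α L z n w) * Zs α L z n w * (1 - Zs α L z n w))

theorem norm_one_sub_le (a : ℂ) : ‖1 - a‖ ≤ 1 + ‖a‖ := by
  refine le_trans (norm_sub_le _ _) ?_
  rw [norm_one]

theorem F_bounds (α : ℂ) (L : ℕ) (z : ℂ) (n : ℕ) (x y A b : ℝ) (hy : 0 ≤ y)
    (h1 : Real.log (1 + ‖Z α L z n (x + y * Complex.I)‖) ≤ b * ((L : ℝ) ^ n * y) + A)
    (h2 : Real.log (1 + ‖Z α L z n (x + (-y : ℝ) * Complex.I)‖) ≤ b * ((L : ℝ) ^ n * y) + A) :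
    ‖F1 α L z n (x + y * Complex.I)‖ ≤ Real.exp (3 * A) * Real.exp ((3 * b - 2 * Real.pi) * ((L : ℝ) ^ n * y)) ∧
    ‖F1' α L z n (x + y * Complex.I)‖ ≤ Real.exp (3 * A) * Real.exp ((3 * b - 2 * Real.pi) * ((L : ℝ) ^ n * y)) ∧
    ‖F2 α L z n (x + y * Complex.I)‖ ≤ Real.exp (4 * A) * Real.exp ((4 * b - 4 * Real.pi) * ((L : ℝ) ^ n * y)) := by
  set Y := (L : ℝ) ^ n * y with hY
  set a := ‖Z α L z n (x + y * Complex.I)‖ with ha
  set a' := ‖Zs α L z n (x + y * Complex.I)‖ with ha'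
  have ha0 : 0 ≤ a := norm_nonneg _
  have ha0' : 0 ≤ a' := norm_nonneg _
  have hsa : 1 + a ≤ Real.exp (b * Y + A) := by
    rw [← Real.log_le_iff_le_exp (by positivity)]; exact h1
  have hsa' : 1 + a' ≤ Real.exp (b * Y + A) := by
    rw [← Real.log_le_iff_le_exp (by positivity), ha', norm_Zs]; exact h2
  have hm : ‖1 - Z α L z n (x + y * Complex.I)‖ ≤ 1 + a := norm_one_sub_le _
  have hm' : ‖1 - Zs α L z n (x + y * Complex.I)‖ ≤ 1 + a' := norm_one_sub_le _
  set e := Real.exp (b * Y + A) with he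
  have he0 : 0 < e := Real.exp_pos _
  refine ⟨?_, ?_, ?_⟩
  · unfold F1
    rw [norm_mul, norm_Ex, norm_mul, norm_mul]
    have h3 : a' * a * ‖1 - Z α L z n (x + y * Complex.I)‖ ≤ e * e * e := by
      gcongr
      · linarith
      · linarith
      · linarith
    have h4 : e * e * e = Real.exp (3 * (b * Y + A)) := by
      rw [he, ← Real.exp_add, ← Real.exp_add]; congr 1; ring
    rw [h4] at h3
    calc _ ≤ Real.exp (-(2 * Real.pi * (L : ℝ) ^ n * y)) * Real.exp (3 * (b * Y + A)) := by gcongr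
      _ = _ := by rw [← Real.exp_add, ← Real.exp_add]; congr 1; rw [hY]; ring
  · unfold F1'
    rw [norm_mul, norm_Ex, norm_mul, norm_mul]
    have h3 : a * a' * ‖1 - Zs α L z n (x + y * Complex.I)‖ ≤ e * e * e := by
      gcongr
      · linarith
      · linarith
      · linarith
    have h4 : e * e * e = Real.exp (3 * (b * Y + A)) := by
      rw [he, ← Real.exp_add, ← Real.exp_add]; congr 1; ring
    rw [h4] at h3
    calc _ ≤ Real.exp (-(2 * Real.pi * (L : ℝ) ^ n * y)) * Real.exp (3 * (b * Y + A)) := by gcongr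
      _ = _ := by rw [← Real.exp_add, ← Real.exp_add]; congr 1; rw [hY]; ring
  · unfold F2
    rw [norm_mul, norm_Ex, norm_mul, norm_mul, norm_mul]
    have h3 : a * ‖1 - Z α L z n (x + y * Complex.I)‖ * a' * ‖1 - Zs α L z n (x + y * Complex.I)‖ ≤
        e * e * e * e := by
      gcongr
      · linarith
      · linarith
      · linarith
      · linarith
    have h4 : e * e * e * e = Real.exp (4 * (b * Y + A)) := by
      rw [he, ← Real.exp_add, ← Real.exp_add, ← Real.exp_add]; congr 1; ring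
    rw [h4] at h3
    calc _ ≤ Real.exp (-(2 * Real.pi * (2 * (L : ℝ) ^ n) * y)) * Real.exp (4 * (b * Y + A)) := by gcongr
      _ = _ := by rw [← Real.exp_add, ← Real.exp_add]; congr 1; rw [hY]; ring

theorem differentiable_F1 (α : ℂ) (L : ℕ) (z : ℂ) (n : ℕ) : Differentiable ℂ (F1 α L z n) := by
  have h1 := differentiable_Z α L z n
  have h2 := differentiable_Zs α L z n
  have h3 := differentiable_Ex ((L : ℝ) ^ n)
  unfold F1
  fun_prop

theorem differentiable_F1' (α : ℂ) (L : ℕ) (z : ℂ) (n : ℕ) : Differentiable ℂ (F1' α L z n) := by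
  have h1 := differentiable_Z α L z n
  have h2 := differentiable_Zs α L z n
  have h3 := differentiable_Ex ((L : ℝ) ^ n)
  unfold F1'
  fun_prop

theorem differentiable_F2 (α : ℂ) (L : ℕ) (z : ℂ) (n : ℕ) : Differentiable ℂ (F2 α L z n) := by
  have h1 := differentiable_Z α L z n
  have h2 := differentiable_Zs α L z n
  have h3 := differentiable_Ex (2 * (L : ℝ) ^ n)
  unfold F2
  fun_prop

end Kan
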