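import Mathlib

/-!
Definitions for the complex Kan skew product (problem MP_ed045b_an).
-/

namespace Kan

open MeasureTheory

/-- `α cos(2π w)` for complex `w`. -/
noncomputable def cs (α : ℂ) (w : ℂ) : ℂ := α * Complex.cos (2 * Real.pi * w)

/-- The orbit `f_w^n(z)`, as a function of the complex base point `w`. -/
noncomputable def Z (α : ℂ) (L : ℕ) (z : ℂ) : ℕ → ℂ → ℂ
  | 0, _ => z
  | n + 1, w => Z α L z n w + cs α ((L : ℂ) ^ n * w) * Z α L z n w * (1 - Z α L z n w)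

/-- The window of radius `r L^{-n}` at the real point `x` is `K`-bounded at time `n`. -/
def Bd (α : ℂ) (L : ℕ) (z : ℂ) (x : ℝ) (n : ℕ) (r K : ℝ) : Prop :=
  ∀ w : ℂ, ‖w - x‖ ≤ r / (L : ℝ) ^ n → Real.log (1 + ‖Z α L z n w‖) ≤ K

end Kan
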