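import Pool.Agent.Work.MP_ed045b_an.Comb

/-! Contour estimates for the three oscillating terms and the pointwise identity. -/

namespace Kan

open MeasureTheory Filter Topology Set

/-- Integral over the cells `i/N, (i+1)/N`, `i ∈ S`. -/
noncomputable def II {E : Type*} [NormedAddCommGroup E] [NormedSpace ℝ E] (S : Finset ℕ) (N : ℕ)
    (g : ℝ → E) : E :=
  ∑ i ∈ S, ∫ x in ((i : ℝ) / N)..(((i : ℝ) + 1) / N), g x

theorem contour_F (α : ℂ) (hα : ‖α‖ ≤ 1) (L : ℕ) (hL : 6 ≤ L) (z : ℂ) (K : ℝ) (hK : 0 ≤ K) (n₁ : ℕ) :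
    ∃ C : ℝ, 0 ≤ C ∧ ∀ k : ℕ,
      ‖II (SS α L z K n₁ k) (L ^ (n₁ + k)) (fun x => F1 α L z (n₁ + k) x)‖ ≤
        (C * bdry (SS α L z K n₁ k) + 1) / ((L ^ (n₁ + k) : ℕ) : ℝ) ∧
      ‖II (SS α L z K n₁ k) (L ^ (n₁ + k)) (fun x => F1' α L z (n₁ + k) x)‖ ≤
        (C * bdry (SS α L z K n₁ k) + 1) / ((L ^ (n₁ + k) : ℕ) : ℝ) ∧
      ‖II (SS α L z K n₁ k) (L ^ (n₁ + k)) (fun x => F2 α L z (n₁ + k) x)‖ ≤
        (C * bdry (SS α L z K n₁ k) + 1) / ((L ^ (n₁ + k) : ℕ) : ℝ) := by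
  have hL' : (6 : ℝ) ≤ L := by exact_mod_cast hL
  have hL0 : 0 < L := by omega
  have hpi3 : 3 < Real.pi := Real.pi_gt_three
  obtain ⟨Cs, hCs, hg⟩ := vert_growth α hα L hL z K hK n₁
  refine ⟨Real.exp (4 * Cs), (Real.exp_pos _).le, ?_⟩
  intro k
  set n := n₁ + k with hn
  set S := SS α L z K n₁ k with hS
  have hSlt : ∀ i ∈ S, i < L ^ n := fun i hi => SS_lt α L z K n₁ k i hi
  have hN : 0 < L ^ n := Nat.pow_pos hL0
  have hcast : ((L ^ n : ℕ) : ℝ) = (L : ℝ) ^ n := by push_cast; ring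
  have hLn1 : (1 : ℝ) ≤ (L : ℝ) ^ n := one_le_pow₀ (by linarith)
  have hexp34 : Real.exp (3 * Cs) ≤ Real.exp (4 * Cs) := Real.exp_le_exp.mpr (by linarith)
  -- growth at the good points
  have hbase : ∀ i : ℕ, (i ∈ S ∨ ∃ j ∈ S, i = j + 1) → ∀ y : ℝ,
      Real.log (1 + ‖Z α L z n (((i : ℝ) / ((L ^ n : ℕ) : ℝ) : ℝ) + y * Complex.I)‖) ≤
        (Real.pi / 2 + 1 / 10) * ((L : ℝ) ^ n * |y|) + Cs := by
    intro i hi y
    apply hg n (by omega)
    rw [hcast]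
    rcases hi with hi | ⟨j, hj, hij⟩
    · apply SS_bd α L hL0 z K n₁ k i hi
      · exact le_refl _
      · apply div_le_div_of_nonneg_right (by linarith) (by positivity)
    · apply SS_bd α L hL0 z K n₁ k j hj
      · subst hij
        push_cast
        apply div_le_div_of_nonneg_right (by linarith) (by positivity)
      · subst hij
        push_cast
        exact le_refl _
  -- crude growth
  have hcrude : ∀ x y : ℝ, Real.log (1 + ‖Z α L z n (x + y * Complex.I)‖) ≤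
      Real.pi / 2 * ((L : ℝ) ^ n * |y|) + 2 ^ n * (Real.log (1 + ‖z‖) + 1) := by
    intro x y
    have h1 := growth_iter α hα L (by omega) z 0 n (x + y * Complex.I)
    rw [zero_add] at h1
    have h3 : Z α L z 0 (x + y * Complex.I) = z := rfl
    rw [h3] at h1
    have him : ((x : ℂ) + y * Complex.I).im = y := by simp
    rw [him] at h1
    have h4 : (L : ℝ) ^ n / (L - 2) ≤ (L : ℝ) ^ n / 4 := by
      apply div_le_div_of_nonneg_left (by positivity) (by norm_num) (by linarith)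
    have h5 : 2 * Real.pi * |y| * ((L : ℝ) ^ n / (L - 2)) ≤ Real.pi / 2 * ((L : ℝ) ^ n * |y|) := by
      calc 2 * Real.pi * |y| * ((L : ℝ) ^ n / (L - 2)) ≤ 2 * Real.pi * |y| * ((L : ℝ) ^ n / 4) := by gcongr
        _ = _ := by ring
    linarith
  set A := (2 : ℝ) ^ n * (Real.log (1 + ‖z‖) + 1) with hA
  have hz0 : 0 ≤ Real.log (1 + ‖z‖) := Real.log_nonneg (by linarith [norm_nonneg z])
  have hA0 : 0 ≤ A := by positivity
  have hexp34' : Real.exp (3 * A) ≤ Real.exp (4 * A) := Real.exp_le_exp.mpr (by linarith)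
  have hgoodF : ∀ i : ℕ, (i ∈ S ∨ ∃ j ∈ S, i = j + 1) → ∀ y : ℝ, 0 ≤ y →
      ‖F1 α L z n (((i : ℝ) / ((L ^ n : ℕ) : ℝ) : ℝ) + y * Complex.I)‖ ≤ Real.exp (4 * Cs) * Real.exp (-(((L ^ n : ℕ) : ℝ) * y)) ∧
      ‖F1' α L z n (((i : ℝ) / ((L ^ n : ℕ) : ℝ) : ℝ) + y * Complex.I)‖ ≤ Real.exp (4 * Cs) * Real.exp (-(((L ^ n : ℕ) : ℝ) * y)) ∧
      ‖F2 α L z n (((i : ℝ) / ((L ^ n : ℕ) : ℝ) : ℝ) + y * Complex.I)‖ ≤ Real.exp (4 * Cs) * Real.exp (-(((L ^ n : ℕ) : ℝ) * y)) := by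
    intro i hi y hy
    have h1 := hbase i hi y
    have h2 := hbase i hi (-y)
    rw [abs_neg] at h2
    rw [abs_of_nonneg hy] at h1 h2
    obtain ⟨a1, a2, a3⟩ := F_bounds α L z n ((i : ℝ) / ((L ^ n : ℕ) : ℝ)) y Cs (Real.pi / 2 + 1 / 10) hy h1 h2
    have hY : 0 ≤ (L : ℝ) ^ n * y := by positivity
    have e1 : Real.exp ((3 * (Real.pi / 2 + 1 / 10) - 2 * Real.pi) * ((L : ℝ) ^ n * y)) ≤
        Real.exp (-(((L ^ n : ℕ) : ℝ) * y)) := by
      apply Real.exp_le_exp.mpr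
      rw [hcast]
      nlinarith
    have e2 : Real.exp ((4 * (Real.pi / 2 + 1 / 10) - 4 * Real.pi) * ((L : ℝ) ^ n * y)) ≤
        Real.exp (-(((L ^ n : ℕ) : ℝ) * y)) := by
      apply Real.exp_le_exp.mpr
      rw [hcast]
      nlinarith
    refine ⟨le_trans a1 ?_, le_trans a2 ?_, le_trans a3 ?_⟩
    · gcongr
    · gcongr
    · gcongr
  have hallF : ∀ x y : ℝ, 0 ≤ y →
      ‖F1 α L z n (x + y * Complex.I)‖ ≤ Real.exp (4 * A) * Real.exp (-y) ∧
      ‖F1' α L z n (x + y * Complex.I)‖ ≤ Real.exp (4 * A) * Real.exp (-y) ∧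
      ‖F2 α L z n (x + y * Complex.I)‖ ≤ Real.exp (4 * A) * Real.exp (-y) := by
    intro x y hy
    have h1 := hcrude x y
    have h2 := hcrude x (-y)
    rw [abs_neg] at h2
    rw [abs_of_nonneg hy] at h1 h2
    obtain ⟨a1, a2, a3⟩ := F_bounds α L z n x y A (Real.pi / 2) hy h1 h2
    have hY : y ≤ (L : ℝ) ^ n * y := by nlinarith
    have e1 : Real.exp ((3 * (Real.pi / 2) - 2 * Real.pi) * ((L : ℝ) ^ n * y)) ≤ Real.exp (-y) := by
      apply Real.exp_le_exp.mpr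
      nlinarith
    have e2 : Real.exp ((4 * (Real.pi / 2) - 4 * Real.pi) * ((L : ℝ) ^ n * y)) ≤ Real.exp (-y) := by
      apply Real.exp_le_exp.mpr
      nlinarith
    refine ⟨le_trans a1 ?_, le_trans a2 ?_, le_trans a3 ?_⟩
    · gcongr
    · gcongr
    · gcongr
  refine ⟨?_, ?_, ?_⟩
  · exact contour_sum (L ^ n) hN S hSlt (F1 α L z n) (differentiable_F1 α L z n) _ _
      (Real.exp_pos _).le (Real.exp_pos _).le (fun i hi y hy => (hgoodF i hi y hy).1)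
      (fun x y hy => (hallF x y hy).1)
  · exact contour_sum (L ^ n) hN S hSlt (F1' α L z n) (differentiable_F1' α L z n) _ _
      (Real.exp_pos _).le (Real.exp_pos _).le (fun i hi y hy => (hgoodF i hi y hy).2.1)
      (fun x y hy => (hallF x y hy).2.1)
  · exact contour_sum (L ^ n) hN S hSlt (F2 α L z n) (differentiable_F2 α L z n) _ _
      (Real.exp_pos _).le (Real.exp_pos _).le (fun i hi y hy => (hgoodF i hi y hy).2.2)
      (fun x y hy => (hallF x y hy).2.2)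

/-- Pointwise energy identity on the real line. -/
theorem energy_identity (α : ℂ) (L : ℕ) (z : ℂ) (n : ℕ) (x : ℝ) :
    ‖Z α L z (n + 1) x‖ ^ 2 = ‖Z α L z n x‖ ^ 2 + (α * F1 α L z n x).re +
      ((starRingEnd ℂ) α * F1' α L z n x).re + ‖α‖ ^ 2 / 2 * ‖Z α L z n x * (1 - Z α L z n x)‖ ^ 2 +
      ‖α‖ ^ 2 / 2 * (F2 α L z n x).re := by
  set ζ := Z α L z n x with hζ
  set θ : ℝ := 2 * Real.pi * ((L : ℝ) ^ n * x) with hθ
  have hc : cs α ((L : ℂ) ^ n * x) = α * (Real.cos θ : ℂ) := by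
    unfold cs
    rw [Complex.ofReal_cos]
    congr 2
    rw [hθ]; push_cast; ring
  have hE : Ex ((L : ℝ) ^ n) x = (Real.cos θ : ℂ) + (Real.sin θ : ℂ) * Complex.I := by
    unfold Ex
    rw [Complex.ofReal_cos, Complex.ofReal_sin, ← Complex.exp_mul_I]
    congr 1
    rw [hθ]; push_cast; ring
  have hE2 : Ex (2 * (L : ℝ) ^ n) x = ((Real.cos θ : ℂ) + (Real.sin θ : ℂ) * Complex.I) ^ 2 := by
    rw [← hE]
    unfold Ex
    rw [← Complex.exp_nat_mul]
    congr 1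
    push_cast; ring
  have hZ1 : Z α L z (n + 1) x = ζ + α * (Real.cos θ : ℂ) * ζ * (1 - ζ) := by
    show Z α L z n x + cs α ((L : ℂ) ^ n * x) * Z α L z n x * (1 - Z α L z n x) = _
    rw [hc]
  have hF1 : F1 α L z n x = ((Real.cos θ : ℂ) + (Real.sin θ : ℂ) * Complex.I) *
      ((starRingEnd ℂ) ζ * ζ * (1 - ζ)) := by
    unfold F1
    rw [hE, Zs_real]
  have hF1' : F1' α L z n x = ((Real.cos θ : ℂ) + (Real.sin θ : ℂ) * Complex.I) *
      (ζ * (starRingEnd ℂ) ζ * (1 - (starRingEnd ℂ) ζ)) := by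
    unfold F1'
    rw [hE, Zs_real]
  have hF2 : F2 α L z n x = ((Real.cos θ : ℂ) + (Real.sin θ : ℂ) * Complex.I) ^ 2 *
      (ζ * (1 - ζ) * (starRingEnd ℂ) ζ * (1 - (starRingEnd ℂ) ζ)) := by
    unfold F2
    rw [hE2, Zs_real]
  have hcs : Real.cos θ ^ 2 + Real.sin θ ^ 2 = 1 := Real.cos_sq_add_sin_sq θ
  rw [hZ1, hF1, hF1', hF2]
  generalize Real.cos θ = C at *
  generalize Real.sin θ = s at *
  clear_value ζ
  rw [← Complex.normSq_eq_norm_sq, ← Complex.normSq_eq_norm_sq, ← Complex.normSq_eq_norm_sq,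
    ← Complex.normSq_eq_norm_sq]
  simp only [Complex.normSq_apply, Complex.add_re, Complex.add_im, Complex.mul_re, Complex.mul_im,
    Complex.sub_re, Complex.sub_im, Complex.one_re, Complex.one_im, Complex.conj_re, Complex.conj_im,
    Complex.ofReal_re, Complex.ofReal_im, Complex.I_re, Complex.I_im, pow_two]
  linear_combination ((α.re * α.re + α.im * α.im) / 2 * ((ζ.re * ζ.re + ζ.im * ζ.im) *
    ((1 - ζ.re) * (1 - ζ.re) + ζ.im * ζ.im))) * hcs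

end Kan
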