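import Pool.Agent.Work.MP_ed045b_an.Energy1

/-! The energy inequality. -/

namespace Kan

open MeasureTheory Filter Topology Set

theorem II_TT (L : ℕ) (hL : 0 < L) (S : Finset ℕ) (N : ℕ) (hN : 0 < N) (hS : ∀ i ∈ S, i < N) (g : ℝ → ℝ)
    (hg : Continuous g) : II (TT L S (N * L)) (N * L) g = II S N g := by
  have hL' : (0 : ℝ) < L := by exact_mod_cast hL
  have hN' : (0 : ℝ) < N := by exact_mod_cast hN
  unfold II
  rw [sum_TT L hL S N hS]
  apply Finset.sum_congr rfl
  intro i _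
  have h := intervalIntegral.sum_integral_adjacent_intervals (f := g) (μ := volume)
    (a := fun r : ℕ => ((L * i + r : ℕ) : ℝ) / ((N * L : ℕ) : ℝ)) (n := L)
    (fun k _ => hg.intervalIntegrable _ _)
  have h0 : ((L * i + 0 : ℕ) : ℝ) / ((N * L : ℕ) : ℝ) = (i : ℝ) / N := by
    push_cast
    field_simp
    ring
  have h1 : ((L * i + L : ℕ) : ℝ) / ((N * L : ℕ) : ℝ) = ((i : ℝ) + 1) / N := by
    push_cast
    field_simp
  simp only [h0, h1] at h
  rw [← h]
  apply Finset.sum_congr rfl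
  intro r _
  congr 1
  push_cast
  ring

theorem II_mono (S : Finset ℕ) (N : ℕ) (f g : ℝ → ℝ) (hf : Continuous f) (hg : Continuous g)
    (h : ∀ i ∈ S, ∀ x : ℝ, (i : ℝ) / N ≤ x → x ≤ ((i : ℝ) + 1) / N → f x ≤ g x) : II S N f ≤ II S N g := by
  unfold II
  apply Finset.sum_le_sum
  intro i hi
  apply intervalIntegral.integral_mono_on
  · apply div_le_div_of_nonneg_right (by linarith) (Nat.cast_nonneg N)
  · exact hf.intervalIntegrable _ _
  · exact hg.intervalIntegrable _ _
  · intro x hx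
    exact h i hi x hx.1 hx.2

theorem II_const (S : Finset ℕ) (N : ℕ) (c : ℝ) : II S N (fun _ => c) = S.card * c / N := by
  unfold II
  simp only [intervalIntegral.integral_const, smul_eq_mul]
  have : ∀ i ∈ S, (((i : ℝ) + 1) / N - i / N) * c = c / N := by
    intro i _
    ring
  rw [Finset.sum_congr rfl this, Finset.sum_const, nsmul_eq_mul]
  ring

theorem energy_integrated (α : ℂ) (L : ℕ) (z : ℂ) (n : ℕ) (S : Finset ℕ) (N : ℕ) :
    II S N (fun x => ‖Z α L z (n + 1) x‖ ^ 2) = II S N (fun x => ‖Z α L z n x‖ ^ 2) +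
        (α * II S N (fun x => F1 α L z n x)).re +
        ((starRingEnd ℂ) α * II S N (fun x => F1' α L z n x)).re +
        ‖α‖ ^ 2 / 2 * II S N (fun x => ‖Z α L z n x * (1 - Z α L z n x)‖ ^ 2) +
        ‖α‖ ^ 2 / 2 * (II S N (fun x => F2 α L z n x)).re := by
  have hZc : Continuous fun x : ℝ => Z α L z n x :=
    (differentiable_Z α L z n).continuous.comp Complex.continuous_ofReal
  have hcF1 : Continuous fun x : ℝ => F1 α L z n x :=
    (differentiable_F1 α L z n).continuous.comp Complex.continuous_ofReal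
  have hcF1' : Continuous fun x : ℝ => F1' α L z n x :=
    (differentiable_F1' α L z n).continuous.comp Complex.continuous_ofReal
  have hcF2 : Continuous fun x : ℝ => F2 α L z n x :=
    (differentiable_F2 α L z n).continuous.comp Complex.continuous_ofReal
  have c0 : Continuous fun x : ℝ => ‖Z α L z n x‖ ^ 2 := (continuous_norm.comp hZc).pow 2
  have c1 : Continuous fun x : ℝ => (α * F1 α L z n x).re :=
    Complex.continuous_re.comp (continuous_const.mul hcF1)
  have c2 : Continuous fun x : ℝ => ((starRingEnd ℂ) α * F1' α L z n x).re :=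
    Complex.continuous_re.comp (continuous_const.mul hcF1')
  have c3 : Continuous fun x : ℝ => ‖α‖ ^ 2 / 2 * ‖Z α L z n x * (1 - Z α L z n x)‖ ^ 2 :=
    continuous_const.mul ((continuous_norm.comp (hZc.mul (continuous_const.sub hZc))).pow 2)
  have c4 : Continuous fun x : ℝ => ‖α‖ ^ 2 / 2 * (F2 α L z n x).re :=
    continuous_const.mul (Complex.continuous_re.comp hcF2)
  have j1 : Continuous fun x : ℝ => ‖Z α L z n x‖ ^ 2 + (α * F1 α L z n x).re := c0.add c1
  have j2 : Continuous fun x : ℝ => ‖Z α L z n x‖ ^ 2 + (α * F1 α L z n x).re +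
      ((starRingEnd ℂ) α * F1' α L z n x).re := j1.add c2
  have j3 : Continuous fun x : ℝ => ‖Z α L z n x‖ ^ 2 + (α * F1 α L z n x).re +
      ((starRingEnd ℂ) α * F1' α L z n x).re +
      ‖α‖ ^ 2 / 2 * ‖Z α L z n x * (1 - Z α L z n x)‖ ^ 2 := j2.add c3
  have hre : ∀ (F : ℝ → ℂ), Continuous F → ∀ (c : ℂ) (a b : ℝ), (c * ∫ x in a..b, F x).re =
      ∫ x in a..b, (c * F x).re := by
    intro F hFc c a b
    rw [← intervalIntegral.integral_const_mul]
    have hi : IntervalIntegrable (fun x => c * F x) volume a b :=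
      (continuous_const.mul hFc).intervalIntegrable _ _
    have := Complex.reCLM.intervalIntegral_comp_comm hi
    simp only [Complex.reCLM_apply] at this
    exact this.symm
  simp only [II, Finset.mul_sum, Complex.re_sum]
  rw [← Finset.sum_add_distrib, ← Finset.sum_add_distrib, ← Finset.sum_add_distrib,
    ← Finset.sum_add_distrib]
  apply Finset.sum_congr rfl
  intro i _
  have hre2 : (∫ x in ((i : ℝ) / N)..(((i : ℝ) + 1) / N), F2 α L z n x).re =
      ∫ x in ((i : ℝ) / N)..(((i : ℝ) + 1) / N), (F2 α L z n x).re := by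
    have := hre _ hcF2 1 ((i : ℝ) / N) (((i : ℝ) + 1) / N)
    simpa using this
  rw [hre _ hcF1, hre _ hcF1', hre2, ← intervalIntegral.integral_const_mul,
    ← intervalIntegral.integral_const_mul,
    ← intervalIntegral.integral_add (c0.intervalIntegrable _ _) (c1.intervalIntegrable _ _),
    ← intervalIntegral.integral_add (j1.intervalIntegrable _ _) (c2.intervalIntegrable _ _),
    ← intervalIntegral.integral_add (j2.intervalIntegrable _ _) (c3.intervalIntegrable _ _),
    ← intervalIntegral.integral_add (j3.intervalIntegrable _ _) (c4.intervalIntegrable _ _)]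
  congr 1
  ext x
  exact energy_identity α L z n x

theorem energy_step (α : ℂ) (hα : ‖α‖ ≤ 1) (L : ℕ) (hL : 6 ≤ L) (z : ℂ) (K : ℝ) (hK : 0 ≤ K) (n₁ : ℕ) :
    ∃ (M : ℝ) (e σ v : ℕ → ℝ), 0 ≤ M ∧ (∀ k, 0 ≤ e k ∧ e k ≤ M ∧ 0 ≤ σ k ∧ σ k ≤ 1 ∧ 0 ≤ v k) ∧
      (∀ k, v (k + 1) ≤ v k / 2 + 2 * (σ k - σ (k + 1))) ∧
      ∀ k, ‖α‖ ^ 2 / 2 * II (SS α L z K n₁ k) (L ^ (n₁ + k))
          (fun x => ‖Z α L z (n₁ + k) x * (1 - Z α L z (n₁ + k) x)‖ ^ 2) ≤
        e (k + 1) - e k + M * (σ k - σ (k + 1)) + M * v k + 3 / (L : ℝ) ^ (n₁ + k) := by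
  have hL' : (6 : ℝ) ≤ L := by exact_mod_cast hL
  have hL0 : 0 < L := by omega
  obtain ⟨C, hC, hF⟩ := contour_F α hα L hL z K hK n₁
  set B : ℝ := 9 * Real.exp K ^ 4 with hB
  have hexpK : 1 ≤ Real.exp K := Real.one_le_exp hK
  have hB1 : 1 ≤ B := by
    have : 1 ≤ Real.exp K ^ 4 := one_le_pow₀ hexpK
    linarith
  set N : ℕ → ℕ := fun k => L ^ (n₁ + k) with hNdef
  have hNpos : ∀ k, 0 < N k := fun k => Nat.pow_pos hL0
  have hNpos' : ∀ k, (0 : ℝ) < N k := fun k => by exact_mod_cast hNpos k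
  have hNsucc : ∀ k, N (k + 1) = N k * L := fun k => by
    simp only [hNdef]; rw [← add_assoc, pow_succ]
  have hNcast : ∀ k, (N k : ℝ) = (L : ℝ) ^ (n₁ + k) := fun k => by simp only [hNdef]; push_cast; ring
  set e : ℕ → ℝ := fun k => II (SS α L z K n₁ k) (N k) (fun x => ‖Z α L z (n₁ + k) x‖ ^ 2) with he
  set σ : ℕ → ℝ := fun k => ((SS α L z K n₁ k).card : ℝ) / N k with hσ
  set v : ℕ → ℝ := fun k => (bdry (SS α L z K n₁ k) : ℝ) / N k with hv
  have hcZ : ∀ m, Continuous fun x : ℝ => ‖Z α L z m x‖ ^ 2 := fun m => by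
    have := continuous_Z α L z m
    fun_prop
  -- bounds on cells
  have hcell : ∀ k, ∀ i ∈ SS α L z K n₁ k, ∀ x : ℝ, (i : ℝ) / N k ≤ x → x ≤ ((i : ℝ) + 1) / N k →
      1 + ‖Z α L z (n₁ + k) x‖ ≤ Real.exp K := by
    intro k i hi x h1 h2
    rw [hNcast] at h1 h2
    have hb := SS_bd α L hL0 z K n₁ k i hi x h1 h2 (n₁ + k) (by omega) (le_refl _) x
      (by simp)
    rw [← Real.log_le_iff_le_exp (by positivity)]
    exact hb
  have hcellB : ∀ k, ∀ i ∈ SS α L z K n₁ k, ∀ x : ℝ, (i : ℝ) / N k ≤ x → x ≤ ((i : ℝ) + 1) / N k →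
      ‖Z α L z (n₁ + k) x‖ ^ 2 ≤ B ∧ ‖Z α L z (n₁ + k + 1) x‖ ^ 2 ≤ B := by
    intro k i hi x h1 h2
    have h3 := hcell k i hi x h1 h2
    have hn0 := norm_nonneg (Z α L z (n₁ + k) x)
    set E := Real.exp K with hE
    set t := ‖Z α L z (n₁ + k) x‖ with ht
    have ht1 : t ≤ E := by linarith
    have hEE : E ^ 2 ≤ E ^ 4 := pow_le_pow_right₀ hexpK (by norm_num)
    constructor
    · calc t ^ 2 ≤ E ^ 2 := by gcongr
        _ ≤ E ^ 4 := hEE
        _ ≤ 9 * E ^ 4 := by nlinarith [pow_pos (Real.exp_pos K) 4]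
    · have h4 : ‖Z α L z (n₁ + k + 1) x‖ ≤ 3 * E ^ 2 := by
        have h5 : Z α L z (n₁ + k + 1) x = Z α L z (n₁ + k) x +
            cs α ((L : ℂ) ^ (n₁ + k) * x) * Z α L z (n₁ + k) x * (1 - Z α L z (n₁ + k) x) := rfl
        rw [h5]
        refine le_trans (norm_add_le _ _) ?_
        rw [norm_mul, norm_mul]
        have h6 : ‖cs α ((L : ℂ) ^ (n₁ + k) * x)‖ ≤ 1 := by
          have : ((L : ℂ) ^ (n₁ + k) * x) = (((L : ℝ) ^ (n₁ + k) * x : ℝ) : ℂ) := by push_cast; ring
          rw [this]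
          exact le_trans (norm_cs_real_le α _) hα
        have h7 : ‖1 - Z α L z (n₁ + k) x‖ ≤ 1 + t := norm_one_sub_le _
        calc t + ‖cs α ((L : ℂ) ^ (n₁ + k) * x)‖ * t * ‖1 - Z α L z (n₁ + k) x‖ ≤
            t + 1 * t * (1 + t) := by gcongr
          _ ≤ E + 1 * E * E := by
            gcongr
          _ ≤ 3 * E ^ 2 := by nlinarith
      calc ‖Z α L z (n₁ + k + 1) x‖ ^ 2 ≤ (3 * E ^ 2) ^ 2 := by gcongr
        _ = 9 * E ^ 4 := by ring
  have hcard : ∀ k, ((SS α L z K n₁ k).card : ℝ) ≤ N k := by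
    intro k
    have : SS α L z K n₁ k ⊆ Finset.range (N k) := fun i hi =>
      Finset.mem_range.mpr (SS_lt α L z K n₁ k i hi)
    have := Finset.card_le_card this
    rw [Finset.card_range] at this
    exact_mod_cast this
  have hσ1 : ∀ k, 0 ≤ σ k ∧ σ k ≤ 1 := by
    intro k
    refine ⟨by simp only [hσ]; positivity, ?_⟩
    simp only [hσ]
    rw [div_le_one (hNpos' k)]
    exact hcard k
  set M : ℝ := B + 3 * C with hM
  have hM0 : 0 ≤ M := by positivity
  -- the relation between generations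
  have hstep : ∀ k, ∃ D : Finset ℕ, D ⊆ TT L (SS α L z K n₁ k) (N k * L) ∧
      SS α L z K n₁ (k + 1) = TT L (SS α L z K n₁ k) (N k * L) \ D ∧
      (D.card : ℝ) / N (k + 1) = σ k - σ (k + 1) := by
    intro k
    obtain ⟨D, hD, hD2⟩ := SS_succ α L z K n₁ k
    refine ⟨D, hD, hD2, ?_⟩
    have h1 : (SS α L z K n₁ (k + 1)).card + D.card = L * (SS α L z K n₁ k).card := by
      rw [hD2, Finset.card_sdiff_add_card_eq_card hD]
      exact card_TT L hL0 _ (N k) (fun i hi => SS_lt α L z K n₁ k i hi)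
    have h2 : ((SS α L z K n₁ (k + 1)).card : ℝ) + D.card = L * (SS α L z K n₁ k).card := by
      exact_mod_cast h1
    simp only [hσ]
    rw [hNsucc]
    push_cast
    have := hNpos' k
    field_simp
    linarith
  refine ⟨M, e, σ, v, hM0, ?_, ?_, ?_⟩
  · intro k
    refine ⟨?_, ?_, (hσ1 k).1, (hσ1 k).2, by simp only [hv]; positivity⟩
    · have h1 := II_mono (SS α L z K n₁ k) (N k) (fun _ => (0 : ℝ)) (fun x => ‖Z α L z (n₁ + k) x‖ ^ 2)
        continuous_const (hcZ _) (fun i _ x _ _ => by positivity)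
      rw [II_const] at h1
      simpa using h1
    · have h1 := II_mono (SS α L z K n₁ k) (N k) (fun x => ‖Z α L z (n₁ + k) x‖ ^ 2) (fun _ => B)
        (hcZ _) continuous_const (fun i hi x h1 h2 => (hcellB k i hi x h1 h2).1)
      rw [II_const] at h1
      refine le_trans h1 ?_
      have h2 : ((SS α L z K n₁ k).card : ℝ) * B / N k ≤ B := by
        rw [div_le_iff₀ (hNpos' k)]
        have := hcard k
        nlinarith
      refine le_trans h2 ?_
      rw [hM]; linarith
  · intro k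
    obtain ⟨D, hD, hD2, hD3⟩ := hstep k
    have h1 : bdry (SS α L z K n₁ (k + 1)) ≤ bdry (SS α L z K n₁ k) + 2 * D.card := by
      rw [hD2]
      refine le_trans (bdry_sdiff _ _) ?_
      have := bdry_TT L hL0 (SS α L z K n₁ k) (N k) (fun i hi => SS_lt α L z K n₁ k i hi)
      omega
    have h2 : (bdry (SS α L z K n₁ (k + 1)) : ℝ) ≤ bdry (SS α L z K n₁ k) + 2 * D.card := by
      exact_mod_cast h1
    rw [← hD3]
    simp only [hv]
    have h3 := hNpos' (k + 1)
    have h4 := hNpos' k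
    have h5 : (bdry (SS α L z K n₁ k) : ℝ) / N (k + 1) ≤ (bdry (SS α L z K n₁ k) : ℝ) / N k / 2 := by
      rw [div_div]
      apply div_le_div_of_nonneg_left (by positivity) (by positivity)
      rw [hNsucc]
      push_cast
      nlinarith
    calc (bdry (SS α L z K n₁ (k + 1)) : ℝ) / N (k + 1) ≤
        ((bdry (SS α L z K n₁ k) : ℝ) + 2 * D.card) / N (k + 1) := by gcongr
      _ = (bdry (SS α L z K n₁ k) : ℝ) / N (k + 1) + 2 * (D.card / N (k + 1)) := by ring
      _ ≤ _ := by linarith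
  · intro k
    obtain ⟨D, hD, hD2, hD3⟩ := hstep k
    obtain ⟨f1, f2, f3⟩ := hF k
    set S := SS α L z K n₁ k with hS
    set n := n₁ + k with hn
    set ψ : ℝ → ℝ := fun x => ‖Z α L z n x * (1 - Z α L z n x)‖ ^ 2 with hψ
    have hI : II S (N k) (fun x => ‖Z α L z (n + 1) x‖ ^ 2) = e k +
        (α * II S (N k) (fun x => F1 α L z n x)).re +
        ((starRingEnd ℂ) α * II S (N k) (fun x => F1' α L z n x)).re +
        ‖α‖ ^ 2 / 2 * II S (N k) ψ + ‖α‖ ^ 2 / 2 * (II S (N k) (fun x => F2 α L z n x)).re :=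
      energy_integrated α L z n S (N k)
    have hII1 : II S (N k) (fun x => ‖Z α L z (n + 1) x‖ ^ 2) ≤ e (k + 1) + B * (σ k - σ (k + 1)) := by
      rw [← II_TT L hL0 S (N k) (hNpos k) (fun i hi => SS_lt α L z K n₁ k i hi) _ (hcZ (n + 1))]
      have h1 : II (TT L S (N k * L)) (N k * L) (fun x => ‖Z α L z (n + 1) x‖ ^ 2) =
          II D (N (k + 1)) (fun x => ‖Z α L z (n + 1) x‖ ^ 2) + e (k + 1) := by
        rw [← hNsucc]
        simp only [he, II]
        rw [hD2, hNsucc]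
        have := Finset.sum_sdiff (f := fun i : ℕ => ∫ x in ((i : ℝ) / ((N k * L : ℕ) : ℝ))..(((i : ℝ) + 1) / ((N k * L : ℕ) : ℝ)),
          ‖Z α L z (n + 1) x‖ ^ 2) hD
        rw [← this]
        have hnn : n + 1 = n₁ + (k + 1) := by omega
        rw [hnn]
        ring
      rw [h1]
      have h2 : II D (N (k + 1)) (fun x => ‖Z α L z (n + 1) x‖ ^ 2) ≤ II D (N (k + 1)) (fun _ => B) := by
        apply II_mono _ _ _ _ (hcZ _) continuous_const
        intro j hj x hx1 hx2
        have hj' := hD hj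
        rw [mem_TT L hL0 S (N k) (fun i hi => SS_lt α L z K n₁ k i hi)] at hj'
        have hp1 := hNpos' k
        have hp2 := hNpos' (k + 1)
        have hp3 : (0 : ℝ) < L := by linarith
        have hNs : (N (k + 1) : ℝ) = N k * L := by rw [hNsucc]; push_cast; ring
        refine (hcellB k (j / L) hj' x ?_ ?_).2
        · refine le_trans ?_ hx1
          have h3 : (((j / L : ℕ) : ℝ)) * L ≤ j := by exact_mod_cast Nat.div_mul_le_self j L
          rw [div_le_div_iff₀ hp1 hp2, hNs]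
          calc ((j / L : ℕ) : ℝ) * (N k * L) = (((j / L : ℕ) : ℝ) * L) * N k := by ring
            _ ≤ j * N k := by gcongr
        · refine le_trans hx2 ?_
          have h3 : (j : ℝ) + 1 ≤ (((j / L : ℕ) : ℝ) + 1) * L := by
            have h5 : j + 1 ≤ (j / L + 1) * L := by
              have := Nat.lt_div_mul_add (a := j) hL0
              have h6 : (j / L + 1) * L = j / L * L + L := by ring
              omega
            exact_mod_cast h5
          rw [div_le_div_iff₀ hp2 hp1, hNs]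
          calc ((j : ℝ) + 1) * N k ≤ ((((j / L : ℕ) : ℝ) + 1) * L) * N k := by gcongr
            _ = (((j / L : ℕ) : ℝ) + 1) * (N k * L) := by ring
      rw [II_const] at h2
      have h3 : (D.card : ℝ) * B / N (k + 1) = B * (σ k - σ (k + 1)) := by rw [← hD3]; ring
      linarith
    have hnormα : ‖(starRingEnd ℂ) α‖ ≤ 1 := by rw [RCLike.norm_conj]; exact hα
    have hbound : ∀ (c W : ℂ) (X : ℝ), ‖c‖ ≤ 1 → ‖W‖ ≤ X → -(c * W).re ≤ X := by
      intro c W X hc hW
      have h1 : |(c * W).re| ≤ ‖c * W‖ := Complex.abs_re_le_norm _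
      rw [norm_mul] at h1
      have h2 : ‖c‖ * ‖W‖ ≤ 1 * X := mul_le_mul hc hW (norm_nonneg _) (by norm_num)
      have h3 := neg_abs_le ((c * W).re)
      linarith
    have hX0 : 0 ≤ (C * bdry S + 1) / ((L ^ n : ℕ) : ℝ) := by positivity
    have b1 := hbound α _ _ hα f1
    have b2 := hbound _ _ _ hnormα f2
    have b3 : -(‖α‖ ^ 2 / 2 * (II S (N k) (fun x => F2 α L z n x)).re) ≤ (C * bdry S + 1) / ((L ^ n : ℕ) : ℝ) := by
      have h1 := hbound 1 _ _ (by simp) f3
      rw [one_mul] at h1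
      have h2 : 0 ≤ ‖α‖ ^ 2 / 2 := by positivity
      have h3 : ‖α‖ ^ 2 / 2 ≤ 1 := by
        have := norm_nonneg α
        nlinarith
      have h4 : -(‖α‖ ^ 2 / 2 * (II S (N k) (fun x => F2 α L z n x)).re) =
          ‖α‖ ^ 2 / 2 * (-(II S (N k) (fun x => F2 α L z n x)).re) := by ring
      rw [h4]
      calc ‖α‖ ^ 2 / 2 * (-(II S (N k) (fun x => F2 α L z n x)).re) ≤
          ‖α‖ ^ 2 / 2 * ((C * bdry S + 1) / ((L ^ n : ℕ) : ℝ)) := by
            apply mul_le_mul_of_nonneg_left h1 h2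
        _ ≤ 1 * ((C * bdry S + 1) / ((L ^ n : ℕ) : ℝ)) := by
            apply mul_le_mul_of_nonneg_right h3 hX0
        _ = _ := one_mul _
    have hXeq : (C * bdry S + 1) / ((L ^ n : ℕ) : ℝ) = C * v k + 1 / (L : ℝ) ^ n := by
      simp only [hv]
      have : ((L ^ n : ℕ) : ℝ) = (L : ℝ) ^ n := by push_cast; ring
      rw [this, ← hS]
      ring
    rw [hXeq] at b1 b2 b3
    have hv0 : 0 ≤ v k := by simp only [hv]; positivity
    have hσd : 0 ≤ σ k - σ (k + 1) := by
      rw [← hD3]; positivity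
    have hfin : ‖α‖ ^ 2 / 2 * II S (N k) ψ ≤ e (k + 1) - e k + B * (σ k - σ (k + 1)) +
        3 * (C * v k + 1 / (L : ℝ) ^ n) := by linarith
    have h8 : 0 ≤ 3 * C * (σ k - σ (k + 1)) := by positivity
    have h9 : 0 ≤ B * v k := by positivity
    refine le_trans hfin ?_
    rw [hM]
    have h10 : 3 * (C * v k + 1 / (L : ℝ) ^ n) = 3 * C * v k + 3 / (L : ℝ) ^ n := by ring
    rw [h10]
    nlinarith

end Kan
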