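import Pool.Agent.Work.MP_ed045b_an.Energy3

/-! Summable version of the energy estimate. -/

namespace Kan

open MeasureTheory Filter Topology Set

theorem energy_unit_summable (α : ℂ) (hα0 : 0 < ‖α‖) (hα : ‖α‖ ≤ 1) (L : ℕ) (hL : 6 ≤ L) (z : ℂ) (K : ℝ)
    (hK : 0 ≤ K) (n₁ : ℕ) : ∀ᵐ u : ℝ, 0 ≤ u → u < 1 → (∀ n ≥ n₁, Bd α L z u n 3 K) →
      Summable (fun n => ‖Z α L z n u * (1 - Z α L z n u)‖ ^ 2) := by
  have hL0 : 0 < L := by omega
  obtain ⟨Q, hQ⟩ := energy_bounded α hα0 hα L hL z K hK n₁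
  set q : ℕ → ℝ := fun k => II (SS α L z K n₁ k) (L ^ (n₁ + k))
          (fun x => ‖Z α L z (n₁ + k) x * (1 - Z α L z (n₁ + k) x)‖ ^ 2) with hq
  have hq0 : ∀ k, 0 ≤ q k := by
    intro k
    simp only [hq, II]
    apply Finset.sum_nonneg
    intro i _
    apply intervalIntegral.integral_nonneg
    · exact div_le_div_of_nonneg_right (by linarith) (Nat.cast_nonneg _)
    · intro x _
      positivity
  have hsum : Summable q := summable_of_sum_range_le hq0 hQ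
  have hlt : ∫⁻ x, ∑' k, hh α L z K n₁ k x ≠ ⊤ := by
    rw [lintegral_tsum (fun k => (hh_meas α L z K n₁ k).aemeasurable)]
    simp only [hh_lint]
    rw [← ENNReal.ofReal_tsum_of_nonneg hq0 hsum]
    exact ENNReal.ofReal_ne_top
  have hae := ae_lt_top (Measurable.tsum fun k => hh_meas α L z K n₁ k) hlt
  filter_upwards [hae] with u hu hu0 hu1 hBd
  have hle : ∀ k, ENNReal.ofReal (‖Z α L z (n₁ + k) u * (1 - Z α L z (n₁ + k) u)‖ ^ 2) ≤ hh α L z K n₁ k u := by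
    intro k
    unfold hh
    have hi := SS_floor α L hL0 z K n₁ u hu0 hu1 hBd k
    have hp : (0 : ℝ) < ((L ^ (n₁ + k) : ℕ) : ℝ) := by
      have : 0 < L ^ (n₁ + k) := Nat.pow_pos hL0
      exact_mod_cast this
    have hcast : ((L ^ (n₁ + k) : ℕ) : ℝ) = (L : ℝ) ^ (n₁ + k) := by push_cast; ring
    refine le_trans ?_ (Finset.single_le_sum (f := fun i : ℕ => (Ico ((i : ℝ) / ((L ^ (n₁ + k) : ℕ) : ℝ)) (((i : ℝ) + 1) / ((L ^ (n₁ + k) : ℕ) : ℝ))).indicator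
      (fun x => ENNReal.ofReal (‖Z α L z (n₁ + k) x * (1 - Z α L z (n₁ + k) x)‖ ^ 2)) u) (fun _ _ => zero_le) hi)
    rw [indicator_of_mem]
    rw [mem_Ico, div_le_iff₀ hp, lt_div_iff₀ hp, hcast]
    exact ⟨Nat.floor_le (by positivity), Nat.lt_floor_add_one _⟩
  have h1 : ∑' k, ENNReal.ofReal (‖Z α L z (n₁ + k) u * (1 - Z α L z (n₁ + k) u)‖ ^ 2) ≠ ⊤ :=
    ne_top_of_le_ne_top hu.ne (ENNReal.tsum_le_tsum hle)
  have h2 : Summable (fun k => ‖Z α L z (n₁ + k) u * (1 - Z α L z (n₁ + k) u)‖ ^ 2) := by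
    have h3 := ENNReal.summable_toReal h1
    refine h3.congr ?_
    intro k
    rw [ENNReal.toReal_ofReal (by positivity)]
  rw [← summable_nat_add_iff n₁]
  refine h2.congr ?_
  intro k
  rw [add_comm n₁ k]

theorem energy_summable (α : ℂ) (L : ℕ) (hα0 : 0 < ‖α‖) (hα1 : ‖α‖ < 1) (hL : 6 ≤ L) (z : ℂ) (K : ℝ) :
    ∀ᵐ u : ℝ, (∃ n₁ : ℕ, ∀ n ≥ n₁, Bd α L z u n 3 K) →
      Summable (fun n => ‖Z α L z n u * (1 - Z α L z n u)‖ ^ 2) := by
  have key : ∀ n₁ : ℕ, ∀ᵐ u : ℝ, (∀ n ≥ n₁, Bd α L z u n 3 K) →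
      Summable (fun n => ‖Z α L z n u * (1 - Z α L z n u)‖ ^ 2) := by
    intro n₁
    apply ae_of_unit
    · intro x m
      have h1 : ∀ n, Z α L z n ((x + m : ℝ) : ℂ) = Z α L z n x := by
        intro n
        push_cast
        exact Z_add_nat α L z n x m
      simp only [h1, Bd_add_nat]
    · filter_upwards [energy_unit_summable α hα0 hα1.le L hL z (max K 0) (le_max_right _ _) n₁] with u hu h0 h1 hB
      apply hu h0 h1
      intro n hn w hw
      exact le_trans (hB n hn w hw) (le_max_left _ _)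
  rw [← ae_all_iff] at key
  filter_upwards [key] with u hu
  rintro ⟨n₁, hn⟩
  exact hu n₁ hn

end Kan
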