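import Pool.Agent.Work.MP_ed045b_an.Specs8

/-! Fourier coefficients of `log‖1+α cos 2πt‖`. -/

namespace Kan

open MeasureTheory Filter Topology Set

theorem int_exp (k : ℤ) : ∫ t in (0 : ℝ)..1, Complex.exp (2 * Real.pi * Complex.I * k * t) =
    if k = 0 then 1 else 0 := by
  split_ifs with h
  · subst h
    simp
  · have hc : (2 * Real.pi * Complex.I * k : ℂ) ≠ 0 := by
      have : (Real.pi : ℂ) ≠ 0 := by exact_mod_cast Real.pi_ne_zero
      have hk : (k : ℂ) ≠ 0 := by exact_mod_cast h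
      simp [this, hk, Complex.I_ne_zero]
    have h1 := integral_exp_mul_complex (a := 0) (b := 1) hc
    rw [h1]
    have h2 : (2 * Real.pi * Complex.I * k * ((1 : ℝ) : ℂ) : ℂ) = k * (2 * Real.pi * Complex.I) := by
      push_cast; ring
    rw [h2, Complex.exp_int_mul_two_pi_mul_I]
    simp

theorem int_re (c : ℂ) (n m : ℕ) (hn : 1 ≤ n) :
    ∫ t in (0 : ℝ)..1, (c * Complex.exp (2 * Real.pi * Complex.I * n * t)).re * Real.cos (2 * Real.pi * m * t) =
      if n = m then c.re / 2 else 0 := by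
  have h1 : ∀ t : ℝ, (c * Complex.exp (2 * Real.pi * Complex.I * n * t)).re * Real.cos (2 * Real.pi * m * t) =
      (c / 2 * Complex.exp (2 * Real.pi * Complex.I * ((n + m : ℤ) : ℂ) * t) +
        c / 2 * Complex.exp (2 * Real.pi * Complex.I * ((n - m : ℤ) : ℂ) * t)).re := by
    intro t
    have h2 : (c * Complex.exp (2 * Real.pi * Complex.I * n * t)).re * Real.cos (2 * Real.pi * m * t) =
        (c * Complex.exp (2 * Real.pi * Complex.I * n * t) * (Real.cos (2 * Real.pi * m * t) : ℂ)).re := by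
      rw [Complex.mul_re _ ((Real.cos (2 * Real.pi * m * t) : ℂ)), Complex.ofReal_re, Complex.ofReal_im]
      ring
    rw [h2, Complex.ofReal_cos, Complex.cos]
    congr 1
    have h3 : Complex.exp (2 * Real.pi * Complex.I * ((n + m : ℤ) : ℂ) * t) =
        Complex.exp (2 * Real.pi * Complex.I * n * t) * Complex.exp (((2 * Real.pi * m * t : ℝ) : ℂ) * Complex.I) := by
      rw [← Complex.exp_add]; congr 1; push_cast; ring
    have h4 : Complex.exp (2 * Real.pi * Complex.I * ((n - m : ℤ) : ℂ) * t) =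
        Complex.exp (2 * Real.pi * Complex.I * n * t) * Complex.exp (-((2 * Real.pi * m * t : ℝ) : ℂ) * Complex.I) := by
      rw [← Complex.exp_add]; congr 1; push_cast; ring
    rw [h3, h4]
    ring
  simp only [h1]
  have hi : ∀ (k : ℤ) (c : ℂ), IntervalIntegrable
      (fun t : ℝ => c * Complex.exp (2 * Real.pi * Complex.I * (k : ℂ) * t)) volume 0 1 := by
    intro k c
    apply Continuous.intervalIntegrable
    fun_prop
  have hre := Complex.reCLM.intervalIntegral_comp_comm ((hi (n + m) (c / 2)).add (hi (n - m) (c / 2)))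
  simp only [Complex.reCLM_apply] at hre
  rw [hre, intervalIntegral.integral_add (hi _ _) (hi _ _), intervalIntegral.integral_const_mul,
    intervalIntegral.integral_const_mul, int_exp, int_exp]
  have h5 : ¬ ((n : ℤ) + m = 0) := by omega
  rw [if_neg h5]
  split_ifs with h6 h7 h7
  · simp
  · omega
  · omega
  · simp

theorem fourier_log (ρ : ℂ) (hρ : ‖ρ‖ < 1) (m : ℕ) :
    ∫ t in (0 : ℝ)..1, Real.log ‖1 + ρ * Complex.exp (2 * Real.pi * Complex.I * t)‖ *
      Real.cos (2 * Real.pi * m * t) = (-1) ^ (m + 1) * (ρ ^ m).re / (2 * m) := by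
  have hnorm : ∀ t : ℝ, ‖ρ * Complex.exp (2 * Real.pi * Complex.I * t)‖ = ‖ρ‖ := by
    intro t
    rw [norm_mul]
    have : (2 * Real.pi * Complex.I * t : ℂ) = ((2 * Real.pi * t : ℝ) : ℂ) * Complex.I := by
      push_cast; ring
    rw [this, Complex.norm_exp_ofReal_mul_I, mul_one]
  have hterm : ∀ (n : ℕ) (t : ℝ), ((-1) ^ (n + 1) * (ρ * Complex.exp (2 * Real.pi * Complex.I * t)) ^ n / (n : ℂ)).re =
      (((-1) ^ (n + 1) * ρ ^ n / (n : ℂ)) * Complex.exp (2 * Real.pi * Complex.I * n * t)).re := by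
    intro n t
    congr 1
    rw [mul_pow, ← Complex.exp_nat_mul]
    have : ((n : ℂ) * (2 * Real.pi * Complex.I * t)) = 2 * Real.pi * Complex.I * n * t := by ring
    rw [this]
    ring
  have hsum := intervalIntegral.hasSum_integral_of_dominated_convergence (μ := volume) (a := 0) (b := 1)
    (F := fun (n : ℕ) (t : ℝ) => ((-1) ^ (n + 1) * (ρ * Complex.exp (2 * Real.pi * Complex.I * t)) ^ n / (n : ℂ)).re *
      Real.cos (2 * Real.pi * m * t))
    (f := fun t => Real.log ‖1 + ρ * Complex.exp (2 * Real.pi * Complex.I * t)‖ * Real.cos (2 * Real.pi * m * t))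
    (fun n _ => ‖ρ‖ ^ n)
    (fun n => by
      apply Continuous.aestronglyMeasurable
      fun_prop)
    (fun n => by
      filter_upwards with t _
      rw [norm_mul]
      have h1 : ‖((-1) ^ (n + 1) * (ρ * Complex.exp (2 * Real.pi * Complex.I * t)) ^ n / (n : ℂ)).re‖ ≤ ‖ρ‖ ^ n := by
        refine le_trans (Complex.abs_re_le_norm _) ?_
        rw [norm_div, norm_mul, norm_pow, norm_pow, hnorm, norm_neg, norm_one, one_pow, one_mul]
        rcases Nat.eq_zero_or_pos n with h | h
        · subst h; simp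
        · apply div_le_self (by positivity)
          rw [Complex.norm_natCast]
          exact_mod_cast h
      have h2 : ‖Real.cos (2 * Real.pi * m * t)‖ ≤ 1 := Real.abs_cos_le_one _
      calc _ ≤ ‖ρ‖ ^ n * 1 := by gcongr
        _ = ‖ρ‖ ^ n := mul_one _)
    (by
      filter_upwards with t _
      exact summable_geometric_of_lt_one (norm_nonneg _) hρ)
    (by
      exact intervalIntegrable_const)
    (by
      filter_upwards with t _
      apply HasSum.mul_right
      have h1 := Complex.hasSum_taylorSeries_log (z := ρ * Complex.exp (2 * Real.pi * Complex.I * t))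
        (by rw [hnorm]; exact hρ)
      have h2 := Complex.hasSum_re h1
      rw [Complex.log_re] at h2
      exact h2)
  simp only [hterm] at hsum
  have hval : ∀ n : ℕ, ∫ t in (0 : ℝ)..1, ((((-1) ^ (n + 1) * ρ ^ n / (n : ℂ)) *
      Complex.exp (2 * Real.pi * Complex.I * n * t)).re * Real.cos (2 * Real.pi * m * t)) =
      if n = m then (-1) ^ (m + 1) * (ρ ^ m).re / (2 * m) else 0 := by
    intro n
    rcases Nat.eq_zero_or_pos n with h | h
    · subst h
      simp
      intro h0
      subst h0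
      simp
    · rw [int_re _ n m h]
      split_ifs with h1
      · subst h1
        have h2 : ((-1) ^ (n + 1) * ρ ^ n / (n : ℂ)) = (((-1 : ℝ) ^ (n + 1) / n : ℝ) : ℂ) * ρ ^ n := by
          push_cast; ring
        rw [h2, Complex.re_ofReal_mul]
        ring
      · rfl
  simp only [hval] at hsum
  have h3 := hasSum_ite_eq m ((-1 : ℝ) ^ (m + 1) * (ρ ^ m).re / (2 * m))
  exact hsum.unique h3

theorem fourier_log' (ρ : ℂ) (hρ : ‖ρ‖ < 1) (m : ℕ) :
    ∫ t in (0 : ℝ)..1, Real.log ‖1 + ρ * Complex.exp (-(2 * Real.pi * Complex.I * t))‖ *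
      Real.cos (2 * Real.pi * m * t) = (-1) ^ (m + 1) * (ρ ^ m).re / (2 * m) := by
  have h1 := fourier_log ((starRingEnd ℂ) ρ) (by rw [RCLike.norm_conj]; exact hρ) m
  have h2 : ∀ t : ℝ, ‖1 + (starRingEnd ℂ) ρ * Complex.exp (2 * Real.pi * Complex.I * t)‖ =
      ‖1 + ρ * Complex.exp (-(2 * Real.pi * Complex.I * t))‖ := by
    intro t
    rw [← RCLike.norm_conj (1 + ρ * Complex.exp (-(2 * Real.pi * Complex.I * t)))]
    congr 1
    rw [map_add, map_mul, map_one, ← Complex.exp_conj]
    have h3 : (starRingEnd ℂ) (-(2 * Real.pi * Complex.I * t)) = 2 * Real.pi * Complex.I * t := by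
      apply Complex.ext <;> simp
    rw [h3]
  simp only [h2] at h1
  rw [h1, ← map_pow, Complex.conj_re]

/-- Factorisation of `1 + α cos`. -/
theorem factor (α : ℂ) (h0 : 0 < ‖α‖) (h1 : ‖α‖ < 1) :
    ∃ A ρ : ℂ, ‖ρ‖ < 1 ∧ ρ ≠ 0 ∧ A * (1 + ρ ^ 2) = 1 ∧ ∀ t : ℝ, 1 + α * Real.cos (2 * Real.pi * t) =
      A * (1 + ρ * Complex.exp (2 * Real.pi * Complex.I * t)) *
        (1 + ρ * Complex.exp (-(2 * Real.pi * Complex.I * t))) := by
  have hα : α ≠ 0 := by rw [← norm_pos_iff]; exact h0
  obtain ⟨s, hs⟩ := IsAlgClosed.exists_pow_nat_eq (1 - α ^ 2) (n := 2) (by norm_num)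
  have key : ∃ ρ : ℂ, ‖ρ‖ < 1 ∧ α * (1 + ρ ^ 2) = 2 * ρ := by
    set r1 : ℂ := (1 - s) / α with hr1
    set r2 : ℂ := (1 + s) / α with hr2
    have hprod : r1 * r2 = 1 := by
      rw [hr1, hr2]
      field_simp
      linear_combination -hs
    have e1 : α * (1 + r1 ^ 2) = 2 * r1 := by
      rw [hr1]; field_simp; linear_combination hs
    have e2 : α * (1 + r2 ^ 2) = 2 * r2 := by
      rw [hr2]; field_simp; linear_combination hs
    have hn : ‖r1‖ * ‖r2‖ = 1 := by rw [← norm_mul, hprod, norm_one]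
    rcases lt_trichotomy ‖r1‖ 1 with h | h | h
    · exact ⟨r1, h, e1⟩
    · exfalso
      -- r1 on the unit circle
      have hc : r1 * (starRingEnd ℂ) r1 = 1 := by
        rw [Complex.mul_conj, Complex.normSq_eq_norm_sq, h]
        norm_num
      have h3 : α * (r1 + (starRingEnd ℂ) r1) = 2 := by
        have h4 : r1 ≠ 0 := by
          intro h5
          rw [h5] at hc
          simp at hc
        have h6 : r1 * (α * (r1 + (starRingEnd ℂ) r1)) = r1 * 2 := by
          linear_combination e1 + α * hc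
        exact mul_left_cancel₀ h4 h6
      have h4 : ‖α‖ * ‖r1 + (starRingEnd ℂ) r1‖ = 2 := by
        rw [← norm_mul, h3]
        norm_num
      have h5 : ‖r1 + (starRingEnd ℂ) r1‖ ≤ 2 := by
        refine le_trans (norm_add_le _ _) ?_
        rw [RCLike.norm_conj, h]
        norm_num
      nlinarith
    · refine ⟨r2, ?_, e2⟩
      have h2 : 0 ≤ ‖r2‖ := norm_nonneg _
      by_contra hcon
      push Not at hcon
      nlinarith
  obtain ⟨ρ, hρ1, hρ2⟩ := key
  have hρ0 : ρ ≠ 0 := by
    intro h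
    rw [h] at hρ2
    simp at hρ2
    exact hα hρ2
  have h1ρ : 1 + ρ ^ 2 ≠ 0 := by
    intro h
    rw [h, mul_zero] at hρ2
    apply hρ0
    have : (2 : ℂ) ≠ 0 := two_ne_zero
    exact (mul_eq_zero.mp hρ2.symm).resolve_left this
  refine ⟨1 / (1 + ρ ^ 2), ρ, hρ1, hρ0, by field_simp, ?_⟩
  intro t
  have hcos : ((Real.cos (2 * Real.pi * t) : ℝ) : ℂ) =
      (Complex.exp (2 * Real.pi * Complex.I * t) + Complex.exp (-(2 * Real.pi * Complex.I * t))) / 2 := by
    rw [Complex.ofReal_cos, Complex.cos]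
    congr 2
    · congr 1; push_cast; ring
    · congr 1; push_cast; ring
  have hee : Complex.exp (2 * Real.pi * Complex.I * t) * Complex.exp (-(2 * Real.pi * Complex.I * t)) = 1 := by
    rw [← Complex.exp_add]; simp
  rw [hcos]
  set E := Complex.exp (2 * Real.pi * Complex.I * t)
  set E' := Complex.exp (-(2 * Real.pi * Complex.I * t))
  have hαeq : α = 2 * ρ / (1 + ρ ^ 2) := by
    rw [eq_div_iff h1ρ]; exact hρ2
  rw [hαeq]
  field_simp
  linear_combination (-ρ ^ 2) * hee

end Kan
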