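import Pool.Agent.Work.MP_ed045b_an.NeutralB

/-!
The neutral curve `∫ log ‖1 + α cos 2πt‖ dt = 0`.
-/

namespace Kan.Ntr

open MeasureTheory Filter Topology Set

/-- Neutral exponent: a summable orbit tending to `0` must hit `0`. -/
def SumNeutralSpec : Prop :=
  ∀ (α : ℂ) (L : ℕ), 0 < ‖α‖ → ‖α‖ < 1 → 2 ≤ L →
    (∫ t in (0 : ℝ)..1, Real.log ‖1 + α * Real.cos (2 * Real.pi * t)‖) = 0 → ∀ᵐ u : ℝ, ∀ z : ℂ,
    Summable (fun n => ‖Z α L z n u * (1 - Z α L z n u)‖ ^ 2) →
    Tendsto (fun n => Z α L z n u) atTop (𝓝 0) → ∃ n, Z α L z n u = 0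

lemma log_one_sub_ge {x : ℝ} (h0 : 0 ≤ x) (h1 : x ≤ 1 / 2) : -(2 * x) ≤ Real.log (1 - x) := by
  have h2 : 0 < 1 - x := by linarith
  have h3 := Real.one_sub_inv_le_log_of_pos h2
  have h4 : -(2 * x) ≤ 1 - (1 - x)⁻¹ := by
    rw [← sub_nonneg]
    have : 1 - (1 - x)⁻¹ - -(2 * x) = x * (1 - 2 * x) / (1 - x) := by
      field_simp
      ring
    rw [this]
    apply div_nonneg _ h2.le
    apply mul_nonneg h0
    linarith
  linarith

/-- Deterministic part. -/
lemma neutral_det (z c : ℕ → ℂ) (ρ : ℝ) (hρ : ρ < 1) (hρ0 : 0 ≤ ρ) (hc : ∀ n, ‖c n‖ ≤ ρ)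
    (hrec : ∀ n, z (n + 1) = z n + c n * z n * (1 - z n)) (hz : ∀ n, z n ≠ 0)
    (hsum : Summable (fun n => ‖z n * (1 - z n)‖ ^ 2)) (hlim : Tendsto z atTop (𝓝 0))
    (ε : ℝ) (hε : 0 < ε)
    (hfr : ∃ᶠ n : ℕ in atTop, ε * Real.sqrt n ≤ ∑ j ∈ Finset.range n, Real.log ‖1 + c j‖) :
    False := by
  have h1ρ : 0 < 1 - ρ := by linarith
  have hn : Tendsto (fun n => ‖z n‖) atTop (𝓝 0) := by simpa using hlim.norm
  obtain ⟨N, hN⟩ := eventually_atTop.mp
    (hn.eventually (Iio_mem_nhds (show (0 : ℝ) < (1 - ρ) / 2 by linarith)))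
  have hsm : ∀ n ≥ N, ‖z n‖ ≤ (1 - ρ) / 2 := fun n h => (hN n h).le
  have hlow : ∀ n, 1 - ρ ≤ ‖1 + c n‖ := by
    intro n
    have h1 := norm_sub_le (1 + c n) (c n)
    rw [add_sub_cancel_right, norm_one] at h1
    linarith [hc n]
  -- square summability of the tail
  have hsq : ∀ n ≥ N, ‖z n‖ ^ 2 ≤ 4 * ‖z n * (1 - z n)‖ ^ 2 := by
    intro n hn'
    have h1 : 1 / 2 ≤ ‖1 - z n‖ := by
      have h2 := norm_sub_norm_le (1 : ℂ) (z n)
      rw [norm_one] at h2
      linarith [hsm n hn']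
    rw [norm_mul, mul_pow]
    have h3 : 1 / 4 ≤ ‖1 - z n‖ ^ 2 := by nlinarith
    nlinarith [sq_nonneg ‖z n‖]
  have hs2 : Summable (fun n => ‖z (n + N)‖ ^ 2) := by
    refine Summable.of_nonneg_of_le (fun n => sq_nonneg _) (fun n => hsq (n + N) (by omega)) ?_
    exact ((summable_nat_add_iff N).mpr hsum).mul_left 4
  set κ : ℝ := ε * (1 - ρ) / 4 with hκ
  have hκ0 : 0 < κ := by positivity
  obtain ⟨m₀, hm₀⟩ := eventually_atTop.mp
    ((tendsto_sum_nat_add (fun n => ‖z (n + N)‖ ^ 2)).eventually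
      (Iio_mem_nhds (show (0 : ℝ) < κ ^ 2 by positivity)))
  have hT := hm₀ m₀ le_rfl
  set m : ℕ := m₀ + N with hm
  have hT' : ∀ k, ∑ j ∈ Finset.range k, ‖z (m + j)‖ ^ 2 ≤ κ ^ 2 := by
    intro k
    have hs3 : Summable (fun j => ‖z (j + m₀ + N)‖ ^ 2) := (summable_nat_add_iff m₀).mpr hs2
    have h1 := hs3.sum_le_tsum (Finset.range k) (fun j _ => sq_nonneg _)
    refine le_trans (le_of_eq ?_) (h1.trans hT.le)
    apply Finset.sum_congr rfl
    intro j _
    rw [hm, show m₀ + N + j = j + m₀ + N by ring]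
  have hstep : ∀ n ≥ N, Real.log ‖z n‖ + Real.log ‖1 + c n‖ - 2 / (1 - ρ) * ‖z n‖ ≤
      Real.log ‖z (n + 1)‖ := by
    intro n hn'
    have h1 : z (n + 1) = z n * (1 + c n * (1 - z n)) := by rw [hrec]; ring
    have h2 : (1 + c n * (1 - z n)) ≠ 0 := by
      intro h
      rw [h, mul_zero] at h1
      exact hz (n + 1) h1
    have hcn := hlow n
    have hcpos : 0 < ‖1 + c n‖ := by linarith
    rw [h1, norm_mul, Real.log_mul (norm_ne_zero_iff.mpr (hz n)) (norm_ne_zero_iff.mpr h2)]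
    have h3 : ‖1 + c n‖ * (1 - ‖z n‖ / (1 - ρ)) ≤ ‖1 + c n * (1 - z n)‖ := by
      have h4 : 1 + c n * (1 - z n) = (1 + c n) - c n * z n := by ring
      have h5 := norm_sub_norm_le (1 + c n) (c n * z n)
      rw [h4]
      refine le_trans ?_ h5
      rw [norm_mul]
      have h6 : ‖c n‖ * ‖z n‖ ≤ ‖1 + c n‖ * (‖z n‖ / (1 - ρ)) := by
        have h7 : ‖c n‖ * ‖z n‖ ≤ ‖z n‖ := by
          have := hc n
          nlinarith [norm_nonneg (z n)]
        have h8 : ‖z n‖ ≤ ‖1 + c n‖ * (‖z n‖ / (1 - ρ)) := by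
          rw [mul_div_assoc', le_div_iff₀ h1ρ]
          nlinarith [norm_nonneg (z n)]
        linarith
      linarith
    have hx0 : 0 ≤ ‖z n‖ / (1 - ρ) := by positivity
    have hx1 : ‖z n‖ / (1 - ρ) ≤ 1 / 2 := by
      rw [div_le_iff₀ h1ρ]
      linarith [hsm n hn']
    have h9 := log_one_sub_ge hx0 hx1
    have h10 : Real.log (‖1 + c n‖ * (1 - ‖z n‖ / (1 - ρ))) ≤ Real.log ‖1 + c n * (1 - z n)‖ :=
      Real.log_le_log (by
        apply mul_pos hcpos
        linarith) h3
    rw [Real.log_mul hcpos.ne' (by linarith)] at h10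
    have h11 : 2 / (1 - ρ) * ‖z n‖ = 2 * (‖z n‖ / (1 - ρ)) := by ring
    linarith
  have hiter : ∀ k, Real.log ‖z m‖ + ∑ j ∈ Finset.range k, Real.log ‖1 + c (m + j)‖ -
      2 / (1 - ρ) * ∑ j ∈ Finset.range k, ‖z (m + j)‖ ≤ Real.log ‖z (m + k)‖ := by
    intro k
    induction k with
    | zero => simp
    | succ k ih =>
      rw [Finset.sum_range_succ, Finset.sum_range_succ, mul_add]
      have := hstep (m + k) (by omega)
      rw [← add_assoc m k 1]
      linarith
  have hCS : ∀ k, ∑ j ∈ Finset.range k, ‖z (m + j)‖ ≤ κ * Real.sqrt k := by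
    intro k
    have h1 := sq_sum_le_card_mul_sum_sq (s := Finset.range k) (f := fun j => ‖z (m + j)‖)
    rw [Finset.card_range] at h1
    have h2 : (k : ℝ) * ∑ j ∈ Finset.range k, ‖z (m + j)‖ ^ 2 ≤ k * κ ^ 2 :=
      mul_le_mul_of_nonneg_left (hT' k) (by positivity)
    apply le_of_sq_le_sq _ (by positivity)
    rw [mul_pow, Real.sq_sqrt (by positivity)]
    linarith
  -- conclusion
  obtain ⟨N₂, hN₂⟩ := eventually_atTop.mp
    (hn.eventually (Iio_mem_nhds (show (0 : ℝ) < 1 by norm_num)))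
  set D : ℝ := Real.log ‖z m‖ - ∑ j ∈ Finset.range m, Real.log ‖1 + c j‖ with hD
  have hbig : ∀ᶠ n : ℕ in atTop, -D ≤ ε / 2 * Real.sqrt n :=
    (sqrt_tendsto.const_mul_atTop (by positivity)).eventually_ge_atTop _
  obtain ⟨n, ⟨⟨hn1, hn2⟩, hn3⟩, hn4⟩ := (((hfr.and_eventually hbig).and_eventually
    (eventually_ge_atTop m)).and_eventually (eventually_ge_atTop N₂)).exists
  obtain ⟨k, rfl⟩ := Nat.exists_eq_add_of_le hn3
  have h1 := hiter k
  have h2 := hCS k
  have h3 : ∑ j ∈ Finset.range (m + k), Real.log ‖1 + c j‖ =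
      ∑ j ∈ Finset.range m, Real.log ‖1 + c j‖ +
      ∑ j ∈ Finset.range k, Real.log ‖1 + c (m + j)‖ := by
    rw [Finset.sum_range_add]
  have h4 : Real.log ‖z (m + k)‖ < 0 :=
    Real.log_neg (norm_pos_iff.mpr (hz _)) (hN₂ (m + k) hn4)
  have h5 : Real.sqrt k ≤ Real.sqrt ((m + k : ℕ) : ℝ) := by
    apply Real.sqrt_le_sqrt
    push_cast
    have : (0 : ℝ) ≤ m := by positivity
    linarith
  have h6 : 2 / (1 - ρ) * ∑ j ∈ Finset.range k, ‖z (m + j)‖ ≤ ε / 2 * Real.sqrt ((m + k : ℕ) : ℝ) := by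
    have h7 : 2 / (1 - ρ) * ∑ j ∈ Finset.range k, ‖z (m + j)‖ ≤
        2 / (1 - ρ) * (κ * Real.sqrt ((m + k : ℕ) : ℝ)) := by
      apply mul_le_mul_of_nonneg_left _ (by positivity)
      exact h2.trans (mul_le_mul_of_nonneg_left h5 hκ0.le)
    refine h7.trans (le_of_eq ?_)
    rw [hκ]
    field_simp
    ring
  rw [h3] at hn1
  linarith

lemma mg_ne (α : ℂ) (L : ℕ) (hα0 : 0 < ‖α‖) (hα : ‖α‖ < 1) (hL : 2 ≤ L)
    (hmean : ∫ t in (0 : ℝ)..1, lg α t = 0) : ∃ x, mg L (lg α) x ≠ 0 := by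
  by_contra hcon
  push Not at hcon
  have h0 : 0 < 1 - ‖α‖ := by linarith
  have cper := cor_per_nat L hL (lg α) _ (lg_continuous α hα) (lg_periodic α) (lg_lip α hα) hmean
  have key : ∀ x : ℝ, lg α x = 0 → ‖1 + α * (Real.cos (2 * Real.pi * x) : ℂ)‖ = 1 := by
    intro x hx
    have h1 := lg_low α hα x
    unfold lg at hx
    rcases Real.log_eq_zero.mp hx with h | h | h
    · linarith
    · exact h
    · linarith
  have h1 : lg α 0 = 0 := by
    have := hcon 0
    simpa [mg] using this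
  have h2 := key 0 h1
  have hs : ∀ s : ℝ, ‖1 + α * (s : ℂ)‖ = 1 → ‖1 + α‖ = 1 → s * (s - 1) = 0 := by
    intro s hs1 hs2
    have e : ∀ r : ℝ, ‖1 + α * (r : ℂ)‖ ^ 2 = 1 + 2 * r * α.re + r ^ 2 * ‖α‖ ^ 2 := by
      intro r
      rw [← Complex.normSq_eq_norm_sq, ← Complex.normSq_eq_norm_sq]
      simp only [Complex.normSq_apply, Complex.add_re, Complex.one_re, Complex.mul_re,
        Complex.ofReal_re, Complex.ofReal_im, Complex.add_im, Complex.one_im, Complex.mul_im]
      ring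
    have e1 := e s
    have e2 := e 1
    rw [hs1] at e1
    rw [Complex.ofReal_one, mul_one, hs2] at e2
    have h3 : ‖α‖ ^ 2 * (s * (s - 1)) = 0 := by linear_combination (-1) * e1 + s * e2
    rcases mul_eq_zero.mp h3 with h | h
    · exact absurd h (by positivity)
    · exact h
  have h2' : ‖1 + α‖ = 1 := by simpa using h2
  rcases Nat.even_or_odd L with hev | hodd
  · -- even: the period two orbit of `1/(L+1)`
    have hL' : (0 : ℝ) < (L : ℝ) + 1 := by positivity
    set x : ℝ := 1 / ((L : ℝ) + 1) with hx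
    have e1 := hcon x
    have e2 := hcon (L * x)
    unfold mg at e1 e2
    have e3 : (L : ℝ) * (L * x) = x + ((L - 1 : ℕ) : ℝ) := by
      rw [Nat.cast_sub (by omega), hx]
      field_simp
      push_cast
      ring
    rw [e3, cper (L - 1) x] at e2
    have e4 : lg α (L * x) = lg α x := by
      have : (L : ℝ) * x = 1 - x := by
        rw [hx]
        field_simp
        ring
      rw [this]
      unfold lg
      rw [show 2 * Real.pi * (1 - x) = 2 * Real.pi - 2 * Real.pi * x by ring,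
        Real.cos_two_pi_sub]
    rw [e4] at e2
    have e5 : lg α x = 0 := by linarith
    have e6 := hs _ (key x e5) h2'
    have hpi := Real.pi_pos
    have hx0 : 0 < 2 * Real.pi * x := by positivity
    have hL2 : (2 : ℝ) ≤ L := by exact_mod_cast hL
    have hx1 : 2 * Real.pi * x < Real.pi := by
      rw [hx, mul_one_div, div_lt_iff₀ hL']
      nlinarith
    rcases mul_eq_zero.mp e6 with h | h
    · have h7 : Real.cos (2 * Real.pi * x) = Real.cos (Real.pi / 2) := by
        rw [h, Real.cos_pi_div_two]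
      have h8 := Real.injOn_cos ⟨hx0.le, hx1.le⟩ ⟨by positivity, by linarith⟩ h7
      have h9 : (L : ℝ) = 3 := by
        rw [hx, mul_one_div, div_eq_div_iff hL'.ne' (by norm_num)] at h8
        have : Real.pi * ((L : ℝ) - 3) = 0 := by linarith
        rcases mul_eq_zero.mp this with h | h
        · linarith
        · linarith
      have h10 : L = 3 := by exact_mod_cast h9
      rw [h10] at hev
      exact absurd hev (by decide)
    · have h7 : Real.cos (2 * Real.pi * x) = Real.cos 0 := by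
        rw [Real.cos_zero]
        linarith
      have h8 := Real.injOn_cos ⟨hx0.le, hx1.le⟩ ⟨le_refl _, hpi.le⟩ h7
      linarith
  · -- odd: the fixed point `1/2`
    obtain ⟨k, hk⟩ := hodd
    have e1 := hcon (1 / 2)
    unfold mg at e1
    have e3 : (L : ℝ) * (1 / 2) = 1 / 2 + (k : ℝ) := by
      rw [hk]
      push_cast
      ring
    rw [e3, cper k (1 / 2)] at e1
    have e5 : lg α (1 / 2) = 0 := by linarith
    have e6 := hs _ (key (1 / 2) e5) h2'
    rw [show 2 * Real.pi * (1 / 2 : ℝ) = Real.pi by ring, Real.cos_pi] at e6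
    norm_num at e6

lemma Z_succ_real (α : ℂ) (L : ℕ) (z : ℂ) (n : ℕ) (u : ℝ) :
    Z α L z (n + 1) u = Z α L z n u + (α * (Real.cos (2 * Real.pi * ((L : ℝ) ^ n * u)) : ℂ)) *
      Z α L z n u * (1 - Z α L z n u) := by
  have : cs α ((L : ℂ) ^ n * (u : ℂ)) = α * (Real.cos (2 * Real.pi * ((L : ℝ) ^ n * u)) : ℂ) := by
    unfold cs
    push_cast
    rfl
  simp only [Z]
  rw [this]

theorem sumNeutralSpec : SumNeutralSpec := by
  intro α L hα0 hα hL hmean
  have hmean' : ∫ t in (0 : ℝ)..1, lg α t = 0 := hmean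
  obtain ⟨ε, hε, hae⟩ := fluct (lg α) _ _ (lg_continuous α hα) (lg_periodic α) (lg_bdd α hα)
    (lg_lip α hα) hmean' L hL (mg_ne α L hα0 hα hL hmean')
  filter_upwards [hae] with u hu
  intro z hsum hlim
  by_contra hcon
  push Not at hcon
  refine neutral_det (fun n => Z α L z n u)
    (fun n => α * (Real.cos (2 * Real.pi * ((L : ℝ) ^ n * u)) : ℂ)) ‖α‖ hα (norm_nonneg _) ?_ ?_
    hcon hsum hlim ε hε hu
  · intro n
    rw [norm_mul, Complex.norm_real, Real.norm_eq_abs]
    exact mul_le_of_le_one_right (norm_nonneg _) (Real.abs_cos_le_one _)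
  · intro n
    exact Z_succ_real α L z n u

/-- Fibres of `z ↦ Z α L z n u` are finite. -/
lemma Z_fib_finite (α : ℂ) (L : ℕ) (u : ℝ) (n : ℕ) (a : ℂ) : {z : ℂ | Z α L z n u = a}.Finite := by
  induction n generalizing a with
  | zero =>
    have : {z : ℂ | Z α L z 0 u = a} = {a} := by
      ext z
      simp [Z]
    rw [this]
    exact finite_singleton a
  | succ n ih =>
    set c : ℂ := α * (Real.cos (2 * Real.pi * ((L : ℝ) ^ n * u)) : ℂ) with hc
    have hR : {x : ℂ | x + c * x * (1 - x) = a}.Finite := by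
      by_cases h0 : c = 0
      · have : {x : ℂ | x + c * x * (1 - x) = a} = {a} := by
          ext x
          simp [h0]
        rw [this]
        exact finite_singleton a
      · by_cases hne : {x : ℂ | x + c * x * (1 - x) = a}.Nonempty
        · obtain ⟨x₀, hx₀⟩ := hne
          apply Set.Finite.subset (Set.toFinite {x₀, 1 + 1 / c - x₀})
          intro x hx
          have h1 : x₀ + c * x₀ * (1 - x₀) = a := hx₀
          have h2 : x + c * x * (1 - x) = a := hx
          have h3 : (x - x₀) * (1 + c - c * (x + x₀)) = 0 := by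
            linear_combination h2 - h1
          rcases mul_eq_zero.mp h3 with h | h
          · left
            exact sub_eq_zero.mp h
          · right
            have : x = 1 + 1 / c - x₀ := by
              field_simp
              linear_combination -h
            exact this
        · rw [not_nonempty_iff_eq_empty.mp hne]
          exact finite_empty
    have : {z : ℂ | Z α L z (n + 1) u = a} =
        ⋃ x ∈ {x : ℂ | x + c * x * (1 - x) = a}, {z : ℂ | Z α L z n u = x} := by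
      ext z
      simp only [mem_ofPred_eq, mem_iUnion, exists_prop]
      rw [Z_succ_real]
      constructor
      · intro h
        exact ⟨Z α L z n u, h, rfl⟩
      · rintro ⟨x, hx, rfl⟩
        exact hx
    rw [this]
    exact hR.biUnion fun x _ => ih x

/-- Neutral exponent: the summable orbits tending to `0` start from a countable set. -/
theorem neutral_countable (α : ℂ) (L : ℕ) (hα0 : 0 < ‖α‖) (hα : ‖α‖ < 1) (hL : 2 ≤ L)
    (hmean : (∫ t in (0 : ℝ)..1, Real.log ‖1 + α * Real.cos (2 * Real.pi * t)‖) = 0) :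
    ∀ᵐ u : ℝ, {z : ℂ | Summable (fun n => ‖Z α L z n u * (1 - Z α L z n u)‖ ^ 2) ∧
      Tendsto (fun n => Z α L z n u) atTop (𝓝 0)}.Countable := by
  filter_upwards [sumNeutralSpec α L hα0 hα hL hmean] with u hu
  have h1 : (⋃ n : ℕ, {z : ℂ | Z α L z n u = 0}).Countable :=
    countable_iUnion fun n => (Z_fib_finite α L u n 0).countable
  refine h1.mono ?_
  rintro z ⟨h2, h3⟩
  exact mem_iUnion.mpr (hu z h2 h3)

end Kan.Ntr
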