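import Pool.Agent.Work.MP_ed045b_an.Specs8
import Pool.Agent.Work.MP_ed045b_an.Window
import Pool.Agent.Work.MP_ed045b_an.Energy4
import Pool.Agent.Work.MP_ed045b_an.Neutral

/-!
The neutral specification of `Specs8.lean`.
-/

namespace Kan

open MeasureTheory Filter Topology

theorem neutral8 : NeutralSpec := by
  intro α L hα0 hα1 hL hmean z
  obtain ⟨K, hK⟩ := window α L hα0 hα1 hL
  filter_upwards [hK z, energy_summable α L hα0 hα1 hL z K,
    Ntr.sumNeutralSpec α L hα0 hα1 (by omega) hmean] with u h1 h2 h3 hlim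
  rcases h1 with h | h
  · exfalso
    have h4 := hlim.norm
    rw [norm_zero] at h4
    exact not_tendsto_nhds_of_tendsto_atTop h 0 h4
  · exact h3 z (h2 h) hlim

end Kan
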