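import Pool.Agent.Work.MP_ed045b_an.Asm3
import Pool.Agent.Work.MP_ed045b_an.NeutralFinal

/-! The final statement with the description of the attractors. -/

namespace Kan

open MeasureTheory Filter Topology Set

theorem noZero (α : ℂ) (L : ℕ) (hα0 : 0 < ‖α‖) (hα1 : ‖α‖ < 1) (hL : 6 ≤ L)
    (he : 0 ≤ ∫ t in (0 : ℝ)..1, Real.log ‖1 + α * Real.cos (2 * Real.pi * t)‖) :
    ∀ᵐ u : ℝ, ∀ᵐ z : ℂ, ¬ Tendsto (fun n => Z α L z n u) atTop (𝓝 0) := by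
  rcases he.eq_or_lt with he | he
  · filter_upwards [neutral_ae α L (neutral8 α L hα0 hα1 hL) he.symm] with u hu
    have hc : ∀ᵐ z : ℂ, z ∉ {z : ℂ | ∃ n : ℕ, Z α L z n u = 0} :=
      measure_eq_zero_iff_ae_notMem.mp ((countable_hit α hα1 L u 0).measure_zero _)
    filter_upwards [hu, hc] with z h1 h2 h3
    exact absurd (h1 h3) h2
  · filter_upwards [zeroCount α L hα1 (by omega) he] with u hu
    exact measure_eq_zero_iff_ae_notMem.mp (hu.measure_zero _)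

theorem noOne (α : ℂ) (L : ℕ) (hα0 : 0 < ‖α‖) (hα1 : ‖α‖ < 1) (hL : 6 ≤ L)
    (he : 0 ≤ ∫ t in (0 : ℝ)..1, Real.log ‖1 + α * Real.cos (2 * Real.pi * t)‖) :
    ∀ᵐ u : ℝ, ∀ᵐ z : ℂ, ¬ Tendsto (fun n => Z α L z n u) atTop (𝓝 1) := by
  have h0 := noZero (-α) L (by simpa using hα0) (by simpa using hα1) hL (by rw [sym.2]; exact he)
  filter_upwards [h0] with u hu
  have hmp : MeasurePreserving (fun z : ℂ => 1 - z) volume volume :=
    Measure.measurePreserving_sub_left volume (1 : ℂ)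
  filter_upwards [hmp.quasiMeasurePreserving.ae hu] with z hz h2
  apply hz
  have h4 : ∀ n, Z (-α) L (1 - z) n u = 1 - Z α L z n u := fun n => sym.1 α L z n u
  simp only [h4]
  have := h2.const_sub 1
  rwa [sub_self] at this

theorem full (α : ℂ) (hα0 : 0 < ‖α‖) (hα1 : ‖α‖ < 1) (L : ℕ) (hL : 6 ≤ L) :
    ∀ᵐ u : ℝ ∂(MeasureTheory.volume : MeasureTheory.Measure ℝ),
      ∀ f : ℕ → ℂ → ℂ,
        (∀ n : ℕ, ∀ w : ℂ, f n w = (List.range n).foldl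
            (fun x j => x + α * ((Real.cos (2 * Real.pi * (L : ℝ) ^ j * u) : ℝ) : ℂ) * x * (1 - x)) w) →
      (∀ d : ℂ → ℂ → ℝ,
        (∀ a b : ℂ, d a b = 2 * ‖a - b‖ / (Real.sqrt (1 + ‖a‖ ^ 2) * Real.sqrt (1 + ‖b‖ ^ 2))) →
        MeasureTheory.volume {z : ℂ | ¬ ∃ U : Set ℂ, IsOpen U ∧ z ∈ U ∧
          ∀ φ : ℕ → ℕ, StrictMono φ → ∃ ψ : ℕ → ℕ, StrictMono ψ ∧
            ∀ K : Set ℂ, K ⊆ U → IsCompact K → ∀ ε : ℝ, 0 < ε →
              ∃ N : ℕ, ∀ m ≥ N, ∀ n ≥ N, ∀ w ∈ K,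
                d (f (φ (ψ m)) w) (f (φ (ψ n)) w) < ε} = 0) ∧
      (∀ᵐ z : ℂ ∂(MeasureTheory.volume : MeasureTheory.Measure ℂ),
        Tendsto (fun n => ‖f n z‖) atTop atTop ∨ Tendsto (fun n => f n z) atTop (𝓝 0) ∨
          Tendsto (fun n => f n z) atTop (𝓝 1)) ∧
      (0 ≤ ∫ t in (0 : ℝ)..1, Real.log ‖1 + α * ((Real.cos (2 * Real.pi * t) : ℝ) : ℂ)‖ →
        ∀ᵐ z : ℂ ∂(MeasureTheory.volume : MeasureTheory.Measure ℂ),
          Tendsto (fun n => ‖f n z‖) atTop atTop) := by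
  have htri : TriAt α L := tri α L hα0 hα1 hL
  have h3 : ∀ᵐ u : ℝ, 0 ≤ ∫ t in (0 : ℝ)..1, Real.log ‖1 + α * ((Real.cos (2 * Real.pi * t) : ℝ) : ℂ)‖ →
      ∀ᵐ z : ℂ, (¬ Tendsto (fun n => Z α L z n u) atTop (𝓝 0)) ∧
        ¬ Tendsto (fun n => Z α L z n u) atTop (𝓝 1) := by
    by_cases he : 0 ≤ ∫ t in (0 : ℝ)..1, Real.log ‖1 + α * ((Real.cos (2 * Real.pi * t) : ℝ) : ℂ)‖
    · filter_upwards [noZero α L hα0 hα1 hL he, noOne α L hα0 hα1 hL he] with u h1 h2 _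
      exact h1.and h2
    · exact Eventually.of_forall fun u h => absurd h he
  filter_upwards [full_of_neutral neutral8 α hα0 hα1 L hL, tri_ae α L htri, h3] with u h1 h2 h4
  intro f hf
  have hfZ : ∀ n w, f n w = Z α L w n u := fun n w => (hf n w).trans (foldl_eq α L u n w)
  refine ⟨h1 f hf, ?_, ?_⟩
  · simp only [hfZ]
    exact h2
  · intro he
    simp only [hfZ]
    filter_upwards [h2, h4 he] with z h5 h6
    rcases h5 with h | h | h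
    · exact h
    · exact absurd h h6.1
    · exact absurd h h6.2

end Kan
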