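import Pool.Agent.Work.MP_ed045b_an.Remez

/-! Growth of the orbit in complex windows. -/

namespace Kan

open MeasureTheory Filter Topology Set

theorem norm_cos_le (w : ℂ) : ‖Complex.cos w‖ ≤ Real.exp |w.im| := by
  rw [Complex.cos]
  have h1 : ‖Complex.exp (w * Complex.I)‖ ≤ Real.exp |w.im| := by
    rw [Complex.norm_exp]
    apply Real.exp_le_exp.mpr
    simp
    exact neg_le_abs _
  have h2 : ‖Complex.exp (-w * Complex.I)‖ ≤ Real.exp |w.im| := by
    rw [Complex.norm_exp]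
    apply Real.exp_le_exp.mpr
    simp
    exact le_abs_self _
  rw [norm_div]
  have h3 : ‖(2 : ℂ)‖ = 2 := by norm_num
  rw [h3, div_le_iff₀ (by norm_num)]
  refine le_trans (norm_add_le _ _) ?_
  linarith

theorem norm_cs_le (α w : ℂ) : ‖cs α w‖ ≤ ‖α‖ * Real.exp (2 * Real.pi * |w.im|) := by
  unfold cs
  rw [norm_mul]
  apply mul_le_mul_of_nonneg_left _ (norm_nonneg _)
  refine le_trans (norm_cos_le _) ?_
  apply Real.exp_le_exp.mpr
  apply le_of_eq
  have : (2 * (Real.pi : ℂ) * w).im = 2 * Real.pi * w.im := by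
    have h : (2 * (Real.pi : ℂ) * w) = ((2 * Real.pi : ℝ) : ℂ) * w := by push_cast; ring
    rw [h, Complex.im_ofReal_mul]
  rw [this, abs_mul, abs_of_pos (by positivity : (0 : ℝ) < 2 * Real.pi)]

theorem norm_cs_real_le (α : ℂ) (v : ℝ) : ‖cs α v‖ ≤ ‖α‖ := by
  have := norm_cs_le α v
  simpa using this

theorem differentiable_Z (α : ℂ) (L : ℕ) (z : ℂ) (n : ℕ) : Differentiable ℂ (Z α L z n) := by
  induction n with
  | zero => exact differentiable_const z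
  | succ n ih =>
    have h1 : Differentiable ℂ (fun w : ℂ => cs α ((L : ℂ) ^ n * w)) := by
      unfold cs
      fun_prop
    have : Z α L z (n + 1) = fun w => Z α L z n w + cs α ((L : ℂ) ^ n * w) * Z α L z n w * (1 - Z α L z n w) := rfl
    rw [this]
    fun_prop

theorem continuous_Z (α : ℂ) (L : ℕ) (z : ℂ) (n : ℕ) : Continuous (Z α L z n) :=
  (differentiable_Z α L z n).continuous

theorem growth_one (α : ℂ) (hα : ‖α‖ ≤ 1) (L : ℕ) (z : ℂ) (n : ℕ) (w : ℂ) :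
    Real.log (1 + ‖Z α L z (n + 1) w‖) ≤ 2 * Real.log (1 + ‖Z α L z n w‖) + Real.log 2 +
      2 * Real.pi * |w.im| * (L : ℝ) ^ n := by
  set Y := Z α L z n w with hY
  set c := cs α ((L : ℂ) ^ n * w) with hc
  have h1 : Z α L z (n + 1) w = Y + c * Y * (1 - Y) := rfl
  rw [h1]
  have hcn : ‖c‖ ≤ Real.exp (2 * Real.pi * |w.im| * (L : ℝ) ^ n) := by
    refine le_trans (norm_cs_le _ _) ?_
    have h2 : ((L : ℂ) ^ n * w).im = (L : ℝ) ^ n * w.im := by
      have : ((L : ℂ) ^ n * w) = (((L : ℝ) ^ n : ℝ) : ℂ) * w := by push_cast; ring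
      rw [this, Complex.im_ofReal_mul]
    rw [h2, abs_mul, abs_of_nonneg (by positivity : (0 : ℝ) ≤ (L : ℝ) ^ n)]
    calc ‖α‖ * Real.exp (2 * Real.pi * ((L : ℝ) ^ n * |w.im|))
        ≤ 1 * Real.exp (2 * Real.pi * ((L : ℝ) ^ n * |w.im|)) := by gcongr
      _ = _ := by rw [one_mul]; congr 1; ring
  set e := Real.exp (2 * Real.pi * |w.im| * (L : ℝ) ^ n) with he
  have he1 : 1 ≤ e := by
    rw [he]; apply Real.one_le_exp; positivity
  have hYn := norm_nonneg Y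
  have hcn0 := norm_nonneg c
  have h3 : 1 + ‖Y + c * Y * (1 - Y)‖ ≤ (1 + ‖Y‖) ^ 2 * (2 * e) := by
    have h4 : ‖Y + c * Y * (1 - Y)‖ ≤ ‖Y‖ + ‖c‖ * ‖Y‖ * (1 + ‖Y‖) := by
      refine le_trans (norm_add_le _ _) ?_
      rw [norm_mul, norm_mul]
      have : ‖1 - Y‖ ≤ 1 + ‖Y‖ := by
        refine le_trans (norm_sub_le _ _) ?_
        rw [norm_one]
      gcongr
    have h5 : ‖c‖ * ‖Y‖ * (1 + ‖Y‖) ≤ e * ‖Y‖ * (1 + ‖Y‖) := by gcongr
    nlinarith [mul_nonneg hYn hYn, mul_nonneg (sub_nonneg.mpr he1) hYn,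
      mul_nonneg (sub_nonneg.mpr he1) (mul_nonneg hYn hYn)]
  calc Real.log (1 + ‖Y + c * Y * (1 - Y)‖) ≤ Real.log ((1 + ‖Y‖) ^ 2 * (2 * e)) :=
        Real.log_le_log (by positivity) h3
    _ = 2 * Real.log (1 + ‖Y‖) + (Real.log 2 + Real.log e) := by
        rw [Real.log_mul (by positivity) (by positivity), Real.log_pow,
          Real.log_mul (by norm_num) (by positivity)]
        norm_num
    _ = _ := by rw [he, Real.log_exp]; ring

theorem growth_iter (α : ℂ) (hα : ‖α‖ ≤ 1) (L : ℕ) (hL : 3 ≤ L) (z : ℂ) (n k : ℕ) (w : ℂ) :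
    Real.log (1 + ‖Z α L z (n + k) w‖) ≤ 2 ^ k * (Real.log (1 + ‖Z α L z n w‖) + 1) - 1 +
      2 * Real.pi * |w.im| * ((L : ℝ) ^ (n + k) / (L - 2)) := by
  have hL' : (3 : ℝ) ≤ L := by exact_mod_cast hL
  have hL2 : (0 : ℝ) < L - 2 := by linarith
  induction k with
  | zero =>
    simp only [add_zero, pow_zero, one_mul, add_sub_cancel_right]
    have : 0 ≤ 2 * Real.pi * |w.im| * ((L : ℝ) ^ n / (L - 2)) := by positivity
    linarith
  | succ k ih =>
    have h1 := growth_one α hα L z (n + k) w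
    have h2 : Z α L z (n + (k + 1)) w = Z α L z (n + k + 1) w := rfl
    rw [h2]
    have hlog : Real.log 2 ≤ 1 := by
      have := Real.log_two_lt_d9; linarith
    have h3 : 2 * (2 * Real.pi * |w.im| * ((L : ℝ) ^ (n + k) / (L - 2))) +
        2 * Real.pi * |w.im| * (L : ℝ) ^ (n + k) =
        2 * Real.pi * |w.im| * ((L : ℝ) ^ (n + (k + 1)) / (L - 2)) := by
      rw [← add_assoc, pow_succ]
      field_simp
      ring
    rw [← h3, pow_succ]
    linarith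

/-- windows are bounded at every time (with a bad constant) -/
theorem bd_trivial (α : ℂ) (hα : ‖α‖ ≤ 1) (L : ℕ) (hL : 3 ≤ L) (z : ℂ) (x : ℝ) (n : ℕ) (r : ℝ) :
    Bd α L z x n r (2 ^ n * (Real.log (1 + ‖z‖) + 1) + 2 * Real.pi * (r / (L - 2))) := by
  intro w hw
  have hL' : (3 : ℝ) ≤ L := by exact_mod_cast hL
  have hL2 : (0 : ℝ) < L - 2 := by linarith
  have h1 := growth_iter α hα L hL z 0 n w
  rw [zero_add] at h1
  have h2 : Z α L z 0 w = z := rfl
  rw [h2] at h1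
  have him : |w.im| ≤ r / (L : ℝ) ^ n := by
    have := Complex.abs_im_le_norm (w - x)
    simp at this
    exact le_trans this hw
  have hLn : (0 : ℝ) < (L : ℝ) ^ n := by positivity
  have h3 : |w.im| * ((L : ℝ) ^ n / (L - 2)) ≤ r / (L - 2) := by
    calc |w.im| * ((L : ℝ) ^ n / (L - 2)) ≤ (r / (L : ℝ) ^ n) * ((L : ℝ) ^ n / (L - 2)) := by gcongr
      _ = r / (L - 2) := by field_simp
  have h4 : 2 * Real.pi * |w.im| * ((L : ℝ) ^ n / (L - 2)) ≤ 2 * Real.pi * (r / (L - 2)) := by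
    rw [mul_assoc]
    apply mul_le_mul_of_nonneg_left h3 (by positivity)
  linarith

/-- one block of the window recursion -/
theorem window_step (α : ℂ) (hα : ‖α‖ ≤ 1) (L : ℕ) (hL : 6 ≤ L) (C δ : ℝ) (hC : 0 < C)
    (hrem : ∀ (g : ℂ → ℂ) (M R : ℝ) (E : Set ℝ),
    Differentiable ℂ g → 0 ≤ M → 1 ≤ R → MeasurableSet E →
    (∀ ζ : ℂ, ‖ζ‖ ≤ 1296 → ‖g ζ‖ ≤ Real.exp M) →
    (∀ t ∈ E, |t| ≤ 648 → ‖g (t : ℂ)‖ ≤ R) →
    volume (Set.Icc (-648 : ℝ) 648 \ E) ≤ ENNReal.ofReal δ →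
    ∀ ζ : ℂ, ‖ζ‖ ≤ 1 → ‖g ζ‖ ≤ C * R * Real.exp (M / 32))
    (z : ℂ) (x : ℝ) (n : ℕ) (r K R : ℝ) (hr : 0 < r) (hR : 1 ≤ R) (hK : 0 ≤ K)
    (hBd : Bd α L z x n r K)
    (hvol : volume (Set.Icc (-648 : ℝ) 648 \
      {t : ℝ | ‖Z α L z (n + 4) ((x + r * t / (L : ℝ) ^ (n + 4) : ℝ) : ℂ)‖ ≤ R}) ≤ ENNReal.ofReal δ) :
    Bd α L z x (n + 4) r (K / 2 + (1 / 2 + 2 * Real.pi * r * ((L : ℝ) ^ 4 / (L - 2)) / 32 +
      Real.log (1 + C * R))) := by
  have hL' : (6 : ℝ) ≤ L := by exact_mod_cast hL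
  have hL2 : (0 : ℝ) < L - 2 := by linarith
  have hL4 : (1296 : ℝ) ≤ (L : ℝ) ^ 4 := by
    calc (1296 : ℝ) = 6 ^ 4 := by norm_num
      _ ≤ (L : ℝ) ^ 4 := by gcongr
  set M : ℝ := 16 * (K + 1) + 2 * Real.pi * r * ((L : ℝ) ^ 4 / (L - 2)) with hM
  have hM0 : 0 ≤ M := by positivity
  have hpow : (0 : ℝ) < (L : ℝ) ^ (n + 4) := by positivity
  set g : ℂ → ℂ := fun ζ => Z α L z (n + 4) (x + r * ζ / (L : ℂ) ^ (n + 4)) with hg
  have hgd : Differentiable ℂ g := by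
    have := differentiable_Z α L z (n + 4)
    simp only [hg]
    fun_prop
  have hgM : ∀ ζ : ℂ, ‖ζ‖ ≤ 1296 → ‖g ζ‖ ≤ Real.exp M := by
    intro ζ hζ
    set w : ℂ := x + r * ζ / (L : ℂ) ^ (n + 4) with hw
    have hwx : ‖w - x‖ ≤ r / (L : ℝ) ^ n := by
      have : w - x = r * ζ / (L : ℂ) ^ (n + 4) := by rw [hw]; ring
      rw [this, norm_div, norm_mul, norm_pow, Complex.norm_real, Real.norm_eq_abs,
        abs_of_pos hr, Complex.norm_natCast, div_le_div_iff₀ hpow (by positivity), pow_add]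
      have h1 : ‖ζ‖ ≤ (L : ℝ) ^ 4 := le_trans hζ hL4
      calc r * ‖ζ‖ * (L : ℝ) ^ n ≤ r * (L : ℝ) ^ 4 * (L : ℝ) ^ n := by gcongr
        _ = r * ((L : ℝ) ^ n * (L : ℝ) ^ 4) := by ring
    have h1 := growth_iter α hα L (by omega) z n 4 w
    have h2 := hBd w hwx
    have him : |w.im| ≤ r / (L : ℝ) ^ n := by
      have := Complex.abs_im_le_norm (w - x)
      simp at this
      exact le_trans this hwx
    have h3 : 2 * Real.pi * |w.im| * ((L : ℝ) ^ (n + 4) / (L - 2)) ≤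
        2 * Real.pi * r * ((L : ℝ) ^ 4 / (L - 2)) := by
      calc 2 * Real.pi * |w.im| * ((L : ℝ) ^ (n + 4) / (L - 2))
          ≤ 2 * Real.pi * (r / (L : ℝ) ^ n) * ((L : ℝ) ^ (n + 4) / (L - 2)) := by gcongr
        _ = 2 * Real.pi * r * ((L : ℝ) ^ 4 / (L - 2)) := by
            rw [pow_add]; field_simp
    have h4 : Real.log (1 + ‖Z α L z (n + 4) w‖) ≤ M := by
      rw [hM]
      have : (2 : ℝ) ^ 4 = 16 := by norm_num
      rw [this] at h1
      linarith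
    have h5 : ‖g ζ‖ = ‖Z α L z (n + 4) w‖ := rfl
    rw [h5]
    have h6 : 1 + ‖Z α L z (n + 4) w‖ ≤ Real.exp M := by
      rw [← Real.log_le_iff_le_exp (by positivity)]
      exact h4
    linarith
  set E : Set ℝ := {t : ℝ | ‖Z α L z (n + 4) ((x + r * t / (L : ℝ) ^ (n + 4) : ℝ) : ℂ)‖ ≤ R} with hE
  have hEm : MeasurableSet E := by
    apply measurableSet_le _ measurable_const
    apply Measurable.norm
    apply (continuous_Z α L z (n + 4)).measurable.comp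
    apply Complex.measurable_ofReal.comp
    fun_prop
  have hgE : ∀ t ∈ E, |t| ≤ 648 → ‖g (t : ℂ)‖ ≤ R := by
    intro t ht _
    have : g (t : ℂ) = Z α L z (n + 4) ((x + r * t / (L : ℝ) ^ (n + 4) : ℝ) : ℂ) := by
      simp only [hg]
      congr 1
      push_cast; ring
    rw [this]
    exact ht
  have hfin := hrem g M R E hgd hM0 hR hEm hgM hgE hvol
  intro w hw
  set ζ : ℂ := (w - x) * (L : ℂ) ^ (n + 4) / r with hζ
  have hrC : (r : ℂ) ≠ 0 := by exact_mod_cast hr.ne'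
  have hLC : (L : ℂ) ^ (n + 4) ≠ 0 := by
    have : (L : ℂ) ≠ 0 := by
      have : L ≠ 0 := by omega
      exact_mod_cast this
    positivity
  have hζn : ‖ζ‖ ≤ 1 := by
    rw [hζ, norm_div, norm_mul, norm_pow, Complex.norm_natCast, Complex.norm_real,
      Real.norm_eq_abs, abs_of_pos hr, div_le_one hr]
    rwa [le_div_iff₀ hpow] at hw
  have hgζ : g ζ = Z α L z (n + 4) w := by
    simp only [hg]
    congr 1
    rw [hζ]
    field_simp
    ring
  have h1 := hfin ζ hζn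
  rw [hgζ] at h1
  have hexp : 1 ≤ Real.exp (M / 32) := Real.one_le_exp (by positivity)
  have h2 : 1 + ‖Z α L z (n + 4) w‖ ≤ (1 + C * R) * Real.exp (M / 32) := by
    nlinarith
  calc Real.log (1 + ‖Z α L z (n + 4) w‖) ≤ Real.log ((1 + C * R) * Real.exp (M / 32)) :=
        Real.log_le_log (by positivity) h2
    _ = Real.log (1 + C * R) + M / 32 := by
        rw [Real.log_mul (by positivity) (by positivity), Real.log_exp]
    _ ≤ _ := by rw [hM]; linarith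

end Kan
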