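import Pool.Agent.Work.MP_ed045b_an.Nodes

/-! Interpolation at well separated nodes. -/

namespace Kan

open MeasureTheory Filter Topology Set

theorem factor_entire (N : ℕ) (x : ℕ → ℂ) (hinj : ∀ i < N, ∀ j < N, i ≠ j → x i ≠ x j)
    (f : ℂ → ℂ) (hf : Differentiable ℂ f) (hz : ∀ i < N, f (x i) = 0) :
    ∃ q : ℂ → ℂ, Differentiable ℂ q ∧ ∀ z, f z = (∏ i ∈ Finset.range N, (z - x i)) * q z := by
  induction N with
  | zero => exact ⟨f, hf, fun z => by simp⟩
  | succ N ih =>
    obtain ⟨q, hq, hfq⟩ := ih (fun i hi j hj => hinj i (by omega) j (by omega))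
      (fun i hi => hz i (by omega))
    have hqN : q (x N) = 0 := by
      have h1 := hz N (by omega)
      rw [hfq] at h1
      rcases mul_eq_zero.mp h1 with h | h
      · exfalso
        rw [Finset.prod_eq_zero_iff] at h
        obtain ⟨i, hi, h⟩ := h
        have hi' := Finset.mem_range.mp hi
        exact hinj N (by omega) i (by omega) (by omega) (sub_eq_zero.mp h)
      · exact h
    refine ⟨dslope q (x N), ?_, ?_⟩
    · have := (Complex.differentiableOn_dslope (s := Set.univ) (c := x N) (f := q)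
        Filter.univ_mem).mpr hq.differentiableOn
      exact differentiableOn_univ.mp this
    · intro z
      rw [hfq z, Finset.prod_range_succ, mul_assoc]
      congr 1
      have := sub_smul_dslope q (x N) z
      rw [hqN, sub_zero] at this
      rw [← this, smul_eq_mul]

/-- Bound for an entire function from its values at nodes. -/
theorem interp_bound (N : ℕ) (x : ℕ → ℝ) (hinj : ∀ i < N, ∀ j < N, i ≠ j → x i ≠ x j)
    (g : ℂ → ℂ) (hg : Differentiable ℂ g) (ρ G R : ℝ) (hρ : 1 ≤ ρ) (hR : 0 ≤ R)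
    (hxρ : ∀ i < N, |x i| < ρ) (hgx : ∀ i < N, ‖g (x i)‖ ≤ R)
    (hG : ∀ w : ℂ, ‖w‖ = ρ → ‖g w‖ ≤ G) (ζ : ℂ) (hζ : ‖ζ‖ ≤ 1) :
    ‖g ζ‖ ≤ R * ∑ j ∈ Finset.range N, ∏ i ∈ (Finset.range N).erase j, ((1 + |x i|) / |x j - x i|)
      + (∏ i ∈ Finset.range N, (1 + |x i|)) * (G / (∏ i ∈ Finset.range N, (ρ - |x i|))
        + R * ∑ j ∈ Finset.range N, 1 / ((ρ - |x j|) * ∏ i ∈ (Finset.range N).erase j, |x j - x i|)) := by
  classical
  set P : ℂ → ℂ := fun w => ∑ j ∈ Finset.range N, g (x j) *
    ∏ i ∈ (Finset.range N).erase j, ((w - x i) / ((x j : ℂ) - x i)) with hP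
  have hPd : Differentiable ℂ P := by
    rw [hP]
    apply Differentiable.fun_sum
    intro j _
    apply Differentiable.const_mul
    apply Differentiable.fun_finsetProd
    intro i _
    exact (differentiable_id.sub_const _).div_const _
  have hPx : ∀ k < N, P (x k) = g (x k) := by
    intro k hk
    simp only [hP]
    rw [Finset.sum_eq_single k]
    · rw [Finset.prod_eq_one, mul_one]
      intro i hi
      rw [Finset.mem_erase, Finset.mem_range] at hi
      apply div_self
      rw [sub_ne_zero]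
      intro h
      exact hinj k hk i hi.2 (Ne.symm hi.1) (by exact_mod_cast h)
    · intro j _ hjk
      rw [Finset.prod_eq_zero (i := k), mul_zero]
      · rw [Finset.mem_erase, Finset.mem_range]
        exact ⟨Ne.symm hjk, hk⟩
      · simp
    · intro h
      exact absurd (Finset.mem_range.mpr hk) h
  obtain ⟨q, hq, hfq⟩ := factor_entire N (fun i => (x i : ℂ))
    (fun i hi j hj hij h => hinj i hi j hj hij (by exact_mod_cast h)) (fun w => g w - P w)
    (hg.sub hPd) (fun i hi => by simp [hPx i hi])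
  -- bound of P
  have hPb : ∀ w : ℂ, ‖P w‖ ≤ R * ∑ j ∈ Finset.range N,
      ∏ i ∈ (Finset.range N).erase j, (‖w - x i‖ / |x j - x i|) := by
    intro w
    simp only [hP]
    refine le_trans (norm_sum_le _ _) ?_
    rw [Finset.mul_sum]
    apply Finset.sum_le_sum
    intro j hj
    rw [norm_mul]
    apply mul_le_mul (hgx j (Finset.mem_range.mp hj)) _ (norm_nonneg _) hR
    rw [norm_prod]
    apply le_of_eq
    apply Finset.prod_congr rfl
    intro i _
    rw [norm_div]
    congr 1
    rw [← Complex.ofReal_sub, Complex.norm_real, Real.norm_eq_abs]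
  -- bound on the circle for q
  have hpos : ∀ i ∈ Finset.range N, 0 < ρ - |x i| := by
    intro i hi
    have := hxρ i (Finset.mem_range.mp hi)
    linarith
  have hprodpos : 0 < ∏ i ∈ Finset.range N, (ρ - |x i|) := Finset.prod_pos hpos
  have hωlow : ∀ w : ℂ, ‖w‖ = ρ → ∀ i ∈ Finset.range N, ρ - |x i| ≤ ‖w - x i‖ := by
    intro w hw i _
    have := norm_sub_norm_le w (x i : ℂ)
    rw [hw, Complex.norm_real, Real.norm_eq_abs] at this
    exact this
  have hqb : ∀ w : ℂ, ‖w‖ = ρ → ‖q w‖ ≤ G / (∏ i ∈ Finset.range N, (ρ - |x i|))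
        + R * ∑ j ∈ Finset.range N, 1 / ((ρ - |x j|) * ∏ i ∈ (Finset.range N).erase j, |x j - x i|) := by
    intro w hw
    have h1 := hfq w
    have hωpos : 0 < ∏ i ∈ Finset.range N, ‖w - x i‖ :=
      Finset.prod_pos fun i hi => lt_of_lt_of_le (hpos i hi) (hωlow w hw i hi)
    have h2 : ‖g w - P w‖ = (∏ i ∈ Finset.range N, ‖w - x i‖) * ‖q w‖ := by
      rw [h1, norm_mul, norm_prod]
    have h3 : ‖q w‖ = ‖g w - P w‖ / ∏ i ∈ Finset.range N, ‖w - x i‖ := by
      rw [h2]; field_simp
    rw [h3]
    have h4 : ‖g w - P w‖ ≤ G + R * ∑ j ∈ Finset.range N,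
      ∏ i ∈ (Finset.range N).erase j, (‖w - x i‖ / |x j - x i|) :=
      le_trans (norm_sub_le _ _) (add_le_add (hG w hw) (hPb w))
    refine le_trans (div_le_div_of_nonneg_right h4 hωpos.le) ?_
    rw [add_div]
    apply add_le_add
    · have hG0 : 0 ≤ G := le_trans (norm_nonneg _) (hG w hw)
      apply div_le_div_of_nonneg_left hG0 hprodpos
      exact Finset.prod_le_prod (fun i hi => (hpos i hi).le) (fun i hi => hωlow w hw i hi)
    · rw [mul_div_assoc]
      apply mul_le_mul_of_nonneg_left _ hR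
      rw [Finset.sum_div]
      apply Finset.sum_le_sum
      intro j hj
      have hj' := hωlow w hw j hj
      have hjp := hpos j hj
      have h5 : (∏ i ∈ Finset.range N, ‖w - x i‖) =
          ‖w - x j‖ * ∏ i ∈ (Finset.range N).erase j, ‖w - x i‖ :=
        (Finset.mul_prod_erase _ _ hj).symm
      have h6 : (∏ i ∈ (Finset.range N).erase j, (‖w - x i‖ / |x j - x i|)) =
          (∏ i ∈ (Finset.range N).erase j, ‖w - x i‖) /
            (∏ i ∈ (Finset.range N).erase j, |x j - x i|) := by
        rw [Finset.prod_div_distrib]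
      have h7 : 0 < ∏ i ∈ (Finset.range N).erase j, ‖w - x i‖ :=
        Finset.prod_pos fun i hi =>
          lt_of_lt_of_le (hpos i (Finset.mem_of_mem_erase hi)) (hωlow w hw i (Finset.mem_of_mem_erase hi))
      have h8 : 0 < ∏ i ∈ (Finset.range N).erase j, |x j - x i| := by
        apply Finset.prod_pos
        intro i hi
        rw [Finset.mem_erase, Finset.mem_range] at hi
        rw [abs_pos, sub_ne_zero]
        exact hinj j (Finset.mem_range.mp hj) i hi.2 (Ne.symm hi.1)
      have h9 : 0 < ‖w - x j‖ := lt_of_lt_of_le hjp hj'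
      rw [h5, h6]
      rw [div_div, div_le_div_iff₀ (by positivity) (by positivity)]
      nlinarith [mul_le_mul_of_nonneg_left hj' (mul_pos h7 h8).le]
  -- maximum principle
  have hmax : ‖q ζ‖ ≤ G / (∏ i ∈ Finset.range N, (ρ - |x i|))
        + R * ∑ j ∈ Finset.range N, 1 / ((ρ - |x j|) * ∏ i ∈ (Finset.range N).erase j, |x j - x i|) := by
    have hρ0 : ρ ≠ 0 := by linarith
    apply Complex.norm_le_of_forall_mem_frontier_norm_le (U := Metric.ball (0 : ℂ) ρ)
      Metric.isBounded_ball hq.diffContOnCl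
    · intro w hw
      rw [frontier_ball _ hρ0] at hw
      exact hqb w (by simpa using hw)
    · rw [closure_ball _ hρ0]
      simp only [Metric.mem_closedBall, dist_zero_right]
      linarith
  have hζx : ∀ i, ‖ζ - x i‖ ≤ 1 + |x i| := by
    intro i
    refine le_trans (norm_sub_le _ _) ?_
    rw [Complex.norm_real, Real.norm_eq_abs]
    linarith
  have hfin : g ζ = P ζ + (∏ i ∈ Finset.range N, (ζ - x i)) * q ζ := by
    rw [← hfq ζ]; ring
  rw [hfin]
  refine le_trans (norm_add_le _ _) ?_
  apply add_le_add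
  · refine le_trans (hPb ζ) ?_
    apply mul_le_mul_of_nonneg_left _ hR
    apply Finset.sum_le_sum
    intro j _
    apply Finset.prod_le_prod
    · intro i _; positivity
    · intro i _
      exact div_le_div_of_nonneg_right (hζx i) (abs_nonneg _)
  · rw [norm_mul, norm_prod]
    apply mul_le_mul _ hmax (norm_nonneg _)
    · exact Finset.prod_nonneg fun i _ => by positivity
    · exact Finset.prod_le_prod (fun i _ => norm_nonneg _) (fun i _ => hζx i)

end Kan
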