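import Pool.Agent.Work.MP_ed045b_an.LLN

/-!
Fluctuations of lacunary sums (for the neutral curve): if `f` is Lipschitz, 1-periodic, mean zero
and not a coboundary then `S_n ≥ ε √n` infinitely often, almost everywhere.
-/

namespace Kan.Ntr

open MeasureTheory Filter Topology Set

/-- Transfer operator. -/
noncomputable def PF (L : ℕ) (f : ℝ → ℝ) (x : ℝ) : ℝ :=
  (1 / (L : ℝ)) * ∑ k ∈ Finset.range L, f ((x + k) / L)

lemma PF_lip (L : ℕ) (hL : 1 ≤ L) (f : ℝ → ℝ) (K : ℝ) (hf : ∀ x y, |f x - f y| ≤ K * |x - y|)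
    (x y : ℝ) : |PF L f x - PF L f y| ≤ K / L * |x - y| := by
  have hL' : (0 : ℝ) < L := by exact_mod_cast hL
  unfold PF
  rw [← mul_sub, ← Finset.sum_sub_distrib, abs_mul, abs_of_pos (by positivity : (0 : ℝ) < 1 / L)]
  have h1 : |∑ k ∈ Finset.range L, (f ((x + k) / L) - f ((y + k) / L))| ≤
      ∑ k ∈ Finset.range L, K / L * |x - y| := by
    refine (Finset.abs_sum_le_sum_abs _ _).trans (Finset.sum_le_sum fun k _ => ?_)
    refine (hf _ _).trans (le_of_eq ?_)
    rw [← sub_div, abs_div, abs_of_pos hL', add_sub_add_right_eq_sub]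
    ring
  rw [Finset.sum_const, Finset.card_range, nsmul_eq_mul] at h1
  calc 1 / (L : ℝ) * |∑ k ∈ Finset.range L, (f ((x + k) / L) - f ((y + k) / L))|
      ≤ 1 / (L : ℝ) * (L * (K / L * |x - y|)) := by
        apply mul_le_mul_of_nonneg_left h1 (by positivity)
    _ = K / L * |x - y| := by field_simp

lemma PF_per (L : ℕ) (hL : 1 ≤ L) (f : ℝ → ℝ) (hf : ∀ x, f (x + 1) = f x) (x : ℝ) :
    PF L f (x + 1) = PF L f x := by
  have hL' : (0 : ℝ) < L := by exact_mod_cast hL
  unfold PF
  congr 1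
  have h1 : ∀ k : ℕ, f ((x + 1 + k) / L) = f ((x + ((k + 1 : ℕ) : ℝ)) / L) := by
    intro k
    congr 2
    push_cast
    ring
  rw [Finset.sum_congr rfl (fun k _ => h1 k)]
  have h2 := Finset.sum_range_succ (fun k : ℕ => f ((x + (k : ℝ)) / L)) L
  have h3 := Finset.sum_range_succ' (fun k : ℕ => f ((x + (k : ℝ)) / L)) L
  have h4 : f ((x + (L : ℝ)) / L) = f ((x + ((0 : ℕ) : ℝ)) / L) := by
    rw [show (x + (L : ℝ)) / L = (x + ((0 : ℕ) : ℝ)) / L + 1 by push_cast; field_simp; ring]
    rw [hf]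
  rw [h4] at h2
  linarith

lemma PF_continuous (L : ℕ) (f : ℝ → ℝ) (hf : Continuous f) : Continuous (PF L f) := by
  unfold PF
  apply Continuous.mul continuous_const
  apply continuous_finsetSum
  intro k _
  exact hf.comp (by fun_prop)

lemma PF_int (L : ℕ) (hL : 1 ≤ L) (f h : ℝ → ℝ) (hfc : Continuous f) (hhc : Continuous h)
    (hh : ∀ x, h (x + 1) = h x) :
    ∫ x in (0 : ℝ)..1, f x * h (L * x) = ∫ x in (0 : ℝ)..1, PF L f x * h x := by
  have hL' : (0 : ℝ) < L := by exact_mod_cast hL
  have hper : Function.Periodic h 1 := hh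
  have h1 : ∫ x in (0 : ℝ)..1, f x * h (L * x) =
      (L : ℝ)⁻¹ * ∫ y in (0 : ℝ)..L, f (y / L) * h y := by
    have := intervalIntegral.integral_comp_mul_left (a := 0) (b := 1)
      (fun y => f (y / L) * h y) hL'.ne'
    simp only [mul_zero, mul_one, smul_eq_mul] at this
    rw [← this]
    apply intervalIntegral.integral_congr
    intro x _
    simp only
    rw [mul_div_cancel_left₀ _ hL'.ne']
  have hc : Continuous (fun y => f (y / L) * h y) := by fun_prop
  have h2 : ∫ y in (0 : ℝ)..L, f (y / L) * h y =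
      ∑ k ∈ Finset.range L, ∫ y in (k : ℝ)..((k + 1 : ℕ) : ℝ), f (y / L) * h y := by
    rw [intervalIntegral.sum_integral_adjacent_intervals (f := fun y => f (y / L) * h y)
      (a := fun m : ℕ => (m : ℝ)) (fun k _ => hc.intervalIntegrable _ _)]
    simp
  have h3 : ∀ k : ℕ, ∫ y in (k : ℝ)..((k + 1 : ℕ) : ℝ), f (y / L) * h y =
      ∫ x in (0 : ℝ)..1, f ((x + k) / L) * h x := by
    intro k
    have := intervalIntegral.integral_comp_add_right (a := 0) (b := 1)
      (fun y => f (y / L) * h y) (k : ℝ)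
    rw [zero_add] at this
    push_cast
    rw [add_comm (k : ℝ) 1, ← this]
    apply intervalIntegral.integral_congr
    intro x _
    simp only
    congr 1
    have := hper.nat_mul k x
    rw [mul_one] at this
    exact this
  rw [h1, h2, Finset.sum_congr rfl (fun k _ => h3 k), ← intervalIntegral.integral_finsetSum,
    ← intervalIntegral.integral_const_mul]
  · apply intervalIntegral.integral_congr
    intro x _
    simp only [PF]
    rw [one_div, mul_assoc, Finset.sum_mul]
  · intro k _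
    apply Continuous.intervalIntegrable
    fun_prop

lemma PF_one (L : ℕ) (hL : 1 ≤ L) (x : ℝ) : PF L (fun _ => 1) x = 1 := by
  have hL' : (0 : ℝ) < L := by exact_mod_cast hL
  unfold PF
  simp only [Finset.sum_const, Finset.card_range, nsmul_eq_mul, mul_one]
  field_simp

lemma int_mul (L : ℕ) (hL : 1 ≤ L) (h : ℝ → ℝ) (hhc : Continuous h)
    (hh : ∀ x, h (x + 1) = h x) :
    ∫ x in (0 : ℝ)..1, h (L * x) = ∫ x in (0 : ℝ)..1, h x := by
  have := PF_int L hL (fun _ => 1) h continuous_const hhc hh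
  simpa [PF_one L hL] using this

lemma sup_of_mean (f : ℝ → ℝ) (K : ℝ) (hfc : Continuous f) (hper : ∀ x, f (x + 1) = f x)
    (hf : ∀ x y, |f x - f y| ≤ K * |x - y|) (hmean : ∫ t in (0 : ℝ)..1, f t = 0) (x : ℝ) :
    |f x| ≤ K := by
  have hP : Function.Periodic f 1 := hper
  have h0 : ∫ t in x..(x + 1), f t = 0 := by
    rw [hP.intervalIntegral_add_eq x 0]
    simpa using hmean
  have h1 : f x = ∫ t in x..(x + 1), (f x - f t) := by
    rw [intervalIntegral.integral_sub (by simp) (hfc.intervalIntegrable _ _), h0]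
    simp
  have hK : 0 ≤ K := by
    have := hf 1 0
    have h2 := abs_nonneg (f 1 - f 0)
    simp at this
    linarith
  have h2 : ‖∫ t in x..(x + 1), (f x - f t)‖ ≤ K * |x + 1 - x| := by
    apply intervalIntegral.norm_integral_le_of_norm_le_const
    intro t ht
    rw [uIoc_of_le (by linarith)] at ht
    rw [Real.norm_eq_abs]
    refine (hf x t).trans ?_
    have h3 : |x - t| ≤ 1 := by
      rw [abs_le]
      constructor <;> linarith [ht.1, ht.2]
    nlinarith
  rw [← h1, Real.norm_eq_abs, add_sub_cancel_left, abs_one, mul_one] at h2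
  exact h2

section

variable (L : ℕ) (hL : 2 ≤ L) (f : ℝ → ℝ) (K : ℝ) (hfc : Continuous f)
  (hper : ∀ x, f (x + 1) = f x) (hf : ∀ x y, |f x - f y| ≤ K * |x - y|)
  (hmean : ∫ t in (0 : ℝ)..1, f t = 0)

/-- Iterated transfer operator. -/
noncomputable def PT (L : ℕ) (f : ℝ → ℝ) (j : ℕ) : ℝ → ℝ := (PF L)^[j] f

lemma PT_succ (L : ℕ) (f : ℝ → ℝ) (j : ℕ) : PT L f (j + 1) = PF L (PT L f j) := by
  unfold PT
  rw [Function.iterate_succ_apply']

include hL hfc hper hf hmean in
lemma PT_props (j : ℕ) : Continuous (PT L f j) ∧ (∀ x, PT L f j (x + 1) = PT L f j x) ∧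
    (∀ x y, |PT L f j x - PT L f j y| ≤ K / (L : ℝ) ^ j * |x - y|) ∧
    ∫ t in (0 : ℝ)..1, PT L f j t = 0 := by
  induction j with
  | zero => exact ⟨hfc, hper, by simpa [PT] using hf, hmean⟩
  | succ j ih =>
    obtain ⟨h1, h2, h3, h4⟩ := ih
    rw [PT_succ]
    refine ⟨PF_continuous L _ h1, PF_per L (by omega) _ h2, ?_, ?_⟩
    · intro x y
      refine (PF_lip L (by omega) _ _ h3 x y).trans (le_of_eq ?_)
      rw [pow_succ, div_div]
    · have := PF_int L (by omega) (PT L f j) (fun _ => 1) h1 continuous_const (fun _ => rfl)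
      simp only [mul_one] at this
      rw [← this, h4]

include hL hfc hper hf hmean in
lemma PT_bound (j : ℕ) (x : ℝ) : |PT L f j x| ≤ K / (L : ℝ) ^ j := by
  obtain ⟨h1, h2, h3, h4⟩ := PT_props L hL f K hfc hper hf hmean j
  exact sup_of_mean _ _ h1 h2 h3 h4 x

/-- The corrector. -/
noncomputable def cor (L : ℕ) (f : ℝ → ℝ) (x : ℝ) : ℝ := ∑' j : ℕ, PT L f (j + 1) x

include hL in
lemma summable_geom_bd : Summable (fun j : ℕ => K / (L : ℝ) ^ (j + 1)) := by
  have hL' : (2 : ℝ) ≤ L := by exact_mod_cast hL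
  have h1 : Summable (fun j : ℕ => ((1 : ℝ) / L) ^ j) := by
    apply summable_geometric_of_lt_one (by positivity)
    rw [div_lt_one (by linarith)]
    linarith
  have h2 := h1.mul_left (K / L)
  refine h2.congr fun j => ?_
  rw [pow_succ, one_div, inv_pow]
  field_simp

include hL hfc hper hf hmean in
lemma cor_summable (x : ℝ) : Summable (fun j : ℕ => PT L f (j + 1) x) := by
  apply Summable.of_norm_bounded (summable_geom_bd L hL K)
  intro j
  rw [Real.norm_eq_abs]
  exact PT_bound L hL f K hfc hper hf hmean (j + 1) x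

include hL hfc hper hf hmean in
lemma cor_continuous : Continuous (cor L f) := by
  apply continuous_tsum (fun j => (PT_props L hL f K hfc hper hf hmean (j + 1)).1)
    (summable_geom_bd L hL K)
  intro j x
  rw [Real.norm_eq_abs]
  exact PT_bound L hL f K hfc hper hf hmean (j + 1) x

include hL hfc hper hf hmean in
lemma cor_per (x : ℝ) : cor L f (x + 1) = cor L f x := by
  unfold cor
  congr 1
  ext j
  exact (PT_props L hL f K hfc hper hf hmean (j + 1)).2.1 x

include hL hfc hper hf hmean in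
lemma cor_PF (x : ℝ) : PF L (cor L f) x = cor L f x - PF L f x := by
  have h1 : PF L (cor L f) x = ∑' j : ℕ, PT L f (j + 2) x := by
    have h5 : PF L (cor L f) x = (1 / (L : ℝ)) *
        ∑' j : ℕ, ∑ k ∈ Finset.range L, PT L f (j + 1) ((x + k) / L) := by
      rw [Summable.tsum_finsetSum (f := fun (k : ℕ) (j : ℕ) => PT L f (j + 1) ((x + k) / L))
        (fun k _ => cor_summable L hL f K hfc hper hf hmean ((x + k) / L))]
      rfl
    rw [h5, ← tsum_mul_left]
    congr 1
    ext j
    rw [show j + 2 = (j + 1) + 1 from rfl, PT_succ L f (j + 1)]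
    rfl
  have h2 := (cor_summable L hL f K hfc hper hf hmean x).tsum_eq_zero_add
  rw [h1]
  unfold cor
  rw [h2]
  have h3 : PT L f (0 + 1) x = PF L f x := rfl
  rw [h3]
  ring_nf

/-- The martingale part. -/
noncomputable def mg (L : ℕ) (f : ℝ → ℝ) (x : ℝ) : ℝ := f x + cor L f x - cor L f (L * x)

include hL hfc hper hf hmean in
lemma mg_continuous : Continuous (mg L f) := by
  have h := cor_continuous L hL f K hfc hper hf hmean
  unfold mg
  fun_prop

include hL hfc hper hf hmean in
lemma cor_per_nat (k : ℕ) (x : ℝ) : cor L f (x + k) = cor L f x := by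
  have hp : Function.Periodic (cor L f) 1 := cor_per L hL f K hfc hper hf hmean
  have := hp.nat_mul k x
  rwa [mul_one] at this

include hL hfc hper hf hmean in
lemma mg_per (x : ℝ) : mg L f (x + 1) = mg L f x := by
  unfold mg
  rw [hper, cor_per L hL f K hfc hper hf hmean, mul_add, mul_one,
    cor_per_nat L hL f K hfc hper hf hmean L (L * x)]

include hL hfc hper hf hmean in
lemma mg_PF (x : ℝ) : PF L (mg L f) x = 0 := by
  have hL' : (0 : ℝ) < L := by positivity
  have h1 : PF L (mg L f) x = PF L f x + PF L (cor L f) x - cor L f x := by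
    unfold PF mg
    rw [Finset.sum_sub_distrib, Finset.sum_add_distrib]
    have h2 : ∀ k : ℕ, cor L f (L * ((x + k) / L)) = cor L f x := by
      intro k
      rw [mul_div_cancel₀ _ hL'.ne', cor_per_nat L hL f K hfc hper hf hmean k x]
    rw [Finset.sum_congr rfl (fun k _ => h2 k)]
    simp only [Finset.sum_const, Finset.card_range, nsmul_eq_mul]
    field_simp
  rw [h1, cor_PF L hL f K hfc hper hf hmean]
  ring

lemma llnS_succ' (f : ℝ → ℝ) (L n : ℕ) (u : ℝ) :
    llnS f L (n + 1) u = f u + llnS f L n (L * u) := by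
  unfold llnS
  rw [Finset.sum_range_succ']
  rw [add_comm]
  congr 1
  · simp
  · apply Finset.sum_congr rfl
    intro j _
    rw [pow_succ, mul_assoc]

lemma llnS_per (f : ℝ → ℝ) (hper : ∀ x, f (x + 1) = f x) (L n : ℕ) (u : ℝ) :
    llnS f L n (u + 1) = llnS f L n u := by
  unfold llnS
  apply Finset.sum_congr rfl
  intro j _
  have hp : Function.Periodic f 1 := hper
  have := hp.nat_mul (L ^ j) ((L : ℝ) ^ j * u)
  rw [mul_one] at this
  rw [mul_add, mul_one]
  push_cast at this
  exact this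

lemma llnS_mg (f : ℝ → ℝ) (L n : ℕ) (u : ℝ) :
    llnS (mg L f) L n u = llnS f L n u + cor L f u - cor L f ((L : ℝ) ^ n * u) := by
  induction n with
  | zero => simp [llnS]
  | succ n ih =>
    have h1 : ∀ g : ℝ → ℝ, llnS g L (n + 1) u = llnS g L n u + g ((L : ℝ) ^ n * u) := by
      intro g
      simp only [llnS, Finset.sum_range_succ]
    rw [h1, h1, ih]
    unfold mg
    rw [pow_succ, show (L : ℝ) * ((L : ℝ) ^ n * u) = (L : ℝ) ^ n * L * u by ring]
    ring

end

/-- second moment -/
lemma mom2 (L : ℕ) (hL : 1 ≤ L) (g : ℝ → ℝ) (hgc : Continuous g) (hper : ∀ x, g (x + 1) = g x)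
    (hP : ∀ x, PF L g x = 0) (n : ℕ) :
    (∫ x in (0 : ℝ)..1, llnS g L n x = 0) ∧
    ∫ x in (0 : ℝ)..1, llnS g L n x ^ 2 = n * ∫ x in (0 : ℝ)..1, g x ^ 2 := by
  induction n with
  | zero => simp [llnS]
  | succ n ih =>
    have hc := llnS_continuous g hgc L n
    have hp := llnS_per g hper L n
    have e1 : ∫ x in (0 : ℝ)..1, g x = 0 := by
      have := PF_int L hL g (fun _ => 1) hgc continuous_const (fun _ => rfl)
      simpa [hP] using this
    have e2 : ∫ x in (0 : ℝ)..1, llnS g L n (L * x) = 0 := by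
      rw [int_mul L hL _ hc hp]
      exact ih.1
    have e3 : ∫ x in (0 : ℝ)..1, g x * llnS g L n (L * x) = 0 := by
      rw [PF_int L hL g _ hgc hc hp]
      simp [hP]
    have e4 : ∫ x in (0 : ℝ)..1, llnS g L n (L * x) ^ 2 = n * ∫ x in (0 : ℝ)..1, g x ^ 2 := by
      rw [int_mul L hL (fun x => llnS g L n x ^ 2) (by fun_prop) (fun x => by rw [hp])]
      exact ih.2
    constructor
    · rw [intervalIntegral.integral_congr (g := fun x => g x + llnS g L n (L * x))
        (fun x _ => llnS_succ' g L n x)]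
      rw [intervalIntegral.integral_add (hgc.intervalIntegrable _ _)
        (Continuous.intervalIntegrable (by fun_prop) _ _), e1, e2, add_zero]
    · have h5 : ∀ x, llnS g L (n + 1) x ^ 2 = g x ^ 2 + 2 * (g x * llnS g L n (L * x)) +
          llnS g L n (L * x) ^ 2 := by
        intro x
        rw [llnS_succ']
        ring
      simp_rw [h5]
      rw [intervalIntegral.integral_add (Continuous.intervalIntegrable (by fun_prop) _ _)
        (Continuous.intervalIntegrable (by fun_prop) _ _),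
        intervalIntegral.integral_add (Continuous.intervalIntegrable (by fun_prop) _ _)
        (Continuous.intervalIntegrable (by fun_prop) _ _), intervalIntegral.integral_const_mul,
        e3, e4]
      push_cast
      ring

/-- fourth moment -/
lemma mom4 (L : ℕ) (hL : 1 ≤ L) (g : ℝ → ℝ) (hgc : Continuous g) (hper : ∀ x, g (x + 1) = g x)
    (hP : ∀ x, PF L g x = 0) (B : ℝ) (hB : ∀ x, |g x| ≤ B) (n : ℕ) :
    ∫ x in (0 : ℝ)..1, llnS g L n x ^ 4 ≤ 4 * B ^ 4 * (n : ℝ) ^ 2 := by
  have hB2 : ∀ x, g x ^ 2 ≤ B ^ 2 := fun x => sq_le_sq' (by linarith [(abs_le.mp (hB x)).1])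
    (abs_le.mp (hB x)).2
  have hv : ∫ x in (0 : ℝ)..1, g x ^ 2 ≤ B ^ 2 := by
    have := intervalIntegral.integral_mono_on (a := 0) (b := 1) (μ := volume)
      (f := fun x => g x ^ 2) (g := fun _ => B ^ 2) (by norm_num) (Continuous.intervalIntegrable (by fun_prop) _ _)
      intervalIntegrable_const (fun x _ => hB2 x)
    simpa using this
  induction n with
  | zero => simp [llnS]
  | succ n ih =>
    have hc := llnS_continuous g hgc L n
    have hp := llnS_per g hper L n
    have e2 : ∫ x in (0 : ℝ)..1, llnS g L n (L * x) ^ 2 ≤ n * B ^ 2 := by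
      rw [int_mul L hL (fun x => llnS g L n x ^ 2) (by fun_prop) (fun x => by rw [hp]),
        (mom2 L hL g hgc hper hP n).2]
      exact mul_le_mul_of_nonneg_left hv (by positivity)
    have e3 : ∫ x in (0 : ℝ)..1, g x * llnS g L n (L * x) ^ 3 = 0 := by
      rw [PF_int L hL g (fun x => llnS g L n x ^ 3) hgc (by fun_prop) (fun x => by rw [hp])]
      simp [hP]
    have e4 : ∫ x in (0 : ℝ)..1, llnS g L n (L * x) ^ 4 ≤ 4 * B ^ 4 * (n : ℝ) ^ 2 := by
      rw [int_mul L hL (fun x => llnS g L n x ^ 4) (by fun_prop) (fun x => by rw [hp])]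
      exact ih
    have h5 : ∀ x, llnS g L (n + 1) x ^ 4 ≤ (3 * B ^ 4 + 8 * B ^ 2 * llnS g L n (L * x) ^ 2 +
        4 * (g x * llnS g L n (L * x) ^ 3)) + llnS g L n (L * x) ^ 4 := by
      intro x
      rw [llnS_succ']
      set T := llnS g L n (L * x)
      have h6 : g x ^ 4 ≤ B ^ 4 := by
        have := pow_le_pow_left₀ (sq_nonneg _) (hB2 x) 2
        nlinarith [this]
      have h7 : g x ^ 2 * T ^ 2 ≤ B ^ 2 * T ^ 2 :=
        mul_le_mul_of_nonneg_right (hB2 x) (sq_nonneg _)
      have h8 : 4 * g x ^ 3 * T ≤ 2 * g x ^ 4 + 2 * (g x ^ 2 * T ^ 2) := by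
        nlinarith [sq_nonneg (g x * (g x - T))]
      nlinarith
    have h9 : ∫ x in (0 : ℝ)..1, llnS g L (n + 1) x ^ 4 ≤
        ∫ x in (0 : ℝ)..1, ((3 * B ^ 4 + 8 * B ^ 2 * llnS g L n (L * x) ^ 2 +
        4 * (g x * llnS g L n (L * x) ^ 3)) + llnS g L n (L * x) ^ 4) := by
      apply intervalIntegral.integral_mono_on (by norm_num)
      · have := llnS_continuous g hgc L (n + 1)
        exact Continuous.intervalIntegrable (by fun_prop) _ _
      · exact Continuous.intervalIntegrable (by fun_prop) _ _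
      · exact fun x _ => h5 x
    refine h9.trans ?_
    rw [intervalIntegral.integral_add (Continuous.intervalIntegrable (by fun_prop) _ _)
        (Continuous.intervalIntegrable (by fun_prop) _ _),
        intervalIntegral.integral_add (Continuous.intervalIntegrable (by fun_prop) _ _)
        (Continuous.intervalIntegrable (by fun_prop) _ _),
        intervalIntegral.integral_add (by simp)
        (Continuous.intervalIntegrable (by fun_prop) _ _)]
    rw [show ∫ x in (0 : ℝ)..1, 4 * (g x * llnS g L n (L * x) ^ 3) = 0 by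
      rw [intervalIntegral.integral_const_mul, e3, mul_zero]]
    rw [show ∫ x in (0 : ℝ)..1, 8 * B ^ 2 * llnS g L n (L * x) ^ 2 =
      8 * B ^ 2 * ∫ x in (0 : ℝ)..1, llnS g L n (L * x) ^ 2 by
      rw [intervalIntegral.integral_const_mul]]
    simp only [intervalIntegral.integral_const, sub_zero, smul_eq_mul, one_mul, add_zero]
    have h10 : 8 * B ^ 2 * ∫ x in (0 : ℝ)..1, llnS g L n (L * x) ^ 2 ≤ 8 * B ^ 2 * (n * B ^ 2) :=
      mul_le_mul_of_nonneg_left e2 (by positivity)
    push_cast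
    have h11 : 0 ≤ B ^ 4 := by positivity
    nlinarith


/-- Paley–Zygmund type bound. -/
lemma pz {Ω : Type*} [MeasurableSpace Ω] (μ : Measure Ω) [IsProbabilityMeasure μ] (S : Ω → ℝ)
    (hS : Measurable S) (Bd : ℝ) (hBd : ∀ ω, |S ω| ≤ Bd) (a v C : ℝ) (ha : 0 < a) (hv : 0 < v)
    (hC : 0 < C) (h1 : ∫ ω, S ω ∂μ = 0) (h2 : ∫ ω, S ω ^ 2 ∂μ = v * a ^ 2)
    (h4 : ∫ ω, S ω ^ 4 ∂μ ≤ C * a ^ 4) :
    (v / (8 * Real.sqrt (2 * C / v))) ^ 2 / (4 * v) ≤
      (μ {ω | v / (8 * Real.sqrt (2 * C / v)) * a ≤ S ω}).toReal := by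
  set A : ℝ := Real.sqrt (2 * C / v) with hA
  have hA0 : 0 < A := Real.sqrt_pos.mpr (by positivity)
  have hA2 : A ^ 2 = 2 * C / v := Real.sq_sqrt (by positivity)
  set ε : ℝ := v / (8 * A) with hε
  have hε0 : 0 < ε := by positivity
  have hint : ∀ k : ℕ, Integrable (fun ω => S ω ^ k) μ := by
    intro k
    apply Integrable.of_bound (hS.pow_const k).aestronglyMeasurable (Bd ^ k)
    refine Eventually.of_forall fun ω => ?_
    rw [norm_pow, Real.norm_eq_abs]
    exact pow_le_pow_left₀ (abs_nonneg _) (hBd ω) k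
  have hi1 : Integrable S μ := by simpa using hint 1
  have hiabs : Integrable (fun ω => |S ω|) μ := hi1.abs
  -- lower bound for the first absolute moment
  have hE : v / (2 * A) * a ≤ ∫ ω, |S ω| ∂μ := by
    have hpt : ∀ ω, S ω ^ 2 ≤ A * a * |S ω| + (1 / (A * a) ^ 2) * S ω ^ 4 := by
      intro ω
      have hAa : 0 < A * a := by positivity
      rcases le_total |S ω| (A * a) with h | h
      · have : S ω ^ 2 = |S ω| * |S ω| := by rw [← sq, sq_abs]
        have h5 : 0 ≤ (1 / (A * a) ^ 2) * S ω ^ 4 := by positivity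
        rw [this]
        nlinarith [abs_nonneg (S ω)]
      · have h5 : (A * a) ^ 2 ≤ S ω ^ 2 := by
          rw [← sq_abs (S ω)]
          exact pow_le_pow_left₀ hAa.le h 2
        have h6 : S ω ^ 2 ≤ (1 / (A * a) ^ 2) * S ω ^ 4 := by
          rw [one_div, inv_mul_eq_div, le_div_iff₀ (by positivity)]
          nlinarith [sq_nonneg (S ω)]
        have h7 : 0 ≤ A * a * |S ω| := by positivity
        linarith
    have h5 : ∫ ω, S ω ^ 2 ∂μ ≤ ∫ ω, (A * a * |S ω| + (1 / (A * a) ^ 2) * S ω ^ 4) ∂μ := by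
      apply integral_mono (hint 2) _ hpt
      exact (hiabs.const_mul _).add ((hint 4).const_mul _)
    rw [integral_add (hiabs.const_mul _) ((hint 4).const_mul _), integral_const_mul,
      integral_const_mul, h2] at h5
    have h6 : (1 / (A * a) ^ 2) * ∫ ω, S ω ^ 4 ∂μ ≤ (1 / (A * a) ^ 2) * (C * a ^ 4) :=
      mul_le_mul_of_nonneg_left h4 (by positivity)
    have h7 : (1 / (A * a) ^ 2) * (C * a ^ 4) = v / 2 * a ^ 2 := by
      rw [mul_pow, hA2]
      field_simp
    have h8 : v / 2 * a ^ 2 ≤ A * a * ∫ ω, |S ω| ∂μ := by linarith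
    have h9 : v / (2 * A) * a = (v / 2 * a ^ 2) / (A * a) := by field_simp
    rw [h9, div_le_iff₀ (by positivity)]
    linarith
  set G : Set Ω := {ω | ε * a ≤ S ω} with hG
  have hGm : MeasurableSet G := measurableSet_le measurable_const hS
  set B : ℝ := 2 * v / ε with hB
  have hB0 : 0 < B := by positivity
  have hpt2 : ∀ ω, (|S ω| + S ω) / 2 ≤ (ε * a + B * a * G.indicator (fun _ => (1 : ℝ)) ω) +
      (1 / (B * a)) * S ω ^ 2 := by
    intro ω
    have hBa : 0 < B * a := by positivity
    have h5 : 0 ≤ (1 / (B * a)) * S ω ^ 2 := by positivity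
    have hεa : 0 < ε * a := by positivity
    by_cases hω : ω ∈ G
    · rw [indicator_of_mem hω]
      have h6 : ε * a ≤ S ω := hω
      have h7 : |S ω| = S ω := abs_of_nonneg (hεa.le.trans h6)
      rw [h7]
      rcases le_total (S ω) (B * a) with h | h
      · linarith
      · have h8 : S ω ≤ (1 / (B * a)) * S ω ^ 2 := by
          rw [one_div, inv_mul_eq_div, le_div_iff₀ hBa]
          nlinarith
        linarith
    · rw [indicator_of_notMem hω]
      have h6 : S ω < ε * a := not_le.mp hω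
      have h7 : (|S ω| + S ω) / 2 ≤ ε * a := by
        rcases abs_cases (S ω) with ⟨h, _⟩ | ⟨h, _⟩ <;> rw [h] <;> linarith
      linarith
  have hindi : Integrable (G.indicator (fun _ => (1 : ℝ))) μ :=
    (integrable_const (1 : ℝ)).indicator hGm
  have h5 : ∫ ω, (|S ω| + S ω) / 2 ∂μ ≤ ∫ ω, ((ε * a + B * a * G.indicator (fun _ => (1 : ℝ)) ω) +
      (1 / (B * a)) * S ω ^ 2) ∂μ := by
    apply integral_mono ((hiabs.add hi1).div_const 2) _ hpt2
    exact ((integrable_const _).add (hindi.const_mul _)).add ((hint 2).const_mul _)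
  have hi2 : Integrable (fun ω => ε * a + B * a * G.indicator (fun _ => (1 : ℝ)) ω) μ :=
    (integrable_const _).add (hindi.const_mul _)
  have e5 : ∫ ω, ((ε * a + B * a * G.indicator (fun _ => (1 : ℝ)) ω) +
      (1 / (B * a)) * S ω ^ 2) ∂μ = ε * a + B * a * μ.real G + (1 / (B * a)) * (v * a ^ 2) := by
    rw [integral_add hi2 ((hint 2).const_mul _), integral_const_mul, h2,
      integral_add (integrable_const _) (hindi.const_mul _), integral_const_mul (B * a),
      integral_indicator hGm]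
    simp
  rw [integral_div, integral_add hiabs hi1, h1, add_zero, e5] at h5
  have h6 : (1 / (B * a)) * (v * a ^ 2) = ε / 2 * a := by
    rw [hB]
    field_simp
  have h7 : v / (2 * A) * a = 4 * ε * a := by
    rw [hε]
    field_simp
    ring
  rw [h6] at h5
  rw [h7] at hE
  have h8 : ε * a / 2 ≤ B * a * μ.real G := by linarith
  have h9 : ε ^ 2 / (4 * v) * (B * a) = ε * a / 2 := by
    rw [hB]
    field_simp
    ring
  have h10 : ε ^ 2 / (4 * v) * (B * a) ≤ μ.real G * (B * a) := by linarith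
  exact le_of_mul_le_mul_right h10 (by positivity)

end Kan.Ntr
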