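import Pool.Agent.Work.MP_ed045b_an.NeutralA

/-!
Fluctuations of lacunary sums, almost everywhere version.
-/

namespace Kan.Ntr

open MeasureTheory Filter Topology Set

lemma freq_lem (ε M : ℝ) (a b : ℕ → ℝ) (r r' : ℕ → ℝ) (hab : ∀ n, a n - M ≤ b n)
    (hr : ∀ n, |r n - r' n| ≤ 1) (htop : Tendsto r atTop atTop)
    (h : ∀ k : ℕ, ∃ᶠ n in atTop, (ε - 1 / ((k : ℝ) + 1)) * r n ≤ a n) (k : ℕ) :
    ∃ᶠ n in atTop, (ε - 1 / ((k : ℝ) + 1)) * r' n ≤ b n := by
  have hk : (0 : ℝ) < 1 / ((k : ℝ) + 1) - 1 / (((k + 1 : ℕ) : ℝ) + 1) := by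
    rw [sub_pos]
    apply one_div_lt_one_div_of_lt (by positivity)
    push_cast
    linarith
  have h1 : ∀ᶠ n in atTop, (M + |ε - 1 / ((k : ℝ) + 1)|) ≤
      (1 / ((k : ℝ) + 1) - 1 / (((k + 1 : ℕ) : ℝ) + 1)) * r n :=
    (htop.const_mul_atTop hk).eventually_ge_atTop _
  refine ((h (k + 1)).and_eventually h1).mono ?_
  rintro n ⟨h2, h3⟩
  have h4 : (ε - 1 / ((k : ℝ) + 1)) * (r' n - r n) ≤ |ε - 1 / ((k : ℝ) + 1)| := by
    refine (le_abs_self _).trans ?_
    rw [abs_mul, abs_sub_comm (r' n)]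
    exact mul_le_of_le_one_right (abs_nonneg _) (hr n)
  have h5 := hab n
  nlinarith

lemma sqrt_succ_sub (n : ℕ) : |Real.sqrt ((n : ℝ) + 1) - Real.sqrt n| ≤ 1 := by
  have h1 : Real.sqrt n ≤ Real.sqrt ((n : ℝ) + 1) := Real.sqrt_le_sqrt (by linarith)
  rw [abs_of_nonneg (by linarith)]
  have h2 : Real.sqrt ((n : ℝ) + 1) ≤ Real.sqrt n + 1 := by
    apply Real.sqrt_le_iff.mpr
    constructor
    · positivity
    · have := Real.sq_sqrt (Nat.cast_nonneg (α := ℝ) n)
      nlinarith [Real.sqrt_nonneg (n : ℝ)]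
  linarith

lemma sqrt_tendsto : Tendsto (fun n : ℕ => Real.sqrt n) atTop atTop :=
  Real.tendsto_sqrt_atTop.comp tendsto_natCast_atTop_atTop

lemma sqrt_succ_tendsto : Tendsto (fun n : ℕ => Real.sqrt ((n : ℝ) + 1)) atTop atTop := by
  have := sqrt_tendsto.comp (tendsto_add_atTop_nat 1)
  refine this.congr fun n => ?_
  simp

lemma freq_shift {p : ℕ → Prop} : (∃ᶠ n in atTop, p (n + 1)) ↔ ∃ᶠ n in atTop, p n := by
  constructor
  · intro h
    exact (tendsto_add_atTop_nat 1).frequently h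
  · intro h
    rw [Filter.frequently_atTop] at h ⊢
    intro a
    obtain ⟨b, hb, hpb⟩ := h (a + 1)
    exact ⟨b - 1, by omega, by rwa [Nat.sub_add_cancel (by omega)]⟩

/-- Almost everywhere fluctuations. -/
theorem fluct (f : ℝ → ℝ) (K M : ℝ) (hfc : Continuous f) (hper : ∀ x, f (x + 1) = f x)
    (hM : ∀ x, |f x| ≤ M) (hf : ∀ x y, |f x - f y| ≤ K * |x - y|)
    (hmean : ∫ t in (0 : ℝ)..1, f t = 0) (L : ℕ) (hL : 2 ≤ L) (hne : ∃ x, mg L f x ≠ 0) :
    ∃ ε : ℝ, 0 < ε ∧ ∀ᵐ u : ℝ, ∃ᶠ n : ℕ in atTop, ε * Real.sqrt n ≤ llnS f L n u := by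
  set g := mg L f with hg
  have hL1 : 1 ≤ L := by omega
  have hgc : Continuous g := mg_continuous L hL f K hfc hper hf hmean
  have hgp : ∀ x, g (x + 1) = g x := mg_per L hL f K hfc hper hf hmean
  have hgP : ∀ x, PF L g x = 0 := mg_PF L hL f K hfc hper hf hmean
  have hcc := cor_continuous L hL f K hfc hper hf hmean
  have hcp := cor_per L hL f K hfc hper hf hmean
  have bdd : ∀ h : ℝ → ℝ, Continuous h → (∀ x, h (x + 1) = h x) → ∃ B, 0 < B ∧ ∀ x, |h x| ≤ B := by
    intro h hc hp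
    obtain ⟨B, hB⟩ := isCompact_Icc.exists_bound_of_continuousOn (s := Icc (0 : ℝ) 1)
      hc.continuousOn
    refine ⟨|B| + 1, by positivity, fun x => ?_⟩
    have hP : Function.Periodic h 1 := hp
    obtain ⟨y, hy, hxy⟩ := hP.exists_mem_Ico₀ one_pos x
    rw [hxy]
    have := hB y ⟨hy.1, hy.2.le⟩
    rw [Real.norm_eq_abs] at this
    linarith [le_abs_self B]
  obtain ⟨B, hB0, hB⟩ := bdd g hgc hgp
  obtain ⟨D, hD0, hD⟩ := bdd _ hcc hcp
  set v : ℝ := ∫ x in (0 : ℝ)..1, g x ^ 2 with hv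
  have hv0 : 0 < v := by
    obtain ⟨x, hx⟩ := hne
    have hp2 : Function.Periodic (fun x => g x ^ 2) 1 := fun y => by simp only [hgp]
    have h1 : v = ∫ y in x..(x + 1), g y ^ 2 := by
      rw [hp2.intervalIntegral_add_eq x 0, zero_add]
    rw [h1]
    apply intervalIntegral.integral_pos (by linarith)
    · fun_prop
    · intro y _
      positivity
    · exact ⟨x, ⟨le_refl _, by linarith⟩, by positivity⟩
  set ε : ℝ := v / (8 * Real.sqrt (2 * (4 * B ^ 4) / v)) with hε
  have hε0 : 0 < ε := by positivity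
  set p : ℝ := ε ^ 2 / (4 * v) with hp
  have hp0 : 0 < p := by positivity
  set μ : Measure ℝ := volume.restrict (Ioc (0 : ℝ) 1) with hμ
  have : IsProbabilityMeasure μ := ⟨by simp [hμ]⟩
  have hSb : ∀ n : ℕ, ∀ x, |llnS g L n x| ≤ n * B := by
    intro n x
    have := llnS_abs_sub g B hB L 0 n (Nat.zero_le _) x
    simpa [llnS] using this
  have hpz : ∀ n : ℕ, 1 ≤ n → p ≤ (μ {u | ε * Real.sqrt n ≤ llnS g L n u}).toReal := by
    intro n hn
    have hn' : (0 : ℝ) < n := by exact_mod_cast hn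
    have hcn := llnS_continuous g hgc L n
    have hsq : Real.sqrt n ^ 2 = n := Real.sq_sqrt hn'.le
    have hm := mom2 L hL1 g hgc hgp hgP n
    have h4 := mom4 L hL1 g hgc hgp hgP B hB n
    rw [intervalIntegral.integral_of_le (by norm_num), intervalIntegral.integral_of_le (by norm_num)]
      at hm
    rw [intervalIntegral.integral_of_le (by norm_num)] at h4
    refine pz μ (llnS g L n) hcn.measurable (n * B) (hSb n) (Real.sqrt n) v (4 * B ^ 4)
      (Real.sqrt_pos.mpr hn') hv0 (by positivity) hm.1 ?_ ?_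
    · rw [hm.2, hsq, mul_comm]
    · rw [show Real.sqrt n ^ 4 = (Real.sqrt n ^ 2) ^ 2 by ring, hsq]
      exact h4
  -- the limsup set
  set U : ℕ → Set ℝ := fun N => ⋃ n ≥ N, {u | ε * Real.sqrt n ≤ llnS g L n u} with hU
  have hUm : ∀ N, MeasurableSet (U N) := by
    intro N
    apply MeasurableSet.biUnion (to_countable _)
    intro n _
    exact measurableSet_le measurable_const (llnS_continuous g hgc L n).measurable
  have hUa : Antitone U := by
    intro a b hab
    apply biUnion_subset_biUnion_left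
    intro n hn
    exact le_trans hab hn
  have hUp : ∀ N, ENNReal.ofReal p ≤ μ (U N) := by
    intro N
    have h1 := hpz (N + 1) (by omega)
    have h2 : μ {u | ε * Real.sqrt ((N + 1 : ℕ) : ℝ) ≤ llnS g L (N + 1) u} ≤ μ (U N) := by
      apply measure_mono
      intro u hu
      simp only [hU, mem_iUnion]
      exact ⟨N + 1, Nat.le_succ N, hu⟩
    refine le_trans ?_ h2
    exact ENNReal.ofReal_le_of_le_toReal h1
  have hInt : ENNReal.ofReal p ≤ μ (⋂ N, U N) := by
    have h1 := tendsto_measure_iInter_atTop (μ := μ) (fun N => (hUm N).nullMeasurableSet) hUa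
      ⟨0, measure_ne_top _ _⟩
    exact ge_of_tendsto' h1 hUp
  -- the invariant set on the circle
  have hPf : Function.Periodic f 1 := hper
  set φ : AddCircle (1 : ℝ) → ℝ := hPf.lift with hφ
  have hφc : Continuous φ := by
    rw [(QuotientAddGroup.isQuotientMap_mk (AddSubgroup.zmultiples (1 : ℝ))).continuous_iff]
    exact hfc
  have hφM : ∀ x, |φ x| ≤ M := by
    intro x
    induction x using QuotientAddGroup.induction_on with
    | H z => exact hM z
  set S : ℕ → AddCircle (1 : ℝ) → ℝ := fun n x => ∑ j ∈ Finset.range n, φ ((L ^ j) • x) with hS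
  have hSm : ∀ n, Measurable (S n) := by
    intro n
    apply Continuous.measurable
    apply continuous_finsetSum
    intro j _
    exact hφc.comp (continuous_const_smul _)
  have hSS : ∀ n x, S (n + 1) x = φ x + S n (L • x) := by
    intro n x
    simp only [hS]
    rw [Finset.sum_range_succ', add_comm, pow_zero, one_smul]
    congr 1
    apply Finset.sum_congr rfl
    intro j _
    rw [smul_smul, ← pow_succ]
  have hSl : ∀ n (u : ℝ), S n (u : AddCircle (1 : ℝ)) = llnS f L n u := by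
    intro n u
    simp only [hS, llnS]
    apply Finset.sum_congr rfl
    intro j _
    have : (L ^ j) • (u : AddCircle (1 : ℝ)) = (((L : ℝ) ^ j * u : ℝ) : AddCircle (1 : ℝ)) := by
      rw [← AddCircle.coe_nsmul]
      simp
    rw [this]
    rfl
  set W : Set (AddCircle (1 : ℝ)) :=
    {x | ∀ k : ℕ, ∃ᶠ n : ℕ in atTop, (ε - 1 / ((k : ℝ) + 1)) * Real.sqrt n ≤ S n x} with hW
  have hWm : MeasurableSet W := by
    have : W = ⋂ k : ℕ, ⋂ N : ℕ, ⋃ n ≥ N, {x | (ε - 1 / ((k : ℝ) + 1)) * Real.sqrt n ≤ S n x} := by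
      ext x
      simp only [hW, mem_ofPred_eq, mem_iInter, mem_iUnion, Filter.frequently_atTop, exists_prop]
    rw [this]
    refine MeasurableSet.iInter fun k => MeasurableSet.iInter fun N =>
      MeasurableSet.biUnion (to_countable _) fun n _ => ?_
    exact measurableSet_le measurable_const (hSm n)
  have hWi : (fun y : AddCircle (1 : ℝ) => L • y) ⁻¹' W = W := by
    ext x
    simp only [mem_preimage, hW, mem_ofPred_eq]
    have hs : (∀ k : ℕ, ∃ᶠ n : ℕ in atTop, (ε - 1 / ((k : ℝ) + 1)) * Real.sqrt n ≤ S n x) ↔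
        ∀ k : ℕ, ∃ᶠ n : ℕ in atTop, (ε - 1 / ((k : ℝ) + 1)) * Real.sqrt ((n : ℝ) + 1) ≤
          S (n + 1) x := by
      refine forall_congr' fun k => ?_
      rw [← freq_shift (p := fun n : ℕ => (ε - 1 / ((k : ℝ) + 1)) * Real.sqrt n ≤ S n x)]
      simp only [Nat.cast_add, Nat.cast_one]
    rw [hs]
    constructor
    · intro h k
      refine freq_lem ε M (fun n => S n (L • x)) (fun n => S (n + 1) x) (fun n => Real.sqrt n)
        (fun n => Real.sqrt ((n : ℝ) + 1)) ?_ ?_ sqrt_tendsto h k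
      · intro n
        rw [hSS]
        linarith [(abs_le.mp (hφM x)).1]
      · intro n
        rw [abs_sub_comm]
        exact sqrt_succ_sub n
    · intro h k
      refine freq_lem ε M (fun n => S (n + 1) x) (fun n => S n (L • x))
        (fun n => Real.sqrt ((n : ℝ) + 1)) (fun n => Real.sqrt n) ?_ ?_ sqrt_succ_tendsto h k
      · intro n
        rw [hSS]
        linarith [(abs_le.mp (hφM x)).2]
      · intro n
        exact sqrt_succ_sub n
  have hsub : (⋂ N, U N) ⊆ ((↑) : ℝ → AddCircle (1 : ℝ)) ⁻¹' W := by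
    intro u hu
    simp only [mem_preimage, hW, mem_ofPred_eq]
    have h1 : ∃ᶠ n : ℕ in atTop, ε * Real.sqrt n ≤ llnS g L n u := by
      rw [Filter.frequently_atTop]
      intro N
      have := mem_iInter.mp hu N
      simp only [hU, mem_iUnion, exists_prop] at this
      exact this
    intro k
    have hk : (0 : ℝ) < 1 / ((k : ℝ) + 1) := by positivity
    have h2 : ∀ᶠ n : ℕ in atTop, 2 * D ≤ 1 / ((k : ℝ) + 1) * Real.sqrt n :=
      (sqrt_tendsto.const_mul_atTop hk).eventually_ge_atTop _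
    refine (h1.and_eventually h2).mono ?_
    rintro n ⟨h3, h4⟩
    rw [hSl]
    have h5 := llnS_mg f L n u
    have h6 := (abs_le.mp (hD u)).2
    have h7 := (abs_le.mp (hD ((L : ℝ) ^ n * u))).1
    have h8 : llnS g L n u = llnS f L n u + cor L f u - cor L f ((L : ℝ) ^ n * u) := h5
    nlinarith
  have hmp : ∀ t : ℝ, MeasurePreserving ((↑) : ℝ → AddCircle (1 : ℝ))
      (volume.restrict (Ioc t (t + 1))) := fun t => AddCircle.measurePreserving_mk 1 t
  have hWpos : volume W ≠ 0 := by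
    have h1 := hmp 0
    rw [zero_add] at h1
    rw [← h1.measure_preimage hWm.nullMeasurableSet]
    have h2 : μ (⋂ N, U N) ≤ μ (((↑) : ℝ → AddCircle (1 : ℝ)) ⁻¹' W) := measure_mono hsub
    intro h3
    have h4 := hInt.trans (h2.trans h3.le)
    have h5 : (0 : ENNReal) < ENNReal.ofReal p := ENNReal.ofReal_pos.mpr hp0
    exact absurd h4 (not_le.mpr h5)
  have hWfull : ∀ᵐ x : AddCircle (1 : ℝ), x ∈ W := by
    have h1 : Ergodic fun y : AddCircle (1 : ℝ) => L • y := AddCircle.ergodic_nsmul (by omega)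
    rcases h1.toPreErgodic.measure_self_or_compl_eq_zero hWm hWi with h | h
    · exact absurd h hWpos
    · exact h
  refine ⟨ε / 2, by positivity, ?_⟩
  have h1 : ∀ᵐ u ∂(volume.restrict (⋃ a : ℤ, Ioc (a : ℝ) (a + 1))),
      ((u : ℝ) : AddCircle (1 : ℝ)) ∈ W := by
    rw [ae_restrict_iUnion_iff]
    intro a
    exact (hmp a).quasiMeasurePreserving.ae hWfull
  rw [iUnion_Ioc_intCast ℝ, Measure.restrict_univ] at h1
  filter_upwards [h1] with u hu
  obtain ⟨k, hk⟩ := exists_nat_one_div_lt (show (0 : ℝ) < ε / 2 by positivity)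
  refine (hu k).mono fun n hn => ?_
  rw [hSl] at hn
  refine le_trans ?_ hn
  apply mul_le_mul_of_nonneg_right _ (Real.sqrt_nonneg _)
  linarith

end Kan.Ntr
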