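import Pool.Agent.Work.MP_ed045b_an.Specs

/-! Choice of well separated nodes in a set of nearly full measure. -/

namespace Kan

open MeasureTheory Filter Topology Set

theorem exists_nodes (a δ : ℝ) (ha : 0 < a) (hδ : 0 < δ) (hδa : δ < a) (E : Set ℝ)
    (hE : MeasurableSet E) (hvol : volume (Icc (-a) a \ E) ≤ ENNReal.ofReal δ) (n : ℕ)
    (hn : 0 < n) :
    ∃ x : ℕ → ℝ, (∀ i < n, x i ∈ E ∧ |x i| ≤ a) ∧
      ∀ i j, i ≤ j → j < n → ((j : ℝ) - i) * ((2 * a - 2 * δ) / n) ≤ x j - x i := by
  classical
  set E' : Set ℝ := E ∩ Icc (-a) a with hE'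
  have hE'm : MeasurableSet E' := hE.inter measurableSet_Icc
  -- distribution function
  set F : ℝ → ℝ := fun x => (volume (E' ∩ Iic x)).toReal with hF
  have hfin : ∀ s : Set ℝ, volume (E' ∩ s) ≠ ⊤ := by
    intro s
    refine ne_top_of_le_ne_top (b := volume (Icc (-a) a)) ?_ (measure_mono ?_)
    · rw [Real.volume_Icc]; exact ENNReal.ofReal_ne_top
    · exact fun y hy => hy.1.2
  -- increments
  have hinc : ∀ x y : ℝ, x ≤ y → F y - F x = (volume (E' ∩ Ioc x y)).toReal := by
    intro x y hxy
    have hdisj : Disjoint (E' ∩ Iic x) (E' ∩ Ioc x y) := by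
      rw [Set.disjoint_left]
      rintro t ⟨_, h1⟩ ⟨_, h2⟩
      exact absurd h2.1 (not_lt.mpr h1)
    have hun : E' ∩ Iic y = (E' ∩ Iic x) ∪ (E' ∩ Ioc x y) := by
      ext t
      constructor
      · rintro ⟨h1, h2⟩
        rcases le_or_gt t x with h | h
        · exact Or.inl ⟨h1, h⟩
        · exact Or.inr ⟨h1, h, h2⟩
      · rintro (⟨h1, h2⟩ | ⟨h1, h2⟩)
        · exact ⟨h1, le_trans h2 hxy⟩
        · exact ⟨h1, h2.2⟩
    have h3 : volume (E' ∩ Iic y) = volume (E' ∩ Iic x) + volume (E' ∩ Ioc x y) := by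
      rw [hun]
      exact measure_union hdisj (hE'm.inter measurableSet_Ioc)
    simp only [hF]
    rw [h3, ENNReal.toReal_add (hfin _) (hfin _)]
    ring
  have hinc_le : ∀ x y : ℝ, x ≤ y → F y - F x ≤ y - x := by
    intro x y hxy
    rw [hinc x y hxy]
    have h1 : volume (E' ∩ Ioc x y) ≤ volume (Ioc x y) := measure_mono inter_subset_right
    rw [Real.volume_Ioc] at h1
    have := ENNReal.toReal_mono ENNReal.ofReal_ne_top h1
    rwa [ENNReal.toReal_ofReal (by linarith)] at this
  have hmono : Monotone F := by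
    intro x y hxy
    have := hinc x y hxy
    have h2 : 0 ≤ (volume (E' ∩ Ioc x y)).toReal := ENNReal.toReal_nonneg
    linarith
  have hcont : Continuous F := by
    have : LipschitzWith 1 F := by
      refine LipschitzWith.of_dist_le_mul ?_
      intro x y
      rw [Real.dist_eq, Real.dist_eq, NNReal.coe_one, one_mul]
      rcases le_total x y with h | h
      · have h1 := hinc_le x y h
        have h2 := hmono h
        rw [abs_sub_comm, abs_of_nonneg (by linarith), abs_sub_comm, abs_of_nonneg (by linarith)]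
        exact h1
      · have h1 := hinc_le y x h
        have h2 := hmono h
        rw [abs_of_nonneg (by linarith), abs_of_nonneg (by linarith)]
        exact h1
    exact this.continuous
  have hF0 : F (-a) = 0 := by
    simp only [hF]
    have : volume (E' ∩ Iic (-a)) ≤ volume ({-a} : Set ℝ) := by
      apply measure_mono
      rintro t ⟨h1, h2⟩
      exact le_antisymm h2 h1.2.1
    rw [Real.volume_singleton, nonpos_iff_eq_zero] at this
    rw [this]; rfl
  have hFa : 2 * a - δ ≤ F a := by
    have h1 : E' ∩ Iic a = E' := by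
      apply inter_eq_left.mpr
      exact fun t ht => ht.2.2
    have h2 : volume (Icc (-a) a) ≤ volume E' + volume (Icc (-a) a \ E) := by
      refine le_trans (measure_mono ?_) (measure_union_le _ _)
      intro t ht
      by_cases h : t ∈ E
      · exact Or.inl ⟨h, ht⟩
      · exact Or.inr ⟨ht, h⟩
    rw [Real.volume_Icc] at h2
    have h3 : ENNReal.ofReal (a - -a) ≤ volume E' + ENNReal.ofReal δ :=
      le_trans h2 (by gcongr)
    have hE'f : volume E' ≠ ⊤ := by
      have := hfin univ
      rwa [inter_univ] at this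
    have h4 := ENNReal.toReal_mono (ENNReal.add_ne_top.mpr ⟨hE'f, ENNReal.ofReal_ne_top⟩) h3
    rw [ENNReal.toReal_add hE'f ENNReal.ofReal_ne_top, ENNReal.toReal_ofReal (by linarith),
      ENNReal.toReal_ofReal hδ.le] at h4
    simp only [hF]
    rw [h1]
    linarith
  -- spacing
  set σ : ℝ := (2 * a - δ) / n with hσ
  have hn' : (0 : ℝ) < n := by exact_mod_cast hn
  have hσpos : 0 < σ := by
    rw [hσ]; apply div_pos <;> linarith
  set η : ℝ := δ / n with hη
  have hηpos : 0 < η := by rw [hη]; positivity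
  have hησ : η ≤ σ := by
    rw [hη, hσ]; gcongr; linarith
  have hsel : ∀ i : ℕ, i < n → ∃ t ∈ E', (i : ℝ) * σ ≤ F t ∧ F t ≤ i * σ + η := by
    intro i hi
    have hi' : (i : ℝ) + 1 ≤ n := by exact_mod_cast hi
    have htop : (i : ℝ) * σ + η ≤ F a := by
      have : ((i : ℝ) + 1) * σ ≤ n * σ := by gcongr
      have h5 : (n : ℝ) * σ = 2 * a - δ := by rw [hσ]; field_simp
      nlinarith
    have hlow : 0 ≤ (i : ℝ) * σ := by positivity
    obtain ⟨p, hp, hFp⟩ := intermediate_value_Icc (by linarith : -a ≤ a) hcont.continuousOn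
      (show (i : ℝ) * σ ∈ Icc (F (-a)) (F a) from ⟨by rw [hF0]; exact hlow, by linarith⟩)
    obtain ⟨q, hq, hFq⟩ := intermediate_value_Icc (by linarith : -a ≤ a) hcont.continuousOn
      (show (i : ℝ) * σ + η ∈ Icc (F (-a)) (F a) from ⟨by rw [hF0]; linarith, htop⟩)
    have hpq : p ≤ q := by
      by_contra h
      push_neg at h
      have := hmono h.le
      rw [hFp, hFq] at this
      linarith
    have hm := hinc p q hpq
    rw [hFp, hFq] at hm
    have hne : (E' ∩ Ioc p q).Nonempty := by
      by_contra h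
      rw [Set.not_nonempty_iff_eq_empty] at h
      rw [h, measure_empty] at hm
      simp at hm
      linarith
    obtain ⟨t, ht1, ht2⟩ := hne
    refine ⟨t, ht1, ?_, ?_⟩
    · rw [← hFp]; exact hmono ht2.1.le
    · rw [← hFq]; exact hmono ht2.2
  choose! x hxE hx1 hx2 using hsel
  refine ⟨x, ?_, ?_⟩
  · intro i hi
    have := hxE i hi
    exact ⟨this.1, abs_le.mpr this.2⟩
  · intro i j hij hj
    have hi : i < n := lt_of_le_of_lt hij hj
    rcases eq_or_lt_of_le hij with rfl | hlt
    · simp
    · have h1 := hx2 i hi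
      have h2 := hx1 j hj
      have hlt' : (i : ℝ) + 1 ≤ j := by exact_mod_cast hlt
      have hsep : ((j : ℝ) - i) * ((2 * a - 2 * δ) / n) ≤ F (x j) - F (x i) := by
        have h3 : (2 * a - 2 * δ) / n = σ - η := by rw [hσ, hη]; ring
        rw [h3]
        nlinarith
      have hpos : 0 < F (x j) - F (x i) := by
        refine lt_of_lt_of_le ?_ hsep
        apply mul_pos (by linarith)
        apply div_pos (by linarith) hn'
      have hle : x i ≤ x j := by
        by_contra h
        push_neg at h
        have := hmono h.le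
        linarith
      exact le_trans hsep (hinc_le _ _ hle)

end Kan
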