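import Pool.Agent.Work.MP_ed045b_an.Fourier
import Pool.Agent.Work.MP_ed045b_an.LLN

/-! Lower bound for the variance of the lacunary sums of `log‖1+α cos 2πt‖` on the neutral curve. -/

namespace Kan

open MeasureTheory Filter Topology Set

theorem int_mul_nat (h : ℝ → ℝ) (hper : ∀ x, h (x + 1) = h x) (hc : Continuous h) (L : ℕ) (hL : 0 < L) :
    ∫ t in (0 : ℝ)..1, h (L * t) = ∫ t in (0 : ℝ)..1, h t := by
  have hL' : (0 : ℝ) < L := by exact_mod_cast hL
  have hP : Function.Periodic h 1 := hper
  rw [intervalIntegral.integral_comp_mul_left (fun x => h x) hL'.ne']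
  have h1 := hP.intervalIntegral_add_zsmul_eq (n := (L : ℤ)) (t := 0)
    (h_int := fun a b => hc.intervalIntegrable a b)
  simp only [zero_add, mul_zero, mul_one, zsmul_eq_mul, Int.cast_natCast, smul_eq_mul] at h1 ⊢
  rw [h1]
  field_simp

theorem llnS_per (f : ℝ → ℝ) (hper : ∀ x, f (x + 1) = f x) (L n : ℕ) (x : ℝ) :
    llnS f L n (x + 1) = llnS f L n x := by
  unfold llnS
  apply Finset.sum_congr rfl
  intro j _
  have hP : Function.Periodic f 1 := hper
  have : (L : ℝ) ^ j * (x + 1) = (L : ℝ) ^ j * x + ((L ^ j : ℕ) : ℝ) * 1 := by push_cast; ring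
  rw [this]
  exact hP.nat_mul (L ^ j) _

theorem llnS_succ' (f : ℝ → ℝ) (L n : ℕ) (x : ℝ) :
    llnS f L (n + 1) x = f x + llnS f L n (L * x) := by
  unfold llnS
  rw [Finset.sum_range_succ']
  rw [add_comm]
  congr 1
  · simp
  · apply Finset.sum_congr rfl
    intro j _
    congr 1
    ring

theorem int_zero (h : ℝ → ℝ) (hper : ∀ x, h (x + 1) = h x) (hc : Continuous h) (L : ℕ) (hL : 2 ≤ L) :
    ∫ t in (0 : ℝ)..1, h (L * t) * Real.cos (2 * Real.pi * t) = 0 := by
  have hL' : (2 : ℝ) ≤ L := by exact_mod_cast hL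
  -- complex version
  set J : ℂ := ∫ t in (0 : ℝ)..1, (h (L * t) : ℂ) * Complex.exp (2 * Real.pi * Complex.I * t) with hJ
  have hcont : Continuous fun t : ℝ => (h (L * t) : ℂ) * Complex.exp (2 * Real.pi * Complex.I * t) := by
    fun_prop
  have hP : Function.Periodic (fun t : ℝ => (h (L * t) : ℂ) * Complex.exp (2 * Real.pi * Complex.I * t)) 1 := by
    intro t
    have h1 : h (L * (t + 1)) = h (L * t) := by
      have : Function.Periodic h 1 := hper
      have h2 := this.nat_mul L (L * t)
      rw [mul_one] at h2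
      rw [← h2]
      congr 1
      ring
    simp only [h1]
    congr 1
    rw [Complex.exp_eq_exp_iff_exists_int]
    refine ⟨1, ?_⟩
    push_cast
    ring
  have hshift : J = Complex.exp (2 * Real.pi * Complex.I / L) * J := by
    have h1 : J = ∫ t in (0 : ℝ)..1, (h (L * (t + 1 / L)) : ℂ) *
        Complex.exp (2 * Real.pi * Complex.I * ((t + 1 / L : ℝ) : ℂ)) := by
      rw [intervalIntegral.integral_comp_add_right
        (fun t : ℝ => (h (L * t) : ℂ) * Complex.exp (2 * Real.pi * Complex.I * t)) (1 / (L : ℝ))]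
      rw [zero_add, add_comm 1 (1 / (L : ℝ)), hP.intervalIntegral_add_eq (1 / (L : ℝ)) 0, zero_add]
    refine h1.trans ?_
    rw [hJ, ← intervalIntegral.integral_const_mul]
    congr 1
    ext t
    have h2 : h (L * (t + 1 / L)) = h (L * t) := by
      rw [← hper (L * t)]
      congr 1
      field_simp
    rw [h2]
    have h3 : Complex.exp (2 * Real.pi * Complex.I * ((t + 1 / L : ℝ) : ℂ)) =
        Complex.exp (2 * Real.pi * Complex.I / L) * Complex.exp (2 * Real.pi * Complex.I * t) := by
      rw [← Complex.exp_add]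
      congr 1
      push_cast
      ring
    rw [h3]
    ring
  have hne : Complex.exp (2 * Real.pi * Complex.I / L) ≠ 1 := by
    intro h1
    rw [Complex.exp_eq_one_iff] at h1
    obtain ⟨n, hn⟩ := h1
    have hpi : (2 * Real.pi * Complex.I : ℂ) ≠ 0 := Complex.two_pi_I_ne_zero
    have hLc : (L : ℂ) ≠ 0 := by
      have : L ≠ 0 := by omega
      exact_mod_cast this
    have h2 : (1 : ℂ) = n * L := by
      field_simp at hn
      have h4 : (2 * Real.pi * Complex.I) * 1 = (2 * Real.pi * Complex.I) * (n * L) := by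
        linear_combination (2 * Real.pi * Complex.I : ℂ) * hn
      exact mul_left_cancel₀ hpi h4
    have h3 : (1 : ℤ) = n * L := by exact_mod_cast h2
    have h5 := Int.eq_one_or_neg_one_of_mul_eq_one h3.symm
    rcases h5 with h5 | h5
    · rw [h5] at h3
      omega
    · rw [h5] at h3
      omega
  have hJ0 : J = 0 := by
    have h1 : (Complex.exp (2 * Real.pi * Complex.I / L) - 1) * J = 0 := by
      rw [sub_mul, one_mul, ← hshift, sub_self]
    rcases mul_eq_zero.mp h1 with h2 | h2
    · exact absurd (sub_eq_zero.mp h2) hne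
    · exact h2
  have hre := Complex.reCLM.intervalIntegral_comp_comm (hcont.intervalIntegrable (μ := volume) 0 1)
  simp only [Complex.reCLM_apply] at hre
  rw [← hJ, hJ0, Complex.zero_re] at hre
  rw [← hre]
  congr 1
  ext t
  rw [Complex.re_ofReal_mul]
  congr 1
  have : (2 * Real.pi * Complex.I * t : ℂ) = ((2 * Real.pi * t : ℝ) : ℂ) * Complex.I := by
    push_cast; ring
  rw [this, Complex.exp_ofReal_mul_I_re]

/-- the lacunary cosine sum -/
noncomputable def CC (L n : ℕ) (t : ℝ) : ℝ := llnS (fun t => Real.cos (2 * Real.pi * t)) L n t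

theorem cos_per (x : ℝ) : Real.cos (2 * Real.pi * (x + 1)) = Real.cos (2 * Real.pi * x) := by
  rw [mul_add, mul_one, Real.cos_add_two_pi]

theorem CC_cont (L n : ℕ) : Continuous (CC L n) := by
  have h : Continuous fun t : ℝ => Real.cos (2 * Real.pi * t) := by fun_prop
  exact llnS_continuous _ h L n

theorem CC_sq (L : ℕ) (hL : 2 ≤ L) (n : ℕ) : ∫ t in (0 : ℝ)..1, CC L n t ^ 2 = n / 2 := by
  induction n with
  | zero => simp [CC, llnS]
  | succ n ih =>
    have hcc := CC_cont L n
    have h1 : ∀ t, CC L (n + 1) t ^ 2 = Real.cos (2 * Real.pi * t) ^ 2 +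
        2 * (CC L n (L * t) * Real.cos (2 * Real.pi * t)) + CC L n (L * t) ^ 2 := by
      intro t
      have : CC L (n + 1) t = Real.cos (2 * Real.pi * t) + CC L n (L * t) := llnS_succ' _ L n t
      rw [this]; ring
    simp only [h1]
    have i1 : Continuous fun t : ℝ => Real.cos (2 * Real.pi * t) ^ 2 := by fun_prop
    have i2 : Continuous fun t : ℝ => 2 * (CC L n (L * t) * Real.cos (2 * Real.pi * t)) := by fun_prop
    have i3 : Continuous fun t : ℝ => CC L n (L * t) ^ 2 := by fun_prop
    have i12 : Continuous fun t : ℝ => Real.cos (2 * Real.pi * t) ^ 2 +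
        2 * (CC L n (L * t) * Real.cos (2 * Real.pi * t)) := i1.add i2
    rw [intervalIntegral.integral_add (i12.intervalIntegrable _ _) (i3.intervalIntegrable _ _),
      intervalIntegral.integral_add (i1.intervalIntegrable _ _) (i2.intervalIntegrable _ _),
      intervalIntegral.integral_const_mul,
      int_zero (CC L n) (llnS_per _ cos_per L n) (CC_cont L n) L hL,
      int_mul_nat (fun t => CC L n t ^ 2) (fun x => by simp only [CC]; rw [llnS_per _ cos_per L n])
        (by fun_prop) L (by omega), ih]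
    have h2 : ∫ t in (0 : ℝ)..1, Real.cos (2 * Real.pi * t) ^ 2 = 1 / 2 := by
      have h3 := int_re 1 1 1 (le_refl _)
      simp only [one_mul, Nat.cast_one, mul_one, if_true, Complex.one_re] at h3
      rw [← h3]
      congr 1
      ext t
      have : (2 * Real.pi * Complex.I * t : ℂ) = ((2 * Real.pi * t : ℝ) : ℂ) * Complex.I := by
        push_cast; ring
      rw [this, Complex.exp_ofReal_mul_I_re]
      ring
    rw [h2]
    push_cast
    ring

theorem lg_fourier (α : ℂ) (A ρ : ℂ) (hρ : ‖ρ‖ < 1) (hA : A * (1 + ρ ^ 2) = 1)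
    (hfac : ∀ t : ℝ, 1 + α * Real.cos (2 * Real.pi * t) =
      A * (1 + ρ * Complex.exp (2 * Real.pi * Complex.I * t)) *
        (1 + ρ * Complex.exp (-(2 * Real.pi * Complex.I * t)))) (m : ℕ) :
    ∫ t in (0 : ℝ)..1, lg α t * Real.cos (2 * Real.pi * m * t) =
      (if m = 0 then Real.log ‖A‖ else 0) + (-1) ^ (m + 1) * (ρ ^ m).re / m := by
  have hA0 : A ≠ 0 := by
    intro h; rw [h, zero_mul] at hA; exact zero_ne_one hA
  have hne : ∀ w : ℂ, ‖w‖ = 1 → 1 + ρ * w ≠ 0 := by
    intro w hw h
    have h1 : ρ * w = -1 := by linear_combination h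
    have h2 : ‖ρ * w‖ = 1 := by rw [h1]; simp
    rw [norm_mul, hw, mul_one] at h2
    linarith
  have hn1 : ∀ t : ℝ, ‖Complex.exp (2 * Real.pi * Complex.I * t)‖ = 1 := by
    intro t
    have : (2 * Real.pi * Complex.I * t : ℂ) = ((2 * Real.pi * t : ℝ) : ℂ) * Complex.I := by
      push_cast; ring
    rw [this, Complex.norm_exp_ofReal_mul_I]
  have hn2 : ∀ t : ℝ, ‖Complex.exp (-(2 * Real.pi * Complex.I * t))‖ = 1 := by
    intro t
    rw [Complex.exp_neg, norm_inv, hn1, inv_one]
  have hlg : ∀ t : ℝ, lg α t = Real.log ‖A‖ + Real.log ‖1 + ρ * Complex.exp (2 * Real.pi * Complex.I * t)‖ +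
      Real.log ‖1 + ρ * Complex.exp (-(2 * Real.pi * Complex.I * t))‖ := by
    intro t
    unfold lg
    rw [hfac, norm_mul, norm_mul, Real.log_mul, Real.log_mul]
    · exact norm_ne_zero_iff.mpr hA0
    · exact norm_ne_zero_iff.mpr (hne _ (hn1 t))
    · exact mul_ne_zero (norm_ne_zero_iff.mpr hA0) (norm_ne_zero_iff.mpr (hne _ (hn1 t)))
    · exact norm_ne_zero_iff.mpr (hne _ (hn2 t))
  have hc1 : Continuous fun t : ℝ => Real.log ‖1 + ρ * Complex.exp (2 * Real.pi * Complex.I * t)‖ := by
    apply Continuous.log (by fun_prop)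
    intro t
    exact norm_ne_zero_iff.mpr (hne _ (hn1 t))
  have hc2 : Continuous fun t : ℝ => Real.log ‖1 + ρ * Complex.exp (-(2 * Real.pi * Complex.I * t))‖ := by
    apply Continuous.log (by fun_prop)
    intro t
    exact norm_ne_zero_iff.mpr (hne _ (hn2 t))
  have hsplit : ∀ t : ℝ, lg α t * Real.cos (2 * Real.pi * m * t) = Real.log ‖A‖ * Real.cos (2 * Real.pi * m * t) +
      Real.log ‖1 + ρ * Complex.exp (2 * Real.pi * Complex.I * t)‖ * Real.cos (2 * Real.pi * m * t) +
      Real.log ‖1 + ρ * Complex.exp (-(2 * Real.pi * Complex.I * t))‖ * Real.cos (2 * Real.pi * m * t) := by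
    intro t
    rw [hlg]; ring
  simp only [hsplit]
  have i0 : Continuous fun t : ℝ => Real.log ‖A‖ * Real.cos (2 * Real.pi * m * t) := by fun_prop
  have i1 : Continuous fun t : ℝ => Real.log ‖1 + ρ * Complex.exp (2 * Real.pi * Complex.I * t)‖ *
      Real.cos (2 * Real.pi * m * t) := hc1.mul (by fun_prop)
  have i2 : Continuous fun t : ℝ => Real.log ‖1 + ρ * Complex.exp (-(2 * Real.pi * Complex.I * t))‖ *
      Real.cos (2 * Real.pi * m * t) := hc2.mul (by fun_prop)
  have i01 : Continuous fun t : ℝ => Real.log ‖A‖ * Real.cos (2 * Real.pi * m * t) +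
      Real.log ‖1 + ρ * Complex.exp (2 * Real.pi * Complex.I * t)‖ * Real.cos (2 * Real.pi * m * t) := i0.add i1
  rw [intervalIntegral.integral_add (i01.intervalIntegrable _ _) (i2.intervalIntegrable _ _),
    intervalIntegral.integral_add (i0.intervalIntegrable _ _) (i1.intervalIntegrable _ _),
    fourier_log ρ hρ m, fourier_log' ρ hρ m, intervalIntegral.integral_const_mul]
  have hcosint : ∫ t in (0 : ℝ)..1, Real.cos (2 * Real.pi * m * t) = if m = 0 then 1 else 0 := by
    split_ifs with h
    · subst h; simp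
    · have hm : (0 : ℝ) < m := by exact_mod_cast Nat.pos_of_ne_zero h
      have hne : (2 * Real.pi * m : ℝ) ≠ 0 := by have := Real.pi_pos; positivity
      rw [intervalIntegral.integral_comp_mul_left (fun x => Real.cos x) hne, integral_cos]
      simp only [mul_one, mul_zero, Real.sin_zero, sub_zero, smul_eq_mul]
      have : Real.sin (2 * Real.pi * m) = 0 := by
        have h2 : (2 * Real.pi * m : ℝ) = ((2 * m : ℕ) : ℝ) * Real.pi := by push_cast; ring
        rw [h2, Real.sin_nat_mul_pi]
      rw [this, mul_zero]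
  rw [hcosint]
  split_ifs with h
  · subst h; simp
  · have hm : (m : ℝ) ≠ 0 := by exact_mod_cast h
    field_simp
    ring

end Kan
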