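import Pool.Agent.Work.MP_ed045b_an.Pos

/-! Lower bound for the variance of the lacunary sums of `log‖1+α cos 2πt‖` on the neutral curve. -/

namespace Kan

open MeasureTheory Filter Topology Set

theorem SC_succ (f : ℝ → ℝ) (hper : ∀ x, f (x + 1) = f x) (hc : Continuous f) (L : ℕ) (hL : 2 ≤ L) (n : ℕ) :
    ∫ t in (0 : ℝ)..1, llnS f L (n + 1) t * CC L (n + 1) t =
      (∫ t in (0 : ℝ)..1, llnS f L n t * CC L n t) +
        ∑ k ∈ Finset.range (n + 1), ∫ t in (0 : ℝ)..1, f t * Real.cos (2 * Real.pi * ((L ^ k : ℕ) : ℝ) * t) := by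
  have hS := llnS_continuous f hc L n
  have hC := CC_cont L n
  have h1 : ∀ t, llnS f L (n + 1) t * CC L (n + 1) t = f t * Real.cos (2 * Real.pi * t) +
      f t * CC L n (L * t) + llnS f L n (L * t) * Real.cos (2 * Real.pi * t) +
        llnS f L n (L * t) * CC L n (L * t) := by
    intro t
    have e1 : CC L (n + 1) t = Real.cos (2 * Real.pi * t) + CC L n (L * t) := llnS_succ' _ L n t
    rw [e1, llnS_succ']
    ring
  simp only [h1]
  have i1 : Continuous fun t : ℝ => f t * Real.cos (2 * Real.pi * t) := by fun_prop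
  have i2 : Continuous fun t : ℝ => f t * CC L n (L * t) := by fun_prop
  have i3 : Continuous fun t : ℝ => llnS f L n (L * t) * Real.cos (2 * Real.pi * t) := by fun_prop
  have i4 : Continuous fun t : ℝ => llnS f L n (L * t) * CC L n (L * t) := by fun_prop
  have i12 : Continuous fun t : ℝ => f t * Real.cos (2 * Real.pi * t) + f t * CC L n (L * t) := i1.add i2
  have i123 : Continuous fun t : ℝ => f t * Real.cos (2 * Real.pi * t) + f t * CC L n (L * t) +
      llnS f L n (L * t) * Real.cos (2 * Real.pi * t) := i12.add i3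
  rw [intervalIntegral.integral_add (i123.intervalIntegrable _ _) (i4.intervalIntegrable _ _),
    intervalIntegral.integral_add (i12.intervalIntegrable _ _) (i3.intervalIntegrable _ _),
    intervalIntegral.integral_add (i1.intervalIntegrable _ _) (i2.intervalIntegrable _ _),
    int_zero (llnS f L n) (llnS_per f hper L n) hS L hL,
    int_mul_nat (fun t => llnS f L n t * CC L n t)
      (fun x => by
        have e2 : CC L n (x + 1) = CC L n x := llnS_per _ cos_per L n x
        rw [e2, llnS_per f hper L n]) (by fun_prop) L (by omega)]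
  have h2 : ∫ t in (0 : ℝ)..1, f t * CC L n (L * t) =
      ∑ k ∈ Finset.range n, ∫ t in (0 : ℝ)..1, f t * Real.cos (2 * Real.pi * ((L ^ (k + 1) : ℕ) : ℝ) * t) := by
    rw [← intervalIntegral.integral_finsetSum]
    · congr 1
      ext t
      unfold CC llnS
      rw [Finset.mul_sum]
      apply Finset.sum_congr rfl
      intro j _
      congr 2
      push_cast
      ring_nf
    · intro k _
      apply Continuous.intervalIntegrable
      fun_prop
  rw [h2, Finset.sum_range_succ']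
  simp only [pow_zero, Nat.cast_one, mul_one]
  ring

theorem var_lower (α : ℂ) (h0 : 0 < ‖α‖) (h1 : ‖α‖ < 1) (L : ℕ) (hL : 4 ≤ L)
    (he : ∫ t in (0 : ℝ)..1, lg α t = 0) :
    ∃ c₀ : ℝ, 0 < c₀ ∧ ∀ n : ℕ, c₀ * n ≤ ∫ t in (0 : ℝ)..1, llnS (lg α) L n t ^ 2 := by
  obtain ⟨A, ρ, hρ, hρ0, hA, hfac⟩ := factor α h0 h1
  have hf := lg_fourier α A ρ hρ hA hfac
  have hL' : (4 : ℝ) ≤ L := by exact_mod_cast hL
  have hA1 : ‖A‖ = 1 := by
    have h2 := hf 0
    simp only [Nat.cast_zero, mul_zero, zero_mul, Real.cos_zero, mul_one, if_true, div_zero, add_zero] at h2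
    rw [he] at h2
    have hA0 : A ≠ 0 := by
      intro h; rw [h, zero_mul] at hA; exact zero_ne_one hA
    exact Real.eq_one_of_pos_of_log_eq_zero (norm_pos_iff.mpr hA0) h2.symm
  set r := ‖ρ‖ with hr
  have hr0 : 0 < r := norm_pos_iff.mpr hρ0
  -- |Re ρ| ≥ r/2
  have hre : r / 2 ≤ |ρ.re| := by
    have h2 : ‖1 + ρ ^ 2‖ = 1 := by
      have h3 : ‖A‖ * ‖1 + ρ ^ 2‖ = 1 := by rw [← norm_mul, hA, norm_one]
      rw [hA1, one_mul] at h3
      exact h3
    have h4 : Complex.normSq (1 + ρ ^ 2) = 1 := by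
      rw [Complex.normSq_eq_norm_sq, h2]; norm_num
    have h5 : r ^ 2 = ρ.re ^ 2 + ρ.im ^ 2 := by
      rw [hr, ← Complex.normSq_eq_norm_sq, Complex.normSq_apply]; ring
    rw [Complex.normSq_apply] at h4
    simp only [Complex.add_re, Complex.one_re, Complex.add_im, Complex.one_im, pow_two, Complex.mul_re,
      Complex.mul_im] at h4
    have h6 : 2 * (ρ.re ^ 2 - ρ.im ^ 2) + (r ^ 2) ^ 2 = 0 := by
      rw [h5]; linear_combination h4
    have h7 : r ^ 2 < 1 := by nlinarith
    have h8 : (r / 2) ^ 2 ≤ |ρ.re| ^ 2 := by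
      rw [sq_abs]
      nlinarith [sq_nonneg r, mul_nonneg (sq_nonneg r) (sub_nonneg.mpr h7.le)]
    exact le_of_sq_le_sq h8 (abs_nonneg _)
  set b : ℕ → ℝ := fun k => ∫ t in (0 : ℝ)..1, lg α t * Real.cos (2 * Real.pi * ((L ^ k : ℕ) : ℝ) * t) with hb
  have hb0 : b 0 = ρ.re := by
    simp only [hb, pow_zero]
    rw [hf 1]
    simp
  have hbk : ∀ k, 1 ≤ k → |b k| ≤ r / 4 * (1 / 4) ^ (k - 1) := by
    intro k hk
    simp only [hb]
    rw [hf (L ^ k)]
    have hpos : 0 < L ^ k := Nat.pow_pos (by omega)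
    rw [if_neg hpos.ne', zero_add, abs_div, abs_mul, abs_pow, abs_neg, abs_one, one_pow, one_mul,
      Nat.abs_cast]
    have h2 : |(ρ ^ (L ^ k)).re| ≤ r := by
      refine le_trans (Complex.abs_re_le_norm _) ?_
      rw [norm_pow]
      calc ‖ρ‖ ^ (L ^ k) ≤ ‖ρ‖ ^ 1 := pow_le_pow_of_le_one (norm_nonneg _) hρ.le hpos
        _ = r := pow_one _
    have h3 : (4 : ℝ) ^ k ≤ ((L ^ k : ℕ) : ℝ) := by
      push_cast
      gcongr
    calc |(ρ ^ (L ^ k)).re| / ((L ^ k : ℕ) : ℝ) ≤ r / 4 ^ k := by gcongr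
      _ = r / 4 * (1 / 4) ^ (k - 1) := by
        obtain ⟨j, rfl⟩ : ∃ j, k = j + 1 := ⟨k - 1, by omega⟩
        simp only [Nat.add_sub_cancel]
        rw [pow_succ, one_div, inv_pow]
        field_simp
  -- sign
  obtain ⟨s, hs1, hs2⟩ : ∃ s : ℝ, |s| = 1 ∧ s * ρ.re = |ρ.re| := by
    rcases le_total 0 ρ.re with h | h
    · exact ⟨1, by simp, by rw [one_mul, abs_of_nonneg h]⟩
    · exact ⟨-1, by simp, by rw [abs_of_nonpos h]; ring⟩
  have hsb : ∀ n : ℕ, r / 6 ≤ s * ∑ k ∈ Finset.range (n + 1), b k := by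
    intro n
    rw [Finset.sum_range_succ', mul_add, hb0, hs2]
    have h2 : |s * ∑ k ∈ Finset.range n, b (k + 1)| ≤ r / 3 := by
      rw [abs_mul, hs1, one_mul]
      refine le_trans (Finset.abs_sum_le_sum_abs _ _) ?_
      have h3 : ∑ k ∈ Finset.range n, |b (k + 1)| ≤ ∑ k ∈ Finset.range n, r / 4 * (1 / 4) ^ k := by
        apply Finset.sum_le_sum
        intro k _
        exact hbk (k + 1) (by omega)
      refine le_trans h3 ?_
      rw [← Finset.mul_sum, geom_sum_eq (by norm_num)]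
      have h4 : (0 : ℝ) < (1 / 4 : ℝ) ^ n := by positivity
      have h5 : ((1 / 4 : ℝ) ^ n - 1) / (1 / 4 - 1) ≤ 4 / 3 := by
        rw [div_le_iff_of_neg (by norm_num)]
        linarith
      calc r / 4 * (((1 / 4 : ℝ) ^ n - 1) / (1 / 4 - 1)) ≤ r / 4 * (4 / 3) := by gcongr
        _ = r / 3 := by ring
    have h6 := (abs_le.mp h2).1
    linarith
  have hSC : ∀ n : ℕ, r / 6 * n ≤ s * ∫ t in (0 : ℝ)..1, llnS (lg α) L n t * CC L n t := by
    intro n
    induction n with
    | zero => simp [CC, llnS]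
    | succ n ih =>
      rw [SC_succ (lg α) (lg_periodic α) (lg_continuous α h1) L (by omega) n, mul_add]
      have := hsb n
      simp only [hb] at this
      have e3 : ((n + 1 : ℕ) : ℝ) = n + 1 := by push_cast; ring
      rw [e3]
      linarith
  refine ⟨r ^ 2 / 18, by positivity, ?_⟩
  intro n
  have hS := llnS_continuous (lg α) (lg_continuous α h1) L n
  have hC := CC_cont L n
  set lam : ℝ := s * (r / 3) with hlam
  have h2 : 0 ≤ ∫ t in (0 : ℝ)..1, (llnS (lg α) L n t - lam * CC L n t) ^ 2 := by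
    apply intervalIntegral.integral_nonneg (by norm_num)
    intro t _
    positivity
  have h3 : ∫ t in (0 : ℝ)..1, (llnS (lg α) L n t - lam * CC L n t) ^ 2 =
      (∫ t in (0 : ℝ)..1, llnS (lg α) L n t ^ 2) - 2 * lam * (∫ t in (0 : ℝ)..1, llnS (lg α) L n t * CC L n t) +
        lam ^ 2 * (n / 2) := by
    rw [← CC_sq L (by omega) n, ← intervalIntegral.integral_const_mul, ← intervalIntegral.integral_const_mul,
      ← intervalIntegral.integral_sub, ← intervalIntegral.integral_add]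
    · congr 1
      ext t
      ring
    all_goals
      apply Continuous.intervalIntegrable
      fun_prop
  rw [h3] at h2
  have h4 := hSC n
  have hs3 : s ^ 2 = 1 := by rw [← sq_abs, hs1]; norm_num
  have h5 : 2 * lam * (∫ t in (0 : ℝ)..1, llnS (lg α) L n t * CC L n t) =
      2 * (r / 3) * (s * ∫ t in (0 : ℝ)..1, llnS (lg α) L n t * CC L n t) := by rw [hlam]; ring
  have h6 : lam ^ 2 = r ^ 2 / 9 := by rw [hlam, mul_pow, hs3]; ring
  rw [h5, h6] at h2
  have h7 : 2 * (r / 3) * (r / 6 * n) ≤ 2 * (r / 3) * (s * ∫ t in (0 : ℝ)..1, llnS (lg α) L n t * CC L n t) := by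
    gcongr
  nlinarith

end Kan
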