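import Pool.Agent.Work.MP_ed045b_an.Interp

/-! Product bounds for well separated nodes. -/

namespace Kan

open MeasureTheory Filter Topology Set

/-- product of distances of indices -/
theorem prod_index_dist (N j : ℕ) (hj : j < N) :
    (∏ i ∈ (Finset.range N).erase j, |(j : ℝ) - i|) = (j.factorial : ℝ) * ((N - 1 - j).factorial : ℝ) := by
  induction N with
  | zero => omega
  | succ N ih =>
    rcases Nat.lt_succ_iff_lt_or_eq.mp hj with h | h
    · have h1 : (Finset.range (N + 1)).erase j = insert N ((Finset.range N).erase j) := by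
        ext i
        simp only [Finset.mem_erase, Finset.mem_range, Finset.mem_insert]
        omega
      rw [h1, Finset.prod_insert (by simp), ih h]
      have h2 : N + 1 - 1 - j = (N - 1 - j) + 1 := by omega
      rw [h2, Nat.factorial_succ]
      have h3 : |(j : ℝ) - N| = ((N - 1 - j + 1 : ℕ) : ℝ) := by
        rw [abs_sub_comm, abs_of_nonneg]
        · have : N = j + (N - 1 - j + 1) := by omega
          have h4 : (N : ℝ) = j + ((N - 1 - j + 1 : ℕ) : ℝ) := by exact_mod_cast this
          linarith
        · have : (j : ℝ) ≤ N := by exact_mod_cast h.le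
          linarith
      rw [h3]
      push_cast
      ring
    · subst h
      have h1 : (Finset.range (j + 1)).erase j = Finset.range j := by
        ext i
        simp only [Finset.mem_erase, Finset.mem_range]
        omega
      rw [h1]
      have h2 : j + 1 - 1 - j = 0 := by omega
      rw [h2, Nat.factorial_zero, Nat.cast_one, mul_one]
      have h3 : ∀ i ∈ Finset.range j, |(j : ℝ) - i| = ((j - i : ℕ) : ℝ) := by
        intro i hi
        have hi' := (Finset.mem_range.mp hi).le
        rw [abs_of_nonneg, Nat.cast_sub hi']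
        have : (i : ℝ) ≤ j := by exact_mod_cast hi'
        linarith
      rw [Finset.prod_congr rfl h3]
      rw [← Nat.cast_prod]
      congr 1
      rw [← Nat.descFactorial_self, Nat.descFactorial_eq_prod_range]

section
variable (m T : ℕ) (a s : ℝ) (x : ℕ → ℝ)

theorem abs_node_le (hs : 0 ≤ s)
    (hxa : ∀ i < 2 * m, |x i| ≤ a)
    (hsep : ∀ i j, i ≤ j → j < 2 * m → ((j : ℝ) - i) * s ≤ x j - x i) (k : ℕ) (hk : k < m) :
    |x k| ≤ a - k * s ∧ |x (2 * m - 1 - k)| ≤ a - k * s := by
  have h0 : |x 0| ≤ a := hxa 0 (by omega)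
  have hl : |x (2 * m - 1)| ≤ a := hxa _ (by omega)
  have h1 := hsep 0 k (by omega) (by omega)
  have h2 := hsep k (2 * m - 1) (by omega) (by omega)
  have h3 := hsep 0 (2 * m - 1 - k) (by omega) (by omega)
  have h4 := hsep (2 * m - 1 - k) (2 * m - 1) (by omega) (by omega)
  rw [abs_le] at h0 hl
  have hc1 : ((2 * m - 1 : ℕ) : ℝ) = 2 * m - 1 := by
    rw [Nat.cast_sub (by omega)]; push_cast; ring
  have hc2 : ((2 * m - 1 - k : ℕ) : ℝ) = 2 * m - 1 - k := by
    rw [Nat.cast_sub (by omega), hc1]
  rw [hc1] at h2 h4
  rw [hc2] at h3 h4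
  simp only [Nat.cast_zero, sub_zero] at h1 h3
  have hkm : (k : ℝ) + 1 ≤ m := by exact_mod_cast hk
  have h5 : (k : ℝ) * s ≤ (2 * m - 1 - k) * s := by
    apply mul_le_mul_of_nonneg_right _ hs; linarith
  constructor
  · rw [abs_le]
    constructor
    · linarith
    · linarith
  · rw [abs_le]
    constructor
    · linarith
    · have : ((2 : ℝ) * m - 1 - (2 * m - 1 - k)) * s = k * s := by ring
      linarith

theorem prod_range_two_mul (f : ℕ → ℝ) :
    ∏ i ∈ Finset.range (2 * m), f i =
      (∏ k ∈ Finset.range m, f k) * ∏ k ∈ Finset.range m, f (2 * m - 1 - k) := by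
  have h1 : 2 * m = m + m := by ring
  rw [h1, Finset.prod_range_add]
  congr 1
  rw [← Finset.prod_range_reflect]
  apply Finset.prod_congr rfl
  intro k hk
  have := Finset.mem_range.mp hk
  congr 1
  omega

theorem prod_upper (hs : 0 < s)
    (hxa : ∀ i < 2 * m, |x i| ≤ a)
    (hsep : ∀ i j, i ≤ j → j < 2 * m → ((j : ℝ) - i) * s ≤ x j - x i)
    (hT : 1 + a ≤ (m + T) * s) :
    ∏ i ∈ Finset.range (2 * m), (1 + |x i|) ≤
      (s ^ m * (m.factorial : ℝ) * ((m + T).choose m : ℝ)) ^ 2 := by
  have hkey : ∏ k ∈ Finset.range m, (s * ((m + T - k : ℕ) : ℝ)) =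
      s ^ m * (m.factorial : ℝ) * ((m + T).choose m : ℝ) := by
    rw [Finset.prod_mul_distrib, Finset.prod_const, Finset.card_range, mul_assoc]
    congr 1
    rw [← Nat.cast_prod, ← Nat.descFactorial_eq_prod_range,
      Nat.descFactorial_eq_factorial_mul_choose]
    push_cast; ring
  have hle : ∀ k < m, 1 + (a - k * s) ≤ s * ((m + T - k : ℕ) : ℝ) := by
    intro k hk
    rw [Nat.cast_sub (by omega)]
    push_cast
    nlinarith
  rw [prod_range_two_mul, sq, ← hkey]
  apply mul_le_mul
  · apply Finset.prod_le_prod
    · intro i _; positivity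
    · intro k hk
      have hk' := Finset.mem_range.mp hk
      have := (abs_node_le m a s x hs.le hxa hsep k hk').1
      have := hle k hk'
      linarith
  · apply Finset.prod_le_prod
    · intro i _; positivity
    · intro k hk
      have hk' := Finset.mem_range.mp hk
      have := (abs_node_le m a s x hs.le hxa hsep k hk').2
      have := hle k hk'
      linarith
  · apply Finset.prod_nonneg
    intro i _; positivity
  · apply Finset.prod_nonneg
    intro i _; positivity

theorem prod_lower (hs : 0 < s)
    (hxa : ∀ i < 2 * m, |x i| ≤ a)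
    (hsep : ∀ i j, i ≤ j → j < 2 * m → ((j : ℝ) - i) * s ≤ x j - x i)
    (hms : m * s ≤ a) :
    (s ^ m * (m.factorial : ℝ) * ((2 * m - 1).choose m : ℝ)) ^ 2 ≤
      ∏ i ∈ Finset.range (2 * m), (2 * a - |x i|) := by
  have hkey : ∏ k ∈ Finset.range m, (s * ((m + k : ℕ) : ℝ)) =
      s ^ m * (m.factorial : ℝ) * ((2 * m - 1).choose m : ℝ) := by
    rw [Finset.prod_mul_distrib, Finset.prod_const, Finset.card_range, mul_assoc]
    congr 1
    rw [← Nat.cast_prod, ← Nat.ascFactorial_eq_prod_range,
      Nat.ascFactorial_eq_factorial_mul_choose']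
    have : m + m - 1 = 2 * m - 1 := by omega
    rw [this]
    push_cast; ring
  have hle : ∀ k < m, s * ((m + k : ℕ) : ℝ) ≤ 2 * a - (a - k * s) := by
    intro k hk
    push_cast
    nlinarith
  rw [prod_range_two_mul, sq, ← hkey]
  apply mul_le_mul
  · apply Finset.prod_le_prod
    · intro i _; positivity
    · intro k hk
      have hk' := Finset.mem_range.mp hk
      have := (abs_node_le m a s x hs.le hxa hsep k hk').1
      have := hle k hk'
      linarith
  · apply Finset.prod_le_prod
    · intro i _; positivity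
    · intro k hk
      have hk' := Finset.mem_range.mp hk
      have := (abs_node_le m a s x hs.le hxa hsep k hk').2
      have := hle k hk'
      linarith
  · apply Finset.prod_nonneg
    intro i _; positivity
  · apply Finset.prod_nonneg
    intro i hi
    have hi' := Finset.mem_range.mp hi
    have := hxa i (by omega)
    have := (abs_nonneg (x i))
    linarith

theorem prod_nodes (hs : 0 < s)
    (hsep : ∀ i j, i ≤ j → j < 2 * m → ((j : ℝ) - i) * s ≤ x j - x i) (j : ℕ) (hj : j < 2 * m) :
    s ^ (2 * m - 1) * (((2 * m - 1).factorial : ℝ) / 2 ^ (2 * m - 1)) ≤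
      ∏ i ∈ (Finset.range (2 * m)).erase j, |x j - x i| := by
  have h1 : ∏ i ∈ (Finset.range (2 * m)).erase j, (s * |(j : ℝ) - i|) ≤
      ∏ i ∈ (Finset.range (2 * m)).erase j, |x j - x i| := by
    apply Finset.prod_le_prod
    · intro i _; positivity
    · intro i hi
      rw [Finset.mem_erase, Finset.mem_range] at hi
      rcases le_total i j with h | h
      · have := hsep i j h hj
        have h' : (i : ℝ) ≤ j := by exact_mod_cast h
        rw [abs_of_nonneg (by linarith : (0 : ℝ) ≤ j - i)]
        refine le_trans ?_ (le_abs_self _)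
        linarith
      · have := hsep j i h hi.2
        have h' : (j : ℝ) ≤ i := by exact_mod_cast h
        rw [abs_sub_comm, abs_of_nonneg (by linarith : (0 : ℝ) ≤ i - j), abs_sub_comm (x j)]
        refine le_trans ?_ (le_abs_self _)
        linarith
  refine le_trans ?_ h1
  rw [Finset.prod_mul_distrib, Finset.prod_const, prod_index_dist _ _ hj]
  have hcard : ((Finset.range (2 * m)).erase j).card = 2 * m - 1 := by
    rw [Finset.card_erase_of_mem (Finset.mem_range.mpr hj), Finset.card_range]
  rw [hcard]
  apply mul_le_mul_of_nonneg_left _ (by positivity)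
  rw [div_le_iff₀ (by positivity)]
  have h2 : (2 * m - 1).choose j * j.factorial * (2 * m - 1 - j).factorial = (2 * m - 1).factorial :=
    Nat.choose_mul_factorial_mul_factorial (by omega)
  have h3 : (2 * m - 1).choose j ≤ 2 ^ (2 * m - 1) := Nat.choose_le_two_pow _ _
  have h4 : (2 * m - 1).factorial ≤ j.factorial * (2 * m - 1 - j).factorial * 2 ^ (2 * m - 1) := by
    rw [← h2, mul_assoc, mul_comm]
    exact Nat.mul_le_mul_left _ h3
  exact_mod_cast h4

end

end Kan
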