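import Pool.Agent.Work.MP_ed045b_an.Prods

/-! The Remez type inequality. -/

namespace Kan

open MeasureTheory Filter Topology Set

theorem central_ineq (m : ℕ) (hm : 0 < m) :
    (m.factorial : ℝ) ^ 2 * 2 ^ (2 * m - 1) ≤ 2 * (m : ℝ) ^ 2 * ((2 * m - 1).factorial : ℝ) := by
  have h1 := Nat.four_pow_le_two_mul_self_mul_centralBinom m hm
  have h2 : m.centralBinom * m.factorial * m.factorial = (2 * m).factorial := by
    have := Nat.choose_mul_factorial_mul_factorial (n := 2 * m) (k := m) (by omega)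
    rw [show 2 * m - m = m by omega] at this
    exact this
  have h3 : (2 * m).factorial = 2 * m * (2 * m - 1).factorial := by
    have : 2 * m = (2 * m - 1) + 1 := by omega
    rw [this, Nat.factorial_succ]
    congr 1
  have h4 : (4 : ℝ) ^ m ≤ 2 * m * (m.centralBinom : ℝ) := by exact_mod_cast h1
  have h5 : (m.centralBinom : ℝ) * m.factorial * m.factorial = 2 * m * ((2 * m - 1).factorial : ℝ) := by
    have := h2.trans h3
    exact_mod_cast this
  have h6 : (2 : ℝ) ^ (2 * m - 1) * 2 = 4 ^ m := by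
    rw [← pow_succ, show 2 * m - 1 + 1 = 2 * m by omega, pow_mul]; norm_num
  have h7 : (0 : ℝ) ≤ (m.factorial : ℝ) ^ 2 := by positivity
  nlinarith [mul_le_mul_of_nonneg_left h4 h7]

theorem choose_ineq (m : ℕ) (hm : 0 < m) : (4 : ℝ) ^ m ≤ 4 * m * ((2 * m - 1).choose m : ℝ) := by
  have h1 := Nat.four_pow_le_two_mul_self_mul_centralBinom m hm
  have h2 : m.centralBinom = 2 * (2 * m - 1).choose m := by
    rw [Nat.centralBinom_eq_two_mul_choose]
    obtain ⟨k, rfl⟩ : ∃ k, m = k + 1 := ⟨m - 1, by omega⟩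
    have h3 : 2 * (k + 1) = (2 * k + 1) + 1 := by ring
    rw [h3, Nat.choose_succ_succ]
    have h4 : (2 * k + 1).choose k = (2 * k + 1).choose (k + 1) := by
      apply Nat.choose_symm_of_eq_add; omega
    rw [h4]
    simp
    ring
  have h4 : (4 : ℝ) ^ m ≤ 2 * m * (m.centralBinom : ℝ) := by exact_mod_cast h1
  rw [h2] at h4
  push_cast at h4
  linarith

theorem remez_core (m T : ℕ) (hm : 0 < m) (a s : ℝ) (ha : 1 ≤ a) (hs : 0 < s) (x : ℕ → ℝ)
    (hxa : ∀ i < 2 * m, |x i| ≤ a)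
    (hsep : ∀ i j, i ≤ j → j < 2 * m → ((j : ℝ) - i) * s ≤ x j - x i)
    (hms : m * s ≤ a) (hT : 1 + a ≤ (m + T) * s)
    (g : ℂ → ℂ) (hg : Differentiable ℂ g) (G R : ℝ) (hR : 0 ≤ R)
    (hgx : ∀ i < 2 * m, ‖g (x i)‖ ≤ R) (hG : ∀ w : ℂ, ‖w‖ = 2 * a → ‖g w‖ ≤ G)
    (ζ : ℂ) (hζ : ‖ζ‖ ≤ 1) :
    ‖g ζ‖ ≤ (m : ℝ) ^ 2 * ((m + T).choose m : ℝ) ^ 2 * (4 * (a + 1) * R + 16 * G / 16 ^ m) := by
  classical
  have hG0 : 0 ≤ G := by
    have := hG ((2 * a : ℝ) : ℂ) (by rw [Complex.norm_real, Real.norm_eq_abs, abs_of_nonneg]; linarith)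
    exact le_trans (norm_nonneg _) this
  have hm' : (0 : ℝ) < m := by exact_mod_cast hm
  have hinj : ∀ i < 2 * m, ∀ j < 2 * m, i ≠ j → x i ≠ x j := by
    intro i hi j hj hij h
    rcases lt_or_gt_of_ne hij with h1 | h1
    · have := hsep i j h1.le hj
      have h2 : (i : ℝ) + 1 ≤ j := by exact_mod_cast h1
      nlinarith
    · have := hsep j i h1.le hi
      have h2 : (j : ℝ) + 1 ≤ i := by exact_mod_cast h1
      nlinarith
  have hmain := interp_bound (2 * m) x hinj g hg (2 * a) G R (by linarith) hR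
    (fun i hi => lt_of_le_of_lt (hxa i hi) (by linarith)) hgx hG ζ hζ
  set C : ℝ := ((m + T).choose m : ℝ) with hC
  set C' : ℝ := ((2 * m - 1).choose m : ℝ) with hC'
  have hC'pos : 0 < C' := by
    rw [hC']; exact_mod_cast Nat.choose_pos (by omega)
  set U : ℝ := ∏ i ∈ Finset.range (2 * m), (1 + |x i|) with hU
  have hU0 : 0 < U := Finset.prod_pos fun i _ => by positivity
  have hUle : U ≤ (s ^ m * (m.factorial : ℝ) * C) ^ 2 := prod_upper m T a s x hs hxa hsep hT
  set Lp : ℝ := ∏ i ∈ Finset.range (2 * m), (2 * a - |x i|) with hLp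
  have hLple : (s ^ m * (m.factorial : ℝ) * C') ^ 2 ≤ Lp := prod_lower m a s x hs hxa hsep hms
  set D : ℝ := s ^ (2 * m - 1) * (((2 * m - 1).factorial : ℝ) / 2 ^ (2 * m - 1)) with hD
  have hDpos : 0 < D := by rw [hD]; positivity
  have hDle := fun j hj => prod_nodes m s x hs hsep j hj
  -- U / D
  have hUD : U / D ≤ 2 * (m : ℝ) ^ 2 * s * C ^ 2 := by
    rw [div_le_iff₀ hDpos]
    refine le_trans hUle ?_
    have h1 := central_ineq m hm
    have h2 : s ^ m * s ^ m = s ^ (2 * m - 1) * s := by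
      rw [← pow_add, ← pow_succ]; congr 1; omega
    have h3 : (s ^ m * (m.factorial : ℝ) * C) ^ 2 = s ^ (2 * m - 1) * s * ((m.factorial : ℝ) ^ 2 * C ^ 2) := by
      rw [← h2]; ring
    rw [h3, hD]
    have h4 : 2 * (m : ℝ) ^ 2 * s * C ^ 2 *
        (s ^ (2 * m - 1) * (((2 * m - 1).factorial : ℝ) / 2 ^ (2 * m - 1))) =
        s ^ (2 * m - 1) * s * ((2 * (m : ℝ) ^ 2 * ((2 * m - 1).factorial : ℝ) / 2 ^ (2 * m - 1)) * C ^ 2) := by
      ring
    rw [h4]
    apply mul_le_mul_of_nonneg_left _ (by positivity)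
    apply mul_le_mul_of_nonneg_right _ (by positivity)
    rw [le_div_iff₀ (by positivity)]
    exact h1
  -- U / Lp
  have hULp : U / Lp ≤ 16 * (m : ℝ) ^ 2 * C ^ 2 / 16 ^ m := by
    have hX : 0 < s ^ m * (m.factorial : ℝ) := by positivity
    have h1 : U / Lp ≤ (s ^ m * (m.factorial : ℝ) * C) ^ 2 / (s ^ m * (m.factorial : ℝ) * C') ^ 2 :=
      div_le_div₀ (by positivity) hUle (by positivity) hLple
    refine le_trans h1 ?_
    have h2 : (s ^ m * (m.factorial : ℝ) * C) ^ 2 / (s ^ m * (m.factorial : ℝ) * C') ^ 2 = C ^ 2 / C' ^ 2 := by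
      field_simp
    rw [h2, div_le_div_iff₀ (by positivity) (by positivity)]
    have h3 := choose_ineq m hm
    have h4 : (16 : ℝ) ^ m = (4 ^ m) ^ 2 := by
      rw [← pow_mul, mul_comm, pow_mul]; norm_num
    rw [h4]
    have h5 : ((4 : ℝ) ^ m) ^ 2 ≤ (4 * m * C') ^ 2 := by
      apply pow_le_pow_left₀ (by positivity) h3
    nlinarith [mul_le_mul_of_nonneg_left h5 (sq_nonneg C)]
  -- first sum
  have hS1 : ∑ j ∈ Finset.range (2 * m), ∏ i ∈ (Finset.range (2 * m)).erase j, ((1 + |x i|) / |x j - x i|)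
      ≤ 2 * m * (U / D) := by
    have : ∀ j ∈ Finset.range (2 * m),
        ∏ i ∈ (Finset.range (2 * m)).erase j, ((1 + |x i|) / |x j - x i|) ≤ U / D := by
      intro j hj
      rw [Finset.prod_div_distrib]
      apply div_le_div₀ hU0.le _ hDpos (hDle j (Finset.mem_range.mp hj))
      rw [hU, ← Finset.mul_prod_erase _ _ hj]
      refine le_mul_of_one_le_left (Finset.prod_nonneg fun i _ => by positivity) ?_
      have := abs_nonneg (x j)
      linarith
    refine le_trans (Finset.sum_le_sum this) ?_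
    rw [Finset.sum_const, Finset.card_range, nsmul_eq_mul]
    push_cast
    exact le_rfl
  have hS2 : ∑ j ∈ Finset.range (2 * m), 1 / ((2 * a - |x j|) * ∏ i ∈ (Finset.range (2 * m)).erase j, |x j - x i|)
      ≤ 2 * m * (1 / (a * D)) := by
    have : ∀ j ∈ Finset.range (2 * m),
        1 / ((2 * a - |x j|) * ∏ i ∈ (Finset.range (2 * m)).erase j, |x j - x i|) ≤ 1 / (a * D) := by
      intro j hj
      have hj' := Finset.mem_range.mp hj
      apply one_div_le_one_div_of_le (by positivity)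
      apply mul_le_mul _ (hDle j hj') hDpos.le
      · have := hxa j hj'
        linarith
      · have := hxa j hj'
        linarith
    refine le_trans (Finset.sum_le_sum this) ?_
    rw [Finset.sum_const, Finset.card_range, nsmul_eq_mul]
    push_cast
    exact le_rfl
  refine le_trans hmain ?_
  have hLppos : 0 < Lp := lt_of_lt_of_le (by positivity) hLple
  have e1 : R * ∑ j ∈ Finset.range (2 * m), ∏ i ∈ (Finset.range (2 * m)).erase j, ((1 + |x i|) / |x j - x i|)
      ≤ R * (2 * m * (2 * (m : ℝ) ^ 2 * s * C ^ 2)) := by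
    apply mul_le_mul_of_nonneg_left _ hR
    refine le_trans hS1 ?_
    apply mul_le_mul_of_nonneg_left hUD (by positivity)
  have e2 : U * (G / Lp) ≤ G * (16 * (m : ℝ) ^ 2 * C ^ 2 / 16 ^ m) := by
    have : U * (G / Lp) = G * (U / Lp) := by ring
    rw [this]
    exact mul_le_mul_of_nonneg_left hULp hG0
  have e3 : U * (R * ∑ j ∈ Finset.range (2 * m), 1 / ((2 * a - |x j|) *
      ∏ i ∈ (Finset.range (2 * m)).erase j, |x j - x i|)) ≤ R * (2 * m * (2 * (m : ℝ) ^ 2 * s * C ^ 2)) := by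
    have h1 : U * (R * ∑ j ∈ Finset.range (2 * m), 1 / ((2 * a - |x j|) *
      ∏ i ∈ (Finset.range (2 * m)).erase j, |x j - x i|)) ≤ U * (R * (2 * m * (1 / (a * D)))) := by
      apply mul_le_mul_of_nonneg_left _ hU0.le
      exact mul_le_mul_of_nonneg_left hS2 hR
    refine le_trans h1 ?_
    have h2 : U * (R * (2 * m * (1 / (a * D)))) = R * (2 * m * ((U / D) / a)) := by
      field_simp
    rw [h2]
    apply mul_le_mul_of_nonneg_left _ hR
    apply mul_le_mul_of_nonneg_left _ (by positivity)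
    refine le_trans (div_le_self (by positivity) ha) hUD
  have e4 : R * (2 * m * (2 * (m : ℝ) ^ 2 * s * C ^ 2)) ≤ (m : ℝ) ^ 2 * C ^ 2 * (4 * a * R) := by
    have : R * (2 * m * (2 * (m : ℝ) ^ 2 * s * C ^ 2)) = (m : ℝ) ^ 2 * C ^ 2 * (4 * (m * s) * R) := by ring
    rw [this]
    gcongr
  have e4' : R * (2 * m * (2 * (m : ℝ) ^ 2 * s * C ^ 2)) ≤ (m : ℝ) ^ 2 * C ^ 2 * (4 * a * R) := e4
  rw [mul_add]
  have e5 : (m : ℝ) ^ 2 * C ^ 2 * (4 * (a + 1) * R + 16 * G / 16 ^ m) =
      (m : ℝ) ^ 2 * C ^ 2 * (4 * a * R) + (m : ℝ) ^ 2 * C ^ 2 * (4 * R) +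
        G * (16 * (m : ℝ) ^ 2 * C ^ 2 / 16 ^ m) := by ring
  -- third term: need the sharper bound with 1/a
  have e3' : U * (R * ∑ j ∈ Finset.range (2 * m), 1 / ((2 * a - |x j|) *
      ∏ i ∈ (Finset.range (2 * m)).erase j, |x j - x i|)) ≤ (m : ℝ) ^ 2 * C ^ 2 * (4 * R) := by
    have h1 : U * (R * ∑ j ∈ Finset.range (2 * m), 1 / ((2 * a - |x j|) *
      ∏ i ∈ (Finset.range (2 * m)).erase j, |x j - x i|)) ≤ U * (R * (2 * m * (1 / (a * D)))) := by
      apply mul_le_mul_of_nonneg_left _ hU0.le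
      exact mul_le_mul_of_nonneg_left hS2 hR
    refine le_trans h1 ?_
    have h2 : U * (R * (2 * m * (1 / (a * D)))) = R * (2 * m * ((U / D) / a)) := by
      field_simp
    rw [h2]
    have h3 : (U / D) / a ≤ (2 * (m : ℝ) ^ 2 * s * C ^ 2) / a :=
      div_le_div_of_nonneg_right hUD (by linarith)
    have h4 : (2 * (m : ℝ) ^ 2 * s * C ^ 2) / a ≤ 2 * m * C ^ 2 := by
      rw [div_le_iff₀ (by linarith)]
      have : 2 * (m : ℝ) ^ 2 * s * C ^ 2 = 2 * m * C ^ 2 * (m * s) := by ring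
      rw [this]
      gcongr
    calc R * (2 * m * ((U / D) / a)) ≤ R * (2 * m * (2 * m * C ^ 2)) := by
          gcongr
          exact le_trans h3 h4
      _ = (m : ℝ) ^ 2 * C ^ 2 * (4 * R) := by ring
  rw [e5]
  linarith

theorem choose_exp_bound (m : ℕ) :
    ((m + (m / 400 + 1)).choose m : ℝ) ≤ Real.exp (m / 50 + 7) := by
  set T : ℕ := m / 400 + 1 with hT
  have hTle : (T : ℝ) ≤ m / 400 + 1 := by
    rw [hT]; push_cast
    have : ((m / 400 : ℕ) : ℝ) ≤ (m : ℝ) / 400 := Nat.cast_div_le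
    linarith
  have h1 : ((m + T).choose m : ℝ) * (1 / 512 : ℝ) ^ T ≤ (1 + 1 / 512) ^ (m + T) := by
    have h2 : (m + T).choose m = (m + T).choose T := by
      apply Nat.choose_symm_of_eq_add; ring
    rw [h2, add_comm (1 : ℝ), add_pow]
    have h3 := Finset.single_le_sum (f := fun k => (1 / 512 : ℝ) ^ k * 1 ^ (m + T - k) * ((m + T).choose k : ℝ))
      (s := Finset.range (m + T + 1)) (fun i _ => by positivity)
      (show T ∈ Finset.range (m + T + 1) by rw [Finset.mem_range]; omega)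
    refine le_trans (le_of_eq ?_) h3
    simp
    ring
  have h4 : (1 + 1 / 512 : ℝ) ^ (m + T) ≤ Real.exp ((m + T) / 512) := by
    have h5 : (1 + 1 / 512 : ℝ) ≤ Real.exp (1 / 512) := by
      have := Real.add_one_le_exp (1 / 512 : ℝ); linarith
    calc (1 + 1 / 512 : ℝ) ^ (m + T) ≤ (Real.exp (1 / 512)) ^ (m + T) := by gcongr
      _ = Real.exp ((m + T) / 512) := by
        rw [← Real.exp_nat_mul]; congr 1; push_cast; ring
  have h6 : (512 : ℝ) ≤ Real.exp 6.25 := by
    have h7 : Real.log 2 < 0.6931471808 := Real.log_two_lt_d9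
    have h8 : (512 : ℝ) = Real.exp (9 * Real.log 2) := by
      rw [mul_comm, Real.exp_mul, Real.exp_log (by norm_num)]
      norm_num
    rw [h8]
    apply Real.exp_le_exp.mpr
    linarith
  have h9 : (512 : ℝ) ^ T ≤ Real.exp (6.25 * T) := by
    calc (512 : ℝ) ^ T ≤ (Real.exp 6.25) ^ T := by gcongr
      _ = Real.exp (6.25 * T) := by rw [← Real.exp_nat_mul]; congr 1; ring
  have h10 : ((m + T).choose m : ℝ) ≤ Real.exp ((m + T) / 512) * 512 ^ T := by
    have h11 : ((m + T).choose m : ℝ) = ((m + T).choose m : ℝ) * (1 / 512 : ℝ) ^ T * 512 ^ T := by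
      rw [mul_assoc, ← mul_pow]; norm_num
    rw [h11]
    apply mul_le_mul_of_nonneg_right _ (by positivity)
    exact le_trans h1 h4
  calc ((m + T).choose m : ℝ) ≤ Real.exp ((m + T) / 512) * 512 ^ T := h10
    _ ≤ Real.exp ((m + T) / 512) * Real.exp (6.25 * T) := by gcongr
    _ = Real.exp ((m + T) / 512 + 6.25 * T) := by rw [Real.exp_add]
    _ ≤ Real.exp (m / 50 + 7) := by
      apply Real.exp_le_exp.mpr
      have hm0 : (0 : ℝ) ≤ m := by positivity
      nlinarith

theorem remez : RemezSpec := by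
  refine ⟨2612 * 10 ^ 4 * Real.exp 15, 1 / 2, by positivity, by norm_num, ?_⟩
  intro g M R E hg hM hR hE hgM hgE hvol ζ hζ
  set m : ℕ := ⌊M / 2.75⌋₊ + 1 with hm
  have hmpos : 0 < m := by omega
  have hm' : (0 : ℝ) < m := by exact_mod_cast hmpos
  have hm1 : M / 2.75 ≤ m := by
    have := Nat.lt_floor_add_one (M / 2.75)
    rw [hm]; push_cast; linarith
  have hm2 : (m : ℝ) ≤ M / 2.75 + 1 := by
    have := Nat.floor_le (show 0 ≤ M / 2.75 by positivity)
    rw [hm]; push_cast; linarith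
  obtain ⟨x, hx, hsep⟩ := exists_nodes 648 (1 / 2) (by norm_num) (by norm_num) (by norm_num) E hE hvol
    (2 * m) (by omega)
  set s : ℝ := (2 * 648 - 2 * (1 / 2)) / ((2 * m : ℕ) : ℝ) with hs
  have hs' : s = 647.5 / m := by
    rw [hs]; push_cast; field_simp; norm_num
  have hspos : 0 < s := by rw [hs']; positivity
  have hms : (m : ℝ) * s = 647.5 := by rw [hs']; field_simp
  set T : ℕ := m / 400 + 1 with hT
  have hTm : (m : ℝ) / 400 ≤ T := by
    rw [hT]; push_cast
    have : m < 400 * (m / 400 + 1) := by omega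
    have h2 : (m : ℝ) < 400 * (((m / 400 : ℕ) : ℝ) + 1) := by exact_mod_cast this
    linarith
  have hTs : (1.6 : ℝ) ≤ T * s := by
    rw [hs']
    have : (m : ℝ) / 400 * (647.5 / m) ≤ T * (647.5 / m) := by gcongr
    refine le_trans ?_ this
    have h3 : (m : ℝ) / 400 * (647.5 / m) = 647.5 / 400 := by field_simp
    rw [h3]; norm_num
  have hcore := remez_core m T hmpos 648 s (by norm_num) hspos x (fun i hi => (hx i hi).2) hsep
    (by linarith) (by nlinarith) g hg (Real.exp M) R (by linarith)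
    (fun i hi => hgE _ (hx i hi).1 (hx i hi).2)
    (fun w hw => hgM w (by rw [hw]; norm_num)) ζ hζ
  have h16 : Real.exp M ≤ 16 ^ m := by
    have h1 : (2.75 : ℝ) ≤ Real.log 16 := by
      have h2 : Real.log 16 = 4 * Real.log 2 := by
        rw [show (16 : ℝ) = 2 ^ 4 by norm_num, Real.log_pow]; norm_num
      have := Real.log_two_gt_d9
      rw [h2]; linarith
    have h3 : (16 : ℝ) ^ m = Real.exp (Real.log 16 * m) := by
      rw [mul_comm, Real.exp_nat_mul, Real.exp_log (by norm_num)]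
    rw [h3]
    apply Real.exp_le_exp.mpr
    have h4 : M ≤ 2.75 * m := by
      rw [div_le_iff₀ (by norm_num)] at hm1; linarith
    nlinarith
  have h5 : 16 * Real.exp M / 16 ^ m ≤ 16 := by
    rw [div_le_iff₀ (by positivity)]; nlinarith
  have hC := choose_exp_bound m
  rw [← hT] at hC
  have hmsq : (m : ℝ) ^ 2 ≤ 10 ^ 4 * Real.exp (m / 50) := by
    have h6 : (m : ℝ) / 100 ≤ Real.exp (m / 100) := by
      have := Real.add_one_le_exp ((m : ℝ) / 100); linarith
    have h7 : ((m : ℝ) / 100) ^ 2 ≤ Real.exp (m / 100) ^ 2 := by gcongr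
    have h8 : Real.exp ((m : ℝ) / 100) ^ 2 = Real.exp (m / 50) := by
      rw [← Real.exp_nat_mul]; congr 1; push_cast; ring
    rw [h8] at h7
    nlinarith
  have hCsq : ((m + T).choose m : ℝ) ^ 2 ≤ Real.exp (m / 25 + 14) := by
    calc ((m + T).choose m : ℝ) ^ 2 ≤ (Real.exp (m / 50 + 7)) ^ 2 := by gcongr
      _ = Real.exp (m / 25 + 14) := by rw [← Real.exp_nat_mul]; congr 1; push_cast; ring
  calc ‖g ζ‖ ≤ (m : ℝ) ^ 2 * ((m + T).choose m : ℝ) ^ 2 * (4 * (648 + 1) * R + 16 * Real.exp M / 16 ^ m) := hcore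
    _ ≤ (10 ^ 4 * Real.exp (m / 50)) * Real.exp (m / 25 + 14) * (2612 * R) := by
        gcongr
        linarith
    _ = 2612 * 10 ^ 4 * R * (Real.exp (m / 50) * Real.exp (m / 25 + 14)) := by ring
    _ = 2612 * 10 ^ 4 * R * Real.exp (m / 50 + (m / 25 + 14)) := by
        rw [Real.exp_add (m / 50) (m / 25 + 14)]
    _ ≤ 2612 * 10 ^ 4 * R * Real.exp (15 + M / 32) := by
        apply mul_le_mul_of_nonneg_left _ (by positivity)
        apply Real.exp_le_exp.mpr
        have h20 : (m : ℝ) * (3 / 50) ≤ (M / 2.75 + 1) * (3 / 50) := by gcongr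
        have h21 : M / 2.75 * (3 / 50) ≤ M / 32 := by
          have : M / 2.75 * (3 / 50) = M * (6 / 275) := by ring
          rw [this]
          nlinarith
        nlinarith
    _ = 2612 * 10 ^ 4 * Real.exp 15 * R * Real.exp (M / 32) := by
        rw [Real.exp_add 15 (M / 32)]; ring

end Kan
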