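import Pool.Agent.Work.MP_ed045b_an.Defs

/-!
Module interfaces (statements only).  Every `def …Spec : Prop` is to be proved as a theorem.
-/

namespace Kan

open MeasureTheory Filter Topology

/-- M1 (Remez type).  -/
def RemezSpec : Prop :=
  ∃ C δ : ℝ, 0 < C ∧ 0 < δ ∧ ∀ (g : ℂ → ℂ) (M R : ℝ) (E : Set ℝ),
    Differentiable ℂ g → 0 ≤ M → 1 ≤ R → MeasurableSet E →
    (∀ ζ : ℂ, ‖ζ‖ ≤ 1296 → ‖g ζ‖ ≤ Real.exp M) →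
    (∀ t ∈ E, |t| ≤ 648 → ‖g (t : ℂ)‖ ≤ R) →
    volume (Set.Icc (-648 : ℝ) 648 \ E) ≤ ENNReal.ofReal δ →
    ∀ ζ : ℂ, ‖ζ‖ ≤ 1 → ‖g ζ‖ ≤ C * R * Real.exp (M / 32)

/-- M3 (dichotomy): a.e. base point escapes or has uniformly bounded windows for all large times. -/
def WindowSpec : Prop :=
  ∀ (α : ℂ) (L : ℕ), 0 < ‖α‖ → ‖α‖ < 1 → 6 ≤ L →
    ∃ K : ℝ, ∀ z : ℂ, ∀ᵐ u : ℝ,
      Tendsto (fun n => ‖Z α L z n u‖) atTop atTop ∨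
      ∃ n₁ : ℕ, ∀ n ≥ n₁, Bd α L z u n 3 K

/-- M5 (energy): along bounded windows the orbit approaches `{0,1}`. -/
def EnergySpec : Prop :=
  ∀ (α : ℂ) (L : ℕ), 0 < ‖α‖ → ‖α‖ < 1 → 6 ≤ L → ∀ (z : ℂ) (K : ℝ), ∀ᵐ u : ℝ,
    (∃ n₁ : ℕ, ∀ n ≥ n₁, Bd α L z u n 3 K) →
      Tendsto (fun n => Z α L z n u * (1 - Z α L z n u)) atTop (𝓝 0)

/-- M6 (law of large numbers for `log‖1+α cos 2π L^j u‖`). -/
def LLNSpec : Prop :=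
  ∀ (α : ℂ) (L : ℕ), ‖α‖ < 1 → 2 ≤ L → ∀ᵐ u : ℝ,
    Tendsto (fun n : ℕ => (∑ j ∈ Finset.range n,
        Real.log ‖1 + α * Real.cos (2 * Real.pi * ((L : ℝ) ^ j * u))‖) / n) atTop
      (𝓝 (∫ t in (0 : ℝ)..1, Real.log ‖1 + α * Real.cos (2 * Real.pi * t)‖))

end Kan
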