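import Pool.Agent.Work.MP_ed045b_an.Specs

/-!
Module interfaces for the final assembly (M7).
-/

namespace Kan

open MeasureTheory Filter Topology

/-- M7a: for a.e. `u`, escape is locally uniform at every escaping point.
(Use `escape_growth`, `VR_meas` of `Escape.lean`, and for a.e. `u` there is `R : ℕ` with
`L^n u ∉ VR` for infinitely many `n`.) -/
def EscUnifSpec : Prop :=
  ∀ (α : ℂ) (L : ℕ), 0 < ‖α‖ → ‖α‖ < 1 → 2 ≤ L → ∀ᵐ u : ℝ, ∀ z : ℂ,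
    Tendsto (fun n => ‖Z α L z n u‖) atTop atTop →
      ∃ U : Set ℂ, IsOpen U ∧ z ∈ U ∧ ∀ R : ℝ, ∀ᶠ n in atTop, ∀ w ∈ U, R ≤ ‖Z α L w n u‖

/-- M7b: negative exponent: convergence to `0` is locally uniform. -/
def ZeroUnifSpec : Prop :=
  ∀ (α : ℂ) (L : ℕ), ‖α‖ < 1 → 2 ≤ L →
    (∫ t in (0 : ℝ)..1, Real.log ‖1 + α * Real.cos (2 * Real.pi * t)‖) < 0 → ∀ᵐ u : ℝ, ∀ z : ℂ,
    Tendsto (fun n => Z α L z n u) atTop (𝓝 0) →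
      ∃ U : Set ℂ, IsOpen U ∧ z ∈ U ∧ ∀ ε : ℝ, 0 < ε → ∀ᶠ n in atTop, ∀ w ∈ U, ‖Z α L w n u‖ ≤ ε

/-- M7c: positive exponent: only countably many points converge to `0`. -/
def ZeroCountSpec : Prop :=
  ∀ (α : ℂ) (L : ℕ), ‖α‖ < 1 → 2 ≤ L →
    0 < (∫ t in (0 : ℝ)..1, Real.log ‖1 + α * Real.cos (2 * Real.pi * t)‖) → ∀ᵐ u : ℝ,
    {z : ℂ | Tendsto (fun n => Z α L z n u) atTop (𝓝 0)}.Countable

/-- M7d: symmetry `z ↦ 1 - z`, `α ↦ -α`. -/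
def SymSpec : Prop :=
  (∀ (α : ℂ) (L : ℕ) (z : ℂ) (n : ℕ) (w : ℂ), Z (-α) L (1 - z) n w = 1 - Z α L z n w) ∧
  ∀ α : ℂ, (∫ t in (0 : ℝ)..1, Real.log ‖1 + (-α) * Real.cos (2 * Real.pi * t)‖) =
    ∫ t in (0 : ℝ)..1, Real.log ‖1 + α * Real.cos (2 * Real.pi * t)‖

/-- M7e: trichotomy for fixed `z`. -/
def TriSpec : Prop :=
  ∀ (α : ℂ) (L : ℕ), 0 < ‖α‖ → ‖α‖ < 1 → 6 ≤ L → ∀ z : ℂ, ∀ᵐ u : ℝ,
      Tendsto (fun n => ‖Z α L z n u‖) atTop atTop ∨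
      Tendsto (fun n => Z α L z n u) atTop (𝓝 0) ∨ Tendsto (fun n => Z α L z n u) atTop (𝓝 1)

/-- M7f: the final statement for nonzero exponent. -/
def FinalSpec : Prop :=
  ∀ α : ℂ, 0 < ‖α‖ → ‖α‖ < 1 → ∀ L : ℕ, 6 ≤ L →
    (∫ t in (0 : ℝ)..1, Real.log ‖1 + α * Real.cos (2 * Real.pi * t)‖) ≠ 0 →
    ∀ᵐ u : ℝ ∂(MeasureTheory.volume : MeasureTheory.Measure ℝ),
      ∀ f : ℕ → ℂ → ℂ,
        (∀ n : ℕ, ∀ w : ℂ, f n w = (List.range n).foldl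
            (fun x j => x + α * ((Real.cos (2 * Real.pi * (L : ℝ) ^ j * u) : ℝ) : ℂ) * x * (1 - x)) w) →
      ∀ d : ℂ → ℂ → ℝ,
        (∀ a b : ℂ, d a b = 2 * ‖a - b‖ / (Real.sqrt (1 + ‖a‖ ^ 2) * Real.sqrt (1 + ‖b‖ ^ 2))) →
        MeasureTheory.volume {z : ℂ | ¬ ∃ U : Set ℂ, IsOpen U ∧ z ∈ U ∧
          ∀ φ : ℕ → ℕ, StrictMono φ → ∃ ψ : ℕ → ℕ, StrictMono ψ ∧
            ∀ K : Set ℂ, K ⊆ U → IsCompact K → ∀ ε : ℝ, 0 < ε →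
              ∃ N : ℕ, ∀ m ≥ N, ∀ n ≥ N, ∀ w ∈ K,
                d (f (φ (ψ m)) w) (f (φ (ψ n)) w) < ε} = 0

end Kan
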