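import Pool.Agent.Work.MP_ed045b_an.Specs7

/-!
Module interfaces for the neutral curve and the full statement for `L ≥ 6`.
-/

namespace Kan

open MeasureTheory Filter Topology

/-- M8: zero exponent: a point converging to `0` must hit `0`. -/
def NeutralSpec : Prop :=
  ∀ (α : ℂ) (L : ℕ), 0 < ‖α‖ → ‖α‖ < 1 → 6 ≤ L →
    (∫ t in (0 : ℝ)..1, Real.log ‖1 + α * Real.cos (2 * Real.pi * t)‖) = 0 → ∀ z : ℂ, ∀ᵐ u : ℝ,
      Tendsto (fun n => Z α L z n u) atTop (𝓝 0) → ∃ n : ℕ, Z α L z n u = 0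

/-- M9: the statement for all `α` and all `L ≥ 6` (from FinalSpec's ingredients and NeutralSpec). -/
def FullSpec : Prop :=
  ∀ α : ℂ, 0 < ‖α‖ → ‖α‖ < 1 → ∀ L : ℕ, 6 ≤ L →
    ∀ᵐ u : ℝ ∂(MeasureTheory.volume : MeasureTheory.Measure ℝ),
      ∀ f : ℕ → ℂ → ℂ,
        (∀ n : ℕ, ∀ w : ℂ, f n w = (List.range n).foldl
            (fun x j => x + α * ((Real.cos (2 * Real.pi * (L : ℝ) ^ j * u) : ℝ) : ℂ) * x * (1 - x)) w) →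
      ∀ d : ℂ → ℂ → ℝ,
        (∀ a b : ℂ, d a b = 2 * ‖a - b‖ / (Real.sqrt (1 + ‖a‖ ^ 2) * Real.sqrt (1 + ‖b‖ ^ 2))) →
        MeasureTheory.volume {z : ℂ | ¬ ∃ U : Set ℂ, IsOpen U ∧ z ∈ U ∧
          ∀ φ : ℕ → ℕ, StrictMono φ → ∃ ψ : ℕ → ℕ, StrictMono ψ ∧
            ∀ K : Set ℂ, K ⊆ U → IsCompact K → ∀ ε : ℝ, 0 < ε →
              ∃ N : ℕ, ∀ m ≥ N, ∀ n ≥ N, ∀ w ∈ K,
                d (f (φ (ψ m)) w) (f (φ (ψ n)) w) < ε} = 0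

end Kan
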