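import Pool.Agent.Work.MP_ed045b_an.Window

/-! Vertical growth at points with bounded windows. -/

namespace Kan

open MeasureTheory Filter Topology Set

theorem two_pow_le (A ε : ℝ) (hA : 0 ≤ A) (hε : 0 < ε) :
    ∃ C : ℝ, 0 ≤ C ∧ ∀ k : ℕ, A * 2 ^ k ≤ ε * 6 ^ k + C := by
  obtain ⟨k₀, hk₀⟩ := exists_nat_gt (A / ε)
  refine ⟨A * 2 ^ k₀, by positivity, ?_⟩
  intro k
  rcases le_total k k₀ with h | h
  · have h1 : A * 2 ^ k ≤ A * 2 ^ k₀ := by
      apply mul_le_mul_of_nonneg_left _ hA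
      exact pow_le_pow_right₀ (by norm_num) h
    have : 0 ≤ ε * 6 ^ k := by positivity
    linarith
  · have h1 : (k₀ : ℝ) ≤ 3 ^ k := by
      have h2 : k₀ ≤ 3 ^ k := le_trans h (Nat.lt_pow_self (by norm_num)).le
      exact_mod_cast h2
    have h3 : A ≤ ε * 3 ^ k := by
      rw [div_lt_iff₀ hε] at hk₀
      nlinarith
    have h4 : A * 2 ^ k ≤ ε * 3 ^ k * 2 ^ k := by
      apply mul_le_mul_of_nonneg_right h3 (by positivity)
    have h5 : (3 : ℝ) ^ k * 2 ^ k = 6 ^ k := by rw [← mul_pow]; norm_num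
    have : 0 ≤ A * 2 ^ k₀ := by positivity
    rw [mul_assoc, h5] at h4
    linarith

theorem vert_growth (α : ℂ) (hα : ‖α‖ ≤ 1) (L : ℕ) (hL : 6 ≤ L) (z : ℂ) (K : ℝ) (hK : 0 ≤ K) (n₁ : ℕ) :
    ∃ Cs : ℝ, 0 ≤ Cs ∧ ∀ n ≥ n₁, ∀ p : ℝ, (∀ m, n₁ ≤ m → m ≤ n → Bd α L z p m 1 K) → ∀ y : ℝ,
      Real.log (1 + ‖Z α L z n (p + y * Complex.I)‖) ≤
        (Real.pi / 2 + 1 / 10) * ((L : ℝ) ^ n * |y|) + Cs := by
  classical
  have hL' : (6 : ℝ) ≤ L := by exact_mod_cast hL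
  have hL2 : (0 : ℝ) < L - 2 := by linarith
  have hz0 : 0 ≤ Real.log (1 + ‖z‖) := Real.log_nonneg (by linarith [norm_nonneg z])
  obtain ⟨C1, hC1, h1⟩ := two_pow_le (2 * (K + 1)) (1 / 10) (by positivity) (by norm_num)
  obtain ⟨C2, hC2, h2⟩ := two_pow_le (2 ^ n₁ * (Real.log (1 + ‖z‖) + 1)) (1 / 10) (by positivity) (by norm_num)
  refine ⟨K + C1 + C2, by positivity, ?_⟩
  intro n hn p hp y
  set Y : ℝ := (L : ℝ) ^ n * |y| with hY
  have hY0 : 0 ≤ Y := by positivity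
  have hpi := Real.pi_pos
  set w : ℂ := p + y * Complex.I with hw
  have him : w.im = y := by simp [hw]
  have hwp : ‖w - p‖ = |y| := by
    have : w - p = y * Complex.I := by rw [hw]; ring
    rw [this, norm_mul, Complex.norm_I, mul_one, Complex.norm_real, Real.norm_eq_abs]
  -- the linear part
  have hlin : ∀ m k : ℕ, m + k = n → 2 * Real.pi * |w.im| * ((L : ℝ) ^ (m + k) / (L - 2)) ≤
      Real.pi / 2 * Y := by
    intro m k hmk
    rw [hmk, him]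
    have h3 : (L : ℝ) ^ n / (L - 2) ≤ (L : ℝ) ^ n / 4 := by
      apply div_le_div_of_nonneg_left (by positivity) (by norm_num) (by linarith)
    calc 2 * Real.pi * |y| * ((L : ℝ) ^ n / (L - 2)) ≤ 2 * Real.pi * |y| * ((L : ℝ) ^ n / 4) := by gcongr
      _ = Real.pi / 2 * Y := by rw [hY]; ring
  by_cases hy : |y| ≤ 1 / (L : ℝ) ^ n₁
  · set m := Nat.findGreatest (fun m => |y| ≤ 1 / (L : ℝ) ^ m) n with hm
    have hm1 : n₁ ≤ m := Nat.le_findGreatest hn hy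
    have hm2 : m ≤ n := Nat.findGreatest_le n
    have hm3 : |y| ≤ 1 / (L : ℝ) ^ m := Nat.findGreatest_spec (P := fun m => |y| ≤ 1 / (L : ℝ) ^ m) hn hy
    have hBd := hp m hm1 hm2 w (by rw [hwp]; exact hm3)
    rcases eq_or_lt_of_le hm2 with h | h
    · rw [← h]
      have : 0 ≤ (Real.pi / 2 + 1 / 10) * Y := by positivity
      linarith
    · have hng : ¬ (|y| ≤ 1 / (L : ℝ) ^ (m + 1)) :=
        Nat.findGreatest_is_greatest (P := fun m => |y| ≤ 1 / (L : ℝ) ^ m) (n := n) (k := m + 1)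
          (by rw [← hm]; omega) (by omega)
      rw [not_le, div_lt_iff₀ (by positivity)] at hng
      obtain ⟨k, hk⟩ : ∃ k, n = m + 1 + k := ⟨n - (m + 1), by omega⟩
      have hYk : (6 : ℝ) ^ k ≤ Y := by
        have : Y = (|y| * (L : ℝ) ^ (m + 1)) * (L : ℝ) ^ k := by
          rw [hY, hk, pow_add _ (m + 1) k]; ring
        rw [this]
        calc (6 : ℝ) ^ k = 1 * 6 ^ k := by ring
          _ ≤ (|y| * (L : ℝ) ^ (m + 1)) * (L : ℝ) ^ k := by gcongr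
      have hg := growth_iter α hα L (by omega) z m (1 + k) w
      have hmk : m + (1 + k) = n := by omega
      have hl := hlin m (1 + k) hmk
      rw [hmk] at hg hl
      have h3 : (2 : ℝ) ^ (1 + k) * (Real.log (1 + ‖Z α L z m w‖) + 1) ≤ 2 * (K + 1) * 2 ^ k := by
        rw [pow_add, pow_one]
        calc (2 : ℝ) * 2 ^ k * (Real.log (1 + ‖Z α L z m w‖) + 1) ≤ 2 * 2 ^ k * (K + 1) := by gcongr
          _ = _ := by ring
      have h4 := h1 k
      nlinarith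
  · rw [not_le, div_lt_iff₀ (by positivity)] at hy
    obtain ⟨k, hk⟩ : ∃ k, n = n₁ + k := ⟨n - n₁, by omega⟩
    have hYk : (6 : ℝ) ^ k ≤ Y := by
      have : Y = (|y| * (L : ℝ) ^ n₁) * (L : ℝ) ^ k := by
        rw [hY, hk, pow_add _ n₁ k]; ring
      rw [this]
      calc (6 : ℝ) ^ k = 1 * 6 ^ k := by ring
        _ ≤ (|y| * (L : ℝ) ^ n₁) * (L : ℝ) ^ k := by gcongr
    have hg := growth_iter α hα L (by omega) z 0 n w
    have hl := hlin 0 n (by omega)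
    rw [zero_add] at hg hl
    have h3 : Z α L z 0 w = z := rfl
    rw [h3] at hg
    have h4 : (2 : ℝ) ^ n * (Real.log (1 + ‖z‖) + 1) = 2 ^ n₁ * (Real.log (1 + ‖z‖) + 1) * 2 ^ k := by
      rw [hk, pow_add]; ring
    have h5 := h2 k
    nlinarith

/-- the reflected orbit -/
noncomputable def Zs (α : ℂ) (L : ℕ) (z : ℂ) (n : ℕ) (w : ℂ) : ℂ :=
  (starRingEnd ℂ) (Z α L z n ((starRingEnd ℂ) w))

theorem differentiable_Zs (α : ℂ) (L : ℕ) (z : ℂ) (n : ℕ) : Differentiable ℂ (Zs α L z n) := by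
  intro w
  have h1 : DifferentiableAt ℂ (Z α L z n) ((starRingEnd ℂ) w) := differentiable_Z α L z n _
  have h2 := h1.conj_conj
  rw [Complex.conj_conj] at h2
  exact h2

theorem norm_Zs (α : ℂ) (L : ℕ) (z : ℂ) (n : ℕ) (p y : ℝ) :
    ‖Zs α L z n (p + y * Complex.I)‖ = ‖Z α L z n (p + (-y : ℝ) * Complex.I)‖ := by
  unfold Zs
  rw [RCLike.norm_conj]
  congr 2
  simp

theorem Zs_real (α : ℂ) (L : ℕ) (z : ℂ) (n : ℕ) (p : ℝ) :
    Zs α L z n p = (starRingEnd ℂ) (Z α L z n p) := by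
  unfold Zs
  simp

end Kan
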